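import Pool.Agent.SVP.Tree4

/-!
The recursion `p → 2 k p + 1` inside a closed set of primes reaches `x/(log x)^A` of the numbers up
to `x`.
-/

set_option autoImplicit false

namespace Pool.Agent.SVP.Tree

open Finset

/-- the last step: counting the children up to `x = exp ((2 - ε) ℓ)` of the elements of the window
at `ℓ` -/
lemma count_ge {G R : Set ℕ} {c η : ℝ} (hG : Closed G c η) (hR : Down G (η ^ 2 / 32) R) (hc : 0 < c)
    (hη0 : 0 < η) (hη1 : η ≤ 1) {ℓ : ℝ} (hb : Big c η ℓ) :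
    c * Real.exp ((2 - η ^ 2 / 32) * ℓ) / (8 * ℓ) * mass R ℓ ((1 + η / 8) * ℓ) ≤
      ({N : ℕ | (N:ℝ) ≤ Real.exp ((2 - η ^ 2 / 32) * ℓ) ∧ N ∈ R}.ncard : ℝ) := by
  classical
  have hℓ := hb.pos
  set κ : ℝ := η / 8 with hκ
  set x : ℝ := Real.exp ((2 - η ^ 2 / 32) * ℓ) with hx
  have hη2 : η ^ 2 ≤ η := by nlinarith
  have hx8 : 8 ≤ x := hb.eight.trans (Real.exp_le_exp.2 (by nlinarith))
  have hxx : x ≤ Real.exp ℓ * Real.exp ℓ := by
    rw [hx, ← Real.exp_add]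
    apply Real.exp_le_exp.2
    have : 0 ≤ η ^ 2 / 32 * ℓ := by positivity
    linarith
  have hw : ∀ q ∈ win R ℓ ((1 + κ) * ℓ), q.Prime ∧ q ≠ 2 ∧ q ∈ G ∧ q ∈ R ∧ ℓ < Real.log q ∧
      Real.log q ≤ (1 + κ) * ℓ ∧ (0:ℝ) < q ∧ Real.exp ℓ < q := by
    intro q hq
    obtain ⟨h1, h2, h3, h4⟩ := mem_win.1 hq
    have h5 := hR.1 h2
    have h6 : (0:ℝ) < q := by exact_mod_cast h1
    exact ⟨(hG q h5).1, (hG q h5).2.1, h5, h2, h3, h4, h6, (Real.lt_log_iff_exp_lt h6).1 h3⟩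
  -- the children up to x
  set ks : ℕ → Finset ℕ := fun q => (Icc 1 ⌊(x - 1) / (2 * q)⌋₊).filter fun k => k ∈ TT G q with hks
  have hcount : ∀ q ∈ win R ℓ ((1 + κ) * ℓ), c * x / (8 * ℓ) * (1 / q) ≤ ((ks q).card : ℝ) := by
    intro q hq
    obtain ⟨hqp, hq2, hqG, _, h3, h4, h5, h6⟩ := hw q hq
    have hcl := (hG q hqG).2.2 ((x - 1) / (2 * q))
    have hK0 : 0 ≤ (x - 1) / (2 * (q:ℝ)) := div_nonneg (by linarith) (by linarith)
    have hpow : (q:ℝ) ^ (2 - η) = q * (q:ℝ) ^ (1 - η) := by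
      rw [show (2:ℝ) - η = 1 + (1 - η) by ring, Real.rpow_add h5, Real.rpow_one]
    have h7 : 8 * (q:ℝ) ^ (2 - η) ≤ x := by
      have h7 : (q:ℝ) ^ (2 - η) = Real.exp (Real.log q * (2 - η)) := Real.rpow_def_of_pos h5 _
      have h8 : Real.exp (Real.log q * (2 - η)) ≤ Real.exp ((1 + κ) * ℓ * (2 - η)) :=
        Real.exp_le_exp.2 (mul_le_mul_of_nonneg_right h4 (by linarith))
      calc 8 * (q:ℝ) ^ (2 - η) ≤ Real.exp (η * ℓ / 4) * Real.exp ((1 + κ) * ℓ * (2 - η)) := by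
            rw [h7]
            exact mul_le_mul hb.eight h8 (Real.exp_pos _).le (Real.exp_pos _).le
        _ = Real.exp (η * ℓ / 4 + (1 + κ) * ℓ * (2 - η)) := (Real.exp_add _ _).symm
        _ ≤ x := by
            rw [hx]
            apply Real.exp_le_exp.2
            have h9 : η / 4 + (1 + κ) * (2 - η) ≤ 2 - η ^ 2 / 32 := by rw [hκ]; nlinarith
            nlinarith
    have h8 : (q:ℝ) ^ (1 - η) ≤ (x - 1) / (2 * q) := by
      rw [le_div_iff₀ (by linarith)]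
      rw [hpow] at h7
      nlinarith
    have h9 : (x - 1) / (2 * (q:ℝ)) < 2 * ((q:ℝ) + 1) := by
      rw [div_lt_iff₀ (by linarith)]
      have : x < (q:ℝ) * q :=
        hxx.trans_lt (mul_lt_mul'' h6 h6 (Real.exp_pos _).le (Real.exp_pos _).le)
      nlinarith
    have h10 := hcl h8 h9
    have h11 : {k : ℕ | 1 ≤ k ∧ (k:ℝ) ≤ (x - 1) / (2 * q) ∧ ¬ q ∣ k ∧ 2 * k * q + 1 ∈ G} =
        (ks q : Set ℕ) := by
      ext k
      simp only [hks, TT, coe_filter, mem_Icc, Set.mem_ofPred_eq, Nat.le_floor_iff hK0]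
      tauto
    rw [h11, Set.ncard_coe_finset] at h10
    refine le_trans ?_ h10
    have hL := one_lt_log hqp hq2
    have h12 : x / (4 * q) ≤ (x - 1) / (2 * q) := by
      rw [div_le_div_iff₀ (by positivity) (by positivity)]
      nlinarith
    have h13 : Real.log q ≤ 2 * ℓ := h4.trans (by rw [hκ]; nlinarith)
    calc c * x / (8 * ℓ) * (1 / q) = c * (x / (4 * q)) / (2 * ℓ) := by field_simp; ring
      _ ≤ c * ((x - 1) / (2 * q)) / (2 * ℓ) := by gcongr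
      _ ≤ c * ((x - 1) / (2 * q)) / Real.log q :=
          div_le_div_of_nonneg_left (by positivity) (by linarith) h13
  have hsum : c * x / (8 * ℓ) * mass R ℓ ((1 + κ) * ℓ) ≤
      ((∑ q ∈ win R ℓ ((1 + κ) * ℓ), (ks q).card : ℕ) : ℝ) := by
    unfold mass
    rw [mul_sum]
    push_cast
    exact sum_le_sum hcount
  refine hsum.trans ?_
  rw [← card_sigma]
  have hbound : ∀ q ∈ win R ℓ ((1 + κ) * ℓ), ∀ k ∈ ks q, 1 ≤ k ∧ ¬ q ∣ k ∧ 2 * k * q + 1 ∈ G ∧
      ((2 * k * q + 1 : ℕ) : ℝ) ≤ x := by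
    intro q hq k hk
    obtain ⟨_, _, _, _, _, _, h5, _⟩ := hw q hq
    simp only [hks, TT, mem_filter, mem_Icc, Set.mem_ofPred_eq] at hk
    obtain ⟨⟨h1, h2⟩, h3, h4⟩ := hk
    refine ⟨h1, h3, h4, ?_⟩
    have h7 : k ≠ 0 := by omega
    have h6 : (k:ℝ) ≤ (x - 1) / (2 * q) := (Nat.le_floor_iff' h7).1 h2
    rw [le_div_iff₀ (by positivity)] at h6
    push_cast
    linarith
  have hinj : Set.InjOn (fun y : (_ : ℕ) × ℕ => 2 * y.2 * y.1 + 1)
      ((win R ℓ ((1 + κ) * ℓ)).sigma ks : Finset ((_ : ℕ) × ℕ)) := by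
    rintro ⟨q, k⟩ hy ⟨q', k'⟩ hy' heq
    simp only [coe_sigma, Set.mem_sigma_iff, mem_coe] at hy hy'
    obtain ⟨hqp, _, _, _, _, _, hq0, hqe⟩ := hw q hy.1
    obtain ⟨hqp', _, _, _, _, _, hq0', hqe'⟩ := hw q' hy'.1
    obtain ⟨h1, h2, h3, h5⟩ := hbound q hy.1 k hy.2
    simp only at heq
    have hbig : 2 * k * q + 1 < q * q' := by
      have h7 : ((2 * k * q + 1 : ℕ) : ℝ) < (q:ℝ) * q' := by
        calc ((2 * k * q + 1 : ℕ) : ℝ) ≤ x := h5
          _ ≤ Real.exp ℓ * Real.exp ℓ := hxx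
          _ < (q:ℝ) * q' := mul_lt_mul'' hqe hqe' (Real.exp_pos _).le (Real.exp_pos _).le
      exact_mod_cast h7
    obtain ⟨h6, h7⟩ := inj_children hqp hqp' h1 heq hbig
    subst h6; subst h7; rfl
  rw [← card_image_of_injOn hinj, ← Set.ncard_coe_finset]
  have hfin : {N : ℕ | (N:ℝ) ≤ x ∧ N ∈ R}.Finite := by
    refine (Set.finite_Iic ⌊x⌋₊).subset fun N hN => ?_
    exact Nat.le_floor hN.1
  have hle : ((((win R ℓ ((1 + κ) * ℓ)).sigma ks).image
      fun y : (_ : ℕ) × ℕ => 2 * y.2 * y.1 + 1 : Finset ℕ) : Set ℕ).ncard ≤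
      {N : ℕ | (N:ℝ) ≤ x ∧ N ∈ R}.ncard := by
    apply Set.ncard_le_ncard ?_ hfin
    intro N hN
    simp only [coe_image, Set.mem_image, mem_coe, mem_sigma] at hN
    obtain ⟨⟨q, k⟩, ⟨hq, hk⟩, rfl⟩ := hN
    obtain ⟨_, _, _, hqR, _, _, _, hqe⟩ := hw q hq
    obtain ⟨h1, h2, h3, h5⟩ := hbound q hq k hk
    exact ⟨h5, hR.2 q hqR k h1 (k_small (by nlinarith) hqe h5) h2 h3⟩
  exact_mod_cast hle

/-- the set of the numbers reached from `p` -/
def Reach (G : Set ℕ) (ε : ℝ) (p : ℕ) : Set ℕ := {N | Relation.ReflTransGen (Step G ε) p N}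

lemma down_reach {G : Set ℕ} (ε : ℝ) {p : ℕ} (hp : p ∈ G) : Down G ε (Reach G ε p) := by
  constructor
  · intro N hN
    induction hN with
    | refl => exact hp
    | tail _ h _ => exact h.1
  · intro q hq k h1 h2 h3 h4
    exact Relation.ReflTransGen.tail hq ⟨h4, k, h1, h2, h3, rfl⟩

lemma exists_child {G : Set ℕ} {c η ε : ℝ} (hG : Closed G c η) (hc : 0 < c) (hη0 : 0 < η)
    (hε : ε ≤ η) {p : ℕ} (hp : p ∈ G) : ∃ N, Step G ε p N ∧ 2 * p + 1 ≤ N ∧ N ≤ (2 * p + 1) ^ 2 := by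
  obtain ⟨hpp, hp2, hcl⟩ := hG p hp
  have hL := one_lt_log hpp hp2
  have hp1 : (1:ℝ) ≤ p := by exact_mod_cast hpp.one_lt.le
  have h1 : (p:ℝ) ^ (1 - η) ≤ p := by
    have : (p:ℝ) ^ (1 - η) ≤ (p:ℝ) ^ (1:ℝ) := Real.rpow_le_rpow_of_exponent_le hp1 (by linarith)
    rwa [Real.rpow_one] at this
  have h2 := hcl ((p:ℝ) ^ (1 - η)) le_rfl (by linarith)
  have h3 : (0:ℝ) < c * (p:ℝ) ^ (1 - η) / Real.log p := by
    have := Real.rpow_pos_of_pos (by linarith : (0:ℝ) < p) (1 - η)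
    positivity
  have h4 : 0 < {k : ℕ | 1 ≤ k ∧ (k:ℝ) ≤ (p:ℝ) ^ (1 - η) ∧ ¬ p ∣ k ∧ 2 * k * p + 1 ∈ G}.ncard := by
    have := h3.trans_le h2
    exact_mod_cast this
  obtain ⟨k, hk1, hk2, hk3, hk4⟩ := Set.nonempty_of_ncard_ne_zero h4.ne'
  have hk5 : k ≤ p := by exact_mod_cast hk2.trans h1
  have hk6 : (k:ℝ) ≤ (p:ℝ) ^ (1 - ε) :=
    hk2.trans (Real.rpow_le_rpow_of_exponent_le hp1 (by linarith))
  refine ⟨2 * k * p + 1, ⟨hk4, k, hk1, hk6, hk3, rfl⟩, ?_, ?_⟩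
  · have : p ≤ k * p := Nat.le_mul_of_pos_left p hk1
    nlinarith
  · nlinarith

lemma exists_large {G : Set ℕ} {c η ε : ℝ} (hG : Closed G c η) (hc : 0 < c) (hη0 : 0 < η)
    (hε : ε ≤ η) (M : ℕ) :
    ∀ d p : ℕ, p ∈ G → M ≤ p + d → ∃ N ∈ Reach G ε p, M ≤ N ∧ (N = p ∨ N ≤ (2 * M + 1) ^ 2) := by
  intro d
  induction d with
  | zero => exact fun p _ h => ⟨p, Relation.ReflTransGen.refl, by simpa using h, Or.inl rfl⟩
  | succ d ih =>
    intro p hp h
    by_cases hM : M ≤ p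
    · exact ⟨p, Relation.ReflTransGen.refl, hM, Or.inl rfl⟩
    push Not at hM
    obtain ⟨N, hN1, hN2, hN3⟩ := exists_child hG hc hη0 hε hp
    obtain ⟨N', h1, h2, h3⟩ := ih N hN1.1 (by omega)
    refine ⟨N', Relation.ReflTransGen.head hN1 h1, h2, Or.inr ?_⟩
    rcases h3 with rfl | h3
    · refine hN3.trans ?_
      have : 2 * p + 1 ≤ 2 * M + 1 := by omega
      exact Nat.pow_le_pow_left this 2
    · exact h3

lemma Closed.mono {G : Set ℕ} {c η : ℝ} (hG : Closed G c η) :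
    Closed G (min c 1) (min η 1) := by
  intro q hq
  obtain ⟨h1, h2, h3⟩ := hG q hq
  have hL := one_lt_log h1 h2
  have hq1 : (1:ℝ) ≤ q := by exact_mod_cast h1.one_lt.le
  refine ⟨h1, h2, fun K hK hK2 => ?_⟩
  have h4 : (q:ℝ) ^ (1 - η) ≤ (q:ℝ) ^ (1 - min η 1) :=
    Real.rpow_le_rpow_of_exponent_le hq1 (by linarith [min_le_left η 1])
  have hK0 : 0 ≤ K := le_trans (Real.rpow_nonneg (by linarith) _) hK
  refine le_trans ?_ (h3 K (h4.trans hK) hK2)
  have := min_le_left c 1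
  gcongr

/-- **Density of the recursion.** From every prime of a closed set the recursion with the steps
`q → 2 k q + 1`, `k ≤ q^(1-ε)`, reaches at least `x/(p^B (log x)^A)` numbers (primes of `G`) up to
`x`, for every `x ≥ p^B`. -/
theorem tree_density {G : Set ℕ} {c η : ℝ} (hG : Closed G c η) (hc : 0 < c) (hη : 0 < η) :
    ∃ A B ε : ℝ, 0 < A ∧ 0 < B ∧ 0 < ε ∧ ∀ p ∈ G, ∀ x : ℝ, (p:ℝ) ^ B ≤ x →
      x / ((p:ℝ) ^ B * (Real.log x) ^ A) ≤
        ({N : ℕ | (N:ℝ) ≤ x ∧ Relation.ReflTransGen (Step G ε) p N}.ncard : ℝ) := by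
  have hG' := hG.mono
  set c' : ℝ := min c 1 with hc'
  set η' : ℝ := min η 1 with hη'
  have hc0 : 0 < c' := lt_min hc one_pos
  have hc1 : c' ≤ 1 := min_le_right _ _
  have hη0 : 0 < η' := lt_min hη one_pos
  have hη1 : η' ≤ 1 := min_le_right _ _
  obtain ⟨ℓ0, hb⟩ := exists_big c' η' hc0 hη0
  -- the thresholds
  set M : ℕ := ⌈Real.exp (2 * ℓ0 + 2)⌉₊ with hM
  set M1 : ℕ := (2 * M + 1) ^ 2 with hM1
  have hℓ0 := hb.pos
  have hMexp : Real.exp (2 * ℓ0 + 2) ≤ M := Nat.le_ceil _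
  have hMM1 : M ≤ M1 := by rw [hM1]; nlinarith
  have hM1' : Real.exp (2 * ℓ0 + 2) ≤ M1 := hMexp.trans (by exact_mod_cast hMM1)
  have hM1pos : (0:ℝ) < M1 := (Real.exp_pos _).trans_le hM1'
  have hlogM1 : 2 ≤ Real.log M1 := by
    rw [Real.le_log_iff_exp_le hM1pos]
    exact (Real.exp_le_exp.2 (by linarith)).trans hM1'
  obtain ⟨E, A, hE1, hA0, hmass⟩ := mass_ge hG' hc0 hc1 hη0 hη1
  have h8M : 0 ≤ Real.log (8 * M1 / c') := by
    apply Real.log_nonneg
    rw [le_div_iff₀ hc0]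
    have : (1:ℝ) ≤ M1 := (Real.one_le_exp (by linarith)).trans hM1'
    linarith
  set B : ℝ := 2 * E * Real.log M1 + Real.log (8 * M1 / c') + 1 with hB
  have hB1 : 2 * E * 2 ≤ 2 * E * Real.log M1 := mul_le_mul_of_nonneg_left hlogM1 (by linarith)
  have hB0 : 0 < B := by linarith
  set ε : ℝ := η' ^ 2 / 32 with hε
  have hε0 : 0 < ε := by positivity
  have hεη : ε ≤ η' := by rw [hε]; nlinarith
  refine ⟨A + 1, B, ε, by linarith, hB0, hε0, fun p hp x hx => ?_⟩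
  obtain ⟨N, hN, hMN, hNp⟩ := exists_large hG' hc0 hη0 hεη M M p hp (by omega)
  have hlogp := one_lt_log (hG p hp).1 (hG p hp).2.1
  have hp0 : (0:ℝ) < p := by exact_mod_cast (hG p hp).1.pos
  have hx0 : 0 < x := (Real.rpow_pos_of_pos hp0 _).trans_le hx
  have hlogx : B * Real.log p ≤ Real.log x := by
    rw [← Real.log_rpow hp0]
    exact Real.log_le_log (Real.rpow_pos_of_pos hp0 _) hx
  have hNM : Real.exp (2 * ℓ0 + 2) ≤ N := hMexp.trans (by exact_mod_cast hMN)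
  have hN0 : (0:ℝ) < N := (Real.exp_pos _).trans_le hNM
  have hlogN : 2 * ℓ0 + 2 ≤ Real.log N := (Real.le_log_iff_exp_le hN0).2 hNM
  have hBp : B ≤ B * Real.log p := by nlinarith
  -- the size of `x` against `N`
  have hclaim1 : 2 * E * Real.log N ≤ Real.log x := by
    rcases hNp with rfl | hNM1
    · refine le_trans ?_ hlogx
      exact mul_le_mul_of_nonneg_right (by linarith) (by linarith)
    · have h1 : Real.log N ≤ Real.log M1 := Real.log_le_log hN0 (by exact_mod_cast hNM1)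
      have h2 : 2 * E * Real.log N ≤ 2 * E * Real.log M1 := mul_le_mul_of_nonneg_left h1 (by linarith)
      linarith
  have hclaim2 : 8 * N / c' ≤ (p:ℝ) ^ B := by
    rw [← Real.log_le_log_iff (by positivity) (Real.rpow_pos_of_pos hp0 _), Real.log_rpow hp0]
    rcases hNp with rfl | hNM1
    · have h1 : Real.log (8 * N / c') ≤ Real.log N + Real.log (8 * M1 / c') := by
        rw [← Real.log_mul (by positivity) (by positivity)]
        apply Real.log_le_log (by positivity)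
        have : (1:ℝ) ≤ M1 := (Real.one_le_exp (by linarith)).trans hM1'
        have h2 : 8 * (N:ℝ) / c' = N * (8 * 1 / c') := by ring
        rw [h2]
        gcongr
      have h3 : (B - 1) ≤ (B - 1) * Real.log N := by nlinarith
      have h4 : B * Real.log N = (B - 1) * Real.log N + Real.log N := by ring
      have h5 : Real.log (8 * M1 / c') ≤ B - 1 := by
        have : 0 ≤ 2 * E * Real.log M1 := by positivity
        linarith
      linarith
    · have h1 : Real.log (8 * N / c') ≤ Real.log (8 * M1 / c') := by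
        apply Real.log_le_log (by positivity)
        have : (N:ℝ) ≤ M1 := by exact_mod_cast hNM1
        gcongr
      have : 0 ≤ 2 * E * Real.log M1 := by positivity
      linarith
  -- the count
  have h2ε : 1 ≤ 2 - ε := by linarith
  set ℓ : ℝ := Real.log x / (2 - ε) with hℓ
  have h2ℓ : Real.exp ((2 - ε) * ℓ) = x := by
    rw [hℓ, mul_div_cancel₀ _ (by linarith : (2:ℝ) - ε ≠ 0), Real.exp_log hx0]
  have hlN0 : 0 < Real.log N := by linarith
  have hEN : E * Real.log N ≤ ℓ := by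
    rw [hℓ, le_div_iff₀ (by linarith)]
    have : E * Real.log N * (2 - ε) ≤ E * Real.log N * 2 :=
      mul_le_mul_of_nonneg_left (by linarith) (by positivity)
    linarith
  have hℓN : Real.log N ≤ ℓ := le_trans (by nlinarith) hEN
  have hℓpos : 0 < ℓ := by linarith
  have hR := down_reach ε hp
  have h1 := hmass (Reach G ε p) hR ℓ0 hb N hN (by linarith) (by linarith) ℓ hEN
  have h2 := count_ge hG' hR hc0 hη0 hη1 (hb.mono hη0 (by linarith : ℓ0 ≤ ℓ))
  rw [h2ℓ] at h2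
  refine le_trans ?_ h2
  have hlx : 0 < Real.log x := by linarith
  have h3 : (Real.log x) ^ (-(A + 1)) ≤ ℓ ^ (-(A + 1)) := by
    apply Real.rpow_le_rpow_of_nonpos hℓpos
    · rw [hℓ]; exact div_le_self (by linarith) h2ε
    · linarith
  have h4 : 1 / (p:ℝ) ^ B ≤ c' / (8 * N) := by
    rw [div_le_div_iff₀ (Real.rpow_pos_of_pos hp0 _) (by positivity)]
    rw [div_le_iff₀ hc0] at hclaim2
    linarith
  calc x / ((p:ℝ) ^ B * (Real.log x) ^ (A + 1))
      = x * (1 / (p:ℝ) ^ B) * (Real.log x) ^ (-(A + 1)) := by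
        rw [Real.rpow_neg hlx.le]
        field_simp
    _ ≤ x * (c' / (8 * N)) * ℓ ^ (-(A + 1)) := by
        gcongr
    _ = c' * x / (8 * ℓ) * (1 / (N:ℝ) * ℓ ^ (-A)) := by
        have : ℓ ^ (-(A + 1)) = ℓ ^ (-A) * ℓ⁻¹ := by
          rw [show -(A + 1) = -A + (-1) by ring, Real.rpow_add hℓpos, Real.rpow_neg_one]
        rw [this]
        field_simp
    _ ≤ _ := by
        apply mul_le_mul_of_nonneg_left h1
        positivity

end Pool.Agent.SVP.Tree
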