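import Pool.Agent.SVP.FL0

set_option autoImplicit false

namespace Pool.Agent.SVP

open Finset hiding dens
open Pool.Agent.MP_f32cb9_nt (PI mem_PI sum_inv_PI sum_inv_PI_two dens chi GA HA WW VV Vb esy Wt ivl hit)

/-- [SVP-FL1] Proof. Put `s = E / 2^(i+1)`, `t = E / 2^i`; `t ≤ 2 s + 1` (`Nat.div_div_eq_div_mul`, `pow_succ`).
If `s = 0` then `t ≤ 1`, so `Bl E i` is empty (a prime `p ≠ 2` with `p ≤ 2`). Otherwise `t ≤ 3 s` and
`sum_inv_PI_two` gives `log (t / s) + 8 / s ≤ log 3 + 8 ≤ 10` (drop the term `2` by `sum_le_sum_of_subset_of_nonneg`). -/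
theorem Bl_sum (E i : ℕ) : ∑ p ∈ Bl E i, (1 : ℝ) / p ≤ 10 := by
  have hs_def : E / 2 ^ (i + 1) = E / 2 ^ i / 2 := by
    rw [pow_succ, Nat.div_div_eq_div_mul]
  have hst : E / 2 ^ (i + 1) ≤ E / 2 ^ i := by rw [hs_def]; exact Nat.div_le_self _ _
  have ht : E / 2 ^ i ≤ 2 * (E / 2 ^ (i + 1)) + 1 := by rw [hs_def]; omega
  rcases Nat.eq_zero_or_pos (E / 2 ^ (i + 1)) with h0 | hpos
  · have hempty : Bl E i = ∅ := by
      rw [Finset.eq_empty_iff_forall_notMem]
      intro p hp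
      rw [mem_Bl] at hp
      obtain ⟨h1, _, h3, h4⟩ := hp
      have ht1 : E / 2 ^ i ≤ 1 := by omega
      have h5 : (2 : ℕ) ^ (E / 2 ^ i) ≤ 2 ^ 1 := Nat.pow_le_pow_right (by norm_num) ht1
      have h6 := h4.two_le
      omega
    rw [hempty, Finset.sum_empty]
    norm_num
  · have h1 := sum_inv_PI_two hpos hst
    have hsub : ∑ p ∈ Bl E i, (1 : ℝ) / p ≤
        ∑ p ∈ PI (2 ^ (E / 2 ^ (i + 1))) (2 ^ (E / 2 ^ i)), (1 : ℝ) / p := by
      apply Finset.sum_le_sum_of_subset_of_nonneg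
      · exact Finset.erase_subset _ _
      · intro p _ _
        positivity
    refine hsub.trans (h1.trans ?_)
    set s := E / 2 ^ (i + 1) with hs
    set t := E / 2 ^ i with htd
    have hs1 : (1 : ℝ) ≤ s := by exact_mod_cast hpos
    have hs0 : (0 : ℝ) < s := by linarith
    have ht0 : (0 : ℝ) < t := by
      have : 0 < t := lt_of_lt_of_le hpos hst
      exact_mod_cast this
    have h3 : (t : ℝ) ≤ 3 * s := by
      have : t ≤ 3 * s := by omega
      exact_mod_cast this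
    have h4 : Real.log (t / s) ≤ t / s - 1 := Real.log_le_sub_one_of_pos (by positivity)
    have h5 : (t : ℝ) / s ≤ 3 := by
      rw [div_le_iff₀ hs0]
      exact h3
    have h6 : 8 / (s : ℝ) ≤ 8 := by
      rw [div_le_iff₀ hs0]
      linarith
    linarith

end Pool.Agent.SVP
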