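import Pool.Agent.SVP.FL0

set_option autoImplicit false

namespace Pool.Agent.SVP

open Finset hiding dens
open Pool.Agent.MP_f32cb9_nt (PI mem_PI sum_inv_PI sum_inv_PI_two dens chi GA HA WW VV Vb esy Wt ivl hit)

theorem sum_lev_aux (b m : ℕ) :
    ∑ i ∈ range m, (2 * ((b : ℝ) + i) + 1) / 2 ^ i = 4 * b + 6 - (4 * b + 4 * m + 6) / 2 ^ m := by
  induction m with
  | zero => simp
  | succ m ih =>
    rw [Finset.sum_range_succ, ih, pow_succ]
    have h2 : (2 : ℝ) ^ m ≠ 0 := by positivity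
    push_cast
    field_simp
    ring

/-- [SVP-FL4] Proof. `Wt_le` (Dens.lean) with `card = 1`: `Wt ≤ (1 + |Bl E i|)^k`; `Bl E i ⊆ Ioc 1 (2^(E/2^i))` minus `2`: so
`1 + |Bl E i| ≤ 2^(E / 2^i)` (`Bl E i` is contained in `Icc 2 (2^s)` without one more element; if `s = E/2^i = 0` it is empty).
Then `∏_{i<m} 2^((E/2^i)(2(b+i)+1)) ≤ 2^(E(4b+6))` since `∑_{i<m} (E/2^i)(2b+2i+1) ≤ E ∑ (2b+1+2i)/2^i ≤ E (4b+6)`
(prove by induction on `m` the stronger `∑_{i<m} (2b+1+2i)/2^i ≤ 4b+6 - (4b+2m.. )/2^..` in reals). -/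
theorem WW_Bl {E : ℕ} {R : ℕ → Finset ℕ} (hR : One E R) (b m : ℕ) :
    WW R (Bl E) (fun i => b + i) m ≤ (2 : ℝ) ^ (E * (4 * b + 6)) := by
  have hblk : ∀ i : ℕ, Wt R (2 * (b + i) + 1) (Bl E i) ≤ (2 : ℝ) ^ ((E / 2 ^ i) * (2 * (b + i) + 1)) := by
    intro i
    refine (Pool.Agent.MP_f32cb9_nt.Wt_le R _ _).trans ?_
    have hle : E / 2 ^ i ≤ E := Nat.div_le_self _ _
    have h1 : ∑ p ∈ Bl E i, ((R p).card : ℝ) = (Bl E i).card := by
      rw [Finset.card_eq_sum_ones]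
      push_cast
      refine Finset.sum_congr rfl fun p hp => ?_
      obtain ⟨hp2, _, hpu, hpp⟩ := mem_Bl.1 hp
      rw [(hR p hpp hp2 (hpu.trans (Nat.pow_le_pow_right (by norm_num) hle))).1]
      norm_num
    have hsub : Bl E i ⊆ Icc 2 (2 ^ (E / 2 ^ i)) := by
      intro p hp
      obtain ⟨_, _, hpu, hpp⟩ := mem_Bl.1 hp
      exact Finset.mem_Icc.2 ⟨hpp.two_le, hpu⟩
    have hc := Finset.card_le_card hsub
    rw [Nat.card_Icc] at hc
    have hpos : 1 ≤ 2 ^ (E / 2 ^ i) := Nat.one_le_two_pow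
    have hc' : 1 + (Bl E i).card ≤ 2 ^ (E / 2 ^ i) := by omega
    have hc'' : (1 : ℝ) + ((Bl E i).card : ℝ) ≤ 2 ^ (E / 2 ^ i) := by exact_mod_cast hc'
    rw [h1, pow_mul]
    exact pow_le_pow_left₀ (by positivity) hc'' _
  have hsum : ∑ i ∈ range m, (E / 2 ^ i) * (2 * (b + i) + 1) ≤ E * (4 * b + 6) := by
    have h3 : ((∑ i ∈ range m, (E / 2 ^ i) * (2 * (b + i) + 1) : ℕ) : ℝ) ≤ ((E * (4 * b + 6) : ℕ) : ℝ) := by
      push_cast
      calc ∑ i ∈ range m, ((E / 2 ^ i : ℕ) : ℝ) * (2 * ((b : ℝ) + i) + 1)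
          ≤ ∑ i ∈ range m, (E : ℝ) * ((2 * ((b : ℝ) + i) + 1) / 2 ^ i) := by
            refine Finset.sum_le_sum fun i _ => ?_
            have h4 : ((E / 2 ^ i : ℕ) : ℝ) ≤ (E : ℝ) / 2 ^ i := by
              have := @Nat.cast_div_le ℝ _ _ _ E (2 ^ i)
              simpa using this
            calc ((E / 2 ^ i : ℕ) : ℝ) * (2 * ((b : ℝ) + i) + 1)
                ≤ ((E : ℝ) / 2 ^ i) * (2 * ((b : ℝ) + i) + 1) :=
                  mul_le_mul_of_nonneg_right h4 (by positivity)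
              _ = _ := by ring
        _ = (E : ℝ) * ∑ i ∈ range m, (2 * ((b : ℝ) + i) + 1) / 2 ^ i := by rw [Finset.mul_sum]
        _ ≤ (E : ℝ) * (4 * b + 6) := by
            refine mul_le_mul_of_nonneg_left ?_ (Nat.cast_nonneg _)
            rw [sum_lev_aux]
            have : (0 : ℝ) ≤ (4 * (b : ℝ) + 4 * m + 6) / 2 ^ m := by positivity
            linarith
    exact_mod_cast h3
  unfold WW
  calc ∏ i ∈ range m, Wt R (2 * (b + i) + 1) (Bl E i)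
      ≤ ∏ i ∈ range m, (2 : ℝ) ^ ((E / 2 ^ i) * (2 * (b + i) + 1)) :=
        Finset.prod_le_prod (fun i _ => Pool.Agent.MP_f32cb9_nt.Wt_nonneg _ _ _) fun i _ => hblk i
    _ = (2 : ℝ) ^ (∑ i ∈ range m, (E / 2 ^ i) * (2 * (b + i) + 1)) := by
        rw [Finset.prod_pow_eq_pow_sum]
    _ ≤ _ := pow_le_pow_right₀ (by norm_num) hsum

end Pool.Agent.SVP
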