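import Pool.Agent.SVP.GB

set_option autoImplicit false

namespace Pool.Agent.SVP

open Finset

/-- the products of two primes above `L` -/
def Gap (L : ℝ) (n : ℕ) : Prop := ∃ q q' : ℕ, q.Prime ∧ q'.Prime ∧ q < q' ∧ n = q * q' ∧ L < (q : ℝ)

noncomputable instance Gap.dec (L : ℝ) (n : ℕ) : Decidable (Gap L n) := Classical.dec _

/-- squarefree, `Z`-rough integers of `(W₁, W₂]` -/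
noncomputable def SF (Z W₁ W₂ : ℕ) : Finset ℕ := (Ioc W₁ W₂).filter (fun n => Squarefree n ∧ Rg Z n)

/-- the combinatorial inequality (block NUM) -/
def CombH : Prop := ∃ e₀ : ℝ, 0 < e₀ ∧ ∀ e : ℝ, 0 < e → e ≤ e₀ → ∃ X0 : ℝ, 2 ≤ X0 ∧ ∀ X : ℝ, X0 ≤ X →
  ∀ n : ℕ, X ^ (2 - e / 4) ≤ n → (n : ℝ) ≤ X ^ 2 → Squarefree n → Rg (ZZ X) n →
    Gw X (ZZ X) (X ^ (1 - e)) n ≤ (if n.Prime then 1 else 0) + (if Gap (X ^ (1 - e)) n then 1 else 0)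

/-- the main term, weight one: at every scale `Y` there is a window of constant ratio -/
def NumH : Prop := ∃ c₀ e₀ A : ℝ, 0 < c₀ ∧ 0 < e₀ ∧ 1 ≤ A ∧ ∀ e : ℝ, 0 < e → e ≤ e₀ → ∃ X0 : ℝ, 2 ≤ X0 ∧ ∀ X : ℝ, X0 ≤ X →
  ∀ Y : ℝ, X ^ (2 - e / 8) ≤ Y → Y ≤ X ^ 2 → ∃ W₁ W₂ : ℕ, Y / A ≤ W₁ ∧ W₁ ≤ W₂ ∧ (W₂ : ℝ) ≤ Y ∧ 2 * W₂ ≤ 3 * W₁ ∧
    c₀ * Y / Real.log X ≤ ∑ n ∈ SF (ZZ X) W₁ W₂, Gw X (ZZ X) (X ^ (1 - e)) n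

/-- the number of the gap semiprimes in the class 1 mod p (block GAP, GPX.gap_card) -/
def GapH : Prop := ∀ e : ℝ, 0 < e → e ≤ 1 / 20 → ∃ X0 : ℝ, 2 ≤ X0 ∧ ∀ X : ℝ, X0 ≤ X → ∀ p : ℕ, p.Prime → X < p → (p : ℝ) ≤ 2 * X →
  ∀ W₁ W₂ : ℕ, 1 ≤ W₁ → W₁ ≤ W₂ → 2 * W₂ ≤ 3 * W₁ → (W₂ : ℝ) ≤ X ^ 2 →
    (((AA p W₁ W₂).filter (fun n => Gap (X ^ (1 - e)) n)).card : ℝ) ≤ 80000 * e * (W₂ / (p * Real.log X))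

end Pool.Agent.SVP
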