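import Pool.Agent.NUM.N1w
import Pool.Agent.SVP.Num

/-!
# [SVP-Br] bridge between the divisor form of the sieve weight and `NUM.G`
-/

set_option autoImplicit false

namespace Pool.Agent.SVP

open Finset

/-- the divisors of a squarefree number with one prime factor -/
theorem div_one {n : ℕ} (hn : Squarefree n) :
    n.divisors.filter (fun m => m.primeFactors.card = 1) = n.primeFactors := by
  ext m
  rw [Finset.mem_filter, Nat.mem_divisors]
  constructor
  · rintro ⟨⟨hm, _⟩, hc⟩
    have hsq : Squarefree m := hn.squarefree_of_dvd hm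
    obtain ⟨q, hq⟩ := Finset.card_eq_one.1 hc
    have hqp : q.Prime := Nat.prime_of_mem_primeFactors (by rw [hq]; exact Finset.mem_singleton_self q)
    have hmq : m = q := by
      have := Nat.prod_primeFactors_of_squarefree hsq
      rw [hq, Finset.prod_singleton] at this
      exact this.symm
    rw [hmq] at hm ⊢
    exact Nat.mem_primeFactors.2 ⟨hqp, hm, hn.ne_zero⟩
  · intro hm
    have hp := Nat.prime_of_mem_primeFactors hm
    refine ⟨⟨Nat.dvd_of_mem_primeFactors hm, hn.ne_zero⟩, ?_⟩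
    rw [hp.primeFactors, Finset.card_singleton]

/-- sum over the divisors of a squarefree number with two prime factors -/
theorem sum_div_two {n : ℕ} (hn : Squarefree n) (f : ℕ → ℝ) :
    ∑ m ∈ n.divisors.filter (fun m => m.primeFactors.card = 2), f m =
      ∑ q ∈ n.primeFactors, ∑ q' ∈ n.primeFactors, (if q < q' then f (q * q') else 0) := by
  classical
  rw [← Finset.sum_product', ← Finset.sum_filter]
  symm
  refine Finset.sum_nbij (fun c => c.1 * c.2) ?_ ?_ ?_ (fun _ _ => rfl)
  · rintro ⟨q, q'⟩ h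
    rw [Finset.mem_filter, Finset.mem_product] at h
    obtain ⟨⟨hq, hq'⟩, hlt⟩ := h
    simp only at hq hq' hlt
    have hp := Nat.prime_of_mem_primeFactors hq
    have hp' := Nat.prime_of_mem_primeFactors hq'
    have hc : Nat.Coprime q q' := (Nat.coprime_primes hp hp').2 hlt.ne
    rw [Finset.mem_filter, Nat.mem_divisors]
    refine ⟨⟨hc.mul_dvd_of_dvd_of_dvd (Nat.dvd_of_mem_primeFactors hq) (Nat.dvd_of_mem_primeFactors hq'), hn.ne_zero⟩, ?_⟩
    show (q * q').primeFactors.card = 2
    rw [Nat.primeFactors_mul hp.ne_zero hp'.ne_zero, hp.primeFactors, hp'.primeFactors]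
    exact Finset.card_pair hlt.ne
  · rintro ⟨q, q'⟩ h ⟨r, r'⟩ h' heq
    simp only [Finset.coe_filter, Finset.mem_product, Set.mem_ofPred_eq] at h h'
    obtain ⟨⟨hq, hq'⟩, hlt⟩ := h
    obtain ⟨⟨hr, hr'⟩, hlt'⟩ := h'
    have hp := Nat.prime_of_mem_primeFactors hq
    have hp' := Nat.prime_of_mem_primeFactors hq'
    have hpr := Nat.prime_of_mem_primeFactors hr
    have hpr' := Nat.prime_of_mem_primeFactors hr'
    have heq' : q * q' = r * r' := heq
    have hS : ({q, q'} : Finset ℕ) = {r, r'} := by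
      have h1 : (q * q').primeFactors = {q, q'} := by
        rw [Nat.primeFactors_mul hp.ne_zero hp'.ne_zero, hp.primeFactors, hp'.primeFactors]; rfl
      have h2 : (r * r').primeFactors = {r, r'} := by
        rw [Nat.primeFactors_mul hpr.ne_zero hpr'.ne_zero, hpr.primeFactors, hpr'.primeFactors]; rfl
      rw [← h1, ← h2, heq']
    have a1 : q ∈ ({r, r'} : Finset ℕ) := by rw [← hS]; simp
    have a2 : q' ∈ ({r, r'} : Finset ℕ) := by rw [← hS]; simp
    have a3 : r ∈ ({q, q'} : Finset ℕ) := by rw [hS]; simp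
    rw [Finset.mem_insert, Finset.mem_singleton] at a1 a2 a3
    have e1 : q = r := by omega
    have e2 : q' = r' := by omega
    rw [e1, e2]
  · intro m hm
    simp only [Finset.coe_filter, Set.mem_ofPred_eq, Nat.mem_divisors] at hm
    obtain ⟨⟨hmn, _⟩, hc⟩ := hm
    have hsq : Squarefree m := hn.squarefree_of_dvd hmn
    obtain ⟨a, b, hab, hS⟩ : ∃ a b : ℕ, a < b ∧ m.primeFactors = {a, b} := by
      obtain ⟨a, b, hne, hS⟩ := Finset.card_eq_two.mp hc
      rcases lt_or_gt_of_ne hne with h | h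
      · exact ⟨a, b, h, hS⟩
      · exact ⟨b, a, h, by rw [hS, Finset.pair_comm]⟩
    have hma : a ∈ m.primeFactors := by rw [hS]; simp
    have hmb : b ∈ m.primeFactors := by rw [hS]; simp
    have hsub := Nat.primeFactors_mono hmn hn.ne_zero
    refine ⟨(a, b), ?_, ?_⟩
    · simp only [Finset.coe_filter, Finset.mem_product, Set.mem_ofPred_eq]
      exact ⟨⟨hsub hma, hsub hmb⟩, hab⟩
    · have := Nat.prod_primeFactors_of_squarefree hsq
      rw [hS, Finset.prod_pair hab.ne] at this
      exact this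

/-- on squarefree rough numbers the two forms of the sieve weight agree -/
theorem Gw_eq_G {X e : ℝ} (hX : 1 < X) (he : e ≤ 1) {n : ℕ} (hn : Squarefree n) (hr : Rg (ZZ X) n) :
    Gw X (ZZ X) (X ^ (1 - e)) n = NUM.G X e n := by
  classical
  have hL : (1 : ℝ) ≤ X ^ (1 - e) := Real.one_le_rpow hX.le (by linarith)
  have hgw : ∀ m ∈ n.divisors, gw X (ZZ X) (X ^ (1 - e)) m =
      (if m.primeFactors.card = 0 then (1 : ℝ) else 0) +
      (if m.primeFactors.card = 1 then (if (m : ℝ) ≤ X ^ (1 - e) then (-1 : ℝ) else 0) else 0) +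
      (if m.primeFactors.card = 2 then (if (m : ℝ) ≤ X ^ (1 - e) then psi X m else 0) else 0) := by
    intro m hm
    rw [Nat.mem_divisors] at hm
    have hsq : Squarefree m := hn.squarefree_of_dvd hm.1
    have hrm : Rg (ZZ X) m := fun q hq hqm => hr q hq (hqm.trans hm.1)
    unfold gw
    by_cases h0 : m.primeFactors.card = 0
    · have hm1 : m = 1 := by
        have h1 := Nat.prod_primeFactors_of_squarefree hsq
        rw [Finset.card_eq_zero.1 h0, Finset.prod_empty] at h1
        exact h1.symm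
      rw [if_pos h0, if_pos ⟨hsq, hrm, by rw [hm1]; simpa using hL⟩, if_pos h0, if_neg (by omega), if_neg (by omega)]
      ring
    · by_cases h1 : m.primeFactors.card = 1
      · rw [if_neg h0, if_pos h1, if_neg (by omega : ¬ m.primeFactors.card = 2), if_neg h0, if_pos h1]
        by_cases h3 : (m : ℝ) ≤ X ^ (1 - e)
        · rw [if_pos ⟨hsq, hrm, h3⟩, if_pos h3]; ring
        · rw [if_neg (fun h => h3 h.2.2), if_neg h3]; ring
      · by_cases h2 : m.primeFactors.card = 2
        · rw [if_neg h0, if_neg h1, if_pos h2, if_neg h0, if_neg h1, if_pos h2]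
          by_cases h3 : (m : ℝ) ≤ X ^ (1 - e)
          · rw [if_pos ⟨hsq, hrm, h3⟩, if_pos h3]; ring
          · rw [if_neg (fun h => h3 h.2.2), if_neg h3]; ring
        · rw [if_neg h0, if_neg h1, if_neg h2, if_neg h0, if_neg h1, if_neg h2]
          simp
  unfold Gw
  rw [Finset.sum_congr rfl hgw, Finset.sum_add_distrib, Finset.sum_add_distrib,
    ← Finset.sum_filter (fun m : ℕ => m.primeFactors.card = 0),
    ← Finset.sum_filter (fun m : ℕ => m.primeFactors.card = 1),
    ← Finset.sum_filter (fun m : ℕ => m.primeFactors.card = 2), div_one hn, sum_div_two hn]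
  have h0 : n.divisors.filter (fun m => m.primeFactors.card = 0) = {1} := by
    ext m
    rw [Finset.mem_filter, Nat.mem_divisors, Finset.mem_singleton]
    constructor
    · rintro ⟨⟨hm, _⟩, hc⟩
      have h1 := Nat.prod_primeFactors_of_squarefree (hn.squarefree_of_dvd hm)
      rw [Finset.card_eq_zero.1 hc, Finset.prod_empty] at h1
      exact h1.symm
    · rintro rfl
      exact ⟨⟨one_dvd n, hn.ne_zero⟩, by simp⟩
  rw [h0, Finset.sum_singleton]
  unfold NUM.G
  have h1 : ∑ q ∈ n.primeFactors, (if (q : ℝ) ≤ X ^ (1 - e) then (-1 : ℝ) else 0) =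
      -∑ q ∈ n.primeFactors, (if (q : ℝ) ≤ X ^ (1 - e) then (1 : ℝ) else 0) := by
    rw [← Finset.sum_neg_distrib]
    refine Finset.sum_congr rfl (fun q _ => ?_)
    split_ifs <;> simp
  rw [h1]
  have h2 : ∀ q ∈ n.primeFactors, ∀ q' ∈ n.primeFactors,
      (if q < q' then (if ((q * q' : ℕ) : ℝ) ≤ X ^ (1 - e) then psi X (q * q') else 0) else 0) =
      (if q < q' ∧ ((q * q' : ℕ) : ℝ) ≤ X ^ (1 - e) then NUM.psi X (q * q') else 0) := by
    intro q _ q' _
    by_cases ha : q < q'
    · by_cases hb : ((q * q' : ℕ) : ℝ) ≤ X ^ (1 - e)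
      · rw [if_pos ha, if_pos hb, if_pos ⟨ha, hb⟩]
        rfl
      · rw [if_pos ha, if_neg hb, if_neg (fun h => hb h.2)]
    · rw [if_neg ha, if_neg (fun h => ha h.1)]
  rw [Finset.sum_congr rfl (fun q hq => Finset.sum_congr rfl (fun q' hq' => h2 q hq q' hq'))]
  ring

theorem Rough_iff {X : ℝ} (hX : 1 < X) {n : ℕ} (hn : n ≠ 0) : Rg (ZZ X) n ↔ NUM.Rough X NUM.a0 n := by
  rw [Rg_ZZ hX]
  unfold NUM.Rough NUM.a0
  constructor
  · intro h q hq
    exact h q (Nat.prime_of_mem_primeFactors hq) (Nat.dvd_of_mem_primeFactors hq)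
  · intro h q hq hqn
    exact h q (Nat.mem_primeFactors.2 ⟨hq, hqn, hn⟩)

theorem gap_eq (X e : ℝ) (n : ℕ) : (if Gap (X ^ (1 - e)) n then (1 : ℝ) else 0) = NUM.gapI X e n := by
  unfold NUM.gapI
  by_cases h : Gap (X ^ (1 - e)) n
  · rw [if_pos h, if_pos (show NUM.Gap X e n from h)]
  · rw [if_neg h, if_neg (show ¬ NUM.Gap X e n from h)]

/-- the combinatorial inequality -/
theorem combH : CombH := by
  refine ⟨1 / 25000, by norm_num, fun e he he' => ⟨2, le_rfl, fun X hX n h1 h2 hs hr => ?_⟩⟩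
  have hX1 : 1 < X := by linarith
  rw [Gw_eq_G hX1 (by linarith) hs hr, gap_eq]
  refine NUM.G_le hX1 he he' (lt_of_lt_of_le ?_ h1) ?_ hs ((Rough_iff hX1 hs.ne_zero).1 hr)
  · exact Real.rpow_lt_rpow_of_exponent_lt hX1 (by linarith)
  · rw [Real.rpow_two]; exact h2

/-- the set `SF` in terms of `Rough` -/
theorem SF_eq {X : ℝ} (hX : 1 < X) (V W : ℕ) [DecidablePred (fun n => Squarefree n ∧ NUM.Rough X NUM.a0 n)] :
    SF (ZZ X) V W = (Ioc V W).filter (fun n => Squarefree n ∧ NUM.Rough X NUM.a0 n) := by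
  ext n
  unfold SF
  rw [Finset.mem_filter, Finset.mem_filter]
  refine and_congr_right (fun _ => and_congr_right (fun hs => ?_))
  exact Rough_iff hX hs.ne_zero

/-- the main term with weight one -/
theorem numH : NumH := by
  obtain ⟨c, A, hc, hA, H⟩ := NUM.num1
  refine ⟨c, 1 / 25000, A, hc, by norm_num, hA, fun e he he' => ?_⟩
  obtain ⟨X0, hX0, H'⟩ := H e he he'
  refine ⟨X0, hX0, fun X hX Y hY1 hY2 => ?_⟩
  classical
  have hX1 : 1 < X := by linarith
  have hY1' : X ^ (2 - e / 4) ≤ Y := (Real.rpow_le_rpow_of_exponent_le hX1.le (by linarith)).trans hY1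
  obtain ⟨V, W, h1, h2, h3, h4, h5⟩ := H' X hX Y hY1' (by rw [Real.rpow_two]; exact hY2)
  refine ⟨V, W, h1, h2, h3, h4, h5.trans ?_⟩
  rw [SF_eq hX1]
  refine (le_of_eq (Finset.sum_congr ?_ (fun _ _ => rfl))).trans (Finset.sum_le_sum (fun n hn => ?_))
  · ext n; simp only [Finset.mem_filter]
  · simp only [Finset.mem_filter] at hn
    rw [Gw_eq_G hX1 (by linarith) hn.2.1 ((Rough_iff hX1 hn.2.1.ne_zero).2 hn.2.2)]
    linarith [NUM.gapI_nonneg X e n]

end Pool.Agent.SVP
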