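import Pool.Agent.SVP.Num
import Pool.Agent.GPX.F

set_option autoImplicit false

namespace Pool.Agent.SVP

open Finset

theorem gapH : GapH := by
  intro e he he1
  obtain ⟨X0, hX0, h⟩ := GPX.gap_card e he he1
  refine ⟨max X0 2, le_max_right _ _, ?_⟩
  intro X hX p hp hXp hpX W₁ W₂ h1 hW h32 hW2
  have hX1 : X0 ≤ X := (le_max_left _ _).trans hX
  have hX2 : 2 ≤ X := (le_max_right _ _).trans hX
  have hX10 : (1 : ℝ) ≤ X := by linarith
  have hlog : 0 < Real.log X := Real.log_pos (by linarith)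
  have hp0 : (0 : ℝ) < p := by exact_mod_cast hp.pos
  have hW2X : (W₂ : ℝ) ≤ X ^ (2 + e) := by
    refine hW2.trans ?_
    rw [← Real.rpow_natCast X 2]
    exact Real.rpow_le_rpow_of_exponent_le hX10 (by push_cast; linarith)
  have h3 := h X hX1 p hp hXp.le hpX (3 / 2) W₁ W₂ (by norm_num) (by exact_mod_cast h1)
    (by exact_mod_cast hW) (by
      have : (2 : ℝ) * W₂ ≤ 3 * W₁ := by exact_mod_cast h32
      linarith) hW2X ((AA p W₁ W₂).filter (fun n => Gap (X ^ (1 - e)) n)) (by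
      intro n hn
      rw [Finset.mem_filter, AA, Finset.mem_filter, Finset.mem_Ioc] at hn
      obtain ⟨⟨⟨a1, a2⟩, _, a3⟩, q, q', b1, b2, b3, b4, b5⟩ := hn
      refine ⟨by exact_mod_cast a1, by exact_mod_cast a2, a3, q, q', b1, b2, b5, ?_, b4.symm⟩
      have : (q : ℝ) < q' := by exact_mod_cast b3
      linarith)
  refine h3.trans ?_
  have hlb : Real.logb 2 (3 / 2) ≤ 1 := by
    have : Real.logb 2 (3 / 2) ≤ Real.logb 2 2 :=
      Real.logb_le_logb_of_le (by norm_num) (by norm_num) (by norm_num)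
    rwa [Real.logb_self_eq_one (by norm_num)] at this
  have h4 : (0 : ℝ) ≤ e * (W₂ / (p * Real.log X)) := by positivity
  have e1 : 20000 * (Real.logb 2 (3 / 2) + 3) * e * (W₂ : ℝ) / (p * Real.log X) =
      (20000 * (Real.logb 2 (3 / 2) + 3)) * (e * (W₂ / (p * Real.log X))) := by ring
  have e2 : 80000 * e * ((W₂ : ℝ) / (p * Real.log X)) = 80000 * (e * (W₂ / (p * Real.log X))) := by ring
  rw [e1, e2]
  apply mul_le_mul_of_nonneg_right _ h4
  linarith

end Pool.Agent.SVP
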