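import Pool.Agent.SVP.Defs

set_option autoImplicit false

namespace Pool.Agent.SVP

open Finset

/-- the primes `n = 2 k p + 1` of a scale give admissible `k` -/
theorem S3_count (p M : ℕ) (K : ℝ) (hp : p.Prime) (hp3 : 3 ≤ p) (hM1 : (M : ℝ) ≤ 2 * K * p) (hM2 : M < p ^ 2) :
    ((AA p 1 M).filter Nat.Prime).card ≤
      ((Icc 1 ⌊K⌋₊).filter (fun k : ℕ => ¬ p ∣ k ∧ (2 * k * p + 1).Prime)).card := by
  have hodd : Odd p := hp.odd_of_ne_two (by omega)
  have key : ∀ n ∈ (AA p 1 M).filter Nat.Prime, 1 < n ∧ n ≤ M ∧ n.Prime ∧ n = 2 * ((n - 1) / (2 * p)) * p + 1 := by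
    intro n hn
    rw [mem_filter, AA, mem_filter, mem_Ioc] at hn
    obtain ⟨⟨⟨h1, h2⟩, h3, h4⟩, h5⟩ := hn
    refine ⟨h1, h2, h5, ?_⟩
    have h6 : p ∣ n - 1 := (Nat.modEq_iff_dvd' (by omega)).mp h4.symm
    have h7 : 2 ∣ n - 1 := by
      obtain ⟨t, ht⟩ := h3
      exact ⟨t, by omega⟩
    have h8 : 2 * p ∣ n - 1 := by
      apply Nat.Coprime.mul_dvd_of_dvd_of_dvd _ h7 h6
      exact (Nat.coprime_two_left).mpr hodd
    obtain ⟨t, ht⟩ := h8
    have h9 : (n - 1) / (2 * p) = t := by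
      rw [ht]; exact Nat.mul_div_cancel_left t (by omega)
    rw [h9]
    have : 2 * t * p = 2 * p * t := by ring
    omega
  apply card_le_card_of_injOn (fun n => (n - 1) / (2 * p))
  · intro n hn
    obtain ⟨h1, h2, h3, h4⟩ := key n hn
    obtain ⟨t, ht⟩ : ∃ t, t = (n - 1) / (2 * p) := ⟨_, rfl⟩
    rw [← ht] at h4
    have ht1 : 1 ≤ t := by
      rcases Nat.eq_zero_or_pos t with h | h
      · rw [h] at h4; omega
      · exact h
    have hpR : (0 : ℝ) < p := by exact_mod_cast hp.pos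
    have htK : (t : ℝ) ≤ K := by
      have h5 : ((2 * t * p + 1 : ℕ) : ℝ) ≤ (M : ℝ) := by rw [← h4]; exact_mod_cast h2
      push_cast at h5
      have h6 : 2 * (t : ℝ) * p ≤ 2 * K * p := by linarith
      have h7 : 2 * (t : ℝ) ≤ 2 * K := le_of_mul_le_mul_right h6 hpR
      linarith
    have htp : t < p := by
      by_contra hcon
      push Not at hcon
      have : p * p ≤ 2 * t * p := by nlinarith [hp.pos]
      have h8 : p ^ 2 = p * p := sq p
      omega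
    have hmem : t ∈ (Icc 1 ⌊K⌋₊).filter (fun k : ℕ => ¬ p ∣ k ∧ (2 * k * p + 1).Prime) := by
      rw [mem_filter, mem_Icc]
      refine ⟨⟨ht1, Nat.le_floor htK⟩, ?_, ?_⟩
      · intro hd
        exact absurd (Nat.le_of_dvd (by omega) hd) (by omega)
      · rw [← h4]; exact h3
    change (n - 1) / (2 * p) ∈ _
    rw [← ht]
    exact_mod_cast hmem
  · intro n hn n' hn' he
    have h1 := (key n hn).2.2.2
    have h2 := (key n' hn').2.2.2
    have he' : (n - 1) / (2 * p) = (n' - 1) / (2 * p) := he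
    rw [h1, h2, he']

/-- [SVP-S3] all scales `Y ∈ [p^(2-η), 4 (p+1)²]`, in terms of `k ≤ K`. Proof. Union over the scales `Y = 2^j ∈ [X^(2-η'), X²]`, `j ≤ 2 log₂ X`, `η' = η/2` etc. If `p` is outside the union and `p^(1-η₂) ≤ K ≤ 2 (p+1)`, put
`Y = min (2 K p, X²)`; the largest power of two `2^j ≤ Y` is a scale and `2^j ≥ Y/2`, `Y ≥ K p / 10`. The primes `n ∈ AA p 1 (2^j)` are `n = 2 k p + 1` with `1 ≤ k`, `2 k p < 2^j ≤ 2 K p`, so `k ≤ K`,
and `k < p` (`2 k p < X² < p²`), so `p ∤ k`; `n ↦ k` is injective. `log X ≤ log p`. `C log X X^(1-δ) ≤ C' X^(1-δ/2)`. -/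
theorem all_scales (h : ∃ c η δ C : ℝ, 0 < c ∧ 0 < η ∧ 0 < δ ∧ 0 < C ∧
    ∀ X : ℕ, 2 ≤ X → ∀ Y : ℝ, (X : ℝ) ^ (2 - η) ≤ Y → Y ≤ (X : ℝ) ^ 2 →
      ((((Ioc X (2 * X)).filter Nat.Prime).filter (fun p : ℕ =>
        (((AA p 1 ⌊Y⌋₊).filter Nat.Prime).card : ℝ) < c * (Y / (p * Real.log X)))).card : ℝ) ≤ C * (X : ℝ) ^ (1 - δ)) :
    ∃ c η δ C : ℝ, 0 < c ∧ 0 < η ∧ 0 < δ ∧ 0 < C ∧ ∀ X : ℕ, 2 ≤ X →
      ∃ B : Finset ℕ, (B.card : ℝ) ≤ C * (X : ℝ) ^ (1 - δ) ∧ ∀ p : ℕ, p.Prime → X < p → p ≤ 2 * X → p ∉ B →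
        ∀ K : ℝ, (p : ℝ) ^ (1 - η) ≤ K → K < 2 * ((p : ℝ) + 1) →
          c * K / Real.log p ≤ (((Icc 1 ⌊K⌋₊).filter (fun k : ℕ => ¬ p ∣ k ∧ (2 * k * p + 1).Prime)).card : ℝ) := by
  classical
  obtain ⟨c, η, δ, C, hc, hη, hδ, hC, hX⟩ := h
  obtain ⟨d, hd⟩ : ∃ d : ℝ, d = min δ 1 / 2 := ⟨_, rfl⟩
  have hd0 : 0 < d := by rw [hd]; have := lt_min hδ one_pos; linarith
  have hd1 : 2 * d ≤ 1 := by rw [hd]; have := min_le_right δ 1; linarith
  have hd2 : 2 * d ≤ δ := by rw [hd]; have := min_le_left δ 1; linarith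
  obtain ⟨e, he⟩ : ∃ e : ℝ, e = min η 1 / 2 := ⟨_, rfl⟩
  have he0 : 0 < e := by rw [he]; have := lt_min hη one_pos; linarith
  have he1 : 2 * e ≤ 1 := by rw [he]; have := min_le_right η 1; linarith
  have he2 : 2 * e ≤ η := by rw [he]; have := min_le_left η 1; linarith
  have hl2 : 0 < Real.log 2 := Real.log_pos one_lt_two
  obtain ⟨X0, hX0⟩ : ∃ X0 : ℝ, X0 = (2 : ℝ) ^ (1 / e) := ⟨_, rfl⟩
  have hX0pos : 0 < X0 := by rw [hX0]; positivity
  refine ⟨c / 20, e, d, C * (2 / (d * Real.log 2) + 1) + X0, by positivity, he0, hd0, by positivity, ?_⟩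
  intro X hX2
  have hXR : (2 : ℝ) ≤ (X : ℝ) := by exact_mod_cast hX2
  have hXpos : (0 : ℝ) < X := by linarith
  have hX1 : (1 : ℝ) ≤ X := by linarith
  have hlogX : 0 < Real.log X := Real.log_pos (by linarith)
  have hXd : (1 : ℝ) ≤ (X : ℝ) ^ (1 - d) := Real.one_le_rpow hX1 (by linarith)
  by_cases hbig : (X : ℝ) < X0
  · refine ⟨Ioc X (2 * X), ?_, ?_⟩
    · rw [Nat.card_Ioc]
      have h1 : 2 * X - X = X := by omega
      rw [h1]
      have h2 : X0 * 1 ≤ X0 * (X : ℝ) ^ (1 - d) := mul_le_mul_of_nonneg_left hXd hX0pos.le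
      have h3 : 0 ≤ C * (2 / (d * Real.log 2) + 1) * (X : ℝ) ^ (1 - d) := by positivity
      have h4 : (C * (2 / (d * Real.log 2) + 1) + X0) * (X : ℝ) ^ (1 - d) =
        C * (2 / (d * Real.log 2) + 1) * (X : ℝ) ^ (1 - d) + X0 * (X : ℝ) ^ (1 - d) := by ring
      rw [h4]
      linarith
    · intro p _ h1 h2 h3
      exact absurd (mem_Ioc.mpr ⟨h1, h2⟩) h3
  · push Not at hbig
    obtain ⟨bad, hbad⟩ : ∃ bad : ℕ → Finset ℕ, bad = fun j => ((Ioc X (2 * X)).filter Nat.Prime).filter (fun p : ℕ =>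
        (((AA p 1 ⌊((2 : ℝ) ^ j)⌋₊).filter Nat.Prime).card : ℝ) < c * ((2 : ℝ) ^ j / (p * Real.log X))) := ⟨_, rfl⟩
    obtain ⟨J, hJ⟩ : ∃ J : ℕ, J = ⌊2 * Real.log X / Real.log 2⌋₊ + 1 := ⟨_, rfl⟩
    have hJle : (J : ℝ) ≤ 2 * Real.log X / Real.log 2 + 1 := by
      rw [hJ]; push_cast
      have := Nat.floor_le (show 0 ≤ 2 * Real.log X / Real.log 2 by positivity)
      linarith
    obtain ⟨S, hS⟩ : ∃ S : Finset ℕ, S = (range J).filter (fun j => (X : ℝ) ^ (2 - η) ≤ (2 : ℝ) ^ j ∧ (2 : ℝ) ^ j ≤ (X : ℝ) ^ 2) := ⟨_, rfl⟩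
    refine ⟨S.biUnion bad, ?_, ?_⟩
    · have h1 : ((S.biUnion bad).card : ℝ) ≤ ∑ j ∈ S, ((bad j).card : ℝ) := by
        exact_mod_cast card_biUnion_le
      have h2 : ∀ j ∈ S, ((bad j).card : ℝ) ≤ C * (X : ℝ) ^ (1 - 2 * d) := by
        intro j hj
        rw [hS, mem_filter] at hj
        have h3 := hX X hX2 ((2 : ℝ) ^ j) hj.2.1 hj.2.2
        rw [hbad]
        refine le_trans h3 ?_
        apply mul_le_mul_of_nonneg_left _ hC.le
        exact Real.rpow_le_rpow_of_exponent_le hX1 (by linarith)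
      have hScard : (S.card : ℝ) ≤ J := by
        rw [hS]
        have := card_filter_le (range J) (fun j => (X : ℝ) ^ (2 - η) ≤ (2 : ℝ) ^ j ∧ (2 : ℝ) ^ j ≤ (X : ℝ) ^ 2)
        rw [card_range] at this
        exact_mod_cast this
      have h3 : ((S.biUnion bad).card : ℝ) ≤ J * (C * (X : ℝ) ^ (1 - 2 * d)) := by
        refine le_trans h1 (le_trans (sum_le_sum h2) ?_)
        rw [sum_const, nsmul_eq_mul]
        exact mul_le_mul_of_nonneg_right hScard (by positivity)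
      refine le_trans h3 ?_
      have h4 : Real.log X ≤ (X : ℝ) ^ d / d := Real.log_le_rpow_div hXpos.le hd0
      have h45 : (1 : ℝ) ≤ (X : ℝ) ^ d := Real.one_le_rpow hX1 hd0.le
      have h5 : (J : ℝ) ≤ (X : ℝ) ^ d * (2 / (d * Real.log 2) + 1) := by
        refine le_trans hJle ?_
        have h51 : 2 * Real.log X / Real.log 2 ≤ (X : ℝ) ^ d * (2 / (d * Real.log 2)) := by
          calc 2 * Real.log X / Real.log 2 ≤ 2 * ((X : ℝ) ^ d / d) / Real.log 2 := by gcongr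
            _ = (X : ℝ) ^ d * (2 / (d * Real.log 2)) := by field_simp
        rw [mul_add, mul_one]
        linarith
      have h6 : (X : ℝ) ^ d * (X : ℝ) ^ (1 - 2 * d) = (X : ℝ) ^ (1 - d) := by
        rw [← Real.rpow_add hXpos]; congr 1; ring
      calc (J : ℝ) * (C * (X : ℝ) ^ (1 - 2 * d)) ≤ ((X : ℝ) ^ d * (2 / (d * Real.log 2) + 1)) * (C * (X : ℝ) ^ (1 - 2 * d)) := by
            apply mul_le_mul_of_nonneg_right h5 (by positivity)
        _ = C * (2 / (d * Real.log 2) + 1) * ((X : ℝ) ^ d * (X : ℝ) ^ (1 - 2 * d)) := by ring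
        _ = C * (2 / (d * Real.log 2) + 1) * (X : ℝ) ^ (1 - d) := by rw [h6]
        _ ≤ (C * (2 / (d * Real.log 2) + 1) + X0) * (X : ℝ) ^ (1 - d) := by
            apply mul_le_mul_of_nonneg_right _ (by positivity)
            linarith
    · intro p hp hXp hp2X hpB K hK1 hK2
      have hp3 : 3 ≤ p := by omega
      have hpR : (0 : ℝ) < p := by exact_mod_cast hp.pos
      have hXpR : (X : ℝ) < p := by exact_mod_cast hXp
      have hp2XR : (p : ℝ) ≤ 2 * X := by exact_mod_cast hp2X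
      have hKpos : 0 < K := lt_of_lt_of_le (Real.rpow_pos_of_pos hpR _) hK1
      obtain ⟨Y, hY⟩ : ∃ Y : ℝ, Y = min (2 * K * p) ((X : ℝ) ^ 2) := ⟨_, rfl⟩
      have hYX : (X : ℝ) ^ (2 - e) ≤ Y := by
        rw [hY]
        apply le_min
        · have h1 : (p : ℝ) ^ (2 - e) = (p : ℝ) ^ (1 - e) * p := by
            rw [show (2 : ℝ) - e = (1 - e) + 1 by ring, Real.rpow_add hpR, Real.rpow_one]
          calc (X : ℝ) ^ (2 - e) ≤ (p : ℝ) ^ (2 - e) :=
                Real.rpow_le_rpow hXpos.le hXpR.le (by linarith)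
            _ = (p : ℝ) ^ (1 - e) * p := h1
            _ ≤ K * p := by gcongr
            _ ≤ 2 * K * p := by nlinarith [mul_pos hKpos hpR]
        · calc (X : ℝ) ^ (2 - e) ≤ (X : ℝ) ^ (2 : ℝ) :=
                Real.rpow_le_rpow_of_exponent_le hX1 (by linarith)
            _ = (X : ℝ) ^ 2 := by norm_num
      have hXe1 : (1 : ℝ) ≤ (X : ℝ) ^ (2 - e) := Real.one_le_rpow hX1 (by linarith)
      have hYpos : 0 < Y := by linarith
      have hY1 : 1 ≤ Y := by linarith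
      have hYle1 : Y ≤ 2 * K * p := by rw [hY]; exact min_le_left _ _
      have hYle2 : Y ≤ (X : ℝ) ^ 2 := by rw [hY]; exact min_le_right _ _
      have hYge : K * p / 10 ≤ Y := by
        rw [hY]
        apply le_min
        · nlinarith [mul_pos hKpos hpR]
        · have h1 : K ≤ 5 * X := by
            have : (p : ℝ) + 1 ≤ 2 * X + 1 := by linarith
            linarith
          have h2 : K * p ≤ (5 * X) * (2 * X) := mul_le_mul h1 hp2XR hpR.le (by positivity)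
          nlinarith
      obtain ⟨j, hj⟩ : ∃ j : ℕ, j = Nat.log 2 ⌊Y⌋₊ := ⟨_, rfl⟩
      have hfl : 1 ≤ ⌊Y⌋₊ := Nat.le_floor (by exact_mod_cast hY1)
      have hj1 : 2 ^ j ≤ ⌊Y⌋₊ := by rw [hj]; exact Nat.pow_log_le_self 2 (by omega)
      have hj2 : ⌊Y⌋₊ < 2 ^ (j + 1) := by rw [hj]; exact Nat.lt_pow_succ_log_self (by norm_num) _
      have hj1R : (2 : ℝ) ^ j ≤ Y := by
        have h1 : ((2 ^ j : ℕ) : ℝ) ≤ (⌊Y⌋₊ : ℝ) := by exact_mod_cast hj1
        have h2 := Nat.floor_le hYpos.le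
        push_cast at h1
        linarith
      have hj2R : Y / 2 ≤ (2 : ℝ) ^ j := by
        have h1 : Y < (⌊Y⌋₊ : ℝ) + 1 := Nat.lt_floor_add_one Y
        have h2 : ((⌊Y⌋₊ + 1 : ℕ) : ℝ) ≤ ((2 ^ (j + 1) : ℕ) : ℝ) := by exact_mod_cast hj2
        push_cast at h2
        rw [pow_succ] at h2
        linarith
      have hjS : j ∈ S := by
        rw [hS, mem_filter, mem_range]
        refine ⟨?_, ?_, le_trans hj1R hYle2⟩
        · rw [hJ]
          apply Nat.lt_succ_of_le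
          apply Nat.le_floor
          rw [le_div_iff₀ hl2]
          have h1 : Real.log ((2 : ℝ) ^ j) ≤ Real.log ((X : ℝ) ^ 2) :=
            Real.log_le_log (by positivity) (le_trans hj1R hYle2)
          rw [Real.log_pow, Real.log_pow] at h1
          exact_mod_cast h1
        · refine le_trans ?_ hj2R
          have h1 : (X : ℝ) ^ (2 - η) ≤ (X : ℝ) ^ (2 - 2 * e) :=
            Real.rpow_le_rpow_of_exponent_le hX1 (by linarith)
          have h2 : (X : ℝ) ^ (2 - e) = (X : ℝ) ^ (2 - 2 * e) * (X : ℝ) ^ e := by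
            rw [← Real.rpow_add hXpos]; congr 1; ring
          have h3 : (2 : ℝ) ≤ (X : ℝ) ^ e := by
            calc (2 : ℝ) = X0 ^ e := by
                  rw [hX0, ← Real.rpow_mul (by norm_num)]
                  rw [one_div, inv_mul_cancel₀ he0.ne', Real.rpow_one]
              _ ≤ (X : ℝ) ^ e := Real.rpow_le_rpow hX0pos.le hbig he0.le
          have h4 : 0 < (X : ℝ) ^ (2 - 2 * e) := by positivity
          have h5 : (X : ℝ) ^ (2 - 2 * e) * 2 ≤ (X : ℝ) ^ (2 - 2 * e) * (X : ℝ) ^ e :=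
            mul_le_mul_of_nonneg_left h3 h4.le
          rw [← h2] at h5
          linarith
      have hnot : ¬ (((AA p 1 ⌊((2 : ℝ) ^ j)⌋₊).filter Nat.Prime).card : ℝ) < c * ((2 : ℝ) ^ j / (p * Real.log X)) := by
        intro hcon
        apply hpB
        rw [mem_biUnion]
        refine ⟨j, hjS, ?_⟩
        rw [hbad]
        simp only [mem_filter, mem_Ioc]
        exact ⟨⟨⟨hXp, hp2X⟩, hp⟩, hcon⟩
      push Not at hnot
      have hfl2 : ⌊((2 : ℝ) ^ j)⌋₊ = 2 ^ j := by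
        have : ((2 : ℝ) ^ j) = ((2 ^ j : ℕ) : ℝ) := by push_cast; rfl
        rw [this, Nat.floor_natCast]
      rw [hfl2] at hnot
      have hM2 : 2 ^ j < p ^ 2 := by
        have h1 : ((2 ^ j : ℕ) : ℝ) ≤ ((X ^ 2 : ℕ) : ℝ) := by
          push_cast; exact le_trans hj1R hYle2
        have h2 : 2 ^ j ≤ X ^ 2 := by exact_mod_cast h1
        exact lt_of_le_of_lt h2 (Nat.pow_lt_pow_left hXp (by norm_num))
      have hM1 : ((2 ^ j : ℕ) : ℝ) ≤ 2 * K * p := by
        push_cast; exact le_trans hj1R hYle1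
      have hcount := S3_count p (2 ^ j) K hp hp3 hM1 hM2
      have hcountR : (((AA p 1 (2 ^ j)).filter Nat.Prime).card : ℝ) ≤
        (((Icc 1 ⌊K⌋₊).filter (fun k : ℕ => ¬ p ∣ k ∧ (2 * k * p + 1).Prime)).card : ℝ) := by
        exact_mod_cast hcount
      refine le_trans ?_ (le_trans hnot hcountR)
      have hlp : Real.log X ≤ Real.log p := Real.log_le_log hXpos hXpR.le
      have hlp0 : 0 < Real.log p := by linarith
      have h2j : K * p / 20 ≤ (2 : ℝ) ^ j := by linarith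
      calc c / 20 * K / Real.log p ≤ c / 20 * K / Real.log X := by
            apply div_le_div_of_nonneg_left (by positivity) hlogX hlp
        _ = c * ((K * p / 20) / (p * Real.log X)) := by field_simp
        _ ≤ c * ((2 : ℝ) ^ j / (p * Real.log X)) := by gcongr

end Pool.Agent.SVP
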