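import Pool.Agent.SVP.Defs

set_option autoImplicit false

namespace Pool.Agent.SVP

open Finset

/-- [SVP-S4] dyadic summation. Proof. Union of the sets for `X = 2^j`, `j ≤ log₂ X`, plus small primes; geometric series. -/
theorem all_primes (h : ∃ c η δ C : ℝ, 0 < c ∧ 0 < η ∧ 0 < δ ∧ 0 < C ∧ ∀ X : ℕ, 2 ≤ X →
      ∃ B : Finset ℕ, (B.card : ℝ) ≤ C * (X : ℝ) ^ (1 - δ) ∧ ∀ p : ℕ, p.Prime → X < p → p ≤ 2 * X → p ∉ B →
        ∀ K : ℝ, (p : ℝ) ^ (1 - η) ≤ K → K < 2 * ((p : ℝ) + 1) →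
          c * K / Real.log p ≤ (((Icc 1 ⌊K⌋₊).filter (fun k : ℕ => ¬ p ∣ k ∧ (2 * k * p + 1).Prime)).card : ℝ)) :
    ∃ c η δ C : ℝ, 0 < c ∧ 0 < η ∧ 0 < δ ∧ 0 < C ∧ ∀ X : ℝ, 2 ≤ X →
      ∃ B : Finset ℕ, (B.card : ℝ) ≤ C * X ^ (1 - δ) ∧ ∀ p : ℕ, p.Prime → p ≠ 2 → (p : ℝ) ≤ X → p ∉ B →
        ∀ K : ℝ, (p : ℝ) ^ (1 - η) ≤ K → K < 2 * ((p : ℝ) + 1) →
          c * K / Real.log p ≤ (((Icc 1 ⌊K⌋₊).filter (fun k : ℕ => ¬ p ∣ k ∧ (2 * k * p + 1).Prime)).card : ℝ) := by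
  classical
  obtain ⟨c, η, δ, C, hc, hη, hδ, hC, hX⟩ := h
  obtain ⟨d, hd⟩ : ∃ d : ℝ, d = min δ 1 / 2 := ⟨_, rfl⟩
  have hd0 : 0 < d := by rw [hd]; have := lt_min hδ one_pos; linarith
  have hd1 : 2 * d ≤ 1 := by rw [hd]; have := min_le_right δ 1; linarith
  have hd2 : 2 * d ≤ δ := by rw [hd]; have := min_le_left δ 1; linarith
  choose! B hB using hX
  have hl2 : 0 < Real.log 2 := Real.log_pos one_lt_two
  refine ⟨c, η, d, C * (1 / (d * Real.log 2)), hc, hη, hd0, by positivity, ?_⟩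
  intro X hX2
  have hX0 : 0 < X := by linarith
  have hX1 : 1 ≤ X := by linarith
  obtain ⟨J, hJ⟩ : ∃ J : ℕ, J = ⌊Real.log X / Real.log 2⌋₊ := ⟨_, rfl⟩
  have hlogX : 0 ≤ Real.log X := Real.log_nonneg hX1
  have hJle : (J : ℝ) ≤ Real.log X / Real.log 2 := by
    rw [hJ]; exact Nat.floor_le (by positivity)
  have hpow : ∀ j : ℕ, j ≤ J → ((2 : ℝ) ^ j) ≤ X := by
    intro j hj
    have h1 : (j : ℝ) ≤ Real.log X / Real.log 2 := le_trans (by exact_mod_cast hj) hJle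
    rw [le_div_iff₀ hl2] at h1
    rw [← Real.log_le_log_iff (by positivity) hX0, Real.log_pow]
    exact h1
  refine ⟨(Icc 1 J).biUnion (fun j => B (2 ^ j)), ?_, ?_⟩
  · have h1 : (((Icc 1 J).biUnion (fun j => B (2 ^ j))).card : ℝ) ≤ ∑ j ∈ Icc 1 J, ((B (2 ^ j)).card : ℝ) := by
      exact_mod_cast card_biUnion_le
    have h2 : ∀ j ∈ Icc 1 J, ((B (2 ^ j)).card : ℝ) ≤ C * X ^ (1 - 2 * d) := by
      intro j hj
      rw [mem_Icc] at hj
      have h22 : 2 ≤ 2 ^ j := by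
        calc 2 = 2 ^ 1 := rfl
          _ ≤ 2 ^ j := Nat.pow_le_pow_right (by norm_num) hj.1
      refine le_trans (hB (2 ^ j) h22).1 ?_
      apply mul_le_mul_of_nonneg_left _ hC.le
      have h3 : (1 : ℝ) ≤ ((2 ^ j : ℕ) : ℝ) := by exact_mod_cast Nat.one_le_two_pow
      calc (((2 ^ j : ℕ) : ℝ)) ^ (1 - δ) ≤ (((2 ^ j : ℕ) : ℝ)) ^ (1 - 2 * d) :=
            Real.rpow_le_rpow_of_exponent_le h3 (by linarith)
        _ ≤ X ^ (1 - 2 * d) := by
            apply Real.rpow_le_rpow (by positivity) _ (by linarith)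
            push_cast
            exact hpow j hj.2
    have h3 : (((Icc 1 J).biUnion (fun j => B (2 ^ j))).card : ℝ) ≤ J * (C * X ^ (1 - 2 * d)) := by
      refine le_trans h1 (le_trans (sum_le_sum h2) ?_)
      rw [sum_const, Nat.card_Icc, nsmul_eq_mul]
      simp
    refine le_trans h3 ?_
    have h4 : Real.log X ≤ X ^ d / d := Real.log_le_rpow_div hX0.le hd0
    have h5 : (J : ℝ) ≤ X ^ d * (1 / (d * Real.log 2)) := by
      refine le_trans hJle ?_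
      calc Real.log X / Real.log 2 ≤ (X ^ d / d) / Real.log 2 := by gcongr
        _ = X ^ d * (1 / (d * Real.log 2)) := by field_simp
    have h6 : X ^ d * X ^ (1 - 2 * d) = X ^ (1 - d) := by
      rw [← Real.rpow_add hX0]; congr 1; ring
    calc (J : ℝ) * (C * X ^ (1 - 2 * d)) ≤ (X ^ d * (1 / (d * Real.log 2))) * (C * X ^ (1 - 2 * d)) := by
          apply mul_le_mul_of_nonneg_right h5 (by positivity)
      _ = C * (1 / (d * Real.log 2)) * (X ^ d * X ^ (1 - 2 * d)) := by ring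
      _ = C * (1 / (d * Real.log 2)) * X ^ (1 - d) := by rw [h6]
  · intro p hp hp2 hpX hpB K hK1 hK2
    have hp3 : 3 ≤ p := by
      have := hp.two_le
      omega
    obtain ⟨j, hj⟩ : ∃ j : ℕ, j = Nat.log 2 (p - 1) := ⟨_, rfl⟩
    have hj1 : 2 ^ j ≤ p - 1 := by rw [hj]; exact Nat.pow_log_le_self 2 (by omega)
    have hj2 : p - 1 < 2 ^ (j + 1) := by rw [hj]; exact Nat.lt_pow_succ_log_self (by norm_num) _
    have hj3 : 1 ≤ j := by
      rw [hj]; exact Nat.log_pos (by norm_num) (by omega)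
    have hjJ : j ≤ J := by
      rw [hJ]
      apply Nat.le_floor
      rw [le_div_iff₀ hl2, ← Real.log_pow, Real.log_le_log_iff (by positivity) hX0]
      have h5 : ((2 ^ j : ℕ) : ℝ) ≤ ((p - 1 : ℕ) : ℝ) := by exact_mod_cast hj1
      have h6 : ((p - 1 : ℕ) : ℝ) ≤ (p : ℝ) := by exact_mod_cast Nat.sub_le p 1
      push_cast at h5
      linarith
    have h22 : 2 ≤ 2 ^ j := by
      calc 2 = 2 ^ 1 := rfl
        _ ≤ 2 ^ j := Nat.pow_le_pow_right (by norm_num) hj3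
    refine (hB (2 ^ j) h22).2 p hp (by omega) (by rw [pow_succ] at hj2; omega) ?_ K hK1 hK2
    intro hmem
    exact hpB (mem_biUnion.mpr ⟨j, mem_Icc.mpr ⟨hj3, hjJ⟩, hmem⟩)

end Pool.Agent.SVP
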