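import Pool.Agent.SVP.S2
import Pool.Agent.SVP.S3
import Pool.Agent.SVP.S4
import Pool.Agent.SVP.Br
import Pool.Agent.SVP.GP
import Pool.Agent.TII.T4

/-!
# [SVP-Fin] assembly
-/

set_option autoImplicit false

namespace Pool.Agent.SVP

open Finset

/-- for all odd primes `p ≤ X` outside a set of at most `C X^(1-δ)` elements the number of the `k ≤ K` prime to `p`
with `2kp+1` prime is at least `c K / log p`, for all `K` in `[p^(1-η), 2(p+1))` -/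
theorem fin : ∃ c η δ C : ℝ, 0 < c ∧ 0 < η ∧ 0 < δ ∧ 0 < C ∧ ∀ X : ℝ, 2 ≤ X →
      ∃ B : Finset ℕ, (B.card : ℝ) ≤ C * X ^ (1 - δ) ∧ ∀ p : ℕ, p.Prime → p ≠ 2 → (p : ℝ) ≤ X → p ∉ B →
        ∀ K : ℝ, (p : ℝ) ^ (1 - η) ≤ K → K < 2 * ((p : ℝ) + 1) →
          c * K / Real.log p ≤ (((Icc 1 ⌊K⌋₊).filter (fun k : ℕ => ¬ p ∣ k ∧ (2 * k * p + 1).Prime)).card : ℝ) :=
  all_primes (all_scales (one_scale TII.typeII gapH combH numH))

end Pool.Agent.SVP
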