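import Pool.Agent.SVP.FL5

set_option autoImplicit false

namespace Pool.Agent.SVP

open Finset hiding dens
open Pool.Agent.MP_f32cb9_nt (PI mem_PI sum_inv_PI sum_inv_PI_two dens chi GA HA WW VV Vb esy Wt ivl hit)

theorem fl7_l0 {D m : ℕ} (hD : Odd D) (hco : Nat.Coprime m D) : ∃ l₀ : ℕ, l₀ < 2 * D ∧ Odd l₀ ∧
    ∀ l : ℕ, (Odd l ∧ m * l ≡ 1 [MOD D]) ↔ l ≡ l₀ [MOD (2 * D)] := by
  have hD0 : 0 < D := hD.pos
  obtain ⟨a, ha⟩ : ∃ a, m * a ≡ 1 [MOD D] := by
    by_cases h1 : D = 1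
    · subst h1
      exact ⟨0, Nat.modEq_one⟩
    · obtain ⟨a, -, ha⟩ := Nat.exists_mul_mod_eq_one_of_coprime hco (by omega)
      exact ⟨a, by rw [Nat.ModEq, ha, Nat.mod_eq_of_lt (by omega)]⟩
  have h2D : Nat.Coprime 2 D := Nat.coprime_two_left.2 hD
  obtain ⟨k, hk1, hk2⟩ := Nat.chineseRemainder h2D 1 a
  have h3 : k % (2 * D) ≡ k [MOD (2 * D)] := Nat.mod_modEq _ _
  have h4 : k % (2 * D) ≡ 1 [MOD 2] := (h3.of_mul_right D).trans hk1
  have h5 : k % (2 * D) ≡ a [MOD D] := (h3.of_mul_left 2).trans hk2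
  have h6 : Odd (k % (2 * D)) := by
    rw [Nat.odd_iff]
    exact h4
  refine ⟨k % (2 * D), Nat.mod_lt _ (by omega), h6, fun l => ⟨?_, ?_⟩⟩
  · rintro ⟨hl, h⟩
    refine (Nat.modEq_and_modEq_iff_modEq_mul h2D).1 ⟨?_, ?_⟩
    · rw [Nat.odd_iff] at hl h6
      rw [Nat.ModEq, hl, h6]
    · have h7 : m * l ≡ m * (k % (2 * D)) [MOD D] := h.trans (ha.symm.trans (h5.symm.mul_left m))
      exact Nat.ModEq.cancel_left_of_coprime (by rw [Nat.gcd_comm]; exact hco) h7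
  · intro h
    constructor
    · have h7 := h.of_mul_right D
      rw [Nat.odd_iff] at h6 ⊢
      rw [← h6]
      exact h7
    · have h7 := (h.of_mul_left 2).mul_left m
      exact h7.trans ((h5.mul_left m).trans ha)

theorem fl7_card {q M c : ℕ} (hq : q.Prime) (hM : ¬ q ∣ M) :
    ((range q).filter (fun r => q ∣ c + M * r)).card = 1 := by
  have : Fact q.Prime := ⟨hq⟩
  have hM0 : (M : ZMod q) ≠ 0 := by rwa [Ne, ZMod.natCast_eq_zero_iff]
  rw [Finset.card_eq_one]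
  refine ⟨(-(c : ZMod q) / M).val, ?_⟩
  ext r
  rw [Finset.mem_filter, Finset.mem_range, Finset.mem_singleton, ← ZMod.natCast_eq_zero_iff]
  push_cast
  constructor
  · rintro ⟨h1, h2⟩
    have h3 : (r : ZMod q) = -(c : ZMod q) / M := by
      rw [eq_div_iff hM0]
      linear_combination h2
    rw [← h3, ZMod.val_natCast, Nat.mod_eq_of_lt h1]
  · rintro rfl
    refine ⟨ZMod.val_lt _, ?_⟩
    rw [ZMod.natCast_val, ZMod.cast_id]
    field_simp
    ring

theorem fl7_hit {q M l₀ t l : ℕ} (hq : 1 ≤ q) (h : l + M = l₀ + M * t) :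
    t % q ∈ (range q).filter (fun r => q ∣ (l₀ + M * (q - 1)) + M * r) ↔ q ∣ l := by
  rw [Finset.mem_filter, Finset.mem_range, and_iff_right (Nat.mod_lt _ (by omega))]
  have h1 : (l₀ + M * (q - 1)) + M * (t % q) ≡ (l₀ + M * (q - 1)) + M * t [MOD q] :=
    ((Nat.mod_modEq t q).mul_left M).add_left _
  rw [h1.dvd_iff dvd_rfl]
  obtain ⟨q', rfl⟩ : ∃ q', q = q' + 1 := ⟨q - 1, by omega⟩
  have h2 : (l₀ + M * (q' + 1 - 1)) + M * t = l + (q' + 1) * M := by
    rw [Nat.add_sub_cancel]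
    linarith
  rw [h2, Nat.dvd_add_left (Dvd.intro _ rfl)]

theorem fl7_chi {E t l : ℕ} {R : ℕ → Finset ℕ} (hR : ∀ q : ℕ, q.Prime → q ≠ 2 → q ≤ 2 ^ E → (t % q ∈ R q ↔ q ∣ l))
    (hl : Odd l) : chi R (Bl E) E t = if Rg (2 ^ E) l then 1 else 0 := by
  unfold chi
  split_ifs with h
  · refine Finset.prod_eq_one fun i _ => Finset.prod_eq_one fun p hp => ?_
    rw [mem_Bl] at hp
    have hpE : p ≤ 2 ^ E := hp.2.2.1.trans (Nat.pow_le_pow_right (by norm_num) (Nat.div_le_self _ _))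
    have h1 : t % p ∉ R p := by
      rw [hR p hp.2.2.2 hp.1 hpE]
      intro h2
      have h3 := h p hp.2.2.2 h2
      omega
    unfold hit
    rw [if_neg h1, sub_zero]
  · unfold Rg at h
    push Not at h
    obtain ⟨q, hq, hql, hqE⟩ := h
    have hq2 : q ≠ 2 := by
      rintro rfl
      rw [Nat.odd_iff] at hl
      omega
    obtain ⟨i, hi, hqi⟩ := Bl_cover hq hq2 hqE
    refine Finset.prod_eq_zero (Finset.mem_range.2 hi) (Finset.prod_eq_zero hqi ?_)
    unfold hit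
    rw [if_pos ((hR q hq hq2 hqE).2 hql), sub_self]

/-- floors -/
theorem fl7_div (a b : ℕ) (hb : 0 < b) : ((a / b : ℕ) : ℝ) ≤ a / b ∧ (a : ℝ) / b < (a / b : ℕ) + 1 := by
  have hb' : (0 : ℝ) < b := by exact_mod_cast hb
  refine ⟨Nat.cast_div_le, ?_⟩
  rw [div_lt_iff₀ hb', mul_comm]
  exact_mod_cast Nat.lt_mul_div_succ a hb

/-- [SVP-FL7] the count `cnt (2^E) D m` is the count of the sifted `t` of an interval.
Proof. `D` is odd and prime to `m`, so `m l ≡ 1 mod D` and `l` odd is one class `l ≡ l₀ mod 2D`, `l₀ < 2D` (`Nat.chineseRemainder`; note `cnt` = 0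
needs nothing: `l₀` exists as `gcd (m, D) = 1`). Write `l + 2D = l₀ + 2D t`, `t ≥ 1`: `W₁/m < l ≤ W₂/m` iff
`N < t ≤ N + H` with `N = (W₁/m + 2D - l₀)/(2D)`, `N + H = (W₂/m + 2D - l₀)/(2D)` (natural divisions); `|H - (W₂-W₁)/(2Dm)| ≤ 2`.
For an odd prime `q ≤ 2^E`, `q ∤ D`: `q ∣ l ↔ q ∣ l₀ + 2D t + 2D(q-1) ↔ t % q ∈ R q`, `R q := (range q).filter (q ∣ l₀ + 2D r + 2D(q-1))`, one element because
`2D` is invertible mod `q`. As `l` is odd, `Rg (2^E) l ↔` no odd prime `q ≤ 2^E` divides `l` `↔ chi R (Bl E) E t = 1` (`Bl_cover`, `chi` is a product of `1 - hit`, and `hit` is `0` or `1`),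
otherwise `chi = 0`. -/
theorem cnt_interval (E D m W₁ W₂ : ℕ) (hE : 1 ≤ E) (hD : Odd D) (hm : Odd m) (hco : Nat.Coprime m D)
    (hq : ∀ q : ℕ, q.Prime → q ≤ 2 ^ E → ¬ q ∣ D) (hW : W₁ ≤ W₂) :
    ∃ (R : ℕ → Finset ℕ) (N H : ℕ), One E R ∧ (cnt (2 ^ E) D m W₁ W₂ : ℝ) = ∑ t ∈ ivl N H, chi R (Bl E) E t ∧
      |(H : ℝ) - ((W₂ : ℝ) - W₁) / (2 * D * m)| ≤ 2 := by
  obtain ⟨l₀, hl₀, hodd₀, hl⟩ := fl7_l0 hD hco
  have hD0 : 0 < D := hD.pos
  have hm0 : 0 < m := hm.pos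
  obtain ⟨M, hM⟩ : ∃ M, M = 2 * D := ⟨_, rfl⟩
  rw [← hM] at hl₀ hl
  have hM0 : 0 < M := by omega
  obtain ⟨A, hA⟩ : ∃ A, A = W₁ / m := ⟨_, rfl⟩
  obtain ⟨B, hB⟩ : ∃ B, B = W₂ / m := ⟨_, rfl⟩
  have hAB : A ≤ B := by
    rw [hA, hB]
    exact Nat.div_le_div_right hW
  obtain ⟨N, hN⟩ : ∃ N, N = (A + M - l₀) / M := ⟨_, rfl⟩
  obtain ⟨N', hN'⟩ : ∃ N', N' = (B + M - l₀) / M := ⟨_, rfl⟩
  have hNN : N ≤ N' := by
    rw [hN, hN']
    exact Nat.div_le_div_right (by omega)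
  have hR : ∀ t l : ℕ, l + M = l₀ + M * t → ∀ q : ℕ, q.Prime → q ≠ 2 → q ≤ 2 ^ E →
      (t % q ∈ (range q).filter (fun r => q ∣ (l₀ + M * (q - 1)) + M * r) ↔ q ∣ l) := fun t l h q hq _ _ =>
    fl7_hit hq.one_lt.le h
  refine ⟨fun q => (range q).filter (fun r => q ∣ (l₀ + M * (q - 1)) + M * r), N, N' - N, ?_, ?_, ?_⟩
  · intro q hqp hq2 hqE
    refine ⟨fl7_card hqp ?_, Finset.filter_subset _ _⟩
    rw [hM]
    intro h
    rcases (Nat.Prime.dvd_mul hqp).1 h with h | h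
    · exact hq2 ((Nat.prime_dvd_prime_iff_eq hqp Nat.prime_two).1 h)
    · exact hq q hqp hqE h
  · -- the count
    have h1 : ∀ t ∈ ivl N (N' - N), chi (fun q => (range q).filter (fun r => q ∣ (l₀ + M * (q - 1)) + M * r)) (Bl E) E t =
        if Rg (2 ^ E) (l₀ + M * t - M) then 1 else 0 := by
      intro t ht
      unfold ivl at ht
      rw [Finset.mem_Ioc] at ht
      have ht1 : 1 ≤ t := by omega
      have h2 : M ≤ M * t := Nat.le_mul_of_pos_right _ ht1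
      have h3 : (l₀ + M * t - M) + M = l₀ + M * t := by omega
      refine fl7_chi (hR t _ h3) ?_
      have h4 : l₀ + M * t - M ≡ l₀ [MOD M] := by
        obtain ⟨t', rfl⟩ : ∃ t', t = t' + 1 := ⟨t - 1, by omega⟩
        rw [show l₀ + M * (t' + 1) - M = l₀ + M * t' by rw [Nat.mul_succ]; omega]
        exact Nat.add_mul_mod_self_left _ _ _
      exact ((hl _).2 h4).1
    rw [Finset.sum_congr rfl h1, Finset.sum_boole]
    unfold cnt
    rw [← hA, ← hB]
    congr 1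
    symm
    refine Finset.card_bij (fun t _ => l₀ + M * t - M) ?_ ?_ ?_
    · intro t ht
      unfold ivl at ht
      rw [Finset.mem_filter, Finset.mem_Ioc] at ht
      obtain ⟨⟨ht1, ht2⟩, ht3⟩ := ht
      have ht0 : 1 ≤ t := by omega
      have h2 : M ≤ M * t := Nat.le_mul_of_pos_right _ ht0
      rw [hN, Nat.div_lt_iff_lt_mul hM0] at ht1
      have ht2' : t ≤ N' := by omega
      rw [hN', Nat.le_div_iff_mul_le hM0] at ht2'
      have h4 : l₀ + M * t - M ≡ l₀ [MOD M] := by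
        obtain ⟨t', rfl⟩ : ∃ t', t = t' + 1 := ⟨t - 1, by omega⟩
        rw [show l₀ + M * (t' + 1) - M = l₀ + M * t' by rw [Nat.mul_succ]; omega]
        exact Nat.add_mul_mod_self_left _ _ _
      have h5 := (hl _).2 h4
      rw [mul_comm t M] at ht1 ht2'
      rw [Finset.mem_filter, Finset.mem_Ioc]
      exact ⟨⟨by omega, by omega⟩, h5.1, h5.2, ht3⟩
    · intro t ht t' ht' h
      unfold ivl at ht ht'
      rw [Finset.mem_filter, Finset.mem_Ioc] at ht ht'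
      have h2 : M ≤ M * t := Nat.le_mul_of_pos_right _ (by omega)
      have h3 : M ≤ M * t' := Nat.le_mul_of_pos_right _ (by omega)
      have h4 : M * t = M * t' := by
        have h5 : l₀ + M * t - M = l₀ + M * t' - M := h
        omega
      exact Nat.eq_of_mul_eq_mul_left hM0 h4
    · intro l hl'
      rw [Finset.mem_filter, Finset.mem_Ioc] at hl'
      obtain ⟨⟨hl1, hl2⟩, hl3, hl4, hl5⟩ := hl'
      have h1 := (hl l).1 ⟨hl3, hl4⟩
      have h2 : l % M = l₀ := by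
        have h3 : l % M = l₀ % M := h1
        rw [h3, Nat.mod_eq_of_lt hl₀]
      have h3 : l₀ + M * (l / M) = l := by
        rw [← h2]
        exact Nat.mod_add_div _ _
      have h4 : l₀ + M * (l / M + 1) - M = l := by
        rw [Nat.mul_succ]
        omega
      refine ⟨l / M + 1, ?_, h4⟩
      unfold ivl
      have h5 : M * (l / M + 1) = M * (l / M) + M := Nat.mul_succ _ _
      rw [Finset.mem_filter, Finset.mem_Ioc, h4]
      refine ⟨⟨?_, ?_⟩, hl5⟩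
      · rw [hN, Nat.div_lt_iff_lt_mul hM0, mul_comm (l / M + 1) M]
        omega
      · have h6 : l / M + 1 ≤ N' := by
          rw [hN', Nat.le_div_iff_mul_le hM0, mul_comm (l / M + 1) M]
          omega
        omega
  · -- the length
    have e1 := fl7_div (A + M - l₀) M hM0
    have e2 := fl7_div (B + M - l₀) M hM0
    have e3 := fl7_div W₁ m hm0
    have e4 := fl7_div W₂ m hm0
    rw [← hN, Nat.cast_sub (by omega)] at e1
    rw [← hN', Nat.cast_sub (by omega)] at e2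
    rw [← hA] at e3
    rw [← hB] at e4
    push_cast at e1 e2
    have hMr : (0 : ℝ) < M := by exact_mod_cast hM0
    have hMr2 : (2 : ℝ) ≤ M := by
      have : 2 ≤ M := by omega
      exact_mod_cast this
    have hmr : (0 : ℝ) < m := by exact_mod_cast hm0
    have hMD : (M : ℝ) = 2 * D := by
      rw [hM]
      push_cast
      ring
    rw [← hMD, Nat.cast_sub hNN]
    have e5 : ((W₂ : ℝ) - W₁) / (M * m) = (W₂ / m - W₁ / m) / M := by
      field_simp
    have e6 : ((B : ℝ) + M - l₀) / M = B / M + (M - l₀) / M := by ring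
    have e7 : ((A : ℝ) + M - l₀) / M = A / M + (M - l₀) / M := by ring
    rw [e6] at e2
    rw [e7] at e1
    have e8 : ((W₂ : ℝ) / m - W₁ / m) / M = (B : ℝ) / M - A / M + ((W₂ / m - B) - (W₁ / m - A)) / M := by ring
    have e9 : |((W₂ : ℝ) / m - B) - (W₁ / m - A)| ≤ 1 := by
      rw [abs_le]
      constructor <;> linarith [e3.1, e3.2, e4.1, e4.2]
    have e10 : |(((W₂ : ℝ) / m - B) - (W₁ / m - A)) / M| ≤ 1 := by
      rw [abs_div, abs_of_pos hMr, div_le_one hMr]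
      linarith
    rw [e5, e8]
    rw [abs_le] at e10 ⊢
    constructor <;> linarith [e10.1, e10.2, e1.1, e1.2, e2.1, e2.2]

end Pool.Agent.SVP
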