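import Pool.Agent.SVP.FL6
import Pool.Agent.SVP.FL7

set_option autoImplicit false

namespace Pool.Agent.SVP

open Finset hiding dens
open Pool.Agent.MP_f32cb9_nt (PI mem_PI sum_inv_PI sum_inv_PI_two dens chi GA HA WW VV Vb esy Wt ivl hit)

theorem fl8_ev (eL κ e₂ B4 : ℝ) (h0 : 0 < eL) (hκ : 0 < κ) (he : 0 < e₂) : ∃ X0 : ℝ, 2 ≤ X0 ∧ ∀ X : ℝ, X0 ≤ X →
    1 ≤ Real.log X ∧ 1 ≤ e₂ * Real.log X / Real.log 2 ∧ 8 * B4 ≤ eL * Real.log X ∧
    64 / κ * Real.log X ^ 2 ≤ X ^ (eL / 2) ∧ 8 ≤ X ^ (eL / 2) := by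
  have hl2 : (0 : ℝ) < Real.log 2 := Real.log_pos (by norm_num)
  have h1 : ∀ᶠ X : ℝ in Filter.atTop, 1 ≤ Real.log X := Real.tendsto_log_atTop.eventually_ge_atTop 1
  have h2 : ∀ᶠ X : ℝ in Filter.atTop, Real.log 2 / e₂ ≤ Real.log X := Real.tendsto_log_atTop.eventually_ge_atTop _
  have h3 : ∀ᶠ X : ℝ in Filter.atTop, 8 * B4 / eL ≤ Real.log X := Real.tendsto_log_atTop.eventually_ge_atTop _
  have h4 := (isLittleO_log_rpow_rpow_atTop (s := eL / 2) 2 (by positivity)).bound (c := κ / 64) (by positivity)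
  have h5 : ∀ᶠ X : ℝ in Filter.atTop, 8 ≤ X ^ (eL / 2) :=
    (tendsto_rpow_atTop (by positivity : 0 < eL / 2)).eventually_ge_atTop 8
  obtain ⟨X1, hX1⟩ := Filter.eventually_atTop.1 (h1.and (h2.and (h3.and (h4.and h5))))
  refine ⟨max X1 2, le_max_right _ _, fun X hX => ?_⟩
  obtain ⟨g1, g2, g3, g4, g5⟩ := hX1 X ((le_max_left _ _).trans hX)
  have hX0 : 0 ≤ X := by
    have := (le_max_right X1 2).trans hX
    linarith
  refine ⟨g1, ?_, ?_, ?_, g5⟩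
  · rw [div_le_iff₀ he] at g2
    rw [le_div_iff₀ hl2]
    linarith
  · rw [div_le_iff₀ h0] at g3
    linarith
  · rw [Real.norm_of_nonneg (by positivity), Real.norm_of_nonneg (by positivity), Real.rpow_two] at g4
    rw [div_mul_eq_mul_div, div_le_iff₀ hκ]
    linarith

/-- [SVP-FL8] FUNDAMENTAL LEMMA. Proof. `b` from `sieve_interval (κ eL / 64)`, `e₂ = eL / (4 (4b+6))` (≤ 1/24), `E = EE e₂ X`; for `X ≥ X0`: `E ≥ 1`,
`2^(E(4b+6)) ≤ X^(eL/4)`, `(4b+6) E ≥ (4b+6)(e₂ log X / log 2 - 1) ≥ eL log X / 8` (for large `X`). `p > X > 2^E`, `p` odd, `m ≤ X^(1-eL) < p` so `p ∤ m`. By `cnt_interval` for `D = p` and `D = 1`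
and `sieve_interval`: `|cnt_p - H_p V0| ≤ δ' H_p + R`, `|cnt_1 - H_1 V0| ≤ δ' H_1 + R`, `δ' = ε/((4b+6)E) ≤ κ/(8 log X)`, `R = (E+1) X^(eL/4)`,
`|H_p - H_1/p| ≤ 4`, `H_p ≤ W₂/(2pm) + 2`, `H_1/p ≤ W₂/(2pm) + 2`, `0 ≤ V0 ≤ 1`. Total `≤ δ' (W₂/(pm) + 4) + 2R + 4 ≤ κ W₂/(p m log X)`, since
`W₂/(pm) ≥ X^(3 eL/4) / 2` and `log X * (2R + 8) = o(X^(3 eL/4))`. -/
theorem FL (eL κ : ℝ) (h0 : 0 < eL) (h1 : eL ≤ 1 / 2) (hκ : 0 < κ) :
    ∃ e₂ X0 : ℝ, 0 < e₂ ∧ e₂ ≤ 1 / 10 ∧ 2 ≤ X0 ∧ ∀ X : ℝ, X0 ≤ X → ∀ p : ℕ, p.Prime → X < p → (p : ℝ) ≤ 2 * X →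
      ∀ m : ℕ, Odd m → (m : ℝ) ≤ X ^ (1 - eL) → ∀ W₁ W₂ : ℕ, W₁ ≤ W₂ → X ^ (2 - eL / 4) ≤ (W₂ : ℝ) →
      |(cnt (2 ^ EE e₂ X) p m W₁ W₂ : ℝ) - (cnt (2 ^ EE e₂ X) 1 m W₁ W₂ : ℝ) / p| ≤
        κ * (W₂ / (p * m * Real.log X)) := by
  obtain ⟨b, hb⟩ := sieve_interval (κ * eL / 64) (by positivity)
  obtain ⟨B4, hB4⟩ : ∃ B4 : ℝ, B4 = 4 * (b : ℝ) + 6 := ⟨_, rfl⟩
  have hB6 : 6 ≤ B4 := by
    rw [hB4]
    have : (0 : ℝ) ≤ b := Nat.cast_nonneg b
    linarith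
  have he : 0 < eL / (4 * B4) := by positivity
  obtain ⟨X0, hX2, hX0⟩ := fl8_ev eL κ (eL / (4 * B4)) B4 h0 hκ he
  have he10 : eL / (4 * B4) ≤ 1 / 10 := by
    rw [div_le_iff₀ (by positivity)]
    linarith
  refine ⟨eL / (4 * B4), X0, he, he10, hX2, fun X hX p hp hXp hp2 m hm hmX W₁ W₂ hW hW2 => ?_⟩
  obtain ⟨g1, g2, g3, g4, g5⟩ := hX0 X hX
  have hX2' : 2 ≤ X := hX2.trans hX
  have hXpos : 0 < X := by linarith
  have hX1 : 1 ≤ X := by linarith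
  have hl2 : (0 : ℝ) < Real.log 2 := Real.log_pos (by norm_num)
  have hl2' : Real.log 2 ≤ 1 := by
    have := Real.log_two_lt_d9
    linarith
  have hl2'' : 1 / 2 ≤ Real.log 2 := by
    have := Real.log_two_gt_d9
    linarith
  have hlX : 0 < Real.log X := by linarith
  obtain ⟨E, hE⟩ : ∃ E, E = EE (eL / (4 * B4)) X := ⟨_, rfl⟩
  rw [← hE]
  have hE1 : 1 ≤ E := by
    rw [hE]
    unfold EE
    exact Nat.le_floor (by exact_mod_cast g2)
  have hEle : (E : ℝ) ≤ eL / (4 * B4) * Real.log X / Real.log 2 := by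
    rw [hE]
    exact Nat.floor_le (by positivity)
  have hEge : eL / (4 * B4) * Real.log X / Real.log 2 < E + 1 := by
    rw [hE]
    exact Nat.lt_floor_add_one _
  have hE0 : (0 : ℝ) < E := by exact_mod_cast hE1
  -- the powers of two
  have hpow : (2 : ℝ) ^ E ≤ X ^ (eL / (4 * B4)) := by
    rw [← Real.rpow_natCast, Real.rpow_def_of_pos (by norm_num : (0 : ℝ) < 2), Real.rpow_def_of_pos hXpos]
    apply Real.exp_le_exp.2
    rw [le_div_iff₀ hl2] at hEle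
    linarith
  have hpow4 : (2 : ℝ) ^ (E * (4 * b + 6)) ≤ X ^ (eL / 4) := by
    rw [pow_mul]
    calc ((2 : ℝ) ^ E) ^ (4 * b + 6) ≤ (X ^ (eL / (4 * B4))) ^ (4 * b + 6) :=
          pow_le_pow_left₀ (by positivity) hpow _
      _ = X ^ (eL / 4) := by
          rw [← Real.rpow_natCast, ← Real.rpow_mul hXpos.le]
          congr 1
          push_cast
          rw [← hB4]
          field_simp
  have hBE : eL * Real.log X / 8 ≤ B4 * E := by
    have e1 : eL / (4 * B4) * Real.log X ≤ eL / (4 * B4) * Real.log X / Real.log 2 := by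
      rw [le_div_iff₀ hl2]
      have := mul_le_mul_of_nonneg_left hl2' (by positivity : 0 ≤ eL / (4 * B4) * Real.log X)
      linarith
    have e2 : eL / (4 * B4) * Real.log X - 1 ≤ E := by linarith
    have e3 : B4 * (eL / (4 * B4) * Real.log X - 1) ≤ B4 * E := mul_le_mul_of_nonneg_left e2 (by linarith)
    have e4 : B4 * (eL / (4 * B4) * Real.log X - 1) = eL * Real.log X / 4 - B4 := by
      field_simp
    linarith
  -- the primes
  have hq : ∀ q : ℕ, q.Prime → q ≤ 2 ^ E → ¬ q ∣ p := by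
    intro q hq hqE hqp
    have h2 : q = p := (Nat.prime_dvd_prime_iff_eq hq hp).1 hqp
    have h3 : (q : ℝ) ≤ X := by
      calc (q : ℝ) ≤ (2 : ℝ) ^ E := by exact_mod_cast hqE
        _ ≤ X ^ (eL / (4 * B4)) := hpow
        _ ≤ X ^ (1 : ℝ) := Real.rpow_le_rpow_of_exponent_le hX1 (by linarith)
        _ = X := Real.rpow_one X
    rw [h2] at h3
    linarith
  have hp1 : ∀ q : ℕ, q.Prime → q ≤ 2 ^ E → ¬ q ∣ 1 := fun q hq _ h => hq.one_lt.ne' (Nat.dvd_one.1 h)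
  have hpodd : Odd p := by
    rcases hp.eq_two_or_odd' with h | h
    · rw [h] at hXp
      norm_num at hXp
      linarith
    · exact h
  have hm0 : 0 < m := hm.pos
  have hmp : Nat.Coprime m p := by
    rw [Nat.coprime_comm, Nat.Prime.coprime_iff_not_dvd hp]
    intro h
    have h2 := Nat.le_of_dvd hm0 h
    have h3 : (m : ℝ) ≤ X := by
      calc (m : ℝ) ≤ X ^ (1 - eL) := hmX
        _ ≤ X ^ (1 : ℝ) := Real.rpow_le_rpow_of_exponent_le hX1 (by linarith)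
        _ = X := Real.rpow_one X
    have h4 : (p : ℝ) ≤ m := by exact_mod_cast h2
    linarith
  obtain ⟨R, N, H, hR, hc, hH⟩ := cnt_interval E p m W₁ W₂ hE1 hpodd hm hmp hq hW
  obtain ⟨R', N', H', hR', hc', hH'⟩ := cnt_interval E 1 m W₁ W₂ hE1 odd_one hm (Nat.coprime_one_right m) hp1 hW
  have s1 := hb E hE1 R hR N H
  have s2 := hb E hE1 R' hR' N' H'
  rw [← hc] at s1
  rw [← hc'] at s2
  -- the numbers
  have hmr : (0 : ℝ) < m := by exact_mod_cast hm0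
  have hpr : (0 : ℝ) < p := by linarith
  have hp1' : (1 : ℝ) ≤ p := by linarith
  have hW1r : (0 : ℝ) ≤ W₁ := Nat.cast_nonneg _
  obtain ⟨Q, hQ⟩ : ∃ Q : ℝ, Q = (W₂ : ℝ) / (p * m) := ⟨_, rfl⟩
  have hQlow : X ^ (3 * eL / 4) / 2 ≤ Q := by
    rw [hQ, le_div_iff₀ (by positivity)]
    calc X ^ (3 * eL / 4) / 2 * (p * m) ≤ X ^ (3 * eL / 4) / 2 * ((2 * X) * X ^ (1 - eL)) := by
          refine mul_le_mul_of_nonneg_left (mul_le_mul hp2 hmX hmr.le (by positivity)) (by positivity)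
      _ = X ^ (3 * eL / 4) * (X ^ (1 : ℝ) * X ^ (1 - eL)) := by
          rw [Real.rpow_one]
          ring
      _ = X ^ (2 - eL / 4) := by
          rw [← Real.rpow_add hXpos, ← Real.rpow_add hXpos]
          congr 1
          ring
      _ ≤ W₂ := hW2
  have hX34 : X ^ (3 * eL / 4) = X ^ (eL / 4) * X ^ (eL / 2) := by
    rw [← Real.rpow_add hXpos]
    congr 1
    ring
  have hX4 : 1 ≤ X ^ (eL / 4) := Real.one_le_rpow hX1 (by positivity)
  have hQ4 : 4 ≤ Q := by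
    have : 1 * 8 ≤ X ^ (eL / 4) * X ^ (eL / 2) := mul_le_mul hX4 g5 (by norm_num) (by positivity)
    rw [hX34] at hQlow
    linarith
  have hHp : (H : ℝ) ≤ Q / 2 + 2 := by
    have e1 : ((W₂ : ℝ) - W₁) / (2 * p * m) ≤ Q / 2 := by
      have e2 : ((W₂ : ℝ) - W₁) / (2 * p * m) ≤ W₂ / (2 * p * m) :=
        div_le_div_of_nonneg_right (by linarith) (by positivity)
      have e3 : (W₂ : ℝ) / (2 * p * m) = Q / 2 := by
        rw [hQ]
        field_simp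
      linarith
    have := (abs_le.1 hH).2
    linarith
  have hH1 : (H' : ℝ) / p ≤ Q / 2 + 2 := by
    have e1 : ((W₂ : ℝ) - W₁) / (2 * (1 : ℕ) * m) / p ≤ Q / 2 := by
      rw [Nat.cast_one, mul_one]
      have e2 : ((W₂ : ℝ) - W₁) / (2 * m) / p ≤ W₂ / (2 * m) / p :=
        div_le_div_of_nonneg_right (div_le_div_of_nonneg_right (by linarith) (by positivity)) hpr.le
      have e3 : (W₂ : ℝ) / (2 * m) / p = Q / 2 := by
        rw [hQ]
        field_simp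
      linarith
    have h3 := (abs_le.1 hH').2
    have h4 : (H' : ℝ) ≤ ((W₂ : ℝ) - W₁) / (2 * (1 : ℕ) * m) + 2 := by linarith
    have h5 : (H' : ℝ) / p ≤ (((W₂ : ℝ) - W₁) / (2 * (1 : ℕ) * m) + 2) / p := div_le_div_of_nonneg_right h4 hpr.le
    have h6 : (2 : ℝ) / p ≤ 2 := by
      rw [div_le_iff₀ hpr]
      linarith
    rw [add_div] at h5
    linarith
  have hHd : |(H : ℝ) - H' / p| ≤ 4 := by
    have e1 : ((W₂ : ℝ) - W₁) / (2 * (1 : ℕ) * m) / p = ((W₂ : ℝ) - W₁) / (2 * p * m) := by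
      rw [div_div]
      congr 1
      push_cast
      ring
    have e2 : (H : ℝ) - H' / p = (H - ((W₂ : ℝ) - W₁) / (2 * p * m)) -
        (H' - ((W₂ : ℝ) - W₁) / (2 * (1 : ℕ) * m)) / p := by
      rw [← e1]
      ring
    have e3 : |(H' - ((W₂ : ℝ) - W₁) / (2 * (1 : ℕ) * m)) / p| ≤ 2 := by
      rw [abs_div, abs_of_pos hpr, div_le_iff₀ hpr]
      linarith
    rw [e2]
    rw [abs_le] at e3 hH ⊢
    constructor <;> linarith [e3.1, e3.2, hH.1, hH.2]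
  -- the constants
  obtain ⟨δ, hδ⟩ : ∃ δ : ℝ, δ = κ * eL / 64 / ((4 * (b : ℝ) + 6) * E) := ⟨_, rfl⟩
  obtain ⟨Rr, hRr⟩ : ∃ Rr : ℝ, Rr = (E + 1) * (2 : ℝ) ^ (E * (4 * b + 6)) := ⟨_, rfl⟩
  rw [← hδ, ← hRr] at s1 s2
  have hδ0 : 0 ≤ δ := by
    rw [hδ, ← hB4]
    positivity
  have hR0 : 0 ≤ Rr := by
    rw [hRr]
    positivity
  have hδle : δ ≤ κ / (8 * Real.log X) := by
    rw [hδ, ← hB4, div_le_div_iff₀ (by positivity) (by positivity)]
    have := mul_le_mul_of_nonneg_left hBE hκ.le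
    linarith
  have hRle : 2 * Rr + 4 ≤ 8 * Real.log X * X ^ (eL / 4) := by
    have e1 : (E : ℝ) + 1 ≤ 2 * Real.log X := by
      have e2 : eL / (4 * B4) * Real.log X / Real.log 2 ≤ Real.log X := by
        rw [div_le_iff₀ hl2]
        have e5 := mul_le_mul_of_nonneg_right he10 hlX.le
        have e6 := mul_le_mul_of_nonneg_left hl2'' hlX.le
        linarith
      linarith
    have e3 : Rr ≤ 2 * Real.log X * X ^ (eL / 4) := by
      rw [hRr]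
      exact mul_le_mul e1 hpow4 (by positivity) (by positivity)
    have e4 : 1 ≤ Real.log X * X ^ (eL / 4) := by
      have := mul_le_mul g1 hX4 (by norm_num) (by positivity)
      linarith
    linarith
  have hR2 : 2 * Rr + 4 ≤ κ * Q / (4 * Real.log X) := by
    refine hRle.trans ?_
    rw [le_div_iff₀ (by positivity)]
    have e1 : 64 * Real.log X ^ 2 ≤ κ * X ^ (eL / 2) := by
      rw [div_mul_eq_mul_div, div_le_iff₀ hκ] at g4
      linarith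
    have e2 : κ * (X ^ (eL / 4) * X ^ (eL / 2) / 2) ≤ κ * Q := by
      rw [← hX34]
      exact mul_le_mul_of_nonneg_left hQlow hκ.le
    have e3 : X ^ (eL / 4) * (64 * Real.log X ^ 2) ≤ X ^ (eL / 4) * (κ * X ^ (eL / 2)) :=
      mul_le_mul_of_nonneg_left e1 (by positivity)
    have e4 : 8 * Real.log X * X ^ (eL / 4) * (4 * Real.log X) = X ^ (eL / 4) * (64 * Real.log X ^ 2) / 2 := by ring
    rw [e4]
    linarith
  -- the comparison
  have hV0 := V0_nonneg E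
  have hV1 := V0_le_one E
  have hH0 : (0 : ℝ) ≤ H := Nat.cast_nonneg _
  have hH0' : (0 : ℝ) ≤ H' := Nat.cast_nonneg _
  have t1 : |((cnt (2 ^ E) 1 m W₁ W₂ : ℝ) - H' * V0 E) / p| ≤ δ * (H' / p) + Rr := by
    rw [abs_div, abs_of_pos hpr, div_le_iff₀ hpr]
    have e1 : (δ * (H' / p) + Rr) * p = δ * H' + Rr * p := by
      field_simp
    rw [e1]
    have := mul_le_mul_of_nonneg_left hp1' hR0
    linarith
  have t2 : |((H : ℝ) - H' / p) * V0 E| ≤ 4 := by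
    rw [abs_mul, abs_of_nonneg hV0]
    have := mul_le_mul hHd hV1 hV0 (by norm_num : (0 : ℝ) ≤ 4)
    linarith
  have t3 : (cnt (2 ^ E) p m W₁ W₂ : ℝ) - (cnt (2 ^ E) 1 m W₁ W₂ : ℝ) / p =
      ((cnt (2 ^ E) p m W₁ W₂ : ℝ) - H * V0 E) - ((cnt (2 ^ E) 1 m W₁ W₂ : ℝ) - H' * V0 E) / p +
        ((H : ℝ) - H' / p) * V0 E := by
    ring
  have t4 : |(cnt (2 ^ E) p m W₁ W₂ : ℝ) - (cnt (2 ^ E) 1 m W₁ W₂ : ℝ) / p| ≤
      (δ * H + Rr) + (δ * (H' / p) + Rr) + 4 := by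
    rw [t3]
    rw [abs_le] at s1 t1 t2 ⊢
    constructor <;> linarith [s1.1, s1.2, t1.1, t1.2, t2.1, t2.2]
  have t5 : δ * H + δ * (H' / p) ≤ κ / (8 * Real.log X) * (2 * Q) := by
    have e1 : (H : ℝ) + H' / p ≤ 2 * Q := by linarith
    have e2 : 0 ≤ (H : ℝ) + H' / p := by positivity
    calc δ * H + δ * (H' / p) = δ * (H + H' / p) := by ring
      _ ≤ κ / (8 * Real.log X) * (2 * Q) := mul_le_mul hδle e1 e2 (by positivity)
  have e5 : κ / (8 * Real.log X) * (2 * Q) = κ * Q / (4 * Real.log X) := by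
    field_simp
    ring
  have e6 : κ * ((W₂ : ℝ) / (p * m * Real.log X)) = κ * Q / (4 * Real.log X) * 4 := by
    rw [hQ]
    field_simp
  have e7 : 0 ≤ κ * Q / (4 * Real.log X) := by
    have : 0 ≤ Q := by linarith
    positivity
  rw [e6]
  rw [e5] at t5
  linarith

end Pool.Agent.SVP
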