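import Pool.Agent.SVP.GBa

set_option autoImplicit false

namespace Pool.Agent.SVP

open Finset

/-- [SVP-GB4] Proof. A divisor of `q m` with `gw ≠ 0` is prime to `q` (all its prime factors are `> Z ≥ q`), hence divides `m`. -/
theorem Gw_mul (X : ℝ) {Z : ℕ} (L : ℝ) {q m : ℕ} (hq : q.Prime) (hqZ : q ≤ Z) (hm : m ≠ 0) :
    Gw X Z L (q * m) = Gw X Z L m := by
  unfold Gw
  symm
  apply Finset.sum_subset
  · exact Nat.divisors_subset_of_dvd (mul_ne_zero hq.ne_zero hm) (Dvd.intro_left q rfl)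
  · intro d hd hd'
    rw [Nat.mem_divisors] at hd hd'
    unfold gw
    rw [if_neg]
    rintro ⟨_, hR, _⟩
    apply hd'
    refine ⟨?_, hm⟩
    have hqd : ¬ q ∣ d := fun h => absurd (hR q hq h) (not_lt.2 hqZ)
    have hcop : Nat.Coprime d q := ((Nat.Prime.coprime_iff_not_dvd hq).2 hqd).symm
    exact hcop.dvd_of_dvd_mul_left hd.1

end Pool.Agent.SVP
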