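import Pool.Agent.SVP.T1
import Pool.Agent.SVP.GB
import Pool.Agent.SVP.FL8

set_option autoImplicit false

namespace Pool.Agent.SVP

open Finset

/-- `2^(EE e X) ≤ X^e` -/
theorem C1_two_pow_le {e X : ℝ} (he : 0 ≤ e) (hX : 1 ≤ X) : ((2 ^ EE e X : ℕ) : ℝ) ≤ X ^ e := by
  have hl := Real.log_nonneg hX
  have h2 : 0 < Real.log 2 := Real.log_pos (by norm_num)
  have h3 : (EE e X : ℝ) ≤ e * Real.log X / Real.log 2 := Nat.floor_le (by positivity)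
  rw [le_div_iff₀ h2] at h3
  have hX0 : 0 < X := by linarith
  have h4 : (2 : ℝ) ^ EE e X = Real.exp ((EE e X : ℝ) * Real.log 2) := by
    rw [Real.exp_nat_mul, Real.exp_log (by norm_num)]
  push_cast
  rw [h4, Real.rpow_def_of_pos hX0, Real.exp_le_exp]
  linarith

/-- `X^(1/10) ≤ ZZ X` -/
theorem C1_le_ZZ {X : ℝ} (hX : 1024 ≤ X) : X ^ ((1 : ℝ) / 10) ≤ (ZZ X : ℝ) := by
  have hX0 : 0 < X := by linarith
  have hX1 : 1 ≤ X := by linarith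
  set a := X ^ ((1 : ℝ) / 10) with ha
  have ha2 : 2 ≤ a := by
    have h1 : (1024 : ℝ) ^ ((1 : ℝ) / 10) ≤ X ^ ((1 : ℝ) / 10) :=
      Real.rpow_le_rpow (by norm_num) hX (by norm_num)
    have h2 : (1024 : ℝ) ^ ((1 : ℝ) / 10) = 2 := by
      rw [show (1024 : ℝ) = 2 ^ (10 : ℝ) by norm_num, ← Real.rpow_mul (by norm_num)]
      norm_num
    rw [h2] at h1
    exact h1
  have h3 : a * a ≤ X ^ ((333 : ℝ) / 1000) := by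
    rw [ha, ← Real.rpow_add hX0]
    exact Real.rpow_le_rpow_of_exponent_le hX1 (by norm_num)
  have h4 : X ^ ((333 : ℝ) / 1000) ≤ (⌈X ^ ((333 : ℝ) / 1000)⌉₊ : ℝ) := Nat.le_ceil _
  have h5 : (⌈X ^ ((333 : ℝ) / 1000)⌉₊ : ℝ) - 1 ≤ (ZZ X : ℝ) := by
    unfold ZZ
    have h6 : ⌈X ^ ((333 : ℝ) / 1000)⌉₊ ≤ (⌈X ^ ((333 : ℝ) / 1000)⌉₊ - 1) + 1 := by omega
    have h7 : (⌈X ^ ((333 : ℝ) / 1000)⌉₊ : ℝ) ≤ ((⌈X ^ ((333 : ℝ) / 1000)⌉₊ - 1 : ℕ) : ℝ) + 1 := by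
      exact_mod_cast h6
    linarith
  nlinarith

/-- [SVP-C1] Type I part. Proof. `SR_eq` for `D = p` and `D = 1`, `FL` with `κ/7`, `sum_gw`; `W₂/(p m log X)`, `∑ |gw m|/m ≤ 7`.
(`EE e₂ X`: `2^E ≤ X^(e₂) ≤ X^(1/10) - 1 ≤ ZZ X` for large `X`.) -/
theorem typeI (eL κ : ℝ) (h0 : 0 < eL) (h1 : eL ≤ 1 / 2) (hκ : 0 < κ) :
    ∃ e₂ X0 : ℝ, 0 < e₂ ∧ e₂ ≤ 1 / 10 ∧ 2 ≤ X0 ∧ ∀ X : ℝ, X0 ≤ X → ∀ p : ℕ, p.Prime → X < p → (p : ℝ) ≤ 2 * X →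
      ∀ W₁ W₂ : ℕ, W₁ ≤ W₂ → X ^ (2 - eL / 4) ≤ (W₂ : ℝ) →
      |SR X (ZZ X) (X ^ (1 - eL)) (2 ^ EE e₂ X) p W₁ W₂ - SR X (ZZ X) (X ^ (1 - eL)) (2 ^ EE e₂ X) 1 W₁ W₂ / p| ≤
        κ * (W₂ / (p * Real.log X)) := by
  obtain ⟨e₂, X1, he, he', hX1, hFL⟩ := FL eL (κ / 7) h0 h1 (by positivity)
  obtain ⟨X2, hX2, hgw⟩ := sum_gw
  refine ⟨e₂, max (max X1 X2) 1024, he, he', le_trans hX1 ((le_max_left _ _).trans (le_max_left _ _)), ?_⟩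
  intro X hX p hp hXp hp2 W₁ W₂ hW hW2
  have hXa : X1 ≤ X := ((le_max_left _ _).trans (le_max_left _ _)).trans hX
  have hXb : X2 ≤ X := ((le_max_right _ _).trans (le_max_left _ _)).trans hX
  have hXc : 1024 ≤ X := (le_max_right _ _).trans hX
  have hX1' : 1 ≤ X := by linarith
  have hlog : 0 < Real.log X := Real.log_pos (by linarith)
  have hp0 : (0 : ℝ) < p := by exact_mod_cast hp.pos
  have hLX : X ^ (1 - eL) ≤ X := by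
    have h3 := Real.rpow_le_rpow_of_exponent_le hX1' (show 1 - eL ≤ 1 by linarith)
    rwa [Real.rpow_one] at h3
  have hyZ : 2 ^ EE e₂ X ≤ ZZ X := by
    have h3 := C1_two_pow_le he.le hX1'
    have h4 := Real.rpow_le_rpow_of_exponent_le hX1' (show e₂ ≤ (1 : ℝ) / 10 by linarith)
    have h5 := (h3.trans h4).trans (C1_le_ZZ hXc)
    exact_mod_cast h5
  rw [SR_eq X (X ^ (1 - eL)) p W₁ W₂ hyZ, SR_eq X (X ^ (1 - eL)) 1 W₁ W₂ hyZ, Finset.sum_div, ← Finset.sum_sub_distrib]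
  have hterm : ∀ m ∈ (Icc 1 ⌊X ^ (1 - eL)⌋₊).filter Odd,
      |gw X (ZZ X) (X ^ (1 - eL)) m * (cnt (2 ^ EE e₂ X) p m W₁ W₂ : ℝ) -
        gw X (ZZ X) (X ^ (1 - eL)) m * (cnt (2 ^ EE e₂ X) 1 m W₁ W₂ : ℝ) / p| ≤
      (κ / 7 * (W₂ / (p * Real.log X))) * (|gw X (ZZ X) (X ^ (1 - eL)) m| / m) := by
    intro m hm
    rw [Finset.mem_filter, Finset.mem_Icc] at hm
    obtain ⟨⟨hm1, hm2⟩, hmo⟩ := hm
    have hm0 : (0 : ℝ) < m := by exact_mod_cast hm1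
    have hmL : (m : ℝ) ≤ X ^ (1 - eL) := (Nat.le_floor_iff (by positivity)).1 hm2
    have h3 := hFL X hXa p hp hXp hp2 m hmo hmL W₁ W₂ hW hW2
    rw [mul_div_assoc, ← mul_sub, abs_mul]
    calc |gw X (ZZ X) (X ^ (1 - eL)) m| *
        |(cnt (2 ^ EE e₂ X) p m W₁ W₂ : ℝ) - (cnt (2 ^ EE e₂ X) 1 m W₁ W₂ : ℝ) / p|
        ≤ |gw X (ZZ X) (X ^ (1 - eL)) m| * (κ / 7 * (W₂ / (p * m * Real.log X))) :=
          mul_le_mul_of_nonneg_left h3 (abs_nonneg _)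
      _ = (κ / 7 * (W₂ / (p * Real.log X))) * (|gw X (ZZ X) (X ^ (1 - eL)) m| / m) := by
          field_simp
  refine (Finset.abs_sum_le_sum_abs _ _).trans ((Finset.sum_le_sum hterm).trans ?_)
  rw [← Finset.mul_sum]
  have h4 := hgw X hXb (X ^ (1 - eL)) hLX
  have h5 : (0 : ℝ) ≤ κ / 7 * (W₂ / (p * Real.log X)) := by positivity
  calc (κ / 7 * (W₂ / (p * Real.log X))) * ∑ m ∈ (Icc 1 ⌊X ^ (1 - eL)⌋₊).filter Odd,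
        |gw X (ZZ X) (X ^ (1 - eL)) m| / m ≤ (κ / 7 * (W₂ / (p * Real.log X))) * 7 :=
        mul_le_mul_of_nonneg_left h4 h5
    _ = κ * (W₂ / (p * Real.log X)) := by ring

end Pool.Agent.SVP
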