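import Pool.Agent.SVP.ER4
import Pool.Agent.SVP.GB

set_option autoImplicit false

namespace Pool.Agent.SVP

open Finset

/-- [SVP-C2c] Proof. `HD_TD` for `D = p` and `D = 1` with `B = 22` (`Gw_abs`; `W₂ ≤ X²`), `K = Nat.log 2 Z + 1`, `Z ≤ 2^K`, `4^K ≤ 4 Z² ≤ 4 X^0.666`;
`(1/p)(12 K W₂/T + 8 * 4^K) ≤ 12 K W₂/(T p) + 8 * 4^K`; `E = EE e₂ X ≥ 1` for large `X`. -/
theorem HD_diff (e₂ : ℝ) (he : 0 < e₂) :
    ∃ X0 : ℝ, 2 ≤ X0 ∧ ∀ X : ℕ, X0 ≤ (X : ℝ) → ∀ T : ℕ, 1 ≤ T → T ≤ 2 ^ EE e₂ X → ∀ L : ℝ, ∀ W₁ W₂ : ℕ, W₁ ≤ W₂ →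
      (W₂ : ℝ) ≤ (X : ℝ) ^ 2 → ∀ p : ℕ, 1 ≤ p →
      |HD X (ZZ X) L (2 ^ EE e₂ X) p W₁ W₂ - HD X (ZZ X) L (2 ^ EE e₂ X) 1 W₁ W₂ / p| ≤
        |TD X (ZZ X) L T (EE e₂ X) (Nat.log 2 (ZZ X) + 1) p W₁ W₂ - TD X (ZZ X) L T (EE e₂ X) (Nat.log 2 (ZZ X) + 1) 1 W₁ W₂ / p| +
        44 * (12 * ((Nat.log 2 (ZZ X) + 1 : ℕ) : ℝ) * W₂ / (T * p) + 32 * (X : ℝ) ^ ((666 : ℝ) / 1000)) := by
  have hl2 : 0 < Real.log 2 := Real.log_pos (by norm_num)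
  refine ⟨max 2 (Real.exp (Real.log 2 / e₂)), le_max_left _ _, ?_⟩
  intro X hX T hT hTE L W₁ W₂ hW hW2 p hp
  have hX2 : (2 : ℝ) ≤ X := (le_max_left _ _).trans hX
  have hX1 : (1 : ℝ) < X := by linarith
  have hX0 : (0 : ℝ) < X := by linarith
  have hXe : Real.exp (Real.log 2 / e₂) ≤ X := (le_max_right _ _).trans hX
  have hE : 1 ≤ EE e₂ X := by
    unfold EE
    rw [Nat.one_le_floor_iff, le_div_iff₀ hl2, one_mul]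
    have h1 : Real.log 2 / e₂ ≤ Real.log X := by
      have h2 := Real.log_le_log (Real.exp_pos _) hXe
      rwa [Real.log_exp] at h2
    rw [div_le_iff₀ he] at h1
    linarith
  set Z := ZZ (X : ℝ) with hZ
  set K := Nat.log 2 Z + 1 with hK
  have hZ1 : 1 ≤ Z := one_le_ZZ hX1
  have hZK : Z ≤ 2 ^ K := (Nat.lt_pow_succ_log_self (by norm_num) Z).le
  have hB : ∀ m : ℕ, 1 ≤ m → m ≤ W₂ → |Gw X Z L m| ≤ 22 := by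
    intro m h1 h2
    refine Gw_abs hX1 L m h1 ?_
    have h3 : (m : ℝ) ≤ W₂ := by exact_mod_cast h2
    exact h3.trans hW2
  have e1 := HD_TD hB hE hT hTE hZK hp hW (by norm_num)
  have e2 := HD_TD hB hE hT hTE hZK le_rfl hW (by norm_num)
  have h4K : (4 : ℝ) ^ K ≤ 4 * (X : ℝ) ^ ((666 : ℝ) / 1000) := by
    have h1 : (2 : ℝ) ^ (Nat.log 2 Z) ≤ Z := by
      exact_mod_cast Nat.pow_log_le_self 2 (by omega)
    have h2 : (Z : ℝ) ≤ (X : ℝ) ^ ((333 : ℝ) / 1000) := (ZZ_lt hX1).1.le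
    have h3 : (4 : ℝ) ^ K = 4 * ((2 : ℝ) ^ (Nat.log 2 Z)) ^ 2 := by
      rw [hK, pow_succ, ← pow_mul, mul_comm (Nat.log 2 Z) 2, pow_mul]
      norm_num
      ring
    have h5 : (X : ℝ) ^ ((666 : ℝ) / 1000) = ((X : ℝ) ^ ((333 : ℝ) / 1000)) ^ 2 := by
      rw [← Real.rpow_natCast, ← Real.rpow_mul hX0.le]
      norm_num
    rw [h3, h5]
    have h6 : ((2 : ℝ) ^ (Nat.log 2 Z)) ^ 2 ≤ ((X : ℝ) ^ ((333 : ℝ) / 1000)) ^ 2 :=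
      pow_le_pow_left₀ (by positivity) (h1.trans h2) 2
    linarith
  have hTR : (0 : ℝ) < T := by exact_mod_cast hT
  have hpR : (1 : ℝ) ≤ p := by exact_mod_cast hp
  have hp0 : (0 : ℝ) < p := by linarith
  set HP1 := HD (X : ℝ) Z L (2 ^ EE e₂ X) p W₁ W₂ with hHP1
  set HP2 := HD (X : ℝ) Z L (2 ^ EE e₂ X) 1 W₁ W₂ with hHP2
  set TP1 := TD (X : ℝ) Z L T (EE e₂ X) K p W₁ W₂ with hTP1
  set TP2 := TD (X : ℝ) Z L T (EE e₂ X) K 1 W₁ W₂ with hTP2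
  have e3 : |(HP2 - TP2) / p| ≤ 22 * (12 * (K : ℝ) * W₂ / (T * p) + 8 * 4 ^ K) := by
    rw [abs_div, abs_of_pos hp0, div_le_iff₀ hp0]
    refine e2.trans ?_
    have h1 : 22 * (12 * (K : ℝ) * W₂ / (T * p) + 8 * 4 ^ K) * p =
        22 * (12 * (K : ℝ) * W₂ / T + 8 * 4 ^ K * p) := by
      field_simp
    rw [h1]
    push_cast
    rw [mul_one]
    have h2 : (8 : ℝ) * 4 ^ K ≤ 8 * 4 ^ K * p := by
      have h3 : (0 : ℝ) ≤ 8 * 4 ^ K := by positivity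
      nlinarith
    linarith
  have e4 : HP1 - HP2 / p = (TP1 - TP2 / p) + ((HP1 - TP1) - (HP2 - TP2) / p) := by ring
  rw [e4]
  refine (abs_add_le _ _).trans (add_le_add le_rfl ?_)
  refine (abs_sub _ _).trans ?_
  have h7 : (8 : ℝ) * 4 ^ K ≤ 32 * (X : ℝ) ^ ((666 : ℝ) / 1000) := by linarith
  linarith

end Pool.Agent.SVP
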