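import Pool.Agent.SVP.C2b
import Pool.Agent.SVP.C2c

set_option autoImplicit false

namespace Pool.Agent.SVP

open Finset

theorem C2_log (c s : ℝ) (hs : 0 < s) : ∀ᶠ x : ℝ in Filter.atTop, c * Real.log x ≤ x ^ s := by
  have h := (isLittleO_log_rpow_atTop hs).def (c := 1 / (|c| + 1)) (by positivity)
  filter_upwards [h, Filter.eventually_ge_atTop (1 : ℝ)] with x hx hx1
  have h0 : 0 ≤ Real.log x := Real.log_nonneg hx1
  have h1 : 0 ≤ x ^ s := Real.rpow_nonneg (by linarith) _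
  rw [Real.norm_of_nonneg h0, Real.norm_of_nonneg h1] at hx
  have hc : 0 < |c| + 1 := by positivity
  have h2 : (|c| + 1) * Real.log x ≤ x ^ s := by
    have := mul_le_mul_of_nonneg_left hx hc.le
    calc (|c| + 1) * Real.log x ≤ (|c| + 1) * (1 / (|c| + 1) * x ^ s) := this
      _ = x ^ s := by field_simp
  have h3 : c * Real.log x ≤ (|c| + 1) * Real.log x := by
    apply mul_le_mul_of_nonneg_right _ h0
    linarith [le_abs_self c]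
  exact h3.trans h2

theorem C2_large (κ C δ : ℝ) (hκ : 0 < κ) (hδ : 0 < δ) : ∃ X0 : ℝ, 3 ≤ X0 ∧ ∀ X : ℝ, X0 ≤ X →
    4 ≤ X ^ δ ∧ 176 * C * Real.log X ≤ X ^ δ ∧ 6 * Real.log X ≤ κ * X ^ (δ / 2) ∧
      6336 * Real.log X ^ 2 ≤ κ * X ^ δ ∧ 8448 * Real.log X ≤ κ * X ^ ((1 : ℝ) / 5) ∧ 1 ≤ Real.log X := by
  have e0 : ∀ᶠ x : ℝ in Filter.atTop, 1 ≤ Real.log x := Real.tendsto_log_atTop.eventually_ge_atTop 1
  have e1 := C2_log 4 δ hδ
  have e2 := C2_log (176 * C) δ hδ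
  have e3 := C2_log (6 / κ) (δ / 2) (by positivity)
  have e4 := C2_log (6336 / κ + 1) (δ / 2) (by positivity)
  have e5 := C2_log (8448 / κ) (1 / 5) (by norm_num)
  obtain ⟨X0, hX0⟩ := Filter.eventually_atTop.1 (e0.and (e1.and (e2.and (e3.and (e4.and e5)))))
  refine ⟨max X0 3, le_max_right _ _, ?_⟩
  intro X hX
  obtain ⟨f0, f1, f2, f3, f4, f5⟩ := hX0 X ((le_max_left _ _).trans hX)
  have hX3 : 3 ≤ X := (le_max_right _ _).trans hX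
  have hX0' : 0 < X := by linarith
  refine ⟨by linarith, f2, ?_, ?_, ?_, f0⟩
  · have := mul_le_mul_of_nonneg_left f3 hκ.le
    calc 6 * Real.log X = κ * (6 / κ * Real.log X) := by field_simp
      _ ≤ _ := this
  · have g1 : 0 ≤ (6336 / κ + 1) * Real.log X := by positivity
    have g2 := pow_le_pow_left₀ g1 f4 2
    have g3 : (X ^ (δ / 2)) ^ 2 = X ^ δ := by
      rw [← Real.rpow_natCast, ← Real.rpow_mul hX0'.le]
      congr 1
      push_cast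
      ring
    rw [g3, mul_pow] at g2
    have g4 : 6336 / κ ≤ (6336 / κ + 1) ^ 2 := by
      have : 0 ≤ 6336 / κ := by positivity
      nlinarith
    have g5 : 6336 / κ * Real.log X ^ 2 ≤ X ^ δ :=
      (mul_le_mul_of_nonneg_right g4 (sq_nonneg _)).trans g2
    have := mul_le_mul_of_nonneg_left g5 hκ.le
    calc 6336 * Real.log X ^ 2 = κ * (6336 / κ * Real.log X ^ 2) := by field_simp
      _ ≤ _ := this
  · have := mul_le_mul_of_nonneg_left f5 hκ.le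
    calc 8448 * Real.log X = κ * (8448 / κ * Real.log X) := by field_simp
      _ ≤ _ := this

theorem C2_K {X : ℝ} (hX : 3 ≤ X) (h1 : 1 ≤ Real.log X) : ((Nat.log 2 (ZZ X) + 1 : ℕ) : ℝ) ≤ 4 * Real.log X := by
  have hX1 : 1 < X := by linarith
  have hZ1 : 1 ≤ ZZ X := one_le_ZZ hX1
  have h2 : 2 ^ Nat.log 2 (ZZ X) ≤ ZZ X := Nat.pow_log_le_self 2 (by omega)
  have h3 : ((2 : ℝ)) ^ Nat.log 2 (ZZ X) ≤ X := by
    have : ((2 ^ Nat.log 2 (ZZ X) : ℕ) : ℝ) ≤ (ZZ X : ℝ) := by exact_mod_cast h2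
    have h4 : X ^ ((333 : ℝ) / 1000) ≤ X := by
      calc X ^ ((333 : ℝ) / 1000) ≤ X ^ (1 : ℝ) := Real.rpow_le_rpow_of_exponent_le hX1.le (by norm_num)
        _ = X := Real.rpow_one X
    have h5 := (ZZ_lt hX1).1
    push_cast at this
    linarith
  have h4 : (Nat.log 2 (ZZ X) : ℝ) * Real.log 2 ≤ Real.log X := by
    have := Real.log_le_log (by positivity) h3
    rwa [Real.log_pow] at this
  have h5 : (0.6931471803 : ℝ) < Real.log 2 := Real.log_two_gt_d9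
  have h6 : (0 : ℝ) ≤ (Nat.log 2 (ZZ X) : ℝ) := Nat.cast_nonneg _
  push_cast
  nlinarith

/-- Markov's inequality -/
theorem C2_markov (s : Finset ℕ) (f : ℕ → ℝ) (hf : ∀ p ∈ s, 0 ≤ f p) (a b : ℝ) (ha : 0 < a)
    (h : ∑ p ∈ s, f p ≤ a * b) : ((s.filter (fun p => a < f p)).card : ℝ) ≤ b := by
  have h1 : ((s.filter (fun p => a < f p)).card : ℝ) * a ≤ ∑ p ∈ s, f p := by
    calc ((s.filter (fun p => a < f p)).card : ℝ) * a = ∑ p ∈ s.filter (fun p => a < f p), a := by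
          rw [Finset.sum_const, nsmul_eq_mul]
      _ ≤ ∑ p ∈ s.filter (fun p => a < f p), f p :=
          Finset.sum_le_sum fun p hp => (Finset.mem_filter.1 hp).2.le
      _ ≤ ∑ p ∈ s, f p := Finset.sum_le_sum_of_subset_of_nonneg (Finset.filter_subset _ _) fun p hp _ => hf p hp
  have h2 : ((s.filter (fun p => a < f p)).card : ℝ) * a ≤ b * a := by linarith
  exact le_of_mul_le_mul_right h2 ha

/-- the final comparison -/
theorem C2_final {κ δ₁ η₁ X W p T K : ℝ} (hκ : 0 < κ) (hX : 3 ≤ X) (hl : 1 ≤ Real.log X) (hp1 : X < p) (hp2 : p ≤ 2 * X)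
    (hT : X ^ δ₁ ≤ T) (hK : K ≤ 4 * Real.log X) (hη : η₁ ≤ δ₁ / 2) (hη1 : η₁ ≤ 1 / 10)
    (hW : X ^ (2 - η₁) ≤ W) (f3 : 6 * Real.log X ≤ κ * X ^ (δ₁ / 2))
    (f4 : 6336 * Real.log X ^ 2 ≤ κ * X ^ δ₁) (f5 : 8448 * Real.log X ≤ κ * X ^ ((1 : ℝ) / 5)) :
    X ^ (1 - δ₁) + 44 * (12 * K * W / (T * p) + 32 * X ^ ((666 : ℝ) / 1000)) ≤ κ * (W / (p * Real.log X)) := by
  have hX0 : 0 < X := by linarith
  have hX1 : 1 ≤ X := by linarith
  have hp0 : 0 < p := by linarith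
  have hl0 : 0 < Real.log X := by linarith
  have hxd : 0 < X ^ δ₁ := by positivity
  have hT0 : 0 < T := lt_of_lt_of_le hxd hT
  have hW0 : 0 ≤ W := le_trans (by positivity) hW
  -- W / p ≥ X^(1-η₁)/2
  have hWp : X ^ (1 - η₁) / 2 ≤ W / p := by
    rw [le_div_iff₀ hp0]
    have e1 : X ^ (2 - η₁) = X ^ (1 - η₁) * X := by
      rw [← Real.rpow_add_one hX0.ne']
      congr 1
      ring
    calc X ^ (1 - η₁) / 2 * p ≤ X ^ (1 - η₁) / 2 * (2 * X) := mul_le_mul_of_nonneg_left hp2 (by positivity)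
      _ = X ^ (1 - η₁) * X := by ring
      _ = X ^ (2 - η₁) := e1.symm
      _ ≤ W := hW
  set R := κ * (W / (p * Real.log X)) with hR
  have hR' : R = κ * (W / p) / Real.log X := by
    rw [hR]; field_simp
  have hRge : κ * X ^ (1 - η₁) / (2 * Real.log X) ≤ R := by
    rw [hR']
    calc κ * X ^ (1 - η₁) / (2 * Real.log X) = κ * (X ^ (1 - η₁) / 2) / Real.log X := by field_simp
      _ ≤ _ := by
          apply div_le_div_of_nonneg_right _ hl0.le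
          exact mul_le_mul_of_nonneg_left hWp hκ.le
  -- (a)
  have ha : 3 * X ^ (1 - δ₁) ≤ R := by
    refine le_trans ?_ hRge
    rw [le_div_iff₀ (by positivity)]
    have e1 : X ^ (1 - δ₁) * X ^ (δ₁ / 2) ≤ X ^ (1 - η₁) := by
      rw [← Real.rpow_add hX0]
      exact Real.rpow_le_rpow_of_exponent_le hX1 (by linarith)
    calc 3 * X ^ (1 - δ₁) * (2 * Real.log X) = X ^ (1 - δ₁) * (6 * Real.log X) := by ring
      _ ≤ X ^ (1 - δ₁) * (κ * X ^ (δ₁ / 2)) := mul_le_mul_of_nonneg_left f3 (by positivity)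
      _ = κ * (X ^ (1 - δ₁) * X ^ (δ₁ / 2)) := by ring
      _ ≤ _ := mul_le_mul_of_nonneg_left e1 hκ.le
  -- (b)
  have hb : 3 * (44 * (12 * K * W / (T * p))) ≤ R := by
    have e1 : 1584 * (K * Real.log X) ≤ κ * T := by
      calc 1584 * (K * Real.log X) ≤ 1584 * (4 * Real.log X * Real.log X) := by
            apply mul_le_mul_of_nonneg_left _ (by norm_num)
            exact mul_le_mul_of_nonneg_right hK hl0.le
        _ = 6336 * Real.log X ^ 2 := by ring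
        _ ≤ κ * X ^ δ₁ := f4
        _ ≤ κ * T := mul_le_mul_of_nonneg_left hT hκ.le
    have e2 : 3 * (44 * (12 * K * W / (T * p))) = 1584 * (K * Real.log X) * (W / (T * p * Real.log X)) := by
      field_simp
      ring
    have e3 : R = κ * T * (W / (T * p * Real.log X)) := by
      rw [hR]; field_simp
    rw [e2, e3]
    exact mul_le_mul_of_nonneg_right e1 (by positivity)
  -- (c)
  have hc : 3 * (44 * (32 * X ^ ((666 : ℝ) / 1000))) ≤ R := by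
    refine le_trans ?_ hRge
    rw [le_div_iff₀ (by positivity)]
    have e1 : X ^ ((666 : ℝ) / 1000) * X ^ ((1 : ℝ) / 5) ≤ X ^ (1 - η₁) := by
      rw [← Real.rpow_add hX0]
      exact Real.rpow_le_rpow_of_exponent_le hX1 (by linarith)
    calc 3 * (44 * (32 * X ^ ((666 : ℝ) / 1000))) * (2 * Real.log X)
        = X ^ ((666 : ℝ) / 1000) * (8448 * Real.log X) := by ring
      _ ≤ X ^ ((666 : ℝ) / 1000) * (κ * X ^ ((1 : ℝ) / 5)) := mul_le_mul_of_nonneg_left f5 (by positivity)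
      _ = κ * (X ^ ((666 : ℝ) / 1000) * X ^ ((1 : ℝ) / 5)) := by ring
      _ ≤ _ := mul_le_mul_of_nonneg_left e1 hκ.le
  linarith

theorem C2_weaker {e η η' δ C : ℝ} (h : TypeIIat e η δ C) (hη : η' ≤ η) : TypeIIat e η' δ C := by
  intro X N M hX h1 h2 h3 h4 α β hα hβ hβ'
  refine h X N M hX h1 h2 (le_trans ?_ h3) h4 α β hα hβ hβ'
  apply Real.rpow_le_rpow_of_exponent_le
  · exact_mod_cast (by omega : 1 ≤ X)
  · linarith

/-- [SVP-C2] Type II part. Proof. `e = min (1/3000) (e₂/2)`, `η, δ, C` from `TypeII e` (one may replace `η` by `min η 1`: `TypeIIat` with a smaller `η` is weaker); `δ₁ = min δ e₂ / 4`, `T = ⌊X^δ₁⌋₊ + 1` (`T ≤ 2^E` for large `X`, since `2^E ≥ X^e₂/2`),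
`K = Nat.log 2 Z + 1 ≤ 2 log X`, `η₁ = min η δ₁ / 2`. `TD_mean`: `∑_p |TD_p - TD_1/p| ≤ K T 22 C X^(2-δ) ≤ X^(2 - 2 δ₁)` for large `X` (`δ ≥ 4 δ₁`, `T ≤ 2 X^δ₁`, `K ≤ X^(δ₁/2)`..). Markov: all `p` outside a set of at most
`X^(1-δ₁)` primes have `|TD_p - TD_1/p| ≤ X^(1-δ₁)`. `HD_diff`: `|HD_p - HD_1/p| ≤ X^(1-δ₁) + 44 (12 K W₂/(T p) + 32 X^0.666) ≤ κ W₂/(p log X)` for large `X`, because `W₂/p ≥ X^(1-η₁)/2`, `η₁ ≤ δ₁/2`, `T ≥ X^δ₁`.
For small `X` enlarge `C` (the set has at most `X` elements). -/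
theorem typeII_part (hII : TypeII) (eL κ e₂ : ℝ) (h0 : 0 < eL) (h1 : eL ≤ 1 / 2) (hκ : 0 < κ) (he : 0 < e₂) (he1 : e₂ ≤ 1 / 10) :
    ∃ η₁ δ₁ C : ℝ, 0 < η₁ ∧ η₁ ≤ 1 ∧ 0 < δ₁ ∧ 0 < C ∧ ∀ X : ℕ, 2 ≤ X → ∀ W₁ W₂ : ℕ, (X : ℝ) ^ (2 - η₁) ≤ W₁ → W₁ ≤ W₂ →
      (W₂ : ℝ) ≤ (X : ℝ) ^ 2 → 2 * W₂ ≤ 3 * W₁ →
      ((((Ioc X (2 * X)).filter Nat.Prime).filter (fun p : ℕ => κ * ((W₂ : ℝ) / (p * Real.log X)) <
        |HD X (ZZ X) ((X : ℝ) ^ (1 - eL)) (2 ^ EE e₂ X) p W₁ W₂ - HD X (ZZ X) ((X : ℝ) ^ (1 - eL)) (2 ^ EE e₂ X) 1 W₁ W₂ / p|)).card : ℝ) ≤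
        C * (X : ℝ) ^ (1 - δ₁) := by
  have hmin : 0 < min (1 / 3000) (e₂ / 2) := lt_min (by norm_num) (by linarith)
  have hmin3 : min (1 / 3000) (e₂ / 2) < 1 / 3 := lt_of_le_of_lt (min_le_left _ _) (by norm_num)
  obtain ⟨η0, δ, C, hη0, hδ, hC, hat0⟩ := hII (min (1 / 3000) (e₂ / 2)) hmin hmin3
  have hη : 0 < min η0 1 := lt_min hη0 one_pos
  have hη1 : min η0 1 ≤ 1 := min_le_right _ _
  have hat : TypeIIat (min (1 / 3000) (e₂ / 2)) (min η0 1) δ C := C2_weaker hat0 (min_le_left _ _)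
  generalize min η0 1 = η at hη hη1 hat
  obtain ⟨Xa, hXa2, hTD⟩ := TD_mean he he1 hη hη1 hC hat
  obtain ⟨Xb, hXb2, hHD⟩ := HD_diff e₂ he
  set δ₁ := min δ e₂ / 4 with hδ₁
  have hδ₁0 : 0 < δ₁ := by
    have : 0 < min δ e₂ := lt_min hδ he
    positivity
  have hδ4 : 4 * δ₁ ≤ δ := by
    have := min_le_left δ e₂
    rw [hδ₁]; linarith
  have he4 : 4 * δ₁ ≤ e₂ := by
    have := min_le_right δ e₂
    rw [hδ₁]; linarith
  set η₁ := min η δ₁ / 2 with hη₁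
  have hη₁0 : 0 < η₁ := by
    have : 0 < min η δ₁ := lt_min hη hδ₁0
    positivity
  have hη₁a : η₁ ≤ η / 2 := by
    have := min_le_left η δ₁
    rw [hη₁]; linarith
  have hη₁b : η₁ ≤ δ₁ / 2 := by
    have := min_le_right η δ₁
    rw [hη₁]; linarith
  obtain ⟨Xc, hXc3, hlarge⟩ := C2_large κ C δ₁ hκ hδ₁0
  have hδ₁1 : δ₁ ≤ 1 / 40 := by linarith
  refine ⟨η₁, δ₁, max (max Xa Xb) Xc, hη₁0, by linarith, hδ₁0, ?_, ?_⟩
  · exact lt_of_lt_of_le (by linarith) (le_max_right (max Xa Xb) Xc)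
  intro X hX2 W₁ W₂ hW1 hW12 hW2 hWW
  have hXr : (2 : ℝ) ≤ X := by exact_mod_cast hX2
  have hX1 : (1 : ℝ) ≤ X := by linarith
  have hpow1 : 1 ≤ (X : ℝ) ^ (1 - δ₁) := Real.one_le_rpow hX1 (by linarith)
  have hC1 : 1 ≤ max (max Xa Xb) Xc := le_trans (by linarith) (le_max_right (max Xa Xb) Xc)
  rcases lt_or_ge (X : ℝ) (max (max Xa Xb) Xc) with hsmall | hbig
  · -- small X
    have c1 : (((Ioc X (2 * X)).filter Nat.Prime).filter (fun p : ℕ => κ * ((W₂ : ℝ) / (p * Real.log X)) <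
        |HD X (ZZ X) ((X : ℝ) ^ (1 - eL)) (2 ^ EE e₂ X) p W₁ W₂ -
          HD X (ZZ X) ((X : ℝ) ^ (1 - eL)) (2 ^ EE e₂ X) 1 W₁ W₂ / p|)).card ≤ X := by
      refine (Finset.card_filter_le _ _).trans ((Finset.card_filter_le _ _).trans ?_)
      rw [Nat.card_Ioc]
      omega
    calc ((((Ioc X (2 * X)).filter Nat.Prime).filter (fun p : ℕ => κ * ((W₂ : ℝ) / (p * Real.log X)) <
        |HD X (ZZ X) ((X : ℝ) ^ (1 - eL)) (2 ^ EE e₂ X) p W₁ W₂ -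
          HD X (ZZ X) ((X : ℝ) ^ (1 - eL)) (2 ^ EE e₂ X) 1 W₁ W₂ / p|)).card : ℝ)
        ≤ (X : ℝ) := by exact_mod_cast c1
      _ ≤ max (max Xa Xb) Xc * 1 := by rw [mul_one]; exact hsmall.le
      _ ≤ _ := mul_le_mul_of_nonneg_left hpow1 (by linarith)
  -- large X
  have hXa : Xa ≤ X := ((le_max_left Xa Xb).trans (le_max_left _ _)).trans hbig
  have hXb : Xb ≤ X := ((le_max_right Xa Xb).trans (le_max_left _ _)).trans hbig
  have hXc : Xc ≤ X := (le_max_right _ _).trans hbig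
  obtain ⟨f1, f2, f3, f4, f5, f0⟩ := hlarge X hXc
  have hX3 : (3 : ℝ) ≤ X := hXc3.trans hXc
  have hX0 : (0 : ℝ) < X := by linarith
  set T := ⌊(X : ℝ) ^ δ₁⌋₊ + 1 with hT
  have hT1 : 1 ≤ T := by omega
  have hTge : (X : ℝ) ^ δ₁ ≤ (T : ℝ) := by
    rw [hT]; push_cast
    exact (Nat.lt_floor_add_one _).le
  have hTle : (T : ℝ) ≤ 2 * (X : ℝ) ^ δ₁ := by
    have : ((⌊(X : ℝ) ^ δ₁⌋₊ : ℕ) : ℝ) ≤ (X : ℝ) ^ δ₁ := Nat.floor_le (by positivity)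
    rw [hT]; push_cast
    linarith
  have hTE : T ≤ 2 ^ EE e₂ X := by
    have g1 : (X : ℝ) ^ e₂ ≤ 2 * (2 : ℝ) ^ EE e₂ X := C2b_EE hX1
    have g2 : (X : ℝ) ^ δ₁ * (X : ℝ) ^ δ₁ ≤ (X : ℝ) ^ e₂ := by
      rw [← Real.rpow_add hX0]
      exact Real.rpow_le_rpow_of_exponent_le hX1 (by linarith)
    have g3 : 4 * (X : ℝ) ^ δ₁ ≤ (X : ℝ) ^ δ₁ * (X : ℝ) ^ δ₁ := mul_le_mul_of_nonneg_right f1 (by positivity)
    have g4 : (T : ℝ) ≤ (2 : ℝ) ^ EE e₂ X := by linarith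
    exact_mod_cast g4
  have hK := C2_K hX3 f0
  have hW1' : (X : ℝ) ^ (2 - η / 2) ≤ W₁ := le_trans (Real.rpow_le_rpow_of_exponent_le hX1 (by linarith)) hW1
  have hmean := hTD X hXa T hT1 ((X : ℝ) ^ (1 - eL)) W₁ W₂ hW1' hW12 hW2 hWW
  have hdiff := hHD X hXb T hT1 hTE ((X : ℝ) ^ (1 - eL)) W₁ W₂ hW12 hW2
  have hWr : (X : ℝ) ^ (2 - η₁) ≤ (W₂ : ℝ) := hW1.trans (by exact_mod_cast hW12)
  -- the mean value is small
  have hsum : ∑ p ∈ (Ioc X (2 * X)).filter Nat.Prime,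
        |TD X (ZZ X) ((X : ℝ) ^ (1 - eL)) T (EE e₂ X) (Nat.log 2 (ZZ X) + 1) p W₁ W₂ -
          TD X (ZZ X) ((X : ℝ) ^ (1 - eL)) T (EE e₂ X) (Nat.log 2 (ZZ X) + 1) 1 W₁ W₂ / p| ≤
        (X : ℝ) ^ (1 - δ₁) * (X : ℝ) ^ (1 - δ₁) := by
    refine hmean.trans ?_
    have g0 : (X : ℝ) ^ (2 - δ) ≤ (X : ℝ) ^ (2 - 4 * δ₁) := Real.rpow_le_rpow_of_exponent_le hX1 (by linarith)
    have g1 : (0 : ℝ) ≤ ((Nat.log 2 (ZZ X) + 1 : ℕ) : ℝ) := Nat.cast_nonneg _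
    generalize ((Nat.log 2 (ZZ X) + 1 : ℕ) : ℝ) = K at hK g1
    calc K * T * (22 * C * (X : ℝ) ^ (2 - δ))
        ≤ (4 * Real.log X) * (2 * (X : ℝ) ^ δ₁) * (22 * C * (X : ℝ) ^ (2 - 4 * δ₁)) := by
          apply mul_le_mul
          · exact mul_le_mul hK hTle (Nat.cast_nonneg _) (by positivity)
          · exact mul_le_mul_of_nonneg_left g0 (by positivity)
          · positivity
          · positivity
      _ = (176 * C * Real.log X) * ((X : ℝ) ^ δ₁ * (X : ℝ) ^ (2 - 4 * δ₁)) := by ring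
      _ ≤ (X : ℝ) ^ δ₁ * ((X : ℝ) ^ δ₁ * (X : ℝ) ^ (2 - 4 * δ₁)) :=
          mul_le_mul_of_nonneg_right f2 (by positivity)
      _ = (X : ℝ) ^ (1 - δ₁) * (X : ℝ) ^ (1 - δ₁) := by
          rw [← Real.rpow_add hX0, ← Real.rpow_add hX0, ← Real.rpow_add hX0]
          congr 1
          ring
  have hmk := C2_markov ((Ioc X (2 * X)).filter Nat.Prime) (fun p =>
      |TD X (ZZ X) ((X : ℝ) ^ (1 - eL)) T (EE e₂ X) (Nat.log 2 (ZZ X) + 1) p W₁ W₂ -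
          TD X (ZZ X) ((X : ℝ) ^ (1 - eL)) T (EE e₂ X) (Nat.log 2 (ZZ X) + 1) 1 W₁ W₂ / p|)
      (fun p _ => abs_nonneg _) ((X : ℝ) ^ (1 - δ₁)) ((X : ℝ) ^ (1 - δ₁)) (by positivity) hsum
  refine le_trans ?_ (hmk.trans ?_)
  · have hsub : ((Ioc X (2 * X)).filter Nat.Prime).filter (fun p : ℕ => κ * ((W₂ : ℝ) / (p * Real.log X)) <
        |HD X (ZZ X) ((X : ℝ) ^ (1 - eL)) (2 ^ EE e₂ X) p W₁ W₂ -
          HD X (ZZ X) ((X : ℝ) ^ (1 - eL)) (2 ^ EE e₂ X) 1 W₁ W₂ / p|) ⊆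
        ((Ioc X (2 * X)).filter Nat.Prime).filter (fun p : ℕ => (X : ℝ) ^ (1 - δ₁) <
          |TD X (ZZ X) ((X : ℝ) ^ (1 - eL)) T (EE e₂ X) (Nat.log 2 (ZZ X) + 1) p W₁ W₂ -
          TD X (ZZ X) ((X : ℝ) ^ (1 - eL)) T (EE e₂ X) (Nat.log 2 (ZZ X) + 1) 1 W₁ W₂ / p|) := by
      intro p hp
      rw [Finset.mem_filter] at hp ⊢
      refine ⟨hp.1, ?_⟩
      by_contra hcon
      rw [not_lt] at hcon
      have hpI := (Finset.mem_Ioc.1 (Finset.mem_filter.1 hp.1).1)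
      have hp1 : (X : ℝ) < p := by exact_mod_cast hpI.1
      have hp2 : (p : ℝ) ≤ 2 * X := by exact_mod_cast hpI.2
      have g1 := hdiff p (by omega)
      have g2 := C2_final (W := W₂) (K := ((Nat.log 2 (ZZ X) + 1 : ℕ) : ℝ)) hκ hX3 f0 hp1 hp2 hTge hK
        hη₁b (by linarith) hWr f3 f4 f5
      have g3 := hp.2
      linarith
    exact_mod_cast Finset.card_le_card hsub
  · calc (X : ℝ) ^ (1 - δ₁) = 1 * (X : ℝ) ^ (1 - δ₁) := (one_mul _).symm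
      _ ≤ _ := mul_le_mul_of_nonneg_right hC1 (by positivity)

end Pool.Agent.SVP
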