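import Pool.Agent.SVP.T2
import Pool.Agent.SVP.GB

set_option autoImplicit false

namespace Pool.Agent.SVP

open Finset

theorem C2b_EE {e X : ℝ} (hX : 1 ≤ X) : X ^ e ≤ 2 * (2 : ℝ) ^ EE e X := by
  have hX0 : 0 < X := by linarith
  have hl2 : 0 < Real.log 2 := Real.log_pos one_lt_two
  have h1 : e * Real.log X / Real.log 2 < (EE e X : ℝ) + 1 := Nat.lt_floor_add_one _
  have h2 : e * Real.log X < ((EE e X : ℝ) + 1) * Real.log 2 := (div_lt_iff₀ hl2).1 h1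
  have h3 : Real.exp (((EE e X : ℝ) + 1) * Real.log 2) = 2 * (2 : ℝ) ^ EE e X := by
    rw [add_mul, Real.exp_add, one_mul, Real.exp_log two_pos, Real.exp_nat_mul, Real.exp_log two_pos]
    ring
  rw [Real.rpow_def_of_pos hX0, ← h3]
  apply Real.exp_le_exp.2
  linarith

/-- the natural number division `h4` -/
theorem C2b_div {W₁ W₂ y y' : ℕ} (hy : 1 ≤ y) (hyy : y ≤ y') (h3 : 3 * y ≤ W₁) (h : 2 * W₂ ≤ 3 * W₁) :
    W₂ / y' ≤ 2 * (W₁ / y) := by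
  have h1 : W₂ / y' ≤ W₂ / y := Nat.div_le_div_left hyy (by omega)
  refine h1.trans ?_
  have ha : 3 ≤ W₁ / y := (Nat.le_div_iff_mul_le (by omega)).2 h3
  have hb : W₁ < (W₁ / y + 1) * y := by
    have := Nat.lt_div_mul_add (a := W₁) (b := y) (by omega)
    rw [add_mul, one_mul]
    exact this
  generalize W₁ / y = a at ha hb
  have hc : W₂ < (2 * a + 1) * y := by nlinarith
  have := (Nat.div_lt_iff_lt_mul (by omega : 0 < y)).2 hc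
  omega

/-- [SVP-C2b] Proof. `Z = ZZ X`, `E = EE e₂ X`, `K = Nat.log 2 Z + 1`. For `E ≤ k < K` and large `X`: `2^k ≥ 2^E ≥ X^e₂/2 ≥ X^(e₂/2) ≥ X^e`; `2^k ≤ Z ≤ X^0.333 ≤ X^(1/3-e)` as `e ≤ 1/3000`;
`y = yy T k i ≤ 2^(k+1)`, so `(W₁/y) 2^k ≥ W₁/2 - 2^k ≥ X^(2-η)` (`W₁ ≥ X^(2-η/2)`); `W₂/y' ≤ (3/2) W₁/y ≤ 2 ⌊W₁/y⌋` as `W₁/y ≥ 4`. `T2_piece` with `B = 22` (`Gw_abs`), `T2_sum` with `F = 22 C X^(2-δ)`. -/
theorem TD_mean {e₂ η δ C : ℝ} (he : 0 < e₂) (he1 : e₂ ≤ 1 / 10) (hη : 0 < η) (hη1 : η ≤ 1) (hC : 0 < C)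
    (hII : TypeIIat (min (1 / 3000) (e₂ / 2)) η δ C) :
    ∃ X0 : ℝ, 2 ≤ X0 ∧ ∀ X : ℕ, X0 ≤ (X : ℝ) → ∀ T : ℕ, 1 ≤ T → ∀ L : ℝ, ∀ W₁ W₂ : ℕ, (X : ℝ) ^ (2 - η / 2) ≤ W₁ → W₁ ≤ W₂ →
      (W₂ : ℝ) ≤ (X : ℝ) ^ 2 → 2 * W₂ ≤ 3 * W₁ →
      ∑ p ∈ (Ioc X (2 * X)).filter Nat.Prime,
        |TD X (ZZ X) L T (EE e₂ X) (Nat.log 2 (ZZ X) + 1) p W₁ W₂ - TD X (ZZ X) L T (EE e₂ X) (Nat.log 2 (ZZ X) + 1) 1 W₁ W₂ / p| ≤
        ((Nat.log 2 (ZZ X) + 1 : ℕ) : ℝ) * T * (22 * C * (X : ℝ) ^ (2 - δ)) := by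
  refine ⟨max (max 6 ((2 : ℝ) ^ (2 / e₂))) ((4 : ℝ) ^ (2 / η)), ?_, ?_⟩
  · exact le_trans (by norm_num) ((le_max_left (6 : ℝ) _).trans (le_max_left _ _))
  intro X hX T hT L W₁ W₂ hW1 hW12 hW2 hWW
  have hX6 : (6 : ℝ) ≤ X := ((le_max_left (6 : ℝ) _).trans (le_max_left _ _)).trans hX
  have hXa : (2 : ℝ) ^ (2 / e₂) ≤ X := ((le_max_right (6 : ℝ) _).trans (le_max_left _ _)).trans hX
  have hXb : (4 : ℝ) ^ (2 / η) ≤ X := (le_max_right _ _).trans hX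
  have hX1 : (1 : ℝ) < X := by linarith
  have hX0 : (0 : ℝ) < X := by linarith
  have hX2 : 2 ≤ X := by exact_mod_cast (by linarith : (2 : ℝ) ≤ X)
  set e := min (1 / 3000) (e₂ / 2) with he_def
  have hee : e ≤ e₂ / 2 := min_le_right _ _
  have hee' : e ≤ 1 / 3000 := min_le_left _ _
  -- `X^(e₂/2) ≥ 2`, `X^(η/2) ≥ 4`
  have hA : (2 : ℝ) ≤ (X : ℝ) ^ (e₂ / 2) := by
    have := Real.rpow_le_rpow (by positivity) hXa (by positivity : (0 : ℝ) ≤ e₂ / 2)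
    rw [← Real.rpow_mul (by norm_num)] at this
    have e1 : 2 / e₂ * (e₂ / 2) = 1 := by field_simp
    rwa [e1, Real.rpow_one] at this
  have hB : (4 : ℝ) ≤ (X : ℝ) ^ (η / 2) := by
    have := Real.rpow_le_rpow (by positivity) hXb (by positivity : (0 : ℝ) ≤ η / 2)
    rw [← Real.rpow_mul (by norm_num)] at this
    have e1 : 2 / η * (η / 2) = 1 := by field_simp
    rwa [e1, Real.rpow_one] at this
  apply T2_sum
  swap
  · positivity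
  intro k hk i hi
  rw [Finset.mem_Ico] at hk
  rw [Finset.mem_range] at hi
  obtain ⟨hk1, hk2⟩ := hk
  have hZ1 : 1 ≤ ZZ X := one_le_ZZ hX1
  have hkZ : 2 ^ k ≤ ZZ X := by
    have : k ≤ Nat.log 2 (ZZ X) := by omega
    exact (Nat.pow_le_pow_right (by norm_num) this).trans (Nat.pow_log_le_self 2 (by omega))
  have hkX : ((2 ^ k : ℕ) : ℝ) ≤ (X : ℝ) ^ ((333 : ℝ) / 1000) := by
    have : ((2 ^ k : ℕ) : ℝ) ≤ (ZZ X : ℝ) := by exact_mod_cast hkZ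
    exact this.trans (ZZ_lt hX1).1.le
  have hkX2 : ((2 ^ k : ℕ) : ℝ) ≤ (X : ℝ) ^ ((1 : ℝ) / 2) :=
    hkX.trans (Real.rpow_le_rpow_of_exponent_le hX1.le (by norm_num))
  have hX32 : 6 * (X : ℝ) ^ ((1 : ℝ) / 2) ≤ (X : ℝ) ^ (2 - η / 2) := by
    calc 6 * (X : ℝ) ^ ((1 : ℝ) / 2) ≤ X * (X : ℝ) ^ ((1 : ℝ) / 2) :=
          mul_le_mul_of_nonneg_right hX6 (by positivity)
      _ = (X : ℝ) ^ (1 + (1 : ℝ) / 2) := by rw [Real.rpow_add hX0, Real.rpow_one]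
      _ ≤ _ := Real.rpow_le_rpow_of_exponent_le hX1.le (by linarith)
  have hyk : yy T k i ≤ 2 ^ (k + 1) := yy_le hi.le
  have hky : 2 ^ k ≤ yy T k i := le_yy T k i
  have h2k : 1 ≤ 2 ^ k := Nat.one_le_two_pow
  have hy3 : 3 * yy T k i ≤ W₁ := by
    have h1 : (3 : ℝ) * yy T k i ≤ W₁ := by
      have h2 : (yy T k i : ℝ) ≤ 2 * (2 ^ k : ℕ) := by
        have : yy T k i ≤ 2 * 2 ^ k := by rw [pow_succ] at hyk; omega
        exact_mod_cast this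
      linarith
    exact_mod_cast h1
  refine T2_piece (e := e) (η := η) (δ := δ) (C := C) hII hC.le hX2 hi ?_ ?_ ?_ ?_ ?_ (by norm_num) ?_
  · -- h1
    have h1 : (X : ℝ) ^ e₂ ≤ 2 * (2 : ℝ) ^ EE e₂ X := C2b_EE hX1.le
    have h2 : (2 : ℝ) ^ EE e₂ X ≤ (2 : ℝ) ^ k := pow_le_pow_right₀ (by norm_num) hk1
    have h3 : (X : ℝ) ^ e₂ = (X : ℝ) ^ (e₂ / 2) * (X : ℝ) ^ (e₂ / 2) := by
      rw [← Real.rpow_add hX0]; congr 1; ring
    have h4 : (X : ℝ) ^ e ≤ (X : ℝ) ^ (e₂ / 2) := Real.rpow_le_rpow_of_exponent_le hX1.le hee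
    have h5 : (X : ℝ) ^ (e₂ / 2) ≤ (2 : ℝ) ^ k := by
      have : 2 * (X : ℝ) ^ (e₂ / 2) ≤ 2 * (2 : ℝ) ^ k := by
        calc 2 * (X : ℝ) ^ (e₂ / 2) ≤ (X : ℝ) ^ (e₂ / 2) * (X : ℝ) ^ (e₂ / 2) :=
              mul_le_mul_of_nonneg_right hA (by positivity)
          _ = (X : ℝ) ^ e₂ := h3.symm
          _ ≤ 2 * (2 : ℝ) ^ EE e₂ X := h1
          _ ≤ _ := by linarith
      linarith
    push_cast
    linarith
  · -- h2
    exact hkX.trans (Real.rpow_le_rpow_of_exponent_le hX1.le (by linarith))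
  · -- h3
    have hdiv : (W₁ : ℝ) < (((W₁ / yy T k i : ℕ) : ℝ) + 1) * yy T k i := by
      have h0 : W₁ < (W₁ / yy T k i + 1) * yy T k i := by
        have := Nat.lt_div_mul_add (a := W₁) (b := yy T k i) (by omega)
        rw [add_mul, one_mul]
        exact this
      exact_mod_cast h0
    have h2 : (yy T k i : ℝ) ≤ 2 * (2 ^ k : ℕ) := by
      have : yy T k i ≤ 2 * 2 ^ k := by rw [pow_succ] at hyk; omega
      exact_mod_cast this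
    have ha0 : (0 : ℝ) ≤ ((W₁ / yy T k i : ℕ) : ℝ) := Nat.cast_nonneg _
    generalize ((W₁ / yy T k i : ℕ) : ℝ) = a at hdiv ha0
    generalize ((2 ^ k : ℕ) : ℝ) = b at h2 hkX hkX2
    have h5 : (W₁ : ℝ) ≤ (a + 1) * (2 * b) :=
      hdiv.le.trans (mul_le_mul_of_nonneg_left h2 (by linarith))
    have h6 : (X : ℝ) ^ (2 - η / 2) = (X : ℝ) ^ (2 - η) * (X : ℝ) ^ (η / 2) := by
      rw [← Real.rpow_add hX0]; congr 1; ring
    have h7 : 4 * (X : ℝ) ^ (2 - η) ≤ (X : ℝ) ^ (2 - η / 2) := by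
      rw [h6, mul_comm]
      exact mul_le_mul_of_nonneg_left hB (by positivity)
    have h8 : (X : ℝ) ^ ((1 : ℝ) / 2) ≤ (X : ℝ) ^ (2 - η) :=
      Real.rpow_le_rpow_of_exponent_le hX1.le (by linarith)
    have h9 : a * b = ((a + 1) * (2 * b)) / 2 - b := by ring
    rw [h9]
    linarith
  · -- hW1
    have : (W₁ : ℝ) ≤ W₂ := by exact_mod_cast hW12
    linarith
  · -- h4
    exact C2b_div (by omega) (yy_mono T k (Nat.le_succ i)) hy3 hWW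
  · -- hB
    intro m hm1 hm2
    refine Gw_abs hX1 L m hm1 ?_
    have : (m : ℝ) ≤ W₂ := by exact_mod_cast hm2
    exact this.trans hW2

end Pool.Agent.SVP
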