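import Pool.Agent.SVP.DE
import Pool.Agent.SVP.C1
import Pool.Agent.SVP.C2

set_option autoImplicit false

namespace Pool.Agent.SVP

open Finset

/-- the primes of `(X, 2X]` for which the sum over the `Z`-rough elements is not as expected -/
noncomputable def badW (eL κ : ℝ) (X W₁ W₂ : ℕ) : Finset ℕ :=
  ((Ioc X (2 * X)).filter Nat.Prime).filter (fun p : ℕ => κ * ((W₂ : ℝ) / (p * Real.log X)) <
    |SR X (ZZ X) ((X : ℝ) ^ (1 - eL)) (ZZ X) p W₁ W₂ - SR X (ZZ X) ((X : ℝ) ^ (1 - eL)) (ZZ X) 1 W₁ W₂ / p|)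

/-- [SVP-C3] Proof. `SR_split` for `D = p` and `D = 1` (`2^E ≤ ZZ X` for `X ≥ X0`), `typeI` and `typeII_part` with `κ/2`; `η₁ ≤ eL/4` so that `typeI` applies. For `X < X0` enlarge `C`. -/
theorem core (hII : TypeII) (eL κ : ℝ) (h0 : 0 < eL) (h1 : eL ≤ 1 / 2) (hκ : 0 < κ) :
    ∃ η₁ δ₁ C : ℝ, 0 < η₁ ∧ 0 < δ₁ ∧ 0 < C ∧ ∀ X : ℕ, 2 ≤ X → ∀ W₁ W₂ : ℕ, (X : ℝ) ^ (2 - η₁) ≤ W₁ → W₁ ≤ W₂ →
      (W₂ : ℝ) ≤ (X : ℝ) ^ 2 → 2 * W₂ ≤ 3 * W₁ → ((badW eL κ X W₁ W₂).card : ℝ) ≤ C * (X : ℝ) ^ (1 - δ₁) := by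
  obtain ⟨e₂, X0, he0, he1, hX0, hI⟩ := typeI eL (κ / 2) h0 h1 (by linarith)
  obtain ⟨η, δ₁, C, hη, hη1, hδ, hC, hT⟩ := typeII_part hII eL (κ / 2) e₂ h0 h1 (by linarith) he0 he1
  have hX00 : (0 : ℝ) < max X0 1024 := lt_of_lt_of_le (by norm_num) (le_max_right _ _)
  refine ⟨min η (eL / 4), δ₁, max C ((max X0 1024) ^ δ₁), lt_min hη (by linarith), hδ,
    lt_max_of_lt_left hC, ?_⟩
  intro X hX W₁ W₂ hW1 hW hW2 h23
  have hX1 : (1 : ℝ) ≤ X := by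
    have : 1 ≤ X := by omega
    exact_mod_cast this
  have hXpos : (0 : ℝ) < X := by linarith
  rcases le_or_gt (max X0 1024) (X : ℝ) with hbig | hsmall
  · have hXa : X0 ≤ X := (le_max_left _ _).trans hbig
    have hXb : (1024 : ℝ) ≤ X := (le_max_right _ _).trans hbig
    have hXgt : (1 : ℝ) < X := by linarith
    have hEZ : 2 ^ EE e₂ X ≤ ZZ X := by
      have hl2 : 0 < Real.log 2 := Real.log_pos (by norm_num)
      have hlX : 0 < Real.log X := Real.log_pos hXgt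
      have q1 : ((2 : ℝ) ^ EE e₂ X) ≤ (X : ℝ) ^ e₂ := by
        have q2 : ((EE e₂ X : ℕ) : ℝ) ≤ e₂ * Real.log X / Real.log 2 := Nat.floor_le (by positivity)
        rw [le_div_iff₀ hl2] at q2
        have q3 : ((2 : ℝ) ^ EE e₂ X) = Real.exp ((EE e₂ X : ℝ) * Real.log 2) := by
          rw [← Real.rpow_natCast, Real.rpow_def_of_pos (by norm_num), mul_comm]
        rw [q3, Real.rpow_def_of_pos hXpos]
        apply Real.exp_le_exp.2
        linarith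
      have q4 : (X : ℝ) ^ e₂ ≤ (X : ℝ) ^ ((1 : ℝ) / 10) :=
        Real.rpow_le_rpow_of_exponent_le hX1 he1
      have q5 : (2 : ℝ) ≤ (X : ℝ) ^ ((1 : ℝ) / 10) := by
        have q6 : (1024 : ℝ) ^ ((1 : ℝ) / 10) ≤ (X : ℝ) ^ ((1 : ℝ) / 10) :=
          Real.rpow_le_rpow (by norm_num) hXb (by norm_num)
        have q7 : (1024 : ℝ) ^ ((1 : ℝ) / 10) = 2 := by
          have q8 : (1024 : ℝ) = 2 ^ (10 : ℝ) := by norm_num
          rw [q8, ← Real.rpow_mul (by norm_num)]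
          norm_num
        linarith
      have q9 : ((X : ℝ) ^ ((1 : ℝ) / 10)) ^ 3 ≤ (X : ℝ) ^ ((333 : ℝ) / 1000) := by
        rw [← Real.rpow_natCast, ← Real.rpow_mul hXpos.le]
        apply Real.rpow_le_rpow_of_exponent_le hX1
        norm_num
      have q10 := (ZZ_lt hXgt).2
      have q11 : ((2 : ℝ) ^ EE e₂ X) + 1 ≤ (ZZ X : ℝ) + 1 := by
        refine le_trans ?_ q10
        refine le_trans ?_ q9
        set t := (X : ℝ) ^ ((1 : ℝ) / 10) with ht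
        have q12 : ((2 : ℝ) ^ EE e₂ X) ≤ t := q1.trans q4
        nlinarith [mul_nonneg (sub_nonneg.2 q5) (sub_nonneg.2 q5), sq_nonneg t]
      have q13 : ((2 : ℝ) ^ EE e₂ X) ≤ (ZZ X : ℝ) := by linarith
      exact_mod_cast q13
    have hW1a : (X : ℝ) ^ (2 - η) ≤ W₁ :=
      (Real.rpow_le_rpow_of_exponent_le hX1 (by linarith [min_le_left η (eL / 4)])).trans hW1
    have hW2a : (X : ℝ) ^ (2 - eL / 4) ≤ W₂ := by
      have q1 : (X : ℝ) ^ (2 - eL / 4) ≤ W₁ :=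
        (Real.rpow_le_rpow_of_exponent_le hX1 (by linarith [min_le_right η (eL / 4)])).trans hW1
      have q2 : (W₁ : ℝ) ≤ W₂ := by exact_mod_cast hW
      exact q1.trans q2
    have hfin := hT X hX W₁ W₂ hW1a hW hW2 h23
    have hsub : badW eL κ X W₁ W₂ ⊆
        (((Ioc X (2 * X)).filter Nat.Prime).filter (fun p : ℕ => κ / 2 * ((W₂ : ℝ) / (p * Real.log X)) <
        |HD X (ZZ X) ((X : ℝ) ^ (1 - eL)) (2 ^ EE e₂ X) p W₁ W₂ - HD X (ZZ X) ((X : ℝ) ^ (1 - eL)) (2 ^ EE e₂ X) 1 W₁ W₂ / p|)) := by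
      intro p hp
      unfold badW at hp
      rw [Finset.mem_filter] at hp
      rw [Finset.mem_filter]
      refine ⟨hp.1, ?_⟩
      obtain ⟨hp1, hp2⟩ := hp
      rw [Finset.mem_filter, Finset.mem_Ioc] at hp1
      obtain ⟨⟨hpX, hp2X⟩, hpp⟩ := hp1
      have r1 := hI X hXa p hpp (by exact_mod_cast hpX) (by exact_mod_cast hp2X) W₁ W₂ hW hW2a
      rw [SR_split X _ p W₁ W₂ hEZ, SR_split X _ 1 W₁ W₂ hEZ] at r1
      set A1 := SR (X : ℝ) (ZZ X) ((X : ℝ) ^ (1 - eL)) (ZZ X) p W₁ W₂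
      set A2 := SR (X : ℝ) (ZZ X) ((X : ℝ) ^ (1 - eL)) (ZZ X) 1 W₁ W₂
      set B1 := HD (X : ℝ) (ZZ X) ((X : ℝ) ^ (1 - eL)) (2 ^ EE e₂ X) p W₁ W₂
      set B2 := HD (X : ℝ) (ZZ X) ((X : ℝ) ^ (1 - eL)) (2 ^ EE e₂ X) 1 W₁ W₂
      have r2 : A1 - A2 / p = (A1 + B1 - (A2 + B2) / p) - (B1 - B2 / p) := by ring
      rw [r2] at hp2
      have r3 := abs_sub (A1 + B1 - (A2 + B2) / p) (B1 - B2 / p)
      linarith
    have hc := Finset.card_le_card hsub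
    have hcR : ((badW eL κ X W₁ W₂).card : ℝ) ≤ _ := (Nat.cast_le (α := ℝ)).2 hc
    refine (hcR.trans hfin).trans ?_
    exact mul_le_mul_of_nonneg_right (le_max_left _ _) (by positivity)
  · have hcard : (badW eL κ X W₁ W₂).card ≤ X := by
      unfold badW
      refine (Finset.card_filter_le _ _).trans ((Finset.card_filter_le _ _).trans ?_)
      rw [Nat.card_Ioc]
      omega
    have hcardR : ((badW eL κ X W₁ W₂).card : ℝ) ≤ X := by exact_mod_cast hcard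
    refine hcardR.trans ?_
    have q1 : (X : ℝ) = (X : ℝ) ^ δ₁ * (X : ℝ) ^ (1 - δ₁) := by
      rw [← Real.rpow_add hXpos]
      have : δ₁ + (1 - δ₁) = 1 := by ring
      rw [this, Real.rpow_one]
    have q2 : (X : ℝ) ^ δ₁ ≤ (max X0 1024) ^ δ₁ := Real.rpow_le_rpow hXpos.le hsmall.le hδ.le
    calc (X : ℝ) = (X : ℝ) ^ δ₁ * (X : ℝ) ^ (1 - δ₁) := q1
      _ ≤ max C ((max X0 1024) ^ δ₁) * (X : ℝ) ^ (1 - δ₁) :=
        mul_le_mul_of_nonneg_right (q2.trans (le_max_right _ _)) (by positivity)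

end Pool.Agent.SVP
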