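import Pool.Agent.SVP.GB

set_option autoImplicit false

namespace Pool.Agent.SVP

open Finset

private theorem de_minFac {q m : ℕ} (hq : q.Prime) (h : Rg (q - 1) m) : (q * m).minFac = q := by
  have h2 := hq.two_le
  apply le_antisymm (Nat.minFac_le_of_dvd h2 (dvd_mul_right q m))
  have hne : q * m ≠ 1 := by
    intro h1
    have := Nat.eq_one_of_mul_eq_one_right h1
    omega
  have hp : (q * m).minFac.Prime := Nat.minFac_prime hne
  rcases (hp.dvd_mul).mp (Nat.minFac_dvd (q * m)) with h1 | h1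
  · exact ((Nat.prime_dvd_prime_iff_eq hp hq).mp h1).ge
  · have := h _ hp h1
    omega

/-- [SVP-DE] Proof. The `y`-rough `n ∈ AA` are the `Z`-rough ones (as `y ≤ Z`) and those with `q := n.minFac ≤ Z` (`n ≠ 1`, `q` prime, `q > y`); the latter are in bijection
with `HP`: `n ↦ (q, n / q)`, inverse `(q, m) ↦ q m` (a prime factor of `q m` is `q` or divides `m`, hence is `≥ q`; so `minFac (q m) = q`); `Gw n = Gw (n/q)` by `Gw_mul`. -/
theorem SR_split (X : ℝ) {Z : ℕ} (L : ℝ) {y : ℕ} (D W₁ W₂ : ℕ) (hy : y ≤ Z) :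
    SR X Z L y D W₁ W₂ = SR X Z L Z D W₁ W₂ + HD X Z L y D W₁ W₂ := by
  classical
  unfold SR HD
  rw [← Finset.sum_filter_add_sum_filter_not ((AA D W₁ W₂).filter (fun n => Rg y n))
    (fun n => Rg Z n)]
  congr 1
  · refine Finset.sum_congr ?_ (fun _ _ => rfl)
    rw [Finset.filter_filter]
    apply Finset.filter_congr
    intro n _
    exact ⟨fun h => h.2, fun h => ⟨fun q hq hd => lt_of_le_of_lt hy (h q hq hd), h⟩⟩
  · have key : ∀ n ∈ ((AA D W₁ W₂).filter (fun n => Rg y n)).filter (fun n => ¬ Rg Z n),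
        n.minFac.Prime ∧ n.minFac ≤ Z ∧ 1 ≤ n ∧ n ≤ W₂ ∧ y < n.minFac ∧ n ∈ AA D W₁ W₂ := by
      intro n hn
      rw [Finset.mem_filter, Finset.mem_filter] at hn
      obtain ⟨⟨h1, h2⟩, h3⟩ := hn
      have h4 : W₁ < n ∧ n ≤ W₂ := by
        unfold AA at h1
        rw [Finset.mem_filter, Finset.mem_Ioc] at h1
        exact h1.1
      unfold Rg at h3
      push Not at h3
      obtain ⟨q, hq, hd, hqZ⟩ := h3
      have h5 : n.minFac ≤ q := Nat.minFac_le_of_dvd hq.two_le hd
      have h6 : n ≠ 1 := by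
        intro h
        rw [h] at hd
        exact hq.one_lt.ne' (Nat.dvd_one.mp hd)
      have h7 := Nat.minFac_prime h6
      exact ⟨h7, h5.trans hqZ, by omega, h4.2, h2 _ h7 (Nat.minFac_dvd n), h1⟩
    refine Finset.sum_nbij' (fun n => (n.minFac, n / n.minFac)) (fun c => c.1 * c.2) ?_ ?_ ?_ ?_ ?_
    · intro n hn
      obtain ⟨h1, h2, h3, h4, h5, h6⟩ := key n hn
      have hd := Nat.minFac_dvd n
      have hmul : n.minFac * (n / n.minFac) = n := Nat.mul_div_cancel' hd
      unfold HP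
      rw [Finset.mem_filter, Finset.mem_product, Finset.mem_filter, Finset.mem_Ioc, Finset.mem_Icc]
      refine ⟨⟨⟨⟨h5, h2⟩, h1⟩, ⟨?_, ?_⟩⟩, ?_, ?_⟩
      · exact Nat.div_pos (Nat.le_of_dvd h3 hd) h1.pos
      · exact (Nat.div_le_self _ _).trans h4
      · change n.minFac * (n / n.minFac) ∈ _
        rw [hmul]
        exact h6
      · intro q hq hqd
        have h7 : q ∣ n := hqd.trans (Nat.div_dvd_of_dvd hd)
        have h8 : n.minFac ≤ q := Nat.minFac_le_of_dvd hq.two_le h7
        have h9 := h1.two_le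
        change n.minFac - 1 < q
        omega
    · intro c hc
      unfold HP at hc
      rw [Finset.mem_filter, Finset.mem_product, Finset.mem_filter, Finset.mem_Ioc,
        Finset.mem_Icc] at hc
      obtain ⟨⟨⟨⟨h1, h2⟩, h3⟩, h4, h5⟩, h6, h7⟩ := hc
      rw [Finset.mem_filter, Finset.mem_filter]
      refine ⟨⟨h6, ?_⟩, ?_⟩
      · intro r hr hd
        rcases (hr.dvd_mul).mp hd with h8 | h8
        · rw [(Nat.prime_dvd_prime_iff_eq hr h3).mp h8]
          exact h1
        · have := h7 r hr h8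
          omega
      · intro h
        have := h c.1 h3 (dvd_mul_right _ _)
        omega
    · intro n hn
      exact Nat.mul_div_cancel' (Nat.minFac_dvd n)
    · intro c hc
      unfold HP at hc
      rw [Finset.mem_filter, Finset.mem_product, Finset.mem_filter, Finset.mem_Ioc,
        Finset.mem_Icc] at hc
      obtain ⟨⟨⟨⟨h1, h2⟩, h3⟩, h4, h5⟩, h6, h7⟩ := hc
      have h8 := de_minFac h3 h7
      refine Prod.ext ?_ ?_
      · exact h8
      · change c.1 * c.2 / (c.1 * c.2).minFac = c.2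
        rw [h8]
        exact Nat.mul_div_cancel_left _ h3.pos
    · intro n hn
      obtain ⟨h1, h2, h3, h4, h5, h6⟩ := key n hn
      have hd := Nat.minFac_dvd n
      have hmul : n.minFac * (n / n.minFac) = n := Nat.mul_div_cancel' hd
      have h7 : n / n.minFac ≠ 0 := (Nat.div_pos (Nat.le_of_dvd h3 hd) h1.pos).ne'
      have h8 := Gw_mul X L h1 h2 h7
      rw [hmul] at h8
      exact h8

end Pool.Agent.SVP
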