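import Mathlib

/-!
# [SVP] Sieve reduction (block SV of project TII, MP_2f88e5_nt): definitions

Sizes: `X` large, `Z = ZZ X` (so `q > Z ↔ q ≥ X^(333/1000)`), `L = X^(1-eL)`, `z₀ = 2^E`, `E = EE e₂ X`.
Window `(W₁, W₂]`, `X^(2-η₁) ≤ W₁ ≤ W₂ ≤ X²`, `2 W₂ ≤ 3 W₁`.
-/

set_option autoImplicit false

namespace Pool.Agent.SVP

open Finset

/-- every prime factor exceeds `y` -/
def Rg (y n : ℕ) : Prop := ∀ q : ℕ, q.Prime → q ∣ n → y < q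

noncomputable instance Rg.dec (y n : ℕ) : Decidable (Rg y n) := Classical.dec _

/-- the weight of a product of two primes -/
noncomputable def psi (X : ℝ) (m : ℕ) : ℝ := min 1 (8 * (Real.log m / Real.log X) - 6)

/-- the sieve weight: `1, -1, psi` on the squarefree `m ≤ L` with `0, 1, 2` prime factors, all `> Z` -/
noncomputable def gw (X : ℝ) (Z : ℕ) (L : ℝ) (m : ℕ) : ℝ :=
  if Squarefree m ∧ Rg Z m ∧ (m : ℝ) ≤ L then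
    (if m.primeFactors.card = 0 then 1
      else if m.primeFactors.card = 1 then -1
      else if m.primeFactors.card = 2 then psi X m else 0)
  else 0

/-- the minorant as a divisor sum -/
noncomputable def Gw (X : ℝ) (Z : ℕ) (L : ℝ) (n : ℕ) : ℝ := ∑ m ∈ n.divisors, gw X Z L m

/-- the odd `n ∈ (W₁, W₂]` with `n ≡ 1 mod D` -/
def AA (D W₁ W₂ : ℕ) : Finset ℕ := (Ioc W₁ W₂).filter (fun n => Odd n ∧ n ≡ 1 [MOD D])

/-- the sum of the minorant over the `y`-rough elements of `AA` -/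
noncomputable def SR (X : ℝ) (Z : ℕ) (L : ℝ) (y D W₁ W₂ : ℕ) : ℝ :=
  ∑ n ∈ (AA D W₁ W₂).filter (fun n => Rg y n), Gw X Z L n

/-- the pairs `(q, m)`, `q m ∈ AA`, `q` a prime in `(y, Z]`, all the prime factors of `m` at least `q` -/
noncomputable def HP (y Z D W₁ W₂ : ℕ) : Finset (ℕ × ℕ) :=
  (((Ioc y Z).filter Nat.Prime) ×ˢ (Icc 1 W₂)).filter
    (fun c => c.1 * c.2 ∈ AA D W₁ W₂ ∧ Rg (c.1 - 1) c.2)

/-- the sum of the minorant over `HP` -/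
noncomputable def HD (X : ℝ) (Z : ℕ) (L : ℝ) (y D W₁ W₂ : ℕ) : ℝ :=
  ∑ c ∈ HP y Z D W₁ W₂, Gw X Z L c.2

/-- the grid points of `(2^k, 2^(k+1)]`, cut in `T` pieces -/
def yy (T k i : ℕ) : ℕ := 2 ^ k + i * 2 ^ k / T

/-- the pairs `(q, m)` of the bilinear form of the piece `(k, i)` -/
noncomputable def TP (Z T k i D W₁ W₂ : ℕ) : Finset (ℕ × ℕ) :=
  (((Ioc (yy T k i) (yy T k (i + 1))).filter (fun q => q.Prime ∧ q ≤ Z)) ×ˢ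
    (Ioc (W₁ / yy T k i) (W₂ / yy T k (i + 1)))).filter
    (fun c => Odd c.2 ∧ Rg (yy T k (i + 1)) c.2 ∧ c.1 * c.2 ≡ 1 [MOD D])

/-- the sum of the minorant over all `TP`, `k ∈ [E, K)`, `i < T` -/
noncomputable def TD (X : ℝ) (Z : ℕ) (L : ℝ) (T E K D W₁ W₂ : ℕ) : ℝ :=
  ∑ k ∈ Ico E K, ∑ i ∈ range T, ∑ c ∈ TP Z T k i D W₁ W₂, Gw X Z L c.2

/-- the number of `y`-rough odd `l` with `m l ∈ (W₁, W₂]`, `m l ≡ 1 mod D` -/
noncomputable def cnt (y D m W₁ W₂ : ℕ) : ℕ :=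
  ((Ioc (W₁ / m) (W₂ / m)).filter (fun l => Odd l ∧ m * l ≡ 1 [MOD D] ∧ Rg y l)).card

/-- `q > ZZ X ↔ q ≥ X^(333/1000)` -/
noncomputable def ZZ (X : ℝ) : ℕ := ⌈X ^ ((333 : ℝ) / 1000)⌉₊ - 1

/-- `2^(EE e X) ≤ X^e < 2^(EE e X + 1)` -/
noncomputable def EE (e X : ℝ) : ℕ := ⌊e * Real.log X / Real.log 2⌋₊

/-- the Type II estimate (project TII) for given constants -/
def TypeIIat (e η δ C : ℝ) : Prop := ∀ X N M : ℕ, 2 ≤ X → (X : ℝ) ^ e ≤ N → (N : ℝ) ≤ (X : ℝ) ^ (1 / 3 - e) →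
    (X : ℝ) ^ (2 - η) ≤ (M : ℝ) * N → (M : ℝ) * N ≤ (X : ℝ) ^ 2 →
    ∀ α β : ℕ → ℝ, (∀ m, |α m| ≤ 1) → (∀ n, |β n| ≤ 1) → (∀ n, ¬ n.Prime → β n = 0) →
      ∑ p ∈ (Ioc X (2 * X)).filter Nat.Prime,
        |∑ m ∈ Ioc M (2 * M), ∑ n ∈ Ioc N (2 * N),
          α m * β n * ((if m * n ≡ 1 [MOD p] then 1 else 0) - 1 / (p : ℝ))| ≤
      C * (X : ℝ) ^ (1 - δ) * ((M : ℝ) * N) / X

/-- the Type II estimate (project TII) -/
def TypeII : Prop := ∀ e : ℝ, 0 < e → e < 1 / 3 → ∃ η δ C : ℝ, 0 < η ∧ 0 < δ ∧ 0 < C ∧ TypeIIat e η δ C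

end Pool.Agent.SVP
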