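import Pool.Agent.SVP.Defs

set_option autoImplicit false

namespace Pool.Agent.SVP

open Finset

theorem yy_zero (T k : ℕ) : yy T k 0 = 2 ^ k := by
  unfold yy; simp

theorem yy_T {T : ℕ} (hT : 1 ≤ T) (k : ℕ) : yy T k T = 2 ^ (k + 1) := by
  unfold yy
  rw [Nat.mul_div_cancel_left _ (by omega), pow_succ]
  ring

theorem yy_mono (T k : ℕ) : Monotone (yy T k) := by
  intro i j hij
  unfold yy
  have : i * 2 ^ k / T ≤ j * 2 ^ k / T := Nat.div_le_div_right (Nat.mul_le_mul_right _ hij)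
  omega

theorem le_yy (T k i : ℕ) : 2 ^ k ≤ yy T k i := by
  unfold yy
  exact Nat.le_add_right _ _

theorem yy_le {T k i : ℕ} (hi : i ≤ T) : yy T k i ≤ 2 ^ (k + 1) := by
  rcases Nat.eq_zero_or_pos T with hT | hT
  · subst hT
    unfold yy
    rw [pow_succ]
    simp
  · rw [← yy_T hT]
    exact yy_mono T k hi

/-- [SVP-ER1a] length of a piece. Proof. `(a + b) / T ≤ a / T + b / T + 1` and `2^k / T ≥ 1`. -/
theorem yy_succ_sub {T k i : ℕ} (hT : 1 ≤ T) (hTk : T ≤ 2 ^ k) :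
    ((yy T k (i + 1) - yy T k i : ℕ) : ℝ) ≤ 2 * 2 ^ k / T := by
  have hTpos : 0 < T := hT
  have h1 : yy T k (i + 1) - yy T k i ≤ 2 ^ k / T + 1 := by
    unfold yy
    have h2 : (i + 1) * 2 ^ k / T ≤ i * 2 ^ k / T + 2 ^ k / T + 1 := by
      rw [add_mul, one_mul]
      have h3 := Nat.div_add_mod (i * 2 ^ k) T
      have h4 := Nat.div_add_mod (2 ^ k) T
      have h5 := Nat.mod_lt (i * 2 ^ k) hTpos
      have h6 := Nat.mod_lt (2 ^ k) hTpos
      have h7 : i * 2 ^ k + 2 ^ k < (i * 2 ^ k / T + 2 ^ k / T + 1 + 1) * T := by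
        have h8 : (i * 2 ^ k / T + 2 ^ k / T + 1 + 1) * T =
            T * (i * 2 ^ k / T) + T * (2 ^ k / T) + T + T := by ring
        rw [h8]
        omega
      exact Nat.lt_succ_iff.mp ((Nat.div_lt_iff_lt_mul hTpos).mpr h7)
    rw [Nat.sub_le_iff_le_add]
    linarith
  have h2 : 1 ≤ 2 ^ k / T := (Nat.one_le_div_iff hTpos).mpr hTk
  have h3 : yy T k (i + 1) - yy T k i ≤ 2 * (2 ^ k / T) := by omega
  have h4 : ((2 ^ k / T : ℕ) : ℝ) ≤ ((2 ^ k : ℕ) : ℝ) / (T : ℝ) := Nat.cast_div_le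
  have h5 : ((yy T k (i + 1) - yy T k i : ℕ) : ℝ) ≤ ((2 * (2 ^ k / T) : ℕ) : ℝ) := by
    exact_mod_cast h3
  refine h5.trans ?_
  rw [Nat.cast_mul, mul_div_assoc]
  have h6 : ((2 ^ k : ℕ) : ℝ) = 2 ^ k := by push_cast; rfl
  rw [h6] at h4
  have h7 : ((2 : ℕ) : ℝ) = 2 := by norm_num
  rw [h7]
  linarith

/-- [SVP-ER1b] Proof. `k = Nat.log 2 (q-1)`, so `2^k < q ≤ 2^(k+1)`, `i` = the first `i` with `q ≤ yy T k (i+1)`; uniqueness by monotonicity. -/
theorem grid {T E K q : ℕ} (hT : 1 ≤ T) (h1 : 2 ^ E < q) (h2 : q ≤ 2 ^ K) :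
    ∃! c : ℕ × ℕ, c ∈ Ico E K ×ˢ range T ∧ q ∈ Ioc (yy T c.1 c.2) (yy T c.1 (c.2 + 1)) := by
  classical
  have hq1 : 2 ≤ q := by
    have : 1 ≤ 2 ^ E := Nat.one_le_two_pow
    omega
  obtain ⟨k, hk1, hk2⟩ : ∃ k, 2 ^ k < q ∧ q ≤ 2 ^ (k + 1) := by
    refine ⟨Nat.log 2 (q - 1), ?_, ?_⟩
    · have := Nat.pow_log_le_self 2 (x := q - 1) (by omega)
      omega
    · have := Nat.lt_pow_succ_log_self (b := 2) (by norm_num) (q - 1)
      omega
  have hex : ∃ i, q ≤ yy T k (i + 1) := ⟨T - 1, by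
    rw [Nat.sub_add_cancel hT, yy_T hT]
    exact hk2⟩
  have hi1 := Nat.find_spec hex
  have hi2 : ∀ j, j < Nat.find hex → yy T k (j + 1) < q := fun j hj => by
    have := Nat.find_min hex hj
    omega
  have hiT : Nat.find hex < T := by
    have : Nat.find hex ≤ T - 1 := Nat.find_min' hex (by
      rw [Nat.sub_add_cancel hT, yy_T hT]
      exact hk2)
    omega
  have hEk : E ≤ k := by
    have h3 : 2 ^ E < 2 ^ (k + 1) := lt_of_lt_of_le h1 hk2
    have := (Nat.pow_lt_pow_iff_right (by norm_num : 1 < 2)).mp h3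
    omega
  have hkK : k < K := (Nat.pow_lt_pow_iff_right (by norm_num : 1 < 2)).mp (lt_of_lt_of_le hk1 h2)
  refine ⟨(k, Nat.find hex), ⟨?_, ?_⟩, ?_⟩
  · rw [Finset.mem_product, Finset.mem_Ico, Finset.mem_range]
    exact ⟨⟨hEk, hkK⟩, hiT⟩
  · rw [Finset.mem_Ioc]
    refine ⟨?_, hi1⟩
    change yy T k (Nat.find hex) < q
    rcases Nat.eq_zero_or_pos (Nat.find hex) with h | h
    · rw [h, yy_zero]
      exact hk1
    · have h3 := hi2 (Nat.find hex - 1) (by omega)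
      rwa [Nat.sub_add_cancel h] at h3
  · rintro ⟨k', i'⟩ ⟨h3, h4⟩
    rw [Finset.mem_product, Finset.mem_Ico, Finset.mem_range] at h3
    rw [Finset.mem_Ioc] at h4
    obtain ⟨⟨h5, h6⟩, h7⟩ := h3
    obtain ⟨h8, h9⟩ := h4
    change i' < T at h7
    change yy T k' i' < q at h8
    change q ≤ yy T k' (i' + 1) at h9
    have h10 : 2 ^ k' < q := lt_of_le_of_lt (le_yy T k' i') h8
    have h11 : q ≤ 2 ^ (k' + 1) := h9.trans (yy_le h7)
    have hkk : k' = k := by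
      have h12 : k' < k + 1 :=
        (Nat.pow_lt_pow_iff_right (by norm_num : 1 < 2)).mp (lt_of_lt_of_le h10 hk2)
      have h13 : k < k' + 1 :=
        (Nat.pow_lt_pow_iff_right (by norm_num : 1 < 2)).mp (lt_of_lt_of_le hk1 h11)
      omega
    subst hkk
    have hii : i' = Nat.find hex := by
      have h12 : Nat.find hex ≤ i' := Nat.find_min' hex h9
      by_contra hne
      have h13 : Nat.find hex + 1 ≤ i' := by omega
      have h14 := yy_mono T k' h13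
      omega
    rw [hii]

end Pool.Agent.SVP
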