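import Pool.Agent.SVP.ER1

set_option autoImplicit false

namespace Pool.Agent.SVP

open Finset

/-- the pairs of `HP` with `q` in the piece `(k, i)` -/
noncomputable def HQ (E Z T k i D W₁ W₂ : ℕ) : Finset (ℕ × ℕ) :=
  (HP (2 ^ E) Z D W₁ W₂).filter (fun c => c.1 ∈ Ioc (yy T k i) (yy T k (i + 1)))

/-- [SVP-ER2a] Proof. `grid` (`q ≤ Z ≤ 2^K`): `Finset.sum_fiberwise`-style. -/
theorem HD_pieces (X : ℝ) {Z : ℕ} (L : ℝ) {T E K : ℕ} (D W₁ W₂ : ℕ) (hT : 1 ≤ T) (hZ : Z ≤ 2 ^ K) :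
    HD X Z L (2 ^ E) D W₁ W₂ = ∑ k ∈ Ico E K, ∑ i ∈ range T, ∑ c ∈ HQ E Z T k i D W₁ W₂, Gw X Z L c.2 := by
  classical
  rw [← Finset.sum_product' (Ico E K) (range T)
    (fun k i => ∑ c ∈ HQ E Z T k i D W₁ W₂, Gw X Z L c.2)]
  unfold HQ HD
  simp_rw [Finset.sum_filter]
  rw [Finset.sum_comm]
  refine Finset.sum_congr rfl (fun c hc => ?_)
  have hc1 : c.1 ∈ (Ioc (2 ^ E) Z).filter Nat.Prime := by
    unfold HP at hc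
    exact (Finset.mem_product.1 (Finset.mem_filter.1 hc).1).1
  have hc2 := Finset.mem_Ioc.1 (Finset.mem_filter.1 hc1).1
  obtain ⟨x, ⟨hx1, hx2⟩, hx3⟩ := grid (T := T) (E := E) (K := K) (q := c.1) hT hc2.1 (hc2.2.trans hZ)
  rw [Finset.sum_eq_single x]
  · rw [if_pos hx2]
  · intro y hy hyx
    rw [if_neg]
    intro h
    exact hyx (hx3 y ⟨hy, h⟩)
  · intro h
    exact absurd hx1 h

/-- [SVP-ER2b] Proof. `m > W₁ / y` gives `W₁ < y m < q m`; `m ≤ W₂ / y'` gives `q m ≤ y' m ≤ W₂`, `m ≤ W₂`; `q > y ≥ 2^k ≥ 2^E ≥ 2` is an odd prime, so `q m` is odd;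
`Rg y' m` implies `Rg (q-1) m` as `q ≤ y'`. -/
theorem TP_sub {E Z T k i D W₁ W₂ : ℕ} (hE : 1 ≤ E) (hk : E ≤ k) :
    TP Z T k i D W₁ W₂ ⊆ HQ E Z T k i D W₁ W₂ := by
  intro c hc
  unfold TP at hc
  obtain ⟨hc1, hodd, hrg, hmod⟩ := Finset.mem_filter.1 hc
  obtain ⟨hq, hm⟩ := Finset.mem_product.1 hc1
  obtain ⟨hq1, hqp, hqZ⟩ := Finset.mem_filter.1 hq
  obtain ⟨hqa, hqb⟩ := Finset.mem_Ioc.1 hq1
  obtain ⟨hma, hmb⟩ := Finset.mem_Ioc.1 hm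
  have hy2 : 2 ^ E ≤ yy T k i := (Nat.pow_le_pow_right (by norm_num) hk).trans (le_yy T k i)
  have h2E : 2 ≤ 2 ^ E := by
    calc 2 = 2 ^ 1 := by norm_num
      _ ≤ 2 ^ E := Nat.pow_le_pow_right (by norm_num) hE
  have hypos : 0 < yy T k i := by omega
  have hy'pos : 0 < yy T k (i + 1) := by omega
  have hm1 : W₁ < c.2 * yy T k i := (Nat.div_lt_iff_lt_mul hypos).1 hma
  have hm2 : c.2 * yy T k (i + 1) ≤ W₂ := (Nat.le_div_iff_mul_le hy'pos).1 hmb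
  have hqodd : Odd c.1 := hqp.odd_of_ne_two (by omega)
  have hW1 : W₁ < c.1 * c.2 := by
    calc W₁ < c.2 * yy T k i := hm1
      _ ≤ c.2 * c.1 := Nat.mul_le_mul_left _ hqa.le
      _ = c.1 * c.2 := Nat.mul_comm _ _
  have hW2 : c.1 * c.2 ≤ W₂ := by
    calc c.1 * c.2 = c.2 * c.1 := Nat.mul_comm _ _
      _ ≤ c.2 * yy T k (i + 1) := Nat.mul_le_mul_left _ hqb
      _ ≤ W₂ := hm2
  have hm3 : c.2 ≤ W₂ := by
    calc c.2 = c.2 * 1 := (Nat.mul_one _).symm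
      _ ≤ c.2 * yy T k (i + 1) := Nat.mul_le_mul_left _ hy'pos
      _ ≤ W₂ := hm2
  have hm4 : 1 ≤ c.2 := Nat.lt_of_le_of_lt (Nat.zero_le _) hma
  unfold HQ HP AA
  refine Finset.mem_filter.2 ⟨Finset.mem_filter.2 ⟨Finset.mem_product.2
    ⟨Finset.mem_filter.2 ⟨Finset.mem_Ioc.2 ⟨by omega, hqZ⟩, hqp⟩, Finset.mem_Icc.2 ⟨hm4, hm3⟩⟩,
    Finset.mem_filter.2 ⟨Finset.mem_Ioc.2 ⟨hW1, hW2⟩, hqodd.mul hodd, hmod⟩, ?_⟩,
    Finset.mem_Ioc.2 ⟨hqa, hqb⟩⟩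
  intro p hp hpd
  have := hrg p hp hpd
  omega

end Pool.Agent.SVP
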