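import Mathlib

set_option autoImplicit false

namespace Pool.Agent.SVP

open Finset

/-- [SVP-ER3a] solutions of a congruence in an interval: the number of `m` with `u < m ≤ v`, `a m ≡ 1 mod D` is at most `(v - u)/D + 1`. Proof. If there is a solution then `gcd (a, D) = 1`, so two solutions differ by a multiple of `D`;
take the smallest and the largest one (or `Int.Ioc_filter_modEq_card`). -/
theorem card_lin_real (a D : ℕ) (u v : ℝ) (hD : 1 ≤ D) (huv : u ≤ v) (S : Finset ℕ)
    (hS : ∀ m ∈ S, u < (m : ℝ) ∧ (m : ℝ) ≤ v ∧ a * m ≡ 1 [MOD D]) :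
    (S.card : ℝ) ≤ (v - u) / D + 1 := by
  classical
  have hD0 : 0 < D := hD
  have hDr : (0 : ℝ) < D := by exact_mod_cast hD0
  rcases S.eq_empty_or_nonempty with rfl | hne
  · rw [Finset.card_empty, Nat.cast_zero]
    have h : 0 ≤ (v - u) / D := div_nonneg (by linarith) hDr.le
    linarith
  · obtain ⟨m0, hm0, hmin⟩ := S.exists_min_image (fun m => m) hne
    obtain ⟨m1, hm1, hmax⟩ := S.exists_max_image (fun m => m) hne
    have hcop : Nat.Coprime D a := by
      have h : Nat.gcd (a * m0) D = Nat.gcd 1 D := (hS m0 hm0).2.2.gcd_eq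
      rw [Nat.gcd_one_left] at h
      exact (Nat.Coprime.coprime_dvd_left (dvd_mul_right a m0) h).symm
    have hcong : ∀ m ∈ S, m0 ≡ m [MOD D] := by
      intro m hm
      have h : a * m0 ≡ a * m [MOD D] := (hS m0 hm0).2.2.trans (hS m hm).2.2.symm
      exact Nat.ModEq.cancel_left_of_coprime hcop h
    have hdvd : ∀ m ∈ S, D ∣ m - m0 := fun m hm => (Nat.modEq_iff_dvd' (hmin m hm)).1 (hcong m hm)
    have hcard : S.card ≤ (Finset.range ((m1 - m0) / D + 1)).card := by
      apply Finset.card_le_card_of_injOn (fun m => (m - m0) / D)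
      · intro m hm
        have hm' : m ∈ S := hm
        have h1 : m ≤ m1 := hmax m hm'
        have h2 : (m - m0) / D ≤ (m1 - m0) / D := Nat.div_le_div_right (by omega)
        have h3 : (m - m0) / D ∈ Finset.range ((m1 - m0) / D + 1) := Finset.mem_range.2 (by omega)
        exact h3
      · intro m hm m' hm' hmm
        have hmS : m ∈ S := hm
        have hmS' : m' ∈ S := hm'
        have h1 : (m - m0) / D = (m' - m0) / D := hmm
        have h2 : m - m0 = m' - m0 := by
          rw [← Nat.mul_div_cancel' (hdvd m hmS), ← Nat.mul_div_cancel' (hdvd m' hmS'), h1]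
        have h3 : m0 ≤ m := hmin m hmS
        have h4 : m0 ≤ m' := hmin m' hmS'
        omega
    rw [Finset.card_range] at hcard
    have h5 : (S.card : ℝ) ≤ (((m1 - m0) / D + 1 : ℕ) : ℝ) := by exact_mod_cast hcard
    have h6 : (((m1 - m0) / D + 1 : ℕ) : ℝ) ≤ ((m1 - m0 : ℕ) : ℝ) / D + 1 := by
      push_cast
      have h := Nat.cast_div_le (α := ℝ) (m := m1 - m0) (n := D)
      linarith
    have h7 : ((m1 - m0 : ℕ) : ℝ) ≤ v - u := by
      have h8 : m0 ≤ m1 := hmin m1 hm1
      rw [Nat.cast_sub h8]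
      have h9 := (hS m0 hm0).1
      have h10 := (hS m1 hm1).2.1
      linarith
    have h8 : ((m1 - m0 : ℕ) : ℝ) / D ≤ (v - u) / D := div_le_div_of_nonneg_right h7 hDr.le
    linarith

end Pool.Agent.SVP
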