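import Pool.Agent.SVP.ER2
import Pool.Agent.SVP.ER3a

set_option autoImplicit false

namespace Pool.Agent.SVP

open Finset

private theorem ER3_card {α : Type} [DecidableEq α] (s : Finset α) (t : Finset ℕ)
    (P : α → ℕ → Prop) [∀ a, DecidablePred (P a)] (b : ℝ)
    (h : ∀ a ∈ s, ((t.filter (P a)).card : ℝ) ≤ b) :
    (((s ×ˢ t).filter (fun c => P c.1 c.2)).card : ℝ) ≤ s.card * b := by
  have h1 : ((s ×ˢ t).filter (fun c => P c.1 c.2)).card = ∑ a ∈ s, (t.filter (P a)).card := by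
    rw [card_filter, sum_product]
    apply sum_congr rfl
    intro a _
    rw [card_filter]
  rw [h1]
  push_cast
  calc ∑ a ∈ s, ((t.filter (P a)).card : ℝ) ≤ ∑ _a ∈ s, b := sum_le_sum h
    _ = s.card * b := by rw [sum_const, nsmul_eq_mul]

/-- [SVP-ER3b] the pairs of a piece that are lost. Proof. Let `y = yy T k i`, `y' = yy T k (i+1)`, `s = y' - y ≤ 2*2^k/T` (`yy_succ_sub`), `y ≥ 2^k`.
A pair `(q, m)` of `HQ` not in `TP` has `q m` odd, `q m ≡ 1 mod D`, `W₁ < q m ≤ W₂` and one of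
(a) `m ≤ W₁ / y`: then `W₁/q < m ≤ W₁/y` (reals), for each `q` at most `W₁ (q-y)/(q y D) + 1 ≤ W₂ s/(4^k D) + 1` values `m` (`card_lin_real`);
(b) `m > W₂ / y'`: `W₂/y' < m ≤ W₂/q`, again at most `W₂ s/(4^k D) + 1`;
(c) not `Rg y' m`: a prime `r ∣ m` with `q ≤ r ≤ y'` (`Rg (q-1) m`); write `m = r m'`: for each of the `≤ s²` pairs `(q, r)` at most `W₂/(q r D) + 1 ≤ W₂/(4^k D) + 1` values `m'`.
Total `2 s (W₂ s/(4^k D) + 1) + s² (W₂/(4^k D) + 1) ≤ 12 W₂/(T² D) + 4 * 2^k/T + 4 * 4^k/T²`. -/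
theorem HQ_sdiff_card {E Z T k i D W₁ W₂ : ℕ} (hE : 1 ≤ E) (hk : E ≤ k) (hT : 1 ≤ T) (hTk : T ≤ 2 ^ k) (hD : 1 ≤ D)
    (hW : W₁ ≤ W₂) :
    ((HQ E Z T k i D W₁ W₂ \ TP Z T k i D W₁ W₂).card : ℝ) ≤
      12 * W₂ / (T ^ 2 * D) + 4 * 2 ^ k / T + 4 * 4 ^ k / T ^ 2 := by
  classical
  set y := yy T k i with hy
  set y' := yy T k (i + 1) with hy'
  have hyk : 2 ^ k ≤ y := le_yy T k i
  have hyy : y ≤ y' := yy_mono T k (Nat.le_succ i)
  have hs := yy_succ_sub (T := T) (k := k) (i := i) hT hTk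
  rw [← hy, ← hy'] at hs
  set s : ℝ := ((y' - y : ℕ) : ℝ) with hsdef
  have hs0 : 0 ≤ s := Nat.cast_nonneg _
  have hK0 : (0 : ℝ) < 2 ^ k := by positivity
  have hykr : (2 : ℝ) ^ k ≤ y := by exact_mod_cast hyk
  have hy0 : (0 : ℝ) < y := lt_of_lt_of_le hK0 hykr
  have hyyr : (y : ℝ) ≤ y' := by exact_mod_cast hyy
  have hsr : s = (y' : ℝ) - y := by rw [hsdef, Nat.cast_sub hyy]
  have hD0 : (0 : ℝ) < D := by exact_mod_cast hD
  have hT0 : (0 : ℝ) < T := by exact_mod_cast hT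
  have hW0 : (0 : ℝ) ≤ W₁ := Nat.cast_nonneg _
  have hWr : (W₁ : ℝ) ≤ W₂ := by exact_mod_cast hW
  have h4 : (4 : ℝ) ^ k = 2 ^ k * 2 ^ k := by rw [← mul_pow]; norm_num
  have h40 : (0 : ℝ) < 4 ^ k := by positivity
  set Q := Ioc y y' with hQ
  have hQc : (Q.card : ℝ) = s := by rw [hQ, Nat.card_Ioc]
  have hQm : ∀ q ∈ Q, (y : ℝ) < q ∧ (q : ℝ) ≤ y' := by
    intro q hq
    rw [hQ, mem_Ioc] at hq
    exact ⟨by exact_mod_cast hq.1, by exact_mod_cast hq.2⟩
  -- the three classes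
  let A : Finset (ℕ × ℕ) := (Q ×ˢ Icc 1 W₂).filter
    (fun c => W₁ < c.1 * c.2 ∧ c.2 * y ≤ W₁ ∧ c.1 * c.2 ≡ 1 [MOD D])
  let B : Finset (ℕ × ℕ) := (Q ×ˢ Icc 1 W₂).filter
    (fun c => c.1 * c.2 ≤ W₂ ∧ W₂ < c.2 * y' ∧ c.1 * c.2 ≡ 1 [MOD D])
  let C' : Finset ((ℕ × ℕ) × ℕ) := ((Q ×ˢ Q) ×ˢ Icc 1 W₂).filter
    (fun t => t.1.1 * t.1.2 * t.2 ≤ W₂ ∧ t.1.1 * t.1.2 * t.2 ≡ 1 [MOD D] ∧ 1 ≤ t.2)
  let C : Finset (ℕ × ℕ) := C'.image (fun t => (t.1.1, t.1.2 * t.2))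
  have hsub : HQ E Z T k i D W₁ W₂ \ TP Z T k i D W₁ W₂ ⊆ A ∪ B ∪ C := by
    intro c hc
    rw [mem_sdiff] at hc
    obtain ⟨hc1, hc2⟩ := hc
    rw [HQ, mem_filter, HP, mem_filter, mem_product, mem_filter, mem_Ioc, mem_Icc, AA,
      mem_filter, mem_Ioc] at hc1
    obtain ⟨⟨⟨⟨⟨a1, a2⟩, a3⟩, a4, a5⟩, ⟨⟨a6, a7⟩, a8, a9⟩, a10⟩, a11⟩ := hc1
    have a12 : c.1 ∈ Q := a11
    have hq := mem_Ioc.mp a12
    rw [mem_union, mem_union]
    by_cases h1 : c.2 * y ≤ W₁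
    · left; left
      exact mem_filter.mpr ⟨mem_product.mpr ⟨a12, mem_Icc.mpr ⟨a4, a5⟩⟩, a6, h1, a9⟩
    · by_cases h2 : W₂ < c.2 * y'
      · left; right
        exact mem_filter.mpr ⟨mem_product.mpr ⟨a12, mem_Icc.mpr ⟨a4, a5⟩⟩, a7, h2, a9⟩
      · right
        rw [not_le] at h1
        rw [not_lt] at h2
        have hodd : Odd c.2 := (Nat.odd_mul.mp a8).2
        have hy0' : 0 < y := lt_of_lt_of_le (by positivity) hyk
        have hr : ¬ Rg y' c.2 := by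
          intro hRg
          apply hc2
          rw [TP, mem_filter, mem_product, mem_filter, mem_Ioc]
          refine ⟨⟨⟨hq, a3, a2⟩, mem_Ioc.mpr ⟨?_, ?_⟩⟩, hodd, hRg, a9⟩
          · exact (Nat.div_lt_iff_lt_mul hy0').mpr h1
          · exact (Nat.le_div_iff_mul_le (lt_of_lt_of_le hy0' hyy)).mpr h2
        unfold Rg at hr
        push Not at hr
        obtain ⟨r, hrp, ⟨m', hm'⟩, hry⟩ := hr
        have hrq : c.1 - 1 < r := a10 r hrp (Dvd.intro m' hm'.symm)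
        have hrQ : r ∈ Q := mem_Ioc.mpr ⟨by omega, hry⟩
        have hm0 : 1 ≤ m' := by
          rcases Nat.eq_zero_or_pos m' with h | h
          · rw [h, mul_zero] at hm'; omega
          · exact h
        have hm'le : m' ≤ W₂ := by
          have : m' ≤ c.2 := by rw [hm']; exact Nat.le_mul_of_pos_left _ hrp.pos
          omega
        refine mem_image.mpr ⟨((c.1, r), m'), mem_filter.mpr ⟨mem_product.mpr
          ⟨mem_product.mpr ⟨a12, hrQ⟩, mem_Icc.mpr ⟨hm0, hm'le⟩⟩, ?_, ?_, hm0⟩, ?_⟩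
        · change c.1 * r * m' ≤ W₂
          rw [mul_assoc, ← hm']; exact a7
        · change c.1 * r * m' ≡ 1 [MOD D]
          rw [mul_assoc, ← hm']; exact a9
        · change (c.1, r * m') = c
          rw [← hm']
  have hA : (A.card : ℝ) ≤ s * (W₂ * s / (4 ^ k * D) + 1) := by
    have := ER3_card Q (Icc 1 W₂)
      (fun q m => W₁ < q * m ∧ m * y ≤ W₁ ∧ q * m ≡ 1 [MOD D]) (W₂ * s / (4 ^ k * D) + 1) ?_
    · rw [hQc] at this; exact this
    · intro q hq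
      obtain ⟨q1, q2⟩ := hQm q hq
      have q0 : (0 : ℝ) < q := hy0.trans q1
      have h1 := card_lin_real q D (W₁ / q) (W₁ / y) hD
        (div_le_div_of_nonneg_left hW0 hy0 q1.le)
        ((Icc 1 W₂).filter (fun m => W₁ < q * m ∧ m * y ≤ W₁ ∧ q * m ≡ 1 [MOD D])) (by
          intro m hm
          obtain ⟨-, b1, b2, b3⟩ := mem_filter.mp hm
          have b1' : (W₁ : ℝ) < q * m := by exact_mod_cast b1
          have b2' : (m : ℝ) * y ≤ W₁ := by exact_mod_cast b2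
          refine ⟨?_, ?_, b3⟩
          · rw [div_lt_iff₀ q0]; linarith
          · rw [le_div_iff₀ hy0]; exact b2')
      refine le_trans h1 ?_
      have h2 : ((W₁ : ℝ) / y - W₁ / q) / D ≤ W₂ * s / (4 ^ k * D) := by
        have e1 : ((W₁ : ℝ) / y - W₁ / q) / D = W₁ * (q - y) / ((q * y) * D) := by
          field_simp
        rw [e1]
        apply div_le_div₀
        · positivity
        · apply mul_le_mul hWr _ (by linarith) (by positivity)
          rw [hsr]; linarith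
        · positivity
        · apply mul_le_mul_of_nonneg_right _ hD0.le
          rw [h4]
          apply mul_le_mul _ hykr hK0.le q0.le
          linarith
      linarith
  have hB : (B.card : ℝ) ≤ s * (W₂ * s / (4 ^ k * D) + 1) := by
    have := ER3_card Q (Icc 1 W₂)
      (fun q m => q * m ≤ W₂ ∧ W₂ < m * y' ∧ q * m ≡ 1 [MOD D]) (W₂ * s / (4 ^ k * D) + 1) ?_
    · rw [hQc] at this; exact this
    · intro q hq
      obtain ⟨q1, q2⟩ := hQm q hq
      have q0 : (0 : ℝ) < q := hy0.trans q1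
      have y0' : (0 : ℝ) < y' := q0.trans_le q2
      have hW2 : (0 : ℝ) ≤ W₂ := Nat.cast_nonneg _
      have h1 := card_lin_real q D (W₂ / y') (W₂ / q) hD
        (div_le_div_of_nonneg_left hW2 q0 q2)
        ((Icc 1 W₂).filter (fun m => q * m ≤ W₂ ∧ W₂ < m * y' ∧ q * m ≡ 1 [MOD D])) (by
          intro m hm
          obtain ⟨-, b1, b2, b3⟩ := mem_filter.mp hm
          have b1' : (q : ℝ) * m ≤ W₂ := by exact_mod_cast b1
          have b2' : (W₂ : ℝ) < m * y' := by exact_mod_cast b2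
          refine ⟨?_, ?_, b3⟩
          · rw [div_lt_iff₀ y0']; exact b2'
          · rw [le_div_iff₀ q0]; linarith)
      refine le_trans h1 ?_
      have h2 : ((W₂ : ℝ) / q - W₂ / y') / D ≤ W₂ * s / (4 ^ k * D) := by
        have e1 : ((W₂ : ℝ) / q - W₂ / y') / D = W₂ * (y' - q) / ((q * y') * D) := by
          field_simp
        rw [e1]
        apply div_le_div₀
        · positivity
        · apply mul_le_mul_of_nonneg_left _ hW2
          rw [hsr]; linarith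
        · positivity
        · apply mul_le_mul_of_nonneg_right _ hD0.le
          rw [h4]
          apply mul_le_mul _ _ hK0.le q0.le
          · linarith
          · linarith
      linarith
  have hC : (C.card : ℝ) ≤ s ^ 2 * (W₂ / (4 ^ k * D) + 1) := by
    have h0 : (C.card : ℝ) ≤ C'.card := by exact_mod_cast card_image_le
    refine le_trans h0 ?_
    have := ER3_card (Q ×ˢ Q) (Icc 1 W₂)
      (fun t m => t.1 * t.2 * m ≤ W₂ ∧ t.1 * t.2 * m ≡ 1 [MOD D] ∧ 1 ≤ m)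
      (W₂ / (4 ^ k * D) + 1) ?_
    · rw [card_product, Nat.cast_mul, hQc, ← sq] at this; exact this
    · intro t ht
      rw [mem_product] at ht
      obtain ⟨q1, q2⟩ := hQm t.1 ht.1
      obtain ⟨r1, r2⟩ := hQm t.2 ht.2
      have q0 : (0 : ℝ) < t.1 := hy0.trans q1
      have r0 : (0 : ℝ) < t.2 := hy0.trans r1
      have qr0 : (0 : ℝ) < (t.1 : ℝ) * t.2 := mul_pos q0 r0
      have h1 := card_lin_real (t.1 * t.2) D 0 (W₂ / ((t.1 : ℝ) * t.2)) hD (by positivity)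
        ((Icc 1 W₂).filter (fun m => t.1 * t.2 * m ≤ W₂ ∧ t.1 * t.2 * m ≡ 1 [MOD D] ∧ 1 ≤ m)) (by
          intro m hm
          obtain ⟨-, b1, b2, b3⟩ := mem_filter.mp hm
          have b1' : (t.1 : ℝ) * t.2 * m ≤ W₂ := by exact_mod_cast b1
          refine ⟨by exact_mod_cast b3, ?_, b2⟩
          rw [le_div_iff₀ qr0]; linarith)
      refine le_trans h1 ?_
      have h2 : ((W₂ : ℝ) / ((t.1 : ℝ) * t.2) - 0) / D ≤ W₂ / (4 ^ k * D) := by
        rw [sub_zero, div_div]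
        apply div_le_div_of_nonneg_left (Nat.cast_nonneg _) (by positivity)
        apply mul_le_mul_of_nonneg_right _ hD0.le
        rw [h4]
        apply mul_le_mul _ _ hK0.le q0.le
        · linarith
        · linarith
      linarith
  have hcard : ((HQ E Z T k i D W₁ W₂ \ TP Z T k i D W₁ W₂).card : ℝ) ≤
      A.card + B.card + C.card := by
    have h1 := card_le_card hsub
    have h2 := card_union_le (A ∪ B) C
    have h3 := card_union_le A B
    have h5 : (HQ E Z T k i D W₁ W₂ \ TP Z T k i D W₁ W₂).card ≤ A.card + B.card + C.card := by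
      omega
    exact_mod_cast h5
  have hfin : s * (W₂ * s / (4 ^ k * D) + 1) + s * (W₂ * s / (4 ^ k * D) + 1) +
      s ^ 2 * (W₂ / (4 ^ k * D) + 1) = s ^ 2 * (3 * W₂ / (4 ^ k * D)) + 2 * s + s ^ 2 := by
    ring
  have hs2 : s ^ 2 ≤ 4 * 4 ^ k / T ^ 2 := by
    have h1 : s ^ 2 ≤ (2 * 2 ^ k / T) ^ 2 := pow_le_pow_left₀ hs0 hs 2
    refine le_trans h1 (le_of_eq ?_)
    rw [h4, div_pow]; ring
  have h3 : s ^ 2 * (3 * W₂ / (4 ^ k * D)) ≤ 12 * W₂ / (T ^ 2 * D) := by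
    refine le_trans (mul_le_mul_of_nonneg_right hs2 (by positivity)) (le_of_eq ?_)
    field_simp
    ring
  have h5 : 2 * s ≤ 4 * 2 ^ k / T := by
    have : 4 * 2 ^ k / (T : ℝ) = 2 * (2 * 2 ^ k / T) := by ring
    rw [this]; linarith
  linarith

end Pool.Agent.SVP
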