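import Pool.Agent.SVP.ER3

set_option autoImplicit false

namespace Pool.Agent.SVP

open Finset

/-- [SVP-ER4] Proof. `HD_pieces`, `TP_sub`, `HQ_sdiff_card`; every pair of `HQ` has `1 ≤ m ≤ W₂`, so each lost term is at most `B`. Sum over `i < T`:
`12 W₂/(T D) + 4 * 2^k + 4 * 4^k / T`; sum over `k < K`: `∑ 2^k ≤ 2^K ≤ 4^K`, `∑ 4^k ≤ 4^K`. -/
theorem HD_TD {X : ℝ} {Z : ℕ} {L B : ℝ} {T E K D W₁ W₂ : ℕ} (hB : ∀ m : ℕ, 1 ≤ m → m ≤ W₂ → |Gw X Z L m| ≤ B)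
    (hE : 1 ≤ E) (hT : 1 ≤ T) (hTE : T ≤ 2 ^ E) (hZ : Z ≤ 2 ^ K) (hD : 1 ≤ D) (hW : W₁ ≤ W₂) (hB0 : 0 ≤ B) :
    |HD X Z L (2 ^ E) D W₁ W₂ - TD X Z L T E K D W₁ W₂| ≤ B * (12 * K * W₂ / (T * D) + 8 * 4 ^ K) := by
  classical
  have hkey : HD X Z L (2 ^ E) D W₁ W₂ - TD X Z L T E K D W₁ W₂ =
      ∑ k ∈ Ico E K, ∑ i ∈ range T,
        ∑ c ∈ HQ E Z T k i D W₁ W₂ \ TP Z T k i D W₁ W₂, Gw X Z L c.2 := by
    rw [HD_pieces X L D W₁ W₂ hT hZ, TD, ← Finset.sum_sub_distrib]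
    refine Finset.sum_congr rfl (fun k hk => ?_)
    rw [← Finset.sum_sub_distrib]
    refine Finset.sum_congr rfl (fun i _ => ?_)
    rw [← Finset.sum_sdiff (TP_sub (i := i) hE (Finset.mem_Ico.1 hk).1), add_sub_cancel_right]
  have hT0 : (0 : ℝ) < T := by exact_mod_cast hT
  have hD0 : (0 : ℝ) < D := by exact_mod_cast hD
  have hT1 : (1 : ℝ) ≤ T := by exact_mod_cast hT
  have hpiece : ∀ k ∈ Ico E K, ∀ i ∈ range T,
      |∑ c ∈ HQ E Z T k i D W₁ W₂ \ TP Z T k i D W₁ W₂, Gw X Z L c.2| ≤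
        B * (12 * W₂ / (T ^ 2 * D) + 4 * 2 ^ k / T + 4 * 4 ^ k / T ^ 2) := by
    intro k hk i _
    have hk1 := (Finset.mem_Ico.1 hk).1
    have hTk : T ≤ 2 ^ k := hTE.trans (Nat.pow_le_pow_right (by norm_num) hk1)
    have h1 := HQ_sdiff_card (Z := Z) (i := i) (W₁ := W₁) (W₂ := W₂) hE hk1 hT hTk hD hW
    calc |∑ c ∈ HQ E Z T k i D W₁ W₂ \ TP Z T k i D W₁ W₂, Gw X Z L c.2|
        ≤ ∑ c ∈ HQ E Z T k i D W₁ W₂ \ TP Z T k i D W₁ W₂, |Gw X Z L c.2| :=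
          Finset.abs_sum_le_sum_abs _ _
      _ ≤ ∑ _c ∈ HQ E Z T k i D W₁ W₂ \ TP Z T k i D W₁ W₂, B := by
          refine Finset.sum_le_sum (fun c hc => ?_)
          have h2 := (Finset.mem_sdiff.1 hc).1
          unfold HQ HP at h2
          rw [Finset.mem_filter, Finset.mem_filter, Finset.mem_product] at h2
          have h3 := Finset.mem_Icc.1 h2.1.1.2
          exact hB c.2 h3.1 h3.2
      _ = ((HQ E Z T k i D W₁ W₂ \ TP Z T k i D W₁ W₂).card : ℝ) * B := by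
          rw [Finset.sum_const, nsmul_eq_mul]
      _ ≤ (12 * W₂ / (T ^ 2 * D) + 4 * 2 ^ k / T + 4 * 4 ^ k / T ^ 2) * B :=
          mul_le_mul_of_nonneg_right h1 hB0
      _ = _ := mul_comm _ _
  have hsum : ∀ k ∈ Ico E K,
      |∑ i ∈ range T, ∑ c ∈ HQ E Z T k i D W₁ W₂ \ TP Z T k i D W₁ W₂, Gw X Z L c.2| ≤
        B * (12 * W₂ / (T * D) + 4 * 2 ^ k + 4 * 4 ^ k) := by
    intro k hk
    calc |∑ i ∈ range T, ∑ c ∈ HQ E Z T k i D W₁ W₂ \ TP Z T k i D W₁ W₂, Gw X Z L c.2|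
        ≤ ∑ i ∈ range T, |∑ c ∈ HQ E Z T k i D W₁ W₂ \ TP Z T k i D W₁ W₂, Gw X Z L c.2| :=
          Finset.abs_sum_le_sum_abs _ _
      _ ≤ ∑ _i ∈ range T, B * (12 * W₂ / (T ^ 2 * D) + 4 * 2 ^ k / T + 4 * 4 ^ k / T ^ 2) :=
          Finset.sum_le_sum (hpiece k hk)
      _ = T * (B * (12 * W₂ / (T ^ 2 * D) + 4 * 2 ^ k / T + 4 * 4 ^ k / T ^ 2)) := by
          rw [Finset.sum_const, Finset.card_range, nsmul_eq_mul]
      _ = B * (12 * W₂ / (T * D) + 4 * 2 ^ k + 4 * 4 ^ k / T) := by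
          field_simp
      _ ≤ B * (12 * W₂ / (T * D) + 4 * 2 ^ k + 4 * 4 ^ k) := by
          refine mul_le_mul_of_nonneg_left ?_ hB0
          have : (4 : ℝ) * 4 ^ k / T ≤ 4 * 4 ^ k := div_le_self (by positivity) hT1
          linarith
  have hg2 : ∑ k ∈ Ico E K, (2 : ℝ) ^ k ≤ 4 ^ K := by
    calc ∑ k ∈ Ico E K, (2 : ℝ) ^ k ≤ ∑ k ∈ range K, (2 : ℝ) ^ k := by
          refine Finset.sum_le_sum_of_subset_of_nonneg ?_ (fun _ _ _ => by positivity)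
          intro k hk
          exact Finset.mem_range.2 (Finset.mem_Ico.1 hk).2
      _ ≤ 2 ^ K := by
          rw [geom_sum_eq (by norm_num)]
          have : (0 : ℝ) ≤ 2 ^ K := by positivity
          norm_num
      _ ≤ 4 ^ K := pow_le_pow_left₀ (by norm_num) (by norm_num) K
  have hg4 : ∑ k ∈ Ico E K, (4 : ℝ) ^ k ≤ 4 ^ K := by
    calc ∑ k ∈ Ico E K, (4 : ℝ) ^ k ≤ ∑ k ∈ range K, (4 : ℝ) ^ k := by
          refine Finset.sum_le_sum_of_subset_of_nonneg ?_ (fun _ _ _ => by positivity)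
          intro k hk
          exact Finset.mem_range.2 (Finset.mem_Ico.1 hk).2
      _ ≤ 4 ^ K := by
          rw [geom_sum_eq (by norm_num)]
          have : (0 : ℝ) ≤ 4 ^ K := by positivity
          rw [div_le_iff₀ (by norm_num)]
          linarith
  rw [hkey]
  calc |∑ k ∈ Ico E K, ∑ i ∈ range T,
        ∑ c ∈ HQ E Z T k i D W₁ W₂ \ TP Z T k i D W₁ W₂, Gw X Z L c.2|
      ≤ ∑ k ∈ Ico E K, |∑ i ∈ range T,
        ∑ c ∈ HQ E Z T k i D W₁ W₂ \ TP Z T k i D W₁ W₂, Gw X Z L c.2| :=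
        Finset.abs_sum_le_sum_abs _ _
    _ ≤ ∑ k ∈ Ico E K, B * (12 * W₂ / (T * D) + 4 * 2 ^ k + 4 * 4 ^ k) :=
        Finset.sum_le_sum hsum
    _ = B * (((Ico E K).card : ℝ) * (12 * W₂ / (T * D)) + 4 * ∑ k ∈ Ico E K, (2 : ℝ) ^ k +
        4 * ∑ k ∈ Ico E K, (4 : ℝ) ^ k) := by
        rw [← Finset.mul_sum, Finset.sum_add_distrib, Finset.sum_add_distrib, Finset.sum_const,
          nsmul_eq_mul, ← Finset.mul_sum, ← Finset.mul_sum]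
    _ ≤ B * (K * (12 * W₂ / (T * D)) + 4 * 4 ^ K + 4 * 4 ^ K) := by
        refine mul_le_mul_of_nonneg_left ?_ hB0
        have h1 : ((Ico E K).card : ℝ) ≤ K := by
          rw [Nat.card_Ico]
          exact_mod_cast Nat.sub_le K E
        have h2 : (0 : ℝ) ≤ 12 * W₂ / (T * D) := by positivity
        have h3 := mul_le_mul_of_nonneg_right h1 h2
        linarith
    _ = _ := by ring

end Pool.Agent.SVP
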