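import Pool.Agent.SVP.Defs
import Pool.Agent.MP_f32cb9_nt.Dens
import Pool.Agent.MP_f32cb9_nt.Mert

/-!
# [SVP-FL] blocks of odd primes for the fundamental lemma
-/

set_option autoImplicit false

namespace Pool.Agent.SVP

open Finset hiding dens
open Pool.Agent.MP_f32cb9_nt (PI mem_PI sum_inv_PI sum_inv_PI_two dens chi GA HA WW VV Vb esy Wt ivl hit)

/-- block `i`: the odd primes in `(2^(E/2^(i+1)), 2^(E/2^i)]` -/
def Bl (E i : ℕ) : Finset ℕ := (PI (2 ^ (E / 2 ^ (i + 1))) (2 ^ (E / 2 ^ i))).erase 2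

theorem mem_Bl {E i p : ℕ} : p ∈ Bl E i ↔ p ≠ 2 ∧ 2 ^ (E / 2 ^ (i + 1)) < p ∧ p ≤ 2 ^ (E / 2 ^ i) ∧ p.Prime := by
  unfold Bl
  rw [Finset.mem_erase, mem_PI]

/-- one residue class for each odd prime up to `2^E` -/
def One (E : ℕ) (R : ℕ → Finset ℕ) : Prop :=
  ∀ q : ℕ, q.Prime → q ≠ 2 → q ≤ 2 ^ E → (R q).card = 1 ∧ R q ⊆ range q

/-- the product of `1 - 1/q` over the odd primes up to `2^E` (in blocks) -/
noncomputable def V0 (E : ℕ) : ℝ := ∏ i ∈ range E, ∏ q ∈ Bl E i, (1 - 1 / (q : ℝ))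

end Pool.Agent.SVP
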