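import Pool.Agent.SVP.FL1

set_option autoImplicit false

namespace Pool.Agent.SVP

open Finset hiding dens
open Pool.Agent.MP_f32cb9_nt (PI mem_PI sum_inv_PI sum_inv_PI_two dens chi GA HA WW VV Vb esy Wt ivl hit)

/-- `q ∈ Bl E i` is an odd prime `≤ 2^E`, so `dens R q = 1 / q` -/
theorem dens_Bl {E : ℕ} {R : ℕ → Finset ℕ} (hR : One E R) {i q : ℕ} (hq : q ∈ Bl E i) :
    dens R q = 1 / (q : ℝ) := by
  rw [mem_Bl] at hq
  have h := (hR q hq.2.2.2 hq.1 (hq.2.2.1.trans (Nat.pow_le_pow_right (by norm_num) (Nat.div_le_self _ _)))).1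
  unfold dens
  rw [h]
  simp

theorem FL2_exp {x : ℝ} (h0 : 0 ≤ x) (h1 : x ≤ 1 / 2) : Real.exp (-(2 * x)) ≤ 1 - x := by
  have h2 : Real.exp (-(2 * x)) = (Real.exp (2 * x))⁻¹ := Real.exp_neg _
  have h3 : 1 + 2 * x + (2 * x) ^ 2 / 2 ≤ Real.exp (2 * x) := Real.quadratic_le_exp_of_nonneg (by linarith)
  rw [h2, inv_le_comm₀ (Real.exp_pos _) (by linarith)]
  refine le_trans ?_ h3
  rw [inv_le_iff_one_le_mul₀ (by linarith)]
  nlinarith [mul_nonneg h0 h0, mul_nonneg (mul_nonneg h0 h0) (by linarith : (0 : ℝ) ≤ 1 / 2 - x)]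

/-- [SVP-FL2a] Proof. `dens_Bl`, `MP_f32cb9_nt.esy_le` (in Dens.lean) and `Bl_sum`. -/
theorem Bl_esy {E : ℕ} {R : ℕ → Finset ℕ} (hR : One E R) (i k : ℕ) :
    esy (dens R) k (Bl E i) ≤ (10 : ℝ) ^ k / (k.factorial : ℝ) := by
  have hd : ∀ q ∈ Bl E i, dens R q = 1 / (q : ℝ) := fun q hq => dens_Bl hR hq
  have h0 : ∀ q ∈ Bl E i, 0 ≤ dens R q := fun q hq => by
    rw [hd q hq]
    positivity
  refine (Pool.Agent.MP_f32cb9_nt.esy_le (dens R) k (Bl E i) h0).trans ?_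
  have h1 : ∑ q ∈ Bl E i, dens R q ≤ 10 := by
    rw [Finset.sum_congr rfl hd]
    exact Bl_sum E i
  have h2 : 0 ≤ ∑ q ∈ Bl E i, dens R q := Finset.sum_nonneg h0
  gcongr

/-- [SVP-FL2b] Proof. `1 - x ≥ exp (-2x)` for `0 ≤ x ≤ 1/2` (as `one_sub_ge_exp` in MP_f32cb9_nt/Blocks.lean), `dens_Bl`, `Bl_sum`. -/
theorem Bl_Vb {E : ℕ} {R : ℕ → Finset ℕ} (hR : One E R) (i : ℕ) :
    Real.exp (-20) ≤ Vb R (Bl E) i := by
  have h1 : ∏ q ∈ Bl E i, Real.exp (-(2 * (1 / (q : ℝ)))) ≤ Vb R (Bl E) i := by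
    unfold Vb
    apply Finset.prod_le_prod
    · intro q _
      exact (Real.exp_pos _).le
    · intro q hq
      rw [dens_Bl hR hq]
      have hq' := mem_Bl.1 hq
      have h2 : (2 : ℝ) ≤ q := by exact_mod_cast hq'.2.2.2.two_le
      refine FL2_exp (by positivity) ?_
      exact one_div_le_one_div_of_le (by norm_num) h2
  refine le_trans ?_ h1
  rw [← Real.exp_sum]
  apply Real.exp_le_exp.2
  rw [Finset.sum_neg_distrib, ← Finset.mul_sum]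
  linarith [Bl_sum E i]

end Pool.Agent.SVP
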