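import Mathlib

set_option autoImplicit false

namespace Pool.Agent.SVP

open Finset

theorem fl3_even (m : ℕ) : ∑ i ∈ range m, (10 : ℝ) ^ (2 * i) / ((2 * i).factorial : ℝ) ≤ Real.exp 10 := by
  have key : ∀ m : ℕ, ∑ i ∈ range m, (10 : ℝ) ^ (2 * i) / ((2 * i).factorial : ℝ) ≤
      ∑ n ∈ range (2 * m), (10 : ℝ) ^ n / (n.factorial : ℝ) := by
    intro m
    induction m with
    | zero => simp
    | succ m ih =>
      rw [sum_range_succ, show 2 * (m + 1) = 2 * m + 1 + 1 by ring, sum_range_succ, sum_range_succ]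
      have h : (0 : ℝ) ≤ (10 : ℝ) ^ (2 * m + 1) / ((2 * m + 1).factorial : ℝ) := by positivity
      linarith
  exact (key m).trans (Real.sum_le_exp_of_nonneg (by norm_num) _)

theorem fl3_term (b i : ℕ) : (10 : ℝ) ^ (2 * (b + i) + 1) / ((2 * (b + i) + 1).factorial : ℝ) ≤
    (10 : ℝ) ^ (2 * b + 1) / ((2 * b + 1).factorial : ℝ) * ((10 : ℝ) ^ (2 * i) / ((2 * i).factorial : ℝ)) := by
  have h1 : (2 * b + 1).factorial * (2 * i).factorial ≤ (2 * (b + i) + 1).factorial := by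
    have h2 := Nat.factorial_mul_factorial_dvd_factorial_add (2 * b + 1) (2 * i)
    have h3 : 2 * b + 1 + 2 * i = 2 * (b + i) + 1 := by ring
    rw [h3] at h2
    exact Nat.le_of_dvd (Nat.factorial_pos _) h2
  have h2 : (10 : ℝ) ^ (2 * (b + i) + 1) = (10 : ℝ) ^ (2 * b + 1) * (10 : ℝ) ^ (2 * i) := by
    rw [← pow_add]
    congr 1
    ring
  rw [div_mul_div_comm, h2]
  apply div_le_div_of_nonneg_left (by positivity)
  · positivity
  · exact_mod_cast h1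

/-- [SVP-FL3] Proof. `(2(b+i)+1)! ≥ (2b+1)! (2i)!` (`Nat.factorial_mul_factorial_dvd_factorial_add`), so the sum is at most
`10^(2b+1)/(2b+1)! * ∑_i 10^(2i)/(2i)! ≤ 10^(2b+1)/(2b+1)! * exp 10` (`Real.sum_le_exp_of_nonneg`-style, or summable).
`(4b+6) * 10^(2b+1)/(2b+1)! → 0` (e.g. `4b+6 ≤ 3 * 2^(2b+1)`, and `20^n / n! → 0`: `FloorSemiring.tendsto_pow_div_factorial_atTop`). -/
theorem tail_small (ε : ℝ) (hε : 0 < ε) : ∃ b : ℕ, ∀ m : ℕ,
    (4 * (b : ℝ) + 6) * ∑ i ∈ range m, Real.exp 20 * ((10 : ℝ) ^ (2 * (b + i) + 1) / ((2 * (b + i) + 1).factorial : ℝ)) ≤ ε := by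
  set c : ℝ := 6 * Real.exp 20 * Real.exp 10 with hc
  have hc0 : 0 < c := by positivity
  have ht := FloorSemiring.tendsto_pow_div_factorial_atTop (20 : ℝ)
  have hev := ht.eventually (gt_mem_nhds (show (0 : ℝ) < ε / c by positivity))
  obtain ⟨N, hN⟩ := Filter.eventually_atTop.1 hev
  refine ⟨N, fun m => ?_⟩
  have h1 : ∑ i ∈ range m, Real.exp 20 * ((10 : ℝ) ^ (2 * (N + i) + 1) / ((2 * (N + i) + 1).factorial : ℝ)) ≤
      Real.exp 20 * ((10 : ℝ) ^ (2 * N + 1) / ((2 * N + 1).factorial : ℝ) * Real.exp 10) := by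
    rw [← mul_sum]
    apply mul_le_mul_of_nonneg_left _ (Real.exp_pos _).le
    calc ∑ i ∈ range m, ((10 : ℝ) ^ (2 * (N + i) + 1) / ((2 * (N + i) + 1).factorial : ℝ))
        ≤ ∑ i ∈ range m, ((10 : ℝ) ^ (2 * N + 1) / ((2 * N + 1).factorial : ℝ) *
            ((10 : ℝ) ^ (2 * i) / ((2 * i).factorial : ℝ))) := sum_le_sum fun i _ => fl3_term N i
      _ = (10 : ℝ) ^ (2 * N + 1) / ((2 * N + 1).factorial : ℝ) *
            ∑ i ∈ range m, ((10 : ℝ) ^ (2 * i) / ((2 * i).factorial : ℝ)) := by rw [mul_sum]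
      _ ≤ _ := mul_le_mul_of_nonneg_left (fl3_even m) (by positivity)
  have h2 : (4 * (N : ℝ) + 6) ≤ 6 * (2 : ℝ) ^ (2 * N + 1) := by
    have h3 : 2 * N + 1 + 1 ≤ 2 ^ (2 * N + 1) := Nat.lt_two_pow_self
    have h4 : ((2 * N + 1 + 1 : ℕ) : ℝ) ≤ ((2 ^ (2 * N + 1) : ℕ) : ℝ) := by exact_mod_cast h3
    push_cast at h4
    have h5 : (0 : ℝ) ≤ (N : ℝ) := Nat.cast_nonneg N
    linarith
  have h6 : (20 : ℝ) ^ (2 * N + 1) / ((2 * N + 1).factorial : ℝ) < ε / c := hN (2 * N + 1) (by omega)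
  calc (4 * (N : ℝ) + 6) * ∑ i ∈ range m, Real.exp 20 * ((10 : ℝ) ^ (2 * (N + i) + 1) / ((2 * (N + i) + 1).factorial : ℝ))
      ≤ (6 * (2 : ℝ) ^ (2 * N + 1)) *
          (Real.exp 20 * ((10 : ℝ) ^ (2 * N + 1) / ((2 * N + 1).factorial : ℝ) * Real.exp 10)) := by
        apply mul_le_mul h2 h1
        · exact sum_nonneg fun i _ => by positivity
        · positivity
    _ = c * ((20 : ℝ) ^ (2 * N + 1) / ((2 * N + 1).factorial : ℝ)) := by
        have h7 : (20 : ℝ) ^ (2 * N + 1) = (2 : ℝ) ^ (2 * N + 1) * (10 : ℝ) ^ (2 * N + 1) := by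
          rw [← mul_pow]
          norm_num
        rw [h7, hc]
        ring
    _ ≤ c * (ε / c) := mul_le_mul_of_nonneg_left h6.le hc0.le
    _ = ε := by field_simp

end Pool.Agent.SVP
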