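import Pool.Agent.SVP.FL0

set_option autoImplicit false

namespace Pool.Agent.SVP

open Finset hiding dens
open Pool.Agent.MP_f32cb9_nt (PI mem_PI sum_inv_PI sum_inv_PI_two dens chi GA HA WW VV Vb esy Wt ivl hit)

/-- [SVP-FL5a] the blocks `i < E` are disjoint and cover the odd primes `≤ 2^E`. Proof. `E / 2^i` is antitone in `i`, `E/2^0 = E`, `E / 2^E = 0`
(`Nat.lt_two_pow_self`); see `BB_disj`, `BB_cover` in MP_f32cb9_nt/Blocks.lean. -/
theorem Bl_disj {E i j : ℕ} (hij : i ≠ j) : Disjoint (Bl E i) (Bl E j) := by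
  have key : ∀ i j : ℕ, i < j → Disjoint (Bl E i) (Bl E j) := by
    intro i j hlt
    rw [Finset.disjoint_left]
    intro p hp hq
    rw [mem_Bl] at hp hq
    have h1 : E / 2 ^ j ≤ E / 2 ^ (i + 1) :=
      Nat.div_le_div_left (Nat.pow_le_pow_right (by norm_num) hlt) (by positivity)
    have h2 : 2 ^ (E / 2 ^ j) ≤ 2 ^ (E / 2 ^ (i + 1)) := Nat.pow_le_pow_right (by norm_num) h1
    have h3 := hp.2.1
    have h4 := hq.2.2.1
    omega
  rcases lt_or_gt_of_ne hij with h | h
  · exact key i j h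
  · exact (key j i h).symm

theorem Bl_cover {E p : ℕ} (hp : p.Prime) (h2 : p ≠ 2) (hpE : p ≤ 2 ^ E) : ∃ i < E, p ∈ Bl E i := by
  classical
  have hend : 2 ^ (E / 2 ^ E) < p := by
    rw [Nat.div_eq_of_lt Nat.lt_two_pow_self, pow_zero]
    exact hp.one_lt
  have hex : ∃ j, 2 ^ (E / 2 ^ j) < p := ⟨E, hend⟩
  obtain ⟨j, hj, hmin⟩ : ∃ j, 2 ^ (E / 2 ^ j) < p ∧ ∀ k < j, ¬ 2 ^ (E / 2 ^ k) < p :=
    ⟨Nat.find hex, Nat.find_spec hex, fun k hk => Nat.find_min hex hk⟩
  have hjE : j ≤ E := by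
    by_contra h
    exact hmin E (by omega) hend
  have hj0 : j ≠ 0 := by
    rintro rfl
    rw [pow_zero, Nat.div_one] at hj
    omega
  obtain ⟨i, rfl⟩ := Nat.exists_eq_succ_of_ne_zero hj0
  refine ⟨i, by omega, mem_Bl.2 ⟨h2, hj, ?_, hp⟩⟩
  have := hmin i (by omega)
  omega

/-- [SVP-FL5b] Mertens upper bound for the product. Proof. `1 - x ≤ exp (-x)`; the blocks are disjoint and cover the odd primes `≤ 2^E`, so
`V0 E ≤ exp (-(∑_{p ≤ 2^E} 1/p - 1/2))` and `Pool.Agent.Lib.helper94.ANT.mertens` at `x = 2^E` gives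
`∑_{p ≤ 2^E} 1/p ≥ log (log (2^E)) - C`, `log (2^E) = E log 2`. -/
theorem V0_le : ∃ C : ℝ, 0 < C ∧ ∀ E : ℕ, 1 ≤ E → V0 E ≤ C / E := by
  classical
  obtain ⟨C, hC, hM⟩ := Pool.Agent.Lib.helper94.ANT.mertens
  refine ⟨Real.exp (1 / 2 + C) / Real.log 2, by positivity, fun E hE => ?_⟩
  have hlog2 : 0 < Real.log 2 := Real.log_pos (by norm_num)
  have hE0 : (0 : ℝ) < E := by exact_mod_cast hE
  have h1 : V0 E ≤ Real.exp (-∑ i ∈ range E, ∑ q ∈ Bl E i, 1 / (q : ℝ)) := by
    rw [← Finset.sum_neg_distrib, Real.exp_sum]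
    unfold V0
    apply Finset.prod_le_prod
    · intro i _
      apply Finset.prod_nonneg
      intro q hq
      rw [mem_Bl] at hq
      have h : (1 : ℝ) / q ≤ 1 := by
        rw [div_le_one (by exact_mod_cast hq.2.2.2.pos)]
        exact_mod_cast hq.2.2.2.one_lt.le
      linarith
    · intro i _
      rw [← Finset.sum_neg_distrib, Real.exp_sum]
      apply Finset.prod_le_prod
      · intro q hq
        rw [mem_Bl] at hq
        have h : (1 : ℝ) / q ≤ 1 := by
          rw [div_le_one (by exact_mod_cast hq.2.2.2.pos)]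
          exact_mod_cast hq.2.2.2.one_lt.le
        linarith
      · intro q _
        have h := Real.add_one_le_exp (-(1 / (q : ℝ)))
        linarith
  have hdisj : ((range E : Finset ℕ) : Set ℕ).PairwiseDisjoint (fun i => Bl E i) :=
    fun i _ j _ hij => Bl_disj hij
  have h2 : ∑ p ∈ Nat.primesLE (2 ^ E), (1 : ℝ) / p ≤
      1 / 2 + ∑ i ∈ range E, ∑ q ∈ Bl E i, 1 / (q : ℝ) := by
    rw [← Finset.sum_biUnion hdisj]
    have hsub : Nat.primesLE (2 ^ E) ⊆ insert 2 ((range E).biUnion (fun i => Bl E i)) := by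
      intro p hp
      obtain ⟨h1, h2⟩ := Nat.mem_primesLE.1 hp
      by_cases h3 : p = 2
      · rw [h3]
        exact mem_insert_self _ _
      · obtain ⟨i, hi, hi'⟩ := Bl_cover h2 h3 h1
        exact mem_insert_of_mem (mem_biUnion.2 ⟨i, mem_range.2 hi, hi'⟩)
    have h2n : (2 : ℕ) ∉ (range E).biUnion (fun i => Bl E i) := by
      intro h
      obtain ⟨i, _, hi⟩ := mem_biUnion.1 h
      exact (mem_Bl.1 hi).1 rfl
    refine (Finset.sum_le_sum_of_subset_of_nonneg hsub fun _ _ _ => by positivity).trans ?_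
    rw [Finset.sum_insert h2n]
    norm_num
  have h3 := (abs_le.1 (hM (2 ^ E) (by
    calc 2 = 2 ^ 1 := by norm_num
      _ ≤ 2 ^ E := Nat.pow_le_pow_right (by norm_num) hE))).1
  push_cast at h3
  rw [Real.log_pow] at h3
  have h4 : Real.exp (-∑ i ∈ range E, ∑ q ∈ Bl E i, 1 / (q : ℝ)) ≤
      Real.exp (1 / 2 + C - Real.log (E * Real.log 2)) := by
    apply Real.exp_le_exp.2
    linarith
  refine h1.trans (h4.trans (le_of_eq ?_))
  rw [Real.exp_sub, Real.exp_log (by positivity)]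
  field_simp

theorem V0_nonneg (E : ℕ) : 0 ≤ V0 E := by
  unfold V0
  apply Finset.prod_nonneg
  intro i _
  apply Finset.prod_nonneg
  intro q hq
  rw [mem_Bl] at hq
  have h : (1 : ℝ) / q ≤ 1 := by
    rw [div_le_one (by exact_mod_cast hq.2.2.2.pos)]
    exact_mod_cast hq.2.2.2.one_lt.le
  linarith

theorem V0_le_one (E : ℕ) : V0 E ≤ 1 := by
  unfold V0
  apply Finset.prod_le_one
  · intro i _
    apply Finset.prod_nonneg
    intro q hq
    rw [mem_Bl] at hq
    have h : (1 : ℝ) / q ≤ 1 := by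
      rw [div_le_one (by exact_mod_cast hq.2.2.2.pos)]
      exact_mod_cast hq.2.2.2.one_lt.le
    linarith
  · intro i _
    apply Finset.prod_le_one
    · intro q hq
      rw [mem_Bl] at hq
      have h : (1 : ℝ) / q ≤ 1 := by
        rw [div_le_one (by exact_mod_cast hq.2.2.2.pos)]
        exact_mod_cast hq.2.2.2.one_lt.le
      linarith
    · intro q _
      have : (0 : ℝ) ≤ 1 / q := by positivity
      linarith

end Pool.Agent.SVP
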