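import Pool.Agent.SVP.FL2
import Pool.Agent.SVP.FL3
import Pool.Agent.SVP.FL4
import Pool.Agent.SVP.FL5

set_option autoImplicit false

namespace Pool.Agent.SVP

open Finset hiding dens
open Pool.Agent.MP_f32cb9_nt (PI mem_PI sum_inv_PI sum_inv_PI_two dens chi GA HA WW VV Vb esy Wt ivl hit)

/-- [SVP-FL6] the sieve of an interval by one class for each odd prime `≤ 2^E`.
Proof. Let `e i = exp 20 * (10^(2(b+i)+1)/(2(b+i)+1)!)`; by `Bl_esy`, `Bl_Vb`: `esy (dens R) (2(b+i)+1) (Bl E i) ≤ e i * Vb R (Bl E) i`.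
Take `b` from `tail_small (min (ε/(2 C)) 1)` (`C` from `V0_le`), so `S = ∑_{i<E} e i ≤ 1/4` and `2 S * V0 E ≤ ε/((4b+6) E)`.
`GA_le`, `HA_ge` (Dens.lean) with `VV R (Bl E) E = V0 E` (by `dens_Bl`), `exp S ≤ 1 + 2 S` for `S ≤ 1/4`, `sieve_upper` (with `q = 1, r = 0`),
`sieve_lower` (Sieve.lean) and `WW_Bl`. -/
theorem sieve_interval (ε : ℝ) (hε : 0 < ε) : ∃ b : ℕ, ∀ E : ℕ, 1 ≤ E → ∀ R : ℕ → Finset ℕ, One E R → ∀ N H : ℕ,
    |∑ t ∈ ivl N H, chi R (Bl E) E t - H * V0 E| ≤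
      ε / ((4 * (b : ℝ) + 6) * E) * H + (E + 1) * (2 : ℝ) ^ (E * (4 * b + 6)) := by
  classical
  obtain ⟨C, hC, hV0⟩ := V0_le
  obtain ⟨b, hb⟩ := tail_small (min (ε / (2 * C)) 1) (lt_min (by positivity) one_pos)
  refine ⟨b, fun E hE R hR N H => ?_⟩
  have hE0 : (0 : ℝ) < E := by exact_mod_cast hE
  have hb0 : (0 : ℝ) < 4 * (b : ℝ) + 6 := by positivity
  set e : ℕ → ℝ := fun i =>
    Real.exp 20 * ((10 : ℝ) ^ (2 * (b + i) + 1) / ((2 * (b + i) + 1).factorial : ℝ)) with he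
  have he0 : ∀ i, 0 ≤ e i := fun i => by
    rw [he]
    positivity
  set S : ℝ := ∑ i ∈ range E, e i with hS
  have hS0 : 0 ≤ S := Finset.sum_nonneg fun i _ => he0 i
  have hbE : (4 * (b : ℝ) + 6) * S ≤ min (ε / (2 * C)) 1 := hb E
  have hS1 : (4 * (b : ℝ) + 6) * S ≤ 1 := hbE.trans (min_le_right _ _)
  have hS2 : (4 * (b : ℝ) + 6) * S ≤ ε / (2 * C) := hbE.trans (min_le_left _ _)
  have hS4 : S ≤ 1 / 4 := by
    have h1 : 6 * S ≤ (4 * (b : ℝ) + 6) * S :=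
      mul_le_mul_of_nonneg_right (by linarith [(Nat.cast_nonneg b : (0 : ℝ) ≤ b)]) hS0
    linarith
  have hd : ∀ i < E, ∀ p ∈ Bl E i, 0 ≤ dens R p ∧ dens R p ≤ 1 := by
    intro i _ p hp
    rw [dens_Bl hR hp]
    rw [mem_Bl] at hp
    refine ⟨by positivity, ?_⟩
    rw [div_le_one (by exact_mod_cast hp.2.2.2.pos)]
    exact_mod_cast hp.2.2.2.one_lt.le
  have hU : ∀ i < E, esy (dens R) (2 * (b + i) + 1) (Bl E i) ≤ e i * Vb R (Bl E) i := by
    intro i _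
    refine (Bl_esy hR i _).trans ?_
    have h1 := Bl_Vb hR i
    have h2 := mul_le_mul_of_nonneg_left h1 (he0 i)
    refine le_trans (le_of_eq ?_) h2
    rw [he]
    have h3 : Real.exp 20 * Real.exp (-20) = 1 := by
      rw [← Real.exp_add]
      norm_num
    calc (10 : ℝ) ^ (2 * (b + i) + 1) / ((2 * (b + i) + 1).factorial : ℝ)
        = (Real.exp 20 * Real.exp (-20)) *
          ((10 : ℝ) ^ (2 * (b + i) + 1) / ((2 * (b + i) + 1).factorial : ℝ)) := by
          rw [h3, one_mul]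
      _ = _ := by ring
  have hVV : VV R (Bl E) E = V0 E := by
    unfold VV Vb V0
    refine Finset.prod_congr rfl fun i _ => Finset.prod_congr rfl fun q hq => ?_
    rw [dens_Bl hR hq]
  have hV0n : 0 ≤ V0 E := V0_nonneg E
  have hprime : ∀ i < E, ∀ p ∈ Bl E i, p.Prime := fun i _ p hp => (mem_Bl.1 hp).2.2.2
  have hdis : ∀ i < E, ∀ j < E, i ≠ j → Disjoint (Bl E i) (Bl E j) :=
    fun i _ j _ hij => Bl_disj hij
  have hRR : ∀ i < E, ∀ p ∈ Bl E i, R p ⊆ range p := by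
    intro i _ p hp
    rw [mem_Bl] at hp
    exact (hR p hp.2.2.2 hp.1
      (hp.2.2.1.trans (Nat.pow_le_pow_right (by norm_num) (Nat.div_le_self _ _)))).2
  have hGA := (MP_f32cb9_nt.GA_le R (Bl E) (fun i => b + i) e E hd hU).2
  have hHA := MP_f32cb9_nt.HA_ge R (Bl E) (fun i => b + i) e he0 E hS4 hd hU
  rw [hVV, ← hS] at hGA hHA
  have hexp : Real.exp S ≤ 1 + 2 * S := by
    have h1 := Real.exp_bound_div_one_sub_of_interval hS0 (by linarith : S < 1)
    refine h1.trans ?_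
    rw [div_le_iff₀ (by linarith)]
    nlinarith
  have hup := MP_f32cb9_nt.sieve_upper R (Bl E) (fun i => b + i) N H E hprime hdis hRR 1 0 one_pos
    (fun i hi p hp h => (hprime i hi p hp).one_lt.ne' (Nat.dvd_one.1 h))
  have hfil : (ivl N H).filter (fun t => t ≡ 0 [MOD 1]) = ivl N H :=
    Finset.filter_true_of_mem fun t _ => Nat.modEq_one
  rw [hfil, Nat.cast_one, div_one] at hup
  have hlow := MP_f32cb9_nt.sieve_lower R (Bl E) (fun i => b + i) N H E hprime hdis hRR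
  have hW := WW_Bl hR b E
  have hW0 : 0 ≤ WW R (Bl E) (fun i => b + i) E :=
    zero_le_one.trans (MP_f32cb9_nt.one_le_WW R (Bl E) _ E)
  have hH : (0 : ℝ) ≤ H := Nat.cast_nonneg H
  have hmain : 2 * S * V0 E ≤ ε / ((4 * (b : ℝ) + 6) * E) := by
    have h1 := hV0 E hE
    have h2 : S ≤ ε / (2 * C) / (4 * (b : ℝ) + 6) := by
      rw [le_div_iff₀ hb0]
      linarith
    calc 2 * S * V0 E ≤ 2 * (ε / (2 * C) / (4 * (b : ℝ) + 6)) * (C / E) := by
          apply mul_le_mul _ h1 hV0n (by positivity)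
          linarith
      _ = ε / ((4 * (b : ℝ) + 6) * E) := by
          field_simp
  have hHm : (H : ℝ) * (2 * S * V0 E) ≤ ε / ((4 * (b : ℝ) + 6) * E) * H := by
    rw [mul_comm]
    exact mul_le_mul_of_nonneg_right hmain hH
  have hup2 : (H : ℝ) * GA R (Bl E) (fun i => b + i) E ≤ H * V0 E + H * (2 * S * V0 E) := by
    have h1 : GA R (Bl E) (fun i => b + i) E ≤ (1 + 2 * S) * V0 E :=
      hGA.trans (mul_le_mul_of_nonneg_right hexp hV0n)
    have h2 := mul_le_mul_of_nonneg_left h1 hH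
    linarith
  have hlow2 : (H : ℝ) * V0 E - H * (2 * S * V0 E) ≤ H * HA R (Bl E) (fun i => b + i) E := by
    have h2 := mul_le_mul_of_nonneg_left hHA hH
    linarith
  have hE1 : WW R (Bl E) (fun i => b + i) E ≤ ((E : ℝ) + 1) * WW R (Bl E) (fun i => b + i) E := by
    nlinarith
  have hE2 : ((E : ℝ) + 1) * WW R (Bl E) (fun i => b + i) E ≤
      ((E : ℝ) + 1) * (2 : ℝ) ^ (E * (4 * b + 6)) := mul_le_mul_of_nonneg_left hW (by positivity)
  rw [abs_le]
  constructor <;> linarith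

end Pool.Agent.SVP
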