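import Pool.Agent.SVP.Defs

set_option autoImplicit false

namespace Pool.Agent.SVP

open Finset

theorem gw_ne {X : ℝ} {Z : ℕ} {L : ℝ} {m : ℕ} (h : gw X Z L m ≠ 0) :
    Squarefree m ∧ Rg Z m ∧ (m : ℝ) ≤ L ∧ m.primeFactors.card ≤ 2 := by
  unfold gw at h
  split_ifs at h with h1 h2 h3 h4
  · exact ⟨h1.1, h1.2.1, h1.2.2, by omega⟩
  · exact ⟨h1.1, h1.2.1, h1.2.2, by omega⟩
  · exact ⟨h1.1, h1.2.1, h1.2.2, by omega⟩
  · exact absurd rfl h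
  · exact absurd rfl h

theorem gba_one {X : ℝ} (hX : 1 < X) : 2 ≤ ⌈X ^ ((333 : ℝ) / 1000)⌉₊ := by
  have h1 : 1 < X ^ ((333 : ℝ) / 1000) := Real.one_lt_rpow hX (by norm_num)
  have h2 : (1 : ℕ) < ⌈X ^ ((333 : ℝ) / 1000)⌉₊ := by
    rw [Nat.lt_ceil]
    exact_mod_cast h1
  omega

/-- [SVP-GB0] -/
theorem Rg_ZZ {X : ℝ} (hX : 1 < X) (n : ℕ) :
    Rg (ZZ X) n ↔ ∀ q : ℕ, q.Prime → q ∣ n → X ^ ((333 : ℝ) / 1000) ≤ (q : ℝ) := by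
  have h1 := gba_one hX
  unfold Rg ZZ
  refine forall_congr' fun q => forall_congr' fun _ => forall_congr' fun _ => ?_
  rw [← Nat.ceil_le]
  omega

theorem one_le_ZZ {X : ℝ} (hX : 1 < X) : 1 ≤ ZZ X := by
  have h1 := gba_one hX
  unfold ZZ
  omega

theorem ZZ_lt {X : ℝ} (hX : 1 < X) : (ZZ X : ℝ) < X ^ ((333 : ℝ) / 1000) ∧
    X ^ ((333 : ℝ) / 1000) ≤ ZZ X + 1 := by
  have h1 := gba_one hX
  have h2 : 1 < X ^ ((333 : ℝ) / 1000) := Real.one_lt_rpow hX (by norm_num)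
  have h3 : ((ZZ X : ℕ) : ℝ) + 1 = (⌈X ^ ((333 : ℝ) / 1000)⌉₊ : ℝ) := by
    have h4 : ZZ X + 1 = ⌈X ^ ((333 : ℝ) / 1000)⌉₊ := by
      unfold ZZ
      omega
    exact_mod_cast h4
  constructor
  · have h5 := Nat.ceil_lt_add_one (a := X ^ ((333 : ℝ) / 1000)) (by linarith)
    linarith
  · rw [h3]
    exact Nat.le_ceil _

end Pool.Agent.SVP
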