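import Pool.Agent.SVP.GBa

set_option autoImplicit false

namespace Pool.Agent.SVP

open Finset

private theorem GBb_psi_ge {X : ℝ} (hX : 1 < X) (m : ℕ) (hsq : Squarefree m) (hR : Rg (ZZ X) m)
    (hc : m.primeFactors.card = 2) : -1 ≤ psi X m := by
  obtain ⟨q₁, q₂, hne, hpf⟩ := Finset.card_eq_two.1 hc
  have hlX : 0 < Real.log X := Real.log_pos hX
  have h1 : q₁ ∈ m.primeFactors := by rw [hpf]; simp
  have h2 : q₂ ∈ m.primeFactors := by rw [hpf]; simp
  have hprod : q₁ * q₂ = m := by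
    have h := Nat.prod_primeFactors_of_squarefree hsq
    rw [hpf, Finset.prod_pair hne] at h
    exact h
  have hR' := (Rg_ZZ hX m).1 hR
  have g1 := hR' q₁ (Nat.prime_of_mem_primeFactors h1) (Nat.dvd_of_mem_primeFactors h1)
  have g2 := hR' q₂ (Nat.prime_of_mem_primeFactors h2) (Nat.dvd_of_mem_primeFactors h2)
  have hXp : 0 < X ^ ((333 : ℝ) / 1000) := Real.rpow_pos_of_pos (by linarith) _
  have l1 := Real.log_le_log hXp g1
  have l2 := Real.log_le_log hXp g2
  rw [Real.log_rpow (by linarith)] at l1 l2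
  have hq1 : (q₁ : ℝ) ≠ 0 := by linarith
  have hq2 : (q₂ : ℝ) ≠ 0 := by linarith
  have hm : Real.log m = Real.log q₁ + Real.log q₂ := by
    rw [← hprod, Nat.cast_mul, Real.log_mul hq1 hq2]
  have hdiv : (666 : ℝ) / 1000 ≤ Real.log m / Real.log X := by
    rw [le_div_iff₀ hlX, hm]
    linarith
  unfold psi
  refine le_min (by norm_num) ?_
  linarith

/-- [SVP-GB2] Proof. Only the value `psi X m` needs care: `m = q₁ q₂` with `q_i ≥ X^0.333`, so `log m / log X ≥ 0.666`, `8 * 0.666 - 6 ≥ -1`. -/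
theorem gw_abs {X : ℝ} (hX : 1 < X) (L : ℝ) (m : ℕ) : |gw X (ZZ X) L m| ≤ 1 := by
  unfold gw
  split_ifs with h1 h2 h3 h4
  · simp
  · simp
  · rw [abs_le]
    exact ⟨GBb_psi_ge hX m h1.1 h1.2.1 h4, min_le_left _ _⟩
  · simp
  · simp

end Pool.Agent.SVP
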