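import Pool.Agent.SVP.GBb

set_option autoImplicit false

namespace Pool.Agent.SVP

open Finset

/-- [SVP-GB3] Proof. Let `P` be the set of the primes `q ∣ n` with `q > Z`. `∏ P ∣ n ≤ X²` and each is `≥ X^0.333`, so `|P| ≤ 6`. A divisor `m` of `n`
with `gw ≠ 0` is `∏ Q`, `Q ⊆ P`, `|Q| ≤ 2` (`gw_ne`, `Nat.prod_primeFactors_of_squarefree`); there are at most `1 + 6 + 15 = 22`. -/
theorem Gw_abs {X : ℝ} (hX : 1 < X) (L : ℝ) (n : ℕ) (h1 : 1 ≤ n) (h2 : (n : ℝ) ≤ X ^ 2) :
    |Gw X (ZZ X) L n| ≤ 22 := by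
  classical
  have hn0 : n ≠ 0 := by omega
  have hX0 : 0 < X := by linarith
  set P : Finset ℕ := n.primeFactors.filter (fun q => ZZ X < q) with hP
  have hbig : ∀ q ∈ P, X ^ ((333 : ℝ) / 1000) ≤ (q : ℝ) := by
    intro q hq
    have h3 : ZZ X < q := (Finset.mem_filter.1 hq).2
    have h4 := (ZZ_lt hX).2
    have h5 : ((ZZ X + 1 : ℕ) : ℝ) ≤ (q : ℝ) := by exact_mod_cast h3
    push_cast at h5
    linarith
  have hone : 1 ≤ X ^ ((333 : ℝ) / 1000) := Real.one_le_rpow hX.le (by norm_num)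
  have hcard : P.card ≤ 6 := by
    by_contra hcon
    push Not at hcon
    have h3 : ∏ q ∈ P, q ∣ n :=
      (Finset.prod_dvd_prod_of_subset _ _ _ (Finset.filter_subset _ _)).trans
        (Nat.prod_primeFactors_dvd n)
    have h4 : ∏ q ∈ P, q ≤ n := Nat.le_of_dvd (by omega) h3
    have h5 : (X ^ ((333 : ℝ) / 1000)) ^ P.card ≤ ∏ q ∈ P, (q : ℝ) := by
      rw [← Finset.prod_const]
      exact Finset.prod_le_prod (fun i _ => by positivity) hbig
    have h6 : ∏ q ∈ P, (q : ℝ) ≤ (n : ℝ) := by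
      have h6' : ((∏ q ∈ P, q : ℕ) : ℝ) ≤ (n : ℝ) := Nat.cast_le.2 h4
      rwa [Nat.cast_prod] at h6'
    have h7 : (X ^ ((333 : ℝ) / 1000)) ^ 7 ≤ (X ^ ((333 : ℝ) / 1000)) ^ P.card :=
      pow_le_pow_right₀ hone (by omega)
    have h8 : (X ^ ((333 : ℝ) / 1000)) ^ 7 = X ^ ((2331 : ℝ) / 1000) := by
      rw [← Real.rpow_natCast, ← Real.rpow_mul hX0.le]
      norm_num
    have h9 : X ^ (2 : ℝ) < X ^ ((2331 : ℝ) / 1000) :=
      Real.rpow_lt_rpow_of_exponent_lt hX (by norm_num)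
    rw [Real.rpow_two] at h9
    linarith
  set F : Finset ℕ := n.divisors.filter (fun m => gw X (ZZ X) L m ≠ 0) with hF
  have hsum : Gw X (ZZ X) L n = ∑ m ∈ F, gw X (ZZ X) L m := by
    rw [hF, Finset.sum_filter_ne_zero]
    rfl
  have hF22 : F.card ≤ 22 := by
    have hmaps : ∀ m ∈ F, m.primeFactors ∈
        P.powersetCard 0 ∪ (P.powersetCard 1 ∪ P.powersetCard 2) := by
      intro m hm
      obtain ⟨hm1, hm2⟩ := Finset.mem_filter.1 hm
      obtain ⟨_, h4, _, h6⟩ := gw_ne hm2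
      have hsub : m.primeFactors ⊆ P := by
        intro q hq
        have hqp := Nat.prime_of_mem_primeFactors hq
        have hqd := Nat.dvd_of_mem_primeFactors hq
        refine Finset.mem_filter.2 ⟨?_, h4 q hqp hqd⟩
        exact Nat.mem_primeFactors.2 ⟨hqp, hqd.trans (Nat.dvd_of_mem_divisors hm1), hn0⟩
      have h7 : m.primeFactors.card = 0 ∨ m.primeFactors.card = 1 ∨
        m.primeFactors.card = 2 := by omega
      simp only [Finset.mem_union, Finset.mem_powersetCard]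
      rcases h7 with h7 | h7 | h7
      · exact Or.inl ⟨hsub, h7⟩
      · exact Or.inr (Or.inl ⟨hsub, h7⟩)
      · exact Or.inr (Or.inr ⟨hsub, h7⟩)
    have hinj : Set.InjOn Nat.primeFactors (F : Set ℕ) := by
      intro a ha b hb hab
      have ha' := gw_ne (Finset.mem_filter.1 (Finset.mem_coe.1 ha)).2
      have hb' := gw_ne (Finset.mem_filter.1 (Finset.mem_coe.1 hb)).2
      rw [← Nat.prod_primeFactors_of_squarefree ha'.1,
        ← Nat.prod_primeFactors_of_squarefree hb'.1]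
      exact congrArg (fun s : Finset ℕ => ∏ q ∈ s, q) hab
    have h3 := Finset.card_le_card_of_injOn Nat.primeFactors hmaps hinj
    have h4 : (P.powersetCard 0 ∪ (P.powersetCard 1 ∪ P.powersetCard 2)).card ≤ 22 := by
      refine (Finset.card_union_le _ _).trans ?_
      have h5 := Finset.card_union_le (P.powersetCard 1) (P.powersetCard 2)
      rw [Finset.card_powersetCard, Finset.card_powersetCard] at h5
      rw [Finset.card_powersetCard]
      have h6 : P.card.choose 2 ≤ (6 : ℕ).choose 2 := Nat.choose_le_choose 2 hcard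
      have h7 : (6 : ℕ).choose 2 = 15 := by decide
      have h8 : P.card.choose 1 = P.card := Nat.choose_one_right _
      have h9 : P.card.choose 0 = 1 := Nat.choose_zero_right _
      omega
    exact h3.trans h4
  rw [hsum]
  calc |∑ m ∈ F, gw X (ZZ X) L m| ≤ ∑ m ∈ F, |gw X (ZZ X) L m| := Finset.abs_sum_le_sum_abs _ _
    _ ≤ ∑ m ∈ F, (1 : ℝ) := Finset.sum_le_sum fun m _ => gw_abs hX L m
    _ = (F.card : ℝ) := by rw [Finset.sum_const, nsmul_eq_mul, mul_one]
    _ ≤ 22 := by exact_mod_cast hF22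

end Pool.Agent.SVP
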