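import Pool.Agent.SVP.GBa

set_option autoImplicit false

namespace Pool.Agent.SVP

open Finset

/-- [SVP-NS2] Proof. `n = q² m`, `q ≥ z = X^0.333` prime: at most `∑_{q ≥ z} W₂/q² ≤ 2 W₂/(z - 1) ≤ 4 W₂ / z`. -/
theorem nonsq_one : ∃ X0 : ℝ, 2 ≤ X0 ∧ ∀ X : ℝ, X0 ≤ X → ∀ W₁ W₂ : ℕ,
    ((((AA 1 W₁ W₂).filter (fun n => Rg (ZZ X) n)).filter (fun n => ¬ Squarefree n)).card : ℝ) ≤
      4 * W₂ / X ^ ((333 : ℝ) / 1000) := by
  classical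
  refine ⟨16, by norm_num, ?_⟩
  intro X hX W₁ W₂
  have hX1 : (1 : ℝ) < X := by linarith
  have hX0 : (0 : ℝ) < X := by linarith
  obtain ⟨-, hZ2⟩ := ZZ_lt hX1
  have hZ1 := one_le_ZZ hX1
  set Z := ZZ X with hZdef
  set z := X ^ ((333 : ℝ) / 1000) with hz
  have hz2 : (2 : ℝ) ≤ z := by
    calc (2 : ℝ) = (16 : ℝ) ^ ((1 : ℝ) / 4) := by
          rw [show (16 : ℝ) = 2 ^ (4 : ℕ) by norm_num, ← Real.rpow_natCast, ← Real.rpow_mul
            (by norm_num)]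
          norm_num
      _ ≤ X ^ ((1 : ℝ) / 4) := Real.rpow_le_rpow (by norm_num) hX (by norm_num)
      _ ≤ z := Real.rpow_le_rpow_of_exponent_le hX1.le (by norm_num)
  have hz0 : 0 < z := by linarith
  have hZ0 : (0 : ℝ) < Z := by exact_mod_cast hZ1
  have hsub : ((AA 1 W₁ W₂).filter (fun n => Rg Z n)).filter (fun n => ¬ Squarefree n) ⊆
      (Ioc Z W₂).biUnion (fun q => (Ioc 0 W₂).filter (fun n => q ^ 2 ∣ n)) := by
    intro n hn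
    rw [Finset.mem_filter, Finset.mem_filter, AA, Finset.mem_filter, Finset.mem_Ioc] at hn
    obtain ⟨⟨⟨⟨hn1, hn2⟩, -⟩, hRg⟩, hsq⟩ := hn
    have hn0 : 0 < n := by omega
    rw [Nat.squarefree_iff_prime_squarefree] at hsq
    push Not at hsq
    obtain ⟨q, hq, hqn⟩ := hsq
    have hqn' : q ∣ n := (Dvd.intro _ rfl).trans hqn
    have hqZ := hRg q hq hqn'
    have hqW : q ≤ W₂ := (Nat.le_of_dvd hn0 hqn').trans hn2
    rw [Finset.mem_biUnion]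
    refine ⟨q, Finset.mem_Ioc.2 ⟨hqZ, hqW⟩, Finset.mem_filter.2 ⟨Finset.mem_Ioc.2 ⟨hn0, hn2⟩, ?_⟩⟩
    rw [sq]
    exact hqn
  have hcard : ((((AA 1 W₁ W₂).filter (fun n => Rg Z n)).filter
      (fun n => ¬ Squarefree n)).card : ℝ) ≤ ∑ q ∈ Ioc Z W₂, (W₂ : ℝ) * ((q : ℝ) ^ 2)⁻¹ := by
    have h1 : (((AA 1 W₁ W₂).filter (fun n => Rg Z n)).filter
        (fun n => ¬ Squarefree n)).card ≤ ∑ q ∈ Ioc Z W₂, W₂ / q ^ 2 := by
      refine (Finset.card_le_card hsub).trans (Finset.card_biUnion_le.trans (le_of_eq ?_))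
      refine Finset.sum_congr rfl (fun q _ => ?_)
      exact Nat.Ioc_filter_dvd_card_eq_div W₂ (q ^ 2)
    calc ((((AA 1 W₁ W₂).filter (fun n => Rg Z n)).filter
        (fun n => ¬ Squarefree n)).card : ℝ) ≤ ((∑ q ∈ Ioc Z W₂, W₂ / q ^ 2 : ℕ) : ℝ) := by
          exact_mod_cast h1
      _ = ∑ q ∈ Ioc Z W₂, ((W₂ / q ^ 2 : ℕ) : ℝ) := by push_cast; rfl
      _ ≤ ∑ q ∈ Ioc Z W₂, (W₂ : ℝ) * ((q : ℝ) ^ 2)⁻¹ := by
          refine Finset.sum_le_sum (fun q _ => ?_)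
          have h2 := @Nat.cast_div_le ℝ _ _ _ W₂ (q ^ 2)
          rw [div_eq_mul_inv] at h2
          push_cast at h2
          exact h2
  refine hcard.trans ?_
  rw [← Finset.mul_sum]
  have hsumle : ∑ q ∈ Ioc Z W₂, ((q : ℝ) ^ 2)⁻¹ ≤ (Z : ℝ)⁻¹ := by
    rcases le_or_gt Z W₂ with h | h
    · have h1 := sum_Ioc_inv_sq_le_sub (α := ℝ) (k := Z) (n := W₂) (by omega) h
      have h2 : (0 : ℝ) ≤ (W₂ : ℝ)⁻¹ := by positivity
      linarith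
    · rw [Finset.Ioc_eq_empty (by omega), Finset.sum_empty]
      positivity
  calc (W₂ : ℝ) * ∑ q ∈ Ioc Z W₂, ((q : ℝ) ^ 2)⁻¹ ≤ W₂ * (Z : ℝ)⁻¹ :=
        mul_le_mul_of_nonneg_left hsumle (by positivity)
    _ ≤ 4 * W₂ / z := by
        rw [← div_eq_mul_inv, div_le_div_iff₀ hZ0 hz0]
        have h1 : z ≤ 4 * Z := by linarith
        have h2 : (0 : ℝ) ≤ W₂ := by positivity
        nlinarith [mul_le_mul_of_nonneg_left h1 h2]

end Pool.Agent.SVP
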