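import Pool.Agent.SVP.GBa

set_option autoImplicit false

namespace Pool.Agent.SVP

open Finset

/-- a set of integers at most `W`, all in one class modulo `R` -/
theorem card_class (A : Finset ℕ) (R W : ℕ) (hW : ∀ n ∈ A, n ≤ W)
    (hc : ∀ n ∈ A, ∀ n' ∈ A, n ≡ n' [MOD R]) : A.card ≤ W / R + 1 := by
  have h : A.card ≤ (range (W / R + 1)).card := by
    apply Finset.card_le_card_of_injOn (fun n => n / R)
    · intro n hn
      have : n / R ≤ W / R := Nat.div_le_div_right (hW n hn)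
      simp only [Finset.coe_range, Set.mem_Iio]
      omega
    · intro n hn n' hn' hnn
      have h1 : n / R = n' / R := hnn
      have h2 : n % R = n' % R := hc n hn n' hn'
      rw [← Nat.div_add_mod n R, ← Nat.div_add_mod n' R, h1, h2]
  rwa [Finset.card_range] at h

/-- [SVP-NS1] Proof. Let `z = X^0.333`, `Z = ZZ X`. If `n ∈ AA p` is `Z`-rough and not squarefree, `n = q² m` with a prime `q ≥ z` and `m` is `Z`-rough. If `m = 1` then `p ∣ (q-1)(q+1)`, `2 ≤ q ≤ X < p`,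
so `p = q + 1`, impossible (`p` odd, `q` odd as `q ≥ z > 2`). So `m ≥ z` and `q ≤ X/√z`. For fixed `q` at most `X²/(q² p) + 1` values `m` (class mod `p`). Sum: `(X²/p) ∑_{q ≥ z} 1/q² + X/√z ≤
2 X²/(z p) + X^(1 - 0.1665) ≤ 3 X^0.8335`. -/
theorem nonsq_p : ∃ X0 : ℝ, 2 ≤ X0 ∧ ∀ X : ℝ, X0 ≤ X → ∀ p : ℕ, p.Prime → X < p → (p : ℝ) ≤ 2 * X → ∀ W₁ W₂ : ℕ,
    (W₂ : ℝ) ≤ X ^ 2 →
    ((((AA p W₁ W₂).filter (fun n => Rg (ZZ X) n)).filter (fun n => ¬ Squarefree n)).card : ℝ) ≤ 3 * X ^ ((8335 : ℝ) / 10000) := by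
  refine ⟨1024, by norm_num, ?_⟩
  intro X hX0 p hp hXp _ W₁ W₂ hW
  have hX : 1 < X := by linarith
  have hXpos : 0 < X := by linarith
  have hz2 : 2 < X ^ ((333 : ℝ) / 1000) := by
    have e1 : (1024 : ℝ) ^ ((333 : ℝ) / 1000) ≤ X ^ ((333 : ℝ) / 1000) :=
      Real.rpow_le_rpow (by norm_num) hX0 (by norm_num)
    have e2 : (1024 : ℝ) ^ ((333 : ℝ) / 1000) = 2 ^ ((333 : ℝ) / 100) := by
      rw [show (1024 : ℝ) = 2 ^ (10 : ℝ) by norm_num, ← Real.rpow_mul (by norm_num)]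
      norm_num
    have e3 : (2 : ℝ) ^ (1 : ℝ) < 2 ^ ((333 : ℝ) / 100) :=
      Real.rpow_lt_rpow_of_exponent_lt (by norm_num) (by norm_num)
    rw [Real.rpow_one] at e3
    linarith
  set z := X ^ ((333 : ℝ) / 1000) with hz
  set w := X ^ ((1665 : ℝ) / 10000) with hw
  have hw0 : 0 < w := Real.rpow_pos_of_pos hXpos _
  have hww : w * w = z := by rw [hw, hz, ← Real.rpow_add hXpos]; norm_num
  set Q := (Icc ⌈z⌉₊ ⌊X / w⌋₊).filter Nat.Prime with hQ
  set T := fun q : ℕ => (Ioc 0 W₂).filter (fun n => n ≡ 1 [MOD p] ∧ q * q ∣ n) with hT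
  have hsub : ((AA p W₁ W₂).filter (fun n => Rg (ZZ X) n)).filter (fun n => ¬ Squarefree n) ⊆ Q.biUnion T := by
    intro n hn
    rw [mem_filter, mem_filter] at hn
    obtain ⟨⟨hnA, hR⟩, hsq⟩ := hn
    unfold AA at hnA
    rw [mem_filter, mem_Ioc] at hnA
    obtain ⟨⟨h1, h2⟩, hodd, hmod⟩ := hnA
    rw [Nat.squarefree_iff_prime_squarefree] at hsq
    push Not at hsq
    obtain ⟨q, hq, hqn⟩ := hsq
    have hn0 : 0 < n := by omega
    have hrough := (Rg_ZZ hX n).1 hR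
    have hqz : z ≤ q := hrough q hq (dvd_trans (dvd_mul_right q q) hqn)
    have hq2 : (2 : ℝ) < q := by linarith
    have hq2' : 2 < q := by exact_mod_cast hq2
    have hnX : (n : ℝ) ≤ X ^ 2 := le_trans (by exact_mod_cast h2) hW
    obtain ⟨m, hm⟩ := hqn
    have hm0 : m ≠ 0 := by
      rintro rfl
      omega
    have hm1 : m ≠ 1 := by
      rintro rfl
      rw [mul_one] at hm
      have hqX : (q : ℝ) ≤ X := by
        rw [hm] at hnX
        push_cast at hnX
        nlinarith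
      have hqp : q < p := by
        have : (q : ℝ) < p := by linarith
        exact_mod_cast this
      have hdvd : p ∣ q * q - 1 := by
        rw [hm] at hmod
        exact (Nat.modEq_iff_dvd' (by nlinarith)).1 hmod.symm
      have e : q * q - 1 = (q - 1) * (q + 1) := by
        obtain ⟨k, rfl⟩ : ∃ k, q = k + 1 := ⟨q - 1, by omega⟩
        simp only [Nat.add_sub_cancel]
        have : (k + 1) * (k + 1) = k * (k + 1 + 1) + 1 := by ring
        omega
      rw [e] at hdvd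
      rcases hp.dvd_mul.1 hdvd with h | h
      · have := Nat.le_of_dvd (by omega) h
        omega
      · have := Nat.le_of_dvd (by omega) h
        have hpq : p = q + 1 := by omega
        rcases hq.eq_two_or_odd' with h3 | h3
        · omega
        · rcases hp.eq_two_or_odd' with h4 | h4
          · omega
          · rw [Nat.odd_iff] at h3 h4
            omega
    obtain ⟨r, hr, hrm⟩ := Nat.exists_prime_and_dvd hm1
    have hrz : z ≤ r := hrough r hr (by rw [hm]; exact dvd_mul_of_dvd_right hrm _)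
    have hrm' : (r : ℝ) ≤ m := by exact_mod_cast Nat.le_of_dvd (Nat.pos_of_ne_zero hm0) hrm
    have hqw : (q : ℝ) ≤ X / w := by
      rw [le_div_iff₀ hw0]
      by_contra hcon
      push Not at hcon
      have c1 : X ^ 2 < (q * w) ^ 2 := by
        apply pow_lt_pow_left₀ hcon hXpos.le (by norm_num)
      have c2 : ((q : ℝ) * w) ^ 2 = q * q * z := by rw [← hww]; ring
      have c3 : (q : ℝ) * q * z ≤ q * q * m := by
        apply mul_le_mul_of_nonneg_left (by linarith) (by positivity)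
      have c4 : (n : ℝ) = q * q * m := by rw [hm]; push_cast; ring
      linarith
    rw [mem_biUnion]
    refine ⟨q, ?_, ?_⟩
    · rw [hQ, mem_filter, mem_Icc]
      exact ⟨⟨Nat.ceil_le.2 hqz, Nat.le_floor hqw⟩, hq⟩
    · simp only [hT, mem_filter, mem_Ioc]
      exact ⟨⟨hn0, h2⟩, hmod, ⟨m, hm⟩⟩
  have hTc : ∀ q ∈ Q, ((T q).card : ℝ) ≤ X * (((q : ℝ) ^ 2)⁻¹) + 1 := by
    intro q hqQ
    rw [hQ, mem_filter, mem_Icc] at hqQ
    obtain ⟨⟨hq1, hq2⟩, hq⟩ := hqQ
    have hqpos : (0 : ℝ) < q := by exact_mod_cast hq.pos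
    have hqX : (q : ℝ) < p := by
      have h1 : (q : ℝ) ≤ X / w := (Nat.le_floor_iff (by positivity)).1 hq2
      have hw1 : 1 ≤ w := Real.one_le_rpow hX.le (by norm_num)
      have h2 : X / w ≤ X := div_le_self hXpos.le hw1
      linarith
    have hqp : q < p := by exact_mod_cast hqX
    have hcop : Nat.Coprime p (q * q) := by
      have : Nat.Coprime p q := (Nat.coprime_primes hp hq).2 (by omega)
      exact Nat.Coprime.mul_right this this
    have h1 : (T q).card ≤ W₂ / (p * (q * q)) + 1 := by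
      apply card_class
      · intro n hn
        simp only [hT, mem_filter, mem_Ioc] at hn
        exact hn.1.2
      · intro n hn n' hn'
        simp only [hT, mem_filter, mem_Ioc] at hn hn'
        rw [← Nat.modEq_and_modEq_iff_modEq_mul hcop]
        refine ⟨hn.2.1.trans hn'.2.1.symm, ?_⟩
        exact ((Nat.modEq_zero_iff_dvd.2 hn.2.2).trans (Nat.modEq_zero_iff_dvd.2 hn'.2.2).symm)
    have h2 : ((T q).card : ℝ) ≤ ((W₂ / (p * (q * q)) : ℕ) : ℝ) + 1 := by exact_mod_cast h1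
    have h3 : ((W₂ / (p * (q * q)) : ℕ) : ℝ) ≤ (W₂ : ℝ) / ((p * (q * q) : ℕ) : ℝ) := Nat.cast_div_le
    have hp0 : (0 : ℝ) < p := by linarith
    have h4 : (W₂ : ℝ) / ((p * (q * q) : ℕ) : ℝ) ≤ X * (((q : ℝ) ^ 2)⁻¹) := by
      push_cast
      rw [div_le_iff₀ (by positivity)]
      have : X * ((q : ℝ) ^ 2)⁻¹ * (p * (q * q)) = X * p := by
        field_simp
      rw [this]
      nlinarith
    linarith
  have hsum : ∑ q ∈ Q, ((q : ℝ) ^ 2)⁻¹ ≤ 2 / z := by
    have hceil : 2 < ⌈z⌉₊ := by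
      have := Nat.le_ceil z
      have h : (2 : ℝ) < (⌈z⌉₊ : ℝ) := by linarith
      exact_mod_cast h
    have h1 : ∑ q ∈ Q, ((q : ℝ) ^ 2)⁻¹ ≤ ∑ q ∈ Ioo (⌈z⌉₊ - 1) (⌊X / w⌋₊ + 1), ((q : ℝ) ^ 2)⁻¹ := by
      apply Finset.sum_le_sum_of_subset_of_nonneg
      · intro q hq
        rw [hQ, mem_filter, mem_Icc] at hq
        rw [mem_Ioo]
        omega
      · intro q _ _
        positivity
    have h2 := sum_Ioo_inv_sq_le (α := ℝ) (⌈z⌉₊ - 1) (⌊X / w⌋₊ + 1)
    have h3 : (((⌈z⌉₊ - 1 : ℕ) : ℝ) + 1) = (⌈z⌉₊ : ℝ) := by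
      have : (⌈z⌉₊ - 1) + 1 = ⌈z⌉₊ := by omega
      exact_mod_cast this
    rw [h3] at h2
    have h4 : 2 / (⌈z⌉₊ : ℝ) ≤ 2 / z := by
      apply div_le_div_of_nonneg_left (by norm_num) (by linarith) (Nat.le_ceil z)
    linarith
  have hQc : (Q.card : ℝ) ≤ X / w := by
    have h1 : Q.card ≤ ⌊X / w⌋₊ := by
      calc Q.card ≤ (Icc 1 ⌊X / w⌋₊).card := by
            apply Finset.card_le_card
            intro q hq
            rw [hQ, mem_filter, mem_Icc] at hq
            rw [mem_Icc]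
            exact ⟨hq.2.one_lt.le, hq.1.2⟩
        _ = ⌊X / w⌋₊ := by rw [Nat.card_Icc]; omega
    have h2 : (Q.card : ℝ) ≤ (⌊X / w⌋₊ : ℝ) := by exact_mod_cast h1
    exact le_trans h2 (Nat.floor_le (by positivity))
  have hfin : ((((AA p W₁ W₂).filter (fun n => Rg (ZZ X) n)).filter (fun n => ¬ Squarefree n)).card : ℝ) ≤
      ∑ q ∈ Q, (X * (((q : ℝ) ^ 2)⁻¹) + 1) := by
    have h1 : (((AA p W₁ W₂).filter (fun n => Rg (ZZ X) n)).filter (fun n => ¬ Squarefree n)).card ≤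
        ∑ q ∈ Q, (T q).card := le_trans (Finset.card_le_card hsub) Finset.card_biUnion_le
    have h2 : ((((AA p W₁ W₂).filter (fun n => Rg (ZZ X) n)).filter (fun n => ¬ Squarefree n)).card : ℝ) ≤
        ∑ q ∈ Q, ((T q).card : ℝ) := by exact_mod_cast h1
    exact le_trans h2 (Finset.sum_le_sum hTc)
  rw [Finset.sum_add_distrib, ← Finset.mul_sum, Finset.sum_const, nsmul_eq_mul, mul_one] at hfin
  have hXw : X / w = X ^ ((8335 : ℝ) / 10000) := by
    rw [hw]
    nth_rewrite 1 [← Real.rpow_one X]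
    rw [← Real.rpow_sub hXpos]
    norm_num
  have hXz : X * (2 / z) ≤ 2 * X ^ ((8335 : ℝ) / 10000) := by
    rw [← hXw]
    have hwz : w ≤ z := by
      have hw1 : 1 ≤ w := Real.one_le_rpow hX.le (by norm_num)
      nlinarith
    have : X / z ≤ X / w := div_le_div_of_nonneg_left hXpos.le hw0 hwz
    have e : X * (2 / z) = 2 * (X / z) := by ring
    rw [e]
    linarith
  have hX2 : X * ∑ q ∈ Q, ((q : ℝ) ^ 2)⁻¹ ≤ X * (2 / z) := mul_le_mul_of_nonneg_left hsum hXpos.le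
  rw [hXw] at hQc
  linarith

end Pool.Agent.SVP
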