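import Pool.Agent.SVP.Core
import Pool.Agent.SVP.NS
import Pool.Agent.SVP.Num

set_option autoImplicit false

namespace Pool.Agent.SVP

open Finset

theorem s1_Gw_sum {X : ℝ} (hX : 1 < X) (L : ℝ) (S : Finset ℕ)
    (hS : ∀ n ∈ S, 1 ≤ n ∧ (n : ℝ) ≤ X ^ 2) :
    |∑ n ∈ S, Gw X (ZZ X) L n| ≤ 22 * (S.card : ℝ) := by
  calc |∑ n ∈ S, Gw X (ZZ X) L n| ≤ ∑ n ∈ S, |Gw X (ZZ X) L n| := Finset.abs_sum_le_sum_abs _ _
    _ ≤ ∑ n ∈ S, (22 : ℝ) := Finset.sum_le_sum fun n hn => Gw_abs hX L n (hS n hn).1 (hS n hn).2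
    _ = 22 * (S.card : ℝ) := by rw [Finset.sum_const, nsmul_eq_mul]; ring

theorem s1_SF {Z W₁ W₂ : ℕ} (hZ : 2 ≤ Z) :
    SF Z W₁ W₂ = ((AA 1 W₁ W₂).filter (fun n => Rg Z n)).filter (fun n => Squarefree n) := by
  ext n
  unfold SF AA
  simp only [mem_filter, mem_Ioc]
  constructor
  · rintro ⟨h1, h2, h3⟩
    refine ⟨⟨⟨h1, ?_, Nat.modEq_one⟩, h3⟩, h2⟩
    rw [← Nat.not_even_iff_odd]
    intro he
    have := h3 2 Nat.prime_two (even_iff_two_dvd.1 he)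
    omega
  · rintro ⟨⟨⟨h1, _, _⟩, h3⟩, h2⟩
    exact ⟨h1, h2, h3⟩

theorem s1_log (ε r c : ℝ) (hε : 0 < ε) (hr : 0 < r) (hc : 0 < c) :
    ∀ᶠ X : ℝ in Filter.atTop, c * Real.log X ≤ ε * X ^ r := by
  have h := (isLittleO_log_rpow_atTop hr).bound (div_pos hε hc)
  filter_upwards [h, Filter.eventually_ge_atTop (1 : ℝ)] with X h1 h2
  have h3 : 0 ≤ Real.log X := Real.log_nonneg h2
  have h4 : 0 ≤ X ^ r := Real.rpow_nonneg (by linarith) _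
  rw [Real.norm_of_nonneg h3, Real.norm_of_nonneg h4] at h1
  calc c * Real.log X ≤ c * (ε / c * X ^ r) := mul_le_mul_of_nonneg_left h1 hc.le
    _ = ε * X ^ r := by field_simp

/-- the numerical step -/
theorem s1_num {c₀ e κ X p Y W₂ lg a b x1 x2 : ℝ} (hc : 0 < c₀) (hec : 80000 * e ≤ c₀ / 4)
    (hκc : κ ≤ c₀ / 4) (hX : 0 < X) (hp : 0 < p) (hp2 : p ≤ 2 * X) (hlg : 0 < lg) (hY : 0 < Y)
    (hW : W₂ ≤ Y) (hW0 : 0 ≤ W₂) (ha : 0 < a) (h1 : 88 * lg ≤ c₀ / 8 * a)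
    (hb : 0 ≤ b) (h2 : 132 * lg * (X * b) ≤ c₀ / 8 * Y) (he : 0 ≤ e) (hκ : 0 ≤ κ)
    (hx1 : c₀ * Y / lg - 22 * (4 * W₂ / a) ≤ x1)
    (hx2 : x1 / p - κ * (W₂ / (p * lg)) ≤ x2) :
    c₀ / 4 * (Y / (p * lg)) ≤ x2 - 22 * (3 * b) - 80000 * e * (W₂ / (p * lg)) := by
  set T := Y / (p * lg) with hT
  have hT0 : 0 < T := by positivity
  have e1 : W₂ / (p * lg) ≤ T := div_le_div_of_nonneg_right hW (by positivity)
  have e1' : 0 ≤ W₂ / (p * lg) := by positivity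
  have e2 : κ * (W₂ / (p * lg)) ≤ c₀ / 4 * T := mul_le_mul hκc e1 e1' (by positivity)
  have e3 : 80000 * e * (W₂ / (p * lg)) ≤ c₀ / 4 * T := mul_le_mul hec e1 e1' (by positivity)
  have e4 : c₀ * T - c₀ / 8 * T ≤ x1 / p := by
    have e5 : c₀ * Y / lg - c₀ / 8 * Y / lg ≤ x1 := by
      refine le_trans ?_ hx1
      have e6 : 22 * (4 * W₂ / a) ≤ c₀ / 8 * Y / lg := by
        rw [le_div_iff₀ hlg]
        have e7 : 22 * (4 * W₂ / a) * lg = (88 * lg) * W₂ / a := by ring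
        rw [e7, div_le_iff₀ ha]
        calc (88 * lg) * W₂ ≤ (88 * lg) * Y := mul_le_mul_of_nonneg_left hW (by positivity)
          _ ≤ c₀ / 8 * a * Y := mul_le_mul_of_nonneg_right h1 hY.le
          _ = c₀ / 8 * Y * a := by ring
      linarith
    rw [le_div_iff₀ hp]
    refine le_trans (le_of_eq ?_) e5
    rw [hT]
    field_simp
  have e8 : 22 * (3 * b) ≤ c₀ / 8 * T := by
    rw [hT, ← mul_div_assoc, le_div_iff₀ (by positivity)]
    calc 22 * (3 * b) * (p * lg) ≤ 22 * (3 * b) * (2 * X * lg) := by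
          apply mul_le_mul_of_nonneg_left _ (by positivity)
          exact mul_le_mul_of_nonneg_right hp2 hlg.le
      _ = 132 * lg * (X * b) := by ring
      _ ≤ c₀ / 8 * Y := h2
  linarith

/-- [SVP-S1] one prime. Proof. By `CombH` the number of the primes is at least `∑_{n ∈ AA p, Rg Z, Squarefree} (Gw n - [Gap])` (each `n` of the window is `≥ X^(2-e/4)`);
this is `SR_p - (non-squarefree part, at most 22 * 3 X^0.8335 by Gw_abs, nonsq_p) - #Gap`; `#Gap ≤ 80000 e W₂ / (p log X)` (`GapH`);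
`p ∉ badW` gives `SR_p ≥ SR_1/p - κ W₂/(p log X)`; `SR_1 ≥ ∑_{SF, odd} Gw - 22 * 4 W₂/X^0.333` (`nonsq_one`) and `SF` consists of odd numbers (`Z ≥ 2`).
With `∑_{SF} Gw ≥ c₀ Y/log X`, `80000 e ≤ c₀/4`, `κ ≤ c₀/4`, `W₂ ≤ Y`, `X^0.8335` small against `Y/(p log X)` (`Y ≥ X^(2-e/8)`): the number is at least `(c₀/4) Y/(p log X)`. -/
theorem one_prime (c₀ e κ : ℝ) (hc : 0 < c₀) (he : 0 < e) (he1 : e ≤ 1 / 20) (hec : 80000 * e ≤ c₀ / 4) (hκ : 0 < κ) (hκc : κ ≤ c₀ / 4) (A : ℝ) (hA : 1 ≤ A)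
    (hG : GapH) (hC : ∃ X0 : ℝ, 2 ≤ X0 ∧ ∀ X : ℝ, X0 ≤ X →
      ∀ n : ℕ, X ^ (2 - e / 4) ≤ n → (n : ℝ) ≤ X ^ 2 → Squarefree n → Rg (ZZ X) n →
        Gw X (ZZ X) (X ^ (1 - e)) n ≤ (if n.Prime then 1 else 0) + (if Gap (X ^ (1 - e)) n then 1 else 0)) :
    ∃ X0 : ℝ, 2 ≤ X0 ∧ ∀ X : ℕ, X0 ≤ (X : ℝ) → ∀ p : ℕ, p.Prime → X < p → p ≤ 2 * X → ∀ Y : ℝ, (X : ℝ) ^ (2 - e / 8) ≤ Y → Y ≤ (X : ℝ) ^ 2 →
      ∀ W₁ W₂ : ℕ, Y / A ≤ W₁ → W₁ ≤ W₂ → (W₂ : ℝ) ≤ Y → 2 * W₂ ≤ 3 * W₁ →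
      c₀ * Y / Real.log X ≤ ∑ n ∈ SF (ZZ X) W₁ W₂, Gw X (ZZ X) ((X : ℝ) ^ (1 - e)) n →
      p ∉ badW e κ X W₁ W₂ → c₀ / 4 * (Y / (p * Real.log X)) ≤ (((AA p W₁ W₂).filter Nat.Prime).card : ℝ) := by
  obtain ⟨XG, hXG, hG'⟩ := hG e he he1
  obtain ⟨XC, hXC, hC'⟩ := hC
  obtain ⟨Xp, hXp, hNp⟩ := nonsq_p
  obtain ⟨X1, hX1, hN1⟩ := nonsq_one
  have E1 := s1_log (c₀ / 8) ((333 : ℝ) / 1000) 88 (by positivity) (by norm_num) (by norm_num)
  have E2 := s1_log (c₀ / 8) ((4 : ℝ) / 25) 132 (by positivity) (by norm_num) (by norm_num)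
  have E3 : ∀ᶠ X : ℝ in Filter.atTop, A ≤ X ^ (e / 8) :=
    (tendsto_rpow_atTop (by positivity : 0 < e / 8)).eventually_ge_atTop A
  have E4 : ∀ᶠ X : ℝ in Filter.atTop, 3 ≤ X ^ ((333 : ℝ) / 1000) :=
    (tendsto_rpow_atTop (by norm_num : (0 : ℝ) < 333 / 1000)).eventually_ge_atTop 3
  obtain ⟨XN, hXN⟩ := Filter.eventually_atTop.1 (E1.and (E2.and (E3.and E4)))
  refine ⟨max (max (max XG XC) (max Xp X1)) (max XN 3), ?_, ?_⟩
  · exact le_trans (by norm_num) (le_trans (le_max_right _ _) (le_max_right _ _))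
  intro X hX p hp hpX hp2 Y hY1 hY2 W₁ W₂ hW1 hW12 hW2 hW3 hS hbad
  have kG : XG ≤ (X : ℝ) := le_trans (le_trans (le_max_left _ _) (le_trans (le_max_left _ _) (le_max_left _ _))) hX
  have kC : XC ≤ (X : ℝ) := le_trans (le_trans (le_max_right _ _) (le_trans (le_max_left _ _) (le_max_left _ _))) hX
  have kp : Xp ≤ (X : ℝ) := le_trans (le_trans (le_max_left _ _) (le_trans (le_max_right _ _) (le_max_left _ _))) hX
  have k1 : X1 ≤ (X : ℝ) := le_trans (le_trans (le_max_right _ _) (le_trans (le_max_right _ _) (le_max_left _ _))) hX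
  have kN : XN ≤ (X : ℝ) := le_trans (le_trans (le_max_left _ _) (le_max_right _ _)) hX
  have k3 : (3 : ℝ) ≤ (X : ℝ) := le_trans (le_trans (le_max_right _ _) (le_max_right _ _)) hX
  obtain ⟨F1, F2, F3, F4⟩ := hXN X kN
  have hXp0 : (0 : ℝ) < X := by linarith
  have hX1' : (1 : ℝ) < X := by linarith
  have hlg : 0 < Real.log X := Real.log_pos hX1'
  have hpR : (0 : ℝ) < p := by exact_mod_cast hp.pos
  have hpX' : (X : ℝ) < p := by exact_mod_cast hpX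
  have hp2' : (p : ℝ) ≤ 2 * X := by exact_mod_cast hp2
  have hYpos : 0 < Y := lt_of_lt_of_le (Real.rpow_pos_of_pos hXp0 _) hY1
  have hW2X : (W₂ : ℝ) ≤ (X : ℝ) ^ 2 := hW2.trans hY2
  have hZ : 2 ≤ ZZ X := by
    have h := (ZZ_lt hX1').2
    have h' : (2 : ℝ) ≤ ZZ X := by linarith
    exact_mod_cast h'
  -- the window is high
  have hlow : ∀ n : ℕ, W₁ < n → (X : ℝ) ^ (2 - e / 4) ≤ n := by
    intro n hn
    have h1 : (W₁ : ℝ) < n := by exact_mod_cast hn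
    have h2 : (X : ℝ) ^ (2 - e / 4) * (X : ℝ) ^ (e / 8) = (X : ℝ) ^ (2 - e / 8) := by
      rw [← Real.rpow_add hXp0]
      congr 1
      ring
    have h3 : (X : ℝ) ^ (2 - e / 4) * A ≤ Y := by
      refine le_trans ?_ hY1
      rw [← h2]
      exact mul_le_mul_of_nonneg_left F3 (Real.rpow_nonneg hXp0.le _)
    have h4 : (X : ℝ) ^ (2 - e / 4) ≤ Y / A := by
      rw [le_div_iff₀ (by linarith)]
      exact h3
    linarith
  have hAAmem : ∀ D n, n ∈ AA D W₁ W₂ → W₁ < n ∧ n ≤ W₂ := by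
    intro D n hn
    unfold AA at hn
    rw [mem_filter, mem_Ioc] at hn
    exact hn.1
  have hrange : ∀ n, W₁ < n ∧ n ≤ W₂ → 1 ≤ n ∧ (n : ℝ) ≤ (X : ℝ) ^ 2 := by
    intro n hn
    refine ⟨by omega, le_trans ?_ hW2X⟩
    exact_mod_cast hn.2
  set L : ℝ := (X : ℝ) ^ (1 - e) with hL
  set R1 := (AA 1 W₁ W₂).filter (fun n => Rg (ZZ X) n) with hR1
  set Rp := (AA p W₁ W₂).filter (fun n => Rg (ZZ X) n) with hRp
  -- the sum for D = 1
  have hsr1 : c₀ * Y / Real.log X - 22 * (4 * W₂ / (X : ℝ) ^ ((333 : ℝ) / 1000)) ≤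
      SR X (ZZ X) L (ZZ X) 1 W₁ W₂ := by
    have h1 : SR X (ZZ X) L (ZZ X) 1 W₁ W₂ = ∑ n ∈ R1.filter (fun n => Squarefree n), Gw X (ZZ X) L n +
        ∑ n ∈ R1.filter (fun n => ¬ Squarefree n), Gw X (ZZ X) L n := by
      unfold SR
      rw [Finset.sum_filter_add_sum_filter_not]
    have h2 : c₀ * Y / Real.log X ≤ ∑ n ∈ R1.filter (fun n => Squarefree n), Gw X (ZZ X) L n := by
      rw [s1_SF hZ] at hS
      exact hS
    have h3 := s1_Gw_sum hX1' L (R1.filter (fun n => ¬ Squarefree n)) (by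
      intro n hn
      rw [hR1, mem_filter, mem_filter] at hn
      exact hrange n (hAAmem 1 n hn.1.1))
    have h4 := hN1 X k1 W₁ W₂
    have h5 := (abs_le.1 h3).1
    rw [h1]
    linarith
  -- the sum for D = p
  have hsrp : SR X (ZZ X) L (ZZ X) 1 W₁ W₂ / p - κ * (W₂ / (p * Real.log X)) ≤
      SR X (ZZ X) L (ZZ X) p W₁ W₂ := by
    unfold badW at hbad
    rw [mem_filter, mem_filter, mem_Ioc] at hbad
    have h1 : ¬ (κ * ((W₂ : ℝ) / (p * Real.log X)) <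
        |SR X (ZZ X) ((X : ℝ) ^ (1 - e)) (ZZ X) p W₁ W₂ -
          SR X (ZZ X) ((X : ℝ) ^ (1 - e)) (ZZ X) 1 W₁ W₂ / p|) :=
      fun h => hbad ⟨⟨⟨hpX, hp2⟩, hp⟩, h⟩
    rw [not_lt] at h1
    have h2 := (abs_le.1 h1).1
    rw [hL]
    linarith
  -- the primes
  have hcount : SR X (ZZ X) L (ZZ X) p W₁ W₂ - 22 * (3 * (X : ℝ) ^ ((8335 : ℝ) / 10000)) -
      80000 * e * (W₂ / (p * Real.log X)) ≤ (((AA p W₁ W₂).filter Nat.Prime).card : ℝ) := by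
    have h1 : SR X (ZZ X) L (ZZ X) p W₁ W₂ = ∑ n ∈ Rp.filter (fun n => Squarefree n), Gw X (ZZ X) L n +
        ∑ n ∈ Rp.filter (fun n => ¬ Squarefree n), Gw X (ZZ X) L n := by
      unfold SR
      rw [Finset.sum_filter_add_sum_filter_not]
    have h3 := s1_Gw_sum hX1' L (Rp.filter (fun n => ¬ Squarefree n)) (by
      intro n hn
      rw [hRp, mem_filter, mem_filter] at hn
      exact hrange n (hAAmem p n hn.1.1))
    have h4 := hNp X kp p hp hpX' hp2' W₁ W₂ hW2X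
    have h5 := (abs_le.1 h3).2
    have h6 : ∑ n ∈ Rp.filter (fun n => Squarefree n), Gw X (ZZ X) L n ≤
        ∑ n ∈ Rp.filter (fun n => Squarefree n), (if n.Prime then (1 : ℝ) else 0) +
        ∑ n ∈ Rp.filter (fun n => Squarefree n), (if Gap L n then (1 : ℝ) else 0) := by
      rw [← Finset.sum_add_distrib]
      apply Finset.sum_le_sum
      intro n hn
      rw [hRp, mem_filter, mem_filter] at hn
      have hn' := hAAmem p n hn.1.1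
      exact hC' X kC n (hlow n hn'.1) (hrange n hn').2 hn.2 hn.1.2
    have hsub : Rp.filter (fun n => Squarefree n) ⊆ AA p W₁ W₂ := by
      intro n hn
      rw [hRp, mem_filter, mem_filter] at hn
      exact hn.1.1
    have h7 : ∑ n ∈ Rp.filter (fun n => Squarefree n), (if n.Prime then (1 : ℝ) else 0) ≤
        (((AA p W₁ W₂).filter Nat.Prime).card : ℝ) := by
      rw [Finset.card_filter]
      push_cast
      exact Finset.sum_le_sum_of_subset_of_nonneg hsub fun n _ _ => by split_ifs <;> norm_num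
    have h8 : ∑ n ∈ Rp.filter (fun n => Squarefree n), (if Gap L n then (1 : ℝ) else 0) ≤
        (((AA p W₁ W₂).filter (fun n => Gap L n)).card : ℝ) := by
      rw [Finset.card_filter]
      push_cast
      exact Finset.sum_le_sum_of_subset_of_nonneg hsub fun n _ _ => by split_ifs <;> norm_num
    have hW1pos : 1 ≤ W₁ := by
      have h9 : 0 < Y / A := div_pos hYpos (by linarith)
      have h10 : (0 : ℝ) < W₁ := lt_of_lt_of_le h9 hW1
      exact_mod_cast h10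
    have h9 := hG' X kG p hp hpX' hp2' W₁ W₂ hW1pos hW12 hW3 hW2X
    rw [h1]
    linarith
  refine le_trans ?_ hcount
  have hb0 : 0 ≤ (X : ℝ) ^ ((8335 : ℝ) / 10000) := Real.rpow_nonneg hXp0.le _
  have hb : 132 * Real.log X * ((X : ℝ) * (X : ℝ) ^ ((8335 : ℝ) / 10000)) ≤ c₀ / 8 * Y := by
    have h1 : (X : ℝ) ^ ((4 : ℝ) / 25) * ((X : ℝ) * (X : ℝ) ^ ((8335 : ℝ) / 10000)) ≤ Y := by
      refine le_trans ?_ hY1
      have h2 : (X : ℝ) ^ ((4 : ℝ) / 25) * ((X : ℝ) * (X : ℝ) ^ ((8335 : ℝ) / 10000)) =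
          (X : ℝ) ^ ((4 : ℝ) / 25 + (1 + (8335 : ℝ) / 10000)) := by
        rw [Real.rpow_add hXp0, Real.rpow_add hXp0, Real.rpow_one]
      rw [h2]
      apply Real.rpow_le_rpow_of_exponent_le hX1'.le
      linarith
    calc 132 * Real.log X * ((X : ℝ) * (X : ℝ) ^ ((8335 : ℝ) / 10000)) ≤
        c₀ / 8 * (X : ℝ) ^ ((4 : ℝ) / 25) * ((X : ℝ) * (X : ℝ) ^ ((8335 : ℝ) / 10000)) :=
          mul_le_mul_of_nonneg_right F2 (by positivity)
      _ = c₀ / 8 * ((X : ℝ) ^ ((4 : ℝ) / 25) * ((X : ℝ) * (X : ℝ) ^ ((8335 : ℝ) / 10000))) := by ring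
      _ ≤ c₀ / 8 * Y := mul_le_mul_of_nonneg_left h1 (by positivity)
  exact s1_num hc hec hκc hXp0 hpR hp2' hlg hYpos hW2 (Nat.cast_nonneg _)
    (Real.rpow_pos_of_pos hXp0 _) F1 hb0 hb he.le hκ.le hsr1 hsrp

end Pool.Agent.SVP
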