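import Pool.Agent.SVP.S1

set_option autoImplicit false

namespace Pool.Agent.SVP

open Finset

/-- [SVP-S2] one scale. Proof. `one_prime` with `e = min e₀ .. (c₀/320000)`, `κ = c₀/4`, `core`: for `X ≥ X0` the exceptional set is contained in `badW e κ X W₁ W₂` with the window from `NumH`
(`W₁ ≥ Y/A ≥ X^(2-η₁)` if `Y ≥ X^(2-η)`, `η < η₁`, `X` large). For small `X` enlarge `C`. -/
theorem one_scale (hII : TypeII) (hG : GapH) (hC : CombH) (hN : NumH) : ∃ c η δ C : ℝ, 0 < c ∧ 0 < η ∧ 0 < δ ∧ 0 < C ∧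
    ∀ X : ℕ, 2 ≤ X → ∀ Y : ℝ, (X : ℝ) ^ (2 - η) ≤ Y → Y ≤ (X : ℝ) ^ 2 →
      ((((Ioc X (2 * X)).filter Nat.Prime).filter (fun p : ℕ =>
        (((AA p 1 ⌊Y⌋₊).filter Nat.Prime).card : ℝ) < c * (Y / (p * Real.log X)))).card : ℝ) ≤ C * (X : ℝ) ^ (1 - δ) := by
  classical
  obtain ⟨c₀, eN, A, hc₀, heN, hA, hN⟩ := hN
  obtain ⟨eC, heC, hC⟩ := hC
  obtain ⟨e, he⟩ : ∃ e : ℝ, e = min (min eN eC) (min (1 / 20) (c₀ / 320000)) := ⟨_, rfl⟩
  have he0 : 0 < e := by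
    rw [he]
    exact lt_min (lt_min heN heC) (lt_min (by norm_num) (by positivity))
  have heN' : e ≤ eN := by rw [he]; exact le_trans (min_le_left _ _) (min_le_left _ _)
  have heC' : e ≤ eC := by rw [he]; exact le_trans (min_le_left _ _) (min_le_right _ _)
  have he20 : e ≤ 1 / 20 := by rw [he]; exact le_trans (min_le_right _ _) (min_le_left _ _)
  have hec : e ≤ c₀ / 320000 := by rw [he]; exact le_trans (min_le_right _ _) (min_le_right _ _)
  obtain ⟨X1, hX1, hN⟩ := hN e he0 heN'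
  obtain ⟨η₁, δ₁, C₁, hη₁, hδ₁, hC₁, hcore⟩ := core hII e (c₀ / 4) he0 (by linarith) (by positivity)
  obtain ⟨X2, hX2, hone⟩ := one_prime c₀ e (c₀ / 4) hc₀ he0 he20 (by linarith) (by positivity) le_rfl A hA hG
    (hC e he0 heC')
  have hA0 : 0 < A := by linarith
  obtain ⟨X3, hX3⟩ : ∃ X3 : ℝ, X3 = A ^ (2 / η₁) := ⟨_, rfl⟩
  have hX3pos : 0 < X3 := by rw [hX3]; positivity
  obtain ⟨X0, hX0⟩ : ∃ X0 : ℝ, X0 = max X1 (max X2 X3) := ⟨_, rfl⟩
  have h01 : X1 ≤ X0 := by rw [hX0]; exact le_max_left _ _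
  have h02 : X2 ≤ X0 := by rw [hX0]; exact le_trans (le_max_left _ _) (le_max_right _ _)
  have h03 : X3 ≤ X0 := by rw [hX0]; exact le_trans (le_max_right _ _) (le_max_right _ _)
  have hX0pos : 0 < X0 := by linarith
  obtain ⟨η, hη⟩ : ∃ η : ℝ, η = min (e / 8) (η₁ / 2) := ⟨_, rfl⟩
  have hη0 : 0 < η := by rw [hη]; exact lt_min (by positivity) (by positivity)
  have hηe : η ≤ e / 8 := by rw [hη]; exact min_le_left _ _
  have hηη : η ≤ η₁ / 2 := by rw [hη]; exact min_le_right _ _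
  obtain ⟨δ, hδ⟩ : ∃ δ : ℝ, δ = min δ₁ 1 := ⟨_, rfl⟩
  have hδ0 : 0 < δ := by rw [hδ]; exact lt_min hδ₁ one_pos
  have hδ1 : δ ≤ 1 := by rw [hδ]; exact min_le_right _ _
  have hδδ : δ ≤ δ₁ := by rw [hδ]; exact min_le_left _ _
  refine ⟨c₀ / 4, η, δ, C₁ + X0, by positivity, hη0, hδ0, by positivity, ?_⟩
  intro X hX2' Y hY1 hY2
  have hXR : (2 : ℝ) ≤ (X : ℝ) := by exact_mod_cast hX2'
  have hXpos : (0 : ℝ) < X := by linarith
  have hXone : (1 : ℝ) ≤ X := by linarith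
  have hXd : (1 : ℝ) ≤ (X : ℝ) ^ (1 - δ) := Real.one_le_rpow hXone (by linarith)
  by_cases hbig : (X : ℝ) < X0
  · have h1 : ((((Ioc X (2 * X)).filter Nat.Prime).filter (fun p : ℕ =>
        (((AA p 1 ⌊Y⌋₊).filter Nat.Prime).card : ℝ) < c₀ / 4 * (Y / (p * Real.log X)))).card : ℝ) ≤ X := by
      have h2 : (((Ioc X (2 * X)).filter Nat.Prime).filter (fun p : ℕ =>
        (((AA p 1 ⌊Y⌋₊).filter Nat.Prime).card : ℝ) < c₀ / 4 * (Y / (p * Real.log X)))).card ≤ (Ioc X (2 * X)).card :=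
        le_trans (card_filter_le _ _) (card_filter_le _ _)
      rw [Nat.card_Ioc] at h2
      have h3 : 2 * X - X = X := by omega
      rw [h3] at h2
      exact_mod_cast h2
    have h4 : X0 * 1 ≤ X0 * (X : ℝ) ^ (1 - δ) := mul_le_mul_of_nonneg_left hXd hX0pos.le
    have h5 : 0 ≤ C₁ * (X : ℝ) ^ (1 - δ) := by positivity
    rw [add_mul]
    linarith
  · push Not at hbig
    have hYe : (X : ℝ) ^ (2 - e / 8) ≤ Y :=
      le_trans (Real.rpow_le_rpow_of_exponent_le hXone (by linarith)) hY1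
    obtain ⟨W₁, W₂, hW1, hW12, hW2, hW3, hsum⟩ := hN X (by linarith) Y hYe hY2
    have hW1' : (X : ℝ) ^ (2 - η₁) ≤ W₁ := by
      refine le_trans ?_ hW1
      rw [le_div_iff₀ hA0]
      have h1 : A ≤ (X : ℝ) ^ (η₁ / 2) := by
        calc A = X3 ^ (η₁ / 2) := by
              rw [hX3, ← Real.rpow_mul hA0.le]
              rw [show 2 / η₁ * (η₁ / 2) = 1 by field_simp, Real.rpow_one]
          _ ≤ (X : ℝ) ^ (η₁ / 2) := Real.rpow_le_rpow hX3pos.le (by linarith) (by linarith)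
      calc (X : ℝ) ^ (2 - η₁) * A ≤ (X : ℝ) ^ (2 - η₁) * (X : ℝ) ^ (η₁ / 2) := by gcongr
        _ = (X : ℝ) ^ (2 - η₁ / 2) := by rw [← Real.rpow_add hXpos]; congr 1; ring
        _ ≤ (X : ℝ) ^ (2 - η) := Real.rpow_le_rpow_of_exponent_le hXone (by linarith)
        _ ≤ Y := hY1
    have hW2' : (W₂ : ℝ) ≤ (X : ℝ) ^ 2 := le_trans hW2 hY2
    have hb := hcore X hX2' W₁ W₂ hW1' hW12 hW2' hW3
    have hW1one : 1 ≤ W₁ := by
      have h1 : 0 < (X : ℝ) ^ (2 - η₁) := by positivity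
      have h2 : (0 : ℝ) < W₁ := by linarith
      exact_mod_cast h2
    have hsub : (((Ioc X (2 * X)).filter Nat.Prime).filter (fun p : ℕ =>
        (((AA p 1 ⌊Y⌋₊).filter Nat.Prime).card : ℝ) < c₀ / 4 * (Y / (p * Real.log X)))) ⊆ badW e (c₀ / 4) X W₁ W₂ := by
      intro p hp
      rw [mem_filter, mem_filter, mem_Ioc] at hp
      obtain ⟨⟨⟨hp1, hp2⟩, hp3⟩, hp4⟩ := hp
      by_contra hcon
      have h1 := hone X (by linarith) p hp3 hp1 hp2 Y hYe hY2 W₁ W₂ hW1 hW12 hW2 hW3 hsum hcon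
      have h2 : ((AA p W₁ W₂).filter Nat.Prime).card ≤ ((AA p 1 ⌊Y⌋₊).filter Nat.Prime).card := by
        apply card_le_card
        intro n hn
        rw [mem_filter, AA, mem_filter, mem_Ioc] at hn ⊢
        obtain ⟨⟨⟨h3, h4⟩, h5⟩, h6⟩ := hn
        refine ⟨⟨⟨by omega, ?_⟩, h5⟩, h6⟩
        exact le_trans h4 (Nat.le_floor hW2)
      have h3 : (((AA p W₁ W₂).filter Nat.Prime).card : ℝ) ≤ (((AA p 1 ⌊Y⌋₊).filter Nat.Prime).card : ℝ) := by
        exact_mod_cast h2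
      linarith
    have hcard : ((((Ioc X (2 * X)).filter Nat.Prime).filter (fun p : ℕ =>
        (((AA p 1 ⌊Y⌋₊).filter Nat.Prime).card : ℝ) < c₀ / 4 * (Y / (p * Real.log X)))).card : ℝ) ≤
        ((badW e (c₀ / 4) X W₁ W₂).card : ℝ) := by exact_mod_cast card_le_card hsub
    refine le_trans hcard (le_trans hb ?_)
    calc C₁ * (X : ℝ) ^ (1 - δ₁) ≤ C₁ * (X : ℝ) ^ (1 - δ) := by
          apply mul_le_mul_of_nonneg_left _ hC₁.le
          exact Real.rpow_le_rpow_of_exponent_le hXone (by linarith)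
      _ ≤ (C₁ + X0) * (X : ℝ) ^ (1 - δ) := by
          apply mul_le_mul_of_nonneg_right _ (by positivity)
          linarith

end Pool.Agent.SVP
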