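import Pool.Agent.SVP.GBb
import Pool.Agent.MP_f32cb9_nt.Mert

set_option autoImplicit false

namespace Pool.Agent.SVP

open Finset
open Pool.Agent.MP_f32cb9_nt (PI mem_PI sum_inv_PI)

/-- the pointwise majorant of the weight -/
theorem gw_maj {X : ℝ} (hX : 1 < X) {L : ℝ} (hL : L ≤ X) (m : ℕ) :
    |gw X (ZZ X) L m| / m ≤ (if m = 1 then 1 else 0) +
      ∑ q ∈ PI (ZZ X) ⌊X⌋₊, (if m = q then 1 / (q : ℝ) else 0) +
      ∑ c ∈ PI (ZZ X) ⌊X⌋₊ ×ˢ PI (ZZ X) ⌊X⌋₊, (if m = c.1 * c.2 then 1 / (c.1 : ℝ) * (1 / (c.2 : ℝ)) else 0) := by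
  set P := PI (ZZ X) ⌊X⌋₊ with hP
  have h1 : (0 : ℝ) ≤ (if m = 1 then 1 else 0) := by split_ifs <;> norm_num
  have h2 : (0 : ℝ) ≤ ∑ q ∈ P, (if m = q then 1 / (q : ℝ) else 0) :=
    Finset.sum_nonneg fun q _ => by split_ifs <;> positivity
  have h3 : (0 : ℝ) ≤ ∑ c ∈ P ×ˢ P, (if m = c.1 * c.2 then 1 / (c.1 : ℝ) * (1 / (c.2 : ℝ)) else 0) :=
    Finset.sum_nonneg fun q _ => by split_ifs <;> positivity
  by_cases h : gw X (ZZ X) L m = 0
  · rw [h]
    simp only [abs_zero, zero_div]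
    linarith
  · obtain ⟨hsq, hrg, hmL, hcard⟩ := gw_ne h
    have hm0 : m ≠ 0 := hsq.ne_zero
    have hm1 : (0 : ℝ) < m := by exact_mod_cast Nat.pos_of_ne_zero hm0
    have hle : |gw X (ZZ X) L m| / m ≤ 1 / m := by
      apply div_le_div_of_nonneg_right (gw_abs hX L m) hm1.le
    have hmem : ∀ q ∈ m.primeFactors, q ∈ P := by
      intro q hq
      rw [Nat.mem_primeFactors] at hq
      rw [hP, mem_PI]
      refine ⟨hrg q hq.1 hq.2.1, ?_, hq.1⟩
      apply Nat.le_floor
      have : (q : ℝ) ≤ m := by exact_mod_cast Nat.le_of_dvd (Nat.pos_of_ne_zero hm0) hq.2.1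
      linarith
    have hprod : ∏ q ∈ m.primeFactors, q = m := Nat.prod_primeFactors_of_squarefree hsq
    have hc : m.primeFactors.card = 0 ∨ m.primeFactors.card = 1 ∨ m.primeFactors.card = 2 := by omega
    rcases hc with hc | hc | hc
    · rw [Finset.card_eq_zero] at hc
      rw [hc, Finset.prod_empty] at hprod
      rw [if_pos hprod.symm]
      have : (1 : ℝ) / m = 1 := by rw [← hprod]; norm_num
      linarith
    · rw [Finset.card_eq_one] at hc
      obtain ⟨q, hq⟩ := hc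
      have hqP : q ∈ P := hmem q (by rw [hq]; exact Finset.mem_singleton_self q)
      rw [hq, Finset.prod_singleton] at hprod
      have : (1 : ℝ) / m ≤ ∑ q ∈ P, (if m = q then 1 / (q : ℝ) else 0) := by
        have := Finset.single_le_sum (f := fun q : ℕ => (if m = q then 1 / (q : ℝ) else 0))
          (fun q _ => by
            show (0 : ℝ) ≤ (if m = q then 1 / (q : ℝ) else 0)
            split_ifs <;> positivity) hqP
        refine le_trans ?_ this
        show (1 : ℝ) / m ≤ (if m = q then 1 / (q : ℝ) else 0)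
        rw [if_pos hprod.symm, hprod]
      linarith
    · rw [Finset.card_eq_two] at hc
      obtain ⟨q, r, hqr, hq⟩ := hc
      have hqP : q ∈ P := hmem q (by rw [hq]; simp)
      have hrP : r ∈ P := hmem r (by rw [hq]; simp)
      rw [hq, Finset.prod_pair hqr] at hprod
      have : (1 : ℝ) / m ≤ ∑ c ∈ P ×ˢ P, (if m = c.1 * c.2 then 1 / (c.1 : ℝ) * (1 / (c.2 : ℝ)) else 0) := by
        have := Finset.single_le_sum
          (f := fun c : ℕ × ℕ => (if m = c.1 * c.2 then 1 / (c.1 : ℝ) * (1 / (c.2 : ℝ)) else 0))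
          (fun c _ => by
            show (0 : ℝ) ≤ (if m = c.1 * c.2 then 1 / (c.1 : ℝ) * (1 / (c.2 : ℝ)) else 0)
            split_ifs <;> positivity)
          (show (q, r) ∈ P ×ˢ P from Finset.mem_product.2 ⟨hqP, hrP⟩)
        refine le_trans ?_ this
        show (1 : ℝ) / m ≤ (if m = q * r then 1 / (q : ℝ) * (1 / (r : ℝ)) else 0)
        rw [if_pos hprod.symm, ← hprod, Nat.cast_mul, one_div_mul_one_div]
      linarith

/-- [SVP-T1b] Proof. `gw m ≠ 0` implies `m = 1`, `m` a prime in `(Z, L]`, or `m = q₁ q₂` with two primes in `(Z, L]`; `|gw| ≤ 1` (`gw_abs`), so the sum is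
`≤ 1 + S + S²`, `S = ∑_{q ∈ PI Z ⌊X⌋} 1/q ≤ log (log X / log Z) + 5/log Z ≤ 2` for large `X` (`sum_inv_PI`; `Z ≥ X^0.333 - 1`, `log 3.01 < 1.2`). -/
theorem sum_gw : ∃ X0 : ℝ, 2 ≤ X0 ∧ ∀ X : ℝ, X0 ≤ X → ∀ L : ℝ, L ≤ X →
    ∑ m ∈ (Icc 1 ⌊L⌋₊).filter Odd, |gw X (ZZ X) L m| / m ≤ 7 := by
  refine ⟨Real.exp 40, ?_, ?_⟩
  · have := Real.add_one_le_exp (40 : ℝ)
    linarith
  · intro X hX0 L hL
    have hX40 : (41 : ℝ) ≤ X := by
      have := Real.add_one_le_exp (40 : ℝ)
      linarith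
    have hX : 1 < X := by linarith
    have hXpos : 0 < X := by linarith
    have hlog : 40 ≤ Real.log X := by
      rw [Real.le_log_iff_exp_le hXpos]
      exact hX0
    obtain ⟨hZ1, hZ2⟩ := ZZ_lt hX
    -- lower bound of Z
    have hZ : X ^ ((1 : ℝ) / 4) ≤ ZZ X := by
      have e1 : X ^ ((333 : ℝ) / 1000) = X ^ ((1 : ℝ) / 4) * X ^ ((83 : ℝ) / 1000) := by
        rw [← Real.rpow_add hXpos]; norm_num
      have e2 : (2 : ℝ) ≤ X ^ ((83 : ℝ) / 1000) := by
        rw [Real.rpow_def_of_pos hXpos]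
        have := Real.add_one_le_exp (Real.log X * (83 / 1000))
        have : (1 : ℝ) ≤ Real.log X * (83 / 1000) := by linarith
        linarith
      have e3 : (1 : ℝ) ≤ X ^ ((1 : ℝ) / 4) := Real.one_le_rpow hX.le (by norm_num)
      have e4 : X ^ ((1 : ℝ) / 4) * 2 ≤ X ^ ((1 : ℝ) / 4) * X ^ ((83 : ℝ) / 1000) :=
        mul_le_mul_of_nonneg_left e2 (by linarith)
      linarith
    have hZlog : Real.log X / 4 ≤ Real.log (ZZ X) := by
      have := Real.log_le_log (Real.rpow_pos_of_pos hXpos _) hZ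
      rw [Real.log_rpow hXpos] at this
      linarith
    have hZ2' : 2 ≤ ZZ X := by
      have : (1 : ℝ) < ZZ X := by
        have h5 : (0 : ℝ) < Real.log (ZZ X) := by linarith
        by_contra hh
        push Not at hh
        have : Real.log (ZZ X) ≤ 0 := Real.log_nonpos (by positivity) hh
        linarith
      have : 1 < ZZ X := by exact_mod_cast this
      omega
    have hZX : ZZ X ≤ ⌊X⌋₊ := by
      apply Nat.le_floor
      have : X ^ ((333 : ℝ) / 1000) ≤ X ^ (1 : ℝ) := Real.rpow_le_rpow_of_exponent_le hX.le (by norm_num)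
      rw [Real.rpow_one] at this
      linarith
    set P := PI (ZZ X) ⌊X⌋₊ with hP
    set S := ∑ q ∈ P, (1 : ℝ) / q with hS
    have hS0 : 0 ≤ S := Finset.sum_nonneg fun q _ => by positivity
    have hS2 : S ≤ 2 := by
      have h1 := sum_inv_PI hZ2' hZX
      have hlZ : 0 < Real.log (ZZ X) := by linarith
      have hlN : Real.log (⌊X⌋₊ : ℝ) ≤ Real.log X :=
        Real.log_le_log (by
          have : (0 : ℕ) < ⌊X⌋₊ := by omega
          exact_mod_cast this) (Nat.floor_le hXpos.le)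
      have hlN0 : 0 < Real.log (⌊X⌋₊ : ℝ) := Real.log_pos (by
          have : (1 : ℕ) < ⌊X⌋₊ := by omega
          exact_mod_cast this)
      have h2 : Real.log (Real.log (⌊X⌋₊ : ℝ) / Real.log (ZZ X)) ≤ Real.log 4 := by
        apply Real.log_le_log (by positivity)
        rw [div_le_iff₀ hlZ]
        linarith
      have h3 : Real.log 4 = 2 * Real.log 2 := by
        rw [show (4 : ℝ) = 2 ^ 2 by norm_num, Real.log_pow]; norm_num
      have h4 := Real.log_two_lt_d9
      have h5 : 5 / Real.log (ZZ X) ≤ 1 / 2 := by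
        rw [div_le_iff₀ hlZ]
        linarith
      linarith
    have hmain : ∑ m ∈ (Icc 1 ⌊L⌋₊).filter Odd, |gw X (ZZ X) L m| / m ≤ 1 + S + S * S := by
      have h1 := Finset.sum_le_sum (s := (Icc 1 ⌊L⌋₊).filter Odd) (fun m _ => gw_maj hX hL m)
      refine le_trans h1 ?_
      rw [Finset.sum_add_distrib, Finset.sum_add_distrib]
      have a1 : ∑ m ∈ (Icc 1 ⌊L⌋₊).filter Odd, (if m = 1 then (1 : ℝ) else 0) ≤ 1 := by
        rw [Finset.sum_ite_eq']
        split_ifs <;> norm_num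
      have a2 : ∑ m ∈ (Icc 1 ⌊L⌋₊).filter Odd, ∑ q ∈ P, (if m = q then 1 / (q : ℝ) else 0) ≤ S := by
        rw [Finset.sum_comm]
        apply Finset.sum_le_sum
        intro q _
        rw [Finset.sum_ite_eq']
        split_ifs
        · exact le_rfl
        · positivity
      have a3 : ∑ m ∈ (Icc 1 ⌊L⌋₊).filter Odd, ∑ c ∈ P ×ˢ P,
          (if m = c.1 * c.2 then 1 / (c.1 : ℝ) * (1 / (c.2 : ℝ)) else 0) ≤ S * S := by
        rw [Finset.sum_comm]
        have hSS : S * S = ∑ c ∈ P ×ˢ P, 1 / (c.1 : ℝ) * (1 / (c.2 : ℝ)) := by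
          rw [hS, Finset.sum_mul_sum, Finset.sum_product]
        rw [hSS]
        apply Finset.sum_le_sum
        intro c _
        rw [Finset.sum_ite_eq']
        split_ifs
        · exact le_rfl
        · positivity
      linarith
    nlinarith
end Pool.Agent.SVP
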