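import Pool.Agent.SVP.GBa

set_option autoImplicit false

namespace Pool.Agent.SVP

open Finset

theorem t1a_gw {X : ℝ} {Z : ℕ} {L : ℝ} {m : ℕ} (h : gw X Z L m ≠ 0) : Rg Z m ∧ (m : ℝ) ≤ L := by
  unfold gw at h
  by_contra hc
  apply h
  rw [if_neg]
  rintro ⟨-, h2, h3⟩
  exact hc ⟨h2, h3⟩

/-- [SVP-T1a] Proof. `Gw n = ∑_{m ∣ n} gw m`, interchange: pairs `(m, l)`, `n = m l`; `gw m ≠ 0` implies `m ≤ L`, `Rg Z m`, hence `Rg y m`; so `Rg y n ↔ Rg y l`;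
`n` odd iff `m` and `l` odd; `W₁ < m l ≤ W₂ ↔ W₁/m < l ≤ W₂/m` (`Nat.div_lt_iff_lt_mul`, `Nat.le_div_iff_mul_le`). -/
theorem SR_eq (X : ℝ) {Z : ℕ} (L : ℝ) {y : ℕ} (D W₁ W₂ : ℕ) (hy : y ≤ Z) :
    SR X Z L y D W₁ W₂ = ∑ m ∈ (Icc 1 ⌊L⌋₊).filter Odd, gw X Z L m * (cnt y D m W₁ W₂ : ℝ) := by
  have hR : ∀ m ∈ (Icc 1 ⌊L⌋₊).filter Odd, gw X Z L m * (cnt y D m W₁ W₂ : ℝ) =
      ∑ l ∈ (Ioc (W₁ / m) (W₂ / m)).filter (fun l => Odd l ∧ m * l ≡ 1 [MOD D] ∧ Rg y l), gw X Z L m := by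
    intro m _
    rw [Finset.sum_const, nsmul_eq_mul, mul_comm]
    rfl
  rw [Finset.sum_congr rfl hR]
  unfold SR Gw
  rw [Finset.sum_sigma', Finset.sum_sigma']
  refine Finset.sum_bij_ne_zero (fun a _ _ => (⟨a.2, a.1 / a.2⟩ : Sigma fun _ : ℕ => ℕ)) ?_ ?_ ?_ ?_
  · rintro ⟨n, m⟩ h1 h2
    simp only [Finset.mem_sigma, Finset.mem_filter, AA, Finset.mem_Ioc, Nat.mem_divisors, Finset.mem_Icc] at h1 ⊢
    obtain ⟨⟨⟨⟨hn1, hn2⟩, hodd, hmod⟩, hrg⟩, hdvd, hn0⟩ := h1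
    obtain ⟨hZ, hL⟩ := t1a_gw h2
    obtain ⟨l, rfl⟩ := hdvd
    have hm0 : 0 < m := Nat.pos_of_ne_zero fun h => hn0 (by rw [h, zero_mul])
    rw [Nat.mul_div_cancel_left l hm0]
    obtain ⟨ho1, ho2⟩ := Nat.odd_mul.1 hodd
    refine ⟨⟨⟨hm0, Nat.le_floor hL⟩, ho1⟩, ⟨?_, ?_⟩, ho2, hmod, fun q hq hql => hrg q hq (hql.mul_left m)⟩
    · rw [Nat.div_lt_iff_lt_mul hm0, mul_comm]
      exact hn1
    · rw [Nat.le_div_iff_mul_le hm0, mul_comm]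
      exact hn2
  · rintro ⟨n, m⟩ h1 - ⟨n', m'⟩ h1' - h
    simp only [Finset.mem_sigma, Nat.mem_divisors] at h1 h1'
    simp only [Sigma.mk.injEq, heq_eq_eq] at h
    obtain ⟨rfl, h⟩ := h
    have e1 := Nat.mul_div_cancel' h1.2.1
    have e2 := Nat.mul_div_cancel' h1'.2.1
    rw [h, e2] at e1
    subst e1
    rfl
  · rintro ⟨m, l⟩ h1 h2
    simp only [Finset.mem_sigma, Finset.mem_filter, Finset.mem_Ioc, Finset.mem_Icc] at h1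
    obtain ⟨⟨⟨hm0, hmL⟩, ho1⟩, ⟨hl1, hl2⟩, ho2, hmod, hrg⟩ := h1
    obtain ⟨hZ, hL⟩ := t1a_gw h2
    have hm0' : 0 < m := hm0
    rw [Nat.div_lt_iff_lt_mul hm0', mul_comm] at hl1
    rw [Nat.le_div_iff_mul_le hm0', mul_comm] at hl2
    refine ⟨⟨m * l, m⟩, ?_, h2, ?_⟩
    · simp only [Finset.mem_sigma, Finset.mem_filter, AA, Finset.mem_Ioc, Nat.mem_divisors]
      refine ⟨⟨⟨⟨hl1, hl2⟩, ho1.mul ho2, hmod⟩, ?_⟩, Dvd.intro l rfl, (Nat.mul_pos hm0' ho2.pos).ne'⟩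
      intro q hq hqn
      rcases (Nat.Prime.dvd_mul hq).1 hqn with h | h
      · exact lt_of_le_of_lt hy (hZ q hq h)
      · exact hrg q hq h
    · simp only [Nat.mul_div_cancel_left l hm0']
  · rintro ⟨n, m⟩ _ _
    rfl

end Pool.Agent.SVP
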