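import Pool.Agent.SVP.Defs

set_option autoImplicit false

namespace Pool.Agent.SVP

open Finset

/-- [SVP-T2b] all pieces (triangle inequality) -/
theorem T2_sum {X Z T E K W₁ W₂ : ℕ} {L F : ℝ}
    (h : ∀ k ∈ Ico E K, ∀ i ∈ range T, ∑ p ∈ (Ioc X (2 * X)).filter Nat.Prime,
      |∑ c ∈ TP Z T k i p W₁ W₂, Gw X Z L c.2 - (∑ c ∈ TP Z T k i 1 W₁ W₂, Gw X Z L c.2) / p| ≤ F) (hF : 0 ≤ F) :
    ∑ p ∈ (Ioc X (2 * X)).filter Nat.Prime,
      |TD X Z L T E K p W₁ W₂ - TD X Z L T E K 1 W₁ W₂ / p| ≤ K * T * F := by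
  have h1 : ∀ p ∈ (Ioc X (2 * X)).filter Nat.Prime,
      |TD X Z L T E K p W₁ W₂ - TD X Z L T E K 1 W₁ W₂ / p| ≤
      ∑ k ∈ Ico E K, ∑ i ∈ range T,
        |∑ c ∈ TP Z T k i p W₁ W₂, Gw X Z L c.2 - (∑ c ∈ TP Z T k i 1 W₁ W₂, Gw X Z L c.2) / p| := by
    intro p _
    have e : TD X Z L T E K p W₁ W₂ - TD X Z L T E K 1 W₁ W₂ / p =
        ∑ k ∈ Ico E K, ∑ i ∈ range T, (∑ c ∈ TP Z T k i p W₁ W₂, Gw X Z L c.2 -
          (∑ c ∈ TP Z T k i 1 W₁ W₂, Gw X Z L c.2) / p) := by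
      unfold TD
      rw [sum_div, ← sum_sub_distrib]
      refine sum_congr rfl fun k _ => ?_
      rw [sum_div, ← sum_sub_distrib]
    rw [e]
    refine (abs_sum_le_sum_abs _ _).trans (sum_le_sum fun k _ => ?_)
    exact abs_sum_le_sum_abs _ _
  refine (sum_le_sum h1).trans ?_
  rw [sum_comm]
  have h2 : ∀ k ∈ Ico E K, ∑ p ∈ (Ioc X (2 * X)).filter Nat.Prime, ∑ i ∈ range T,
      |∑ c ∈ TP Z T k i p W₁ W₂, Gw X Z L c.2 - (∑ c ∈ TP Z T k i 1 W₁ W₂, Gw X Z L c.2) / p| ≤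
      T * F := by
    intro k hk
    rw [sum_comm]
    refine (sum_le_sum fun i hi => h k hk i hi).trans ?_
    rw [sum_const, card_range, nsmul_eq_mul]
  refine (sum_le_sum h2).trans ?_
  rw [sum_const, Nat.card_Ico, nsmul_eq_mul, mul_assoc]
  refine mul_le_mul_of_nonneg_right ?_ (by positivity)
  exact_mod_cast Nat.sub_le K E

end Pool.Agent.SVP
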