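import Pool.Agent.SVP.ER1

set_option autoImplicit false

namespace Pool.Agent.SVP

open Finset

/-- [SVP-T2a] one piece. Proof. `TypeIIat` with `N = 2^k`, `M = W₁ / y`, `y = yy T k i`, `y' = yy T k (i+1)`,
`β q = 1` if `q` prime, `y < q ≤ y'`, `q ≤ Z`, else `0` (support in `(2^k, 2^(k+1)]` by `le_yy`, `yy_le`),
`α m = Gw m / B` if `M < m ≤ W₂ / y'`, `Odd m`, `Rg y' m`, else `0` (support in `(M, 2M]` by `h4`; `1 ≤ m ≤ W₂`).
`M N ≤ W₁ ≤ X²`, `X^(1-δ) * (M N)/X ≤ X^(2-δ)`. The inner double sum is `(1/B) (∑_{TP p} Gw - (∑_{TP 1} Gw)/p)`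
(`q m ≡ 1 [MOD 1]` always holds). -/
theorem T2_piece {e η δ C : ℝ} (hII : TypeIIat e η δ C) (hC : 0 ≤ C) {X Z T k i W₁ W₂ : ℕ} {L B : ℝ} (hX : 2 ≤ X)
    (hi : i < T) (h1 : (X : ℝ) ^ e ≤ (2 ^ k : ℕ)) (h2 : ((2 ^ k : ℕ) : ℝ) ≤ (X : ℝ) ^ (1 / 3 - e))
    (h3 : (X : ℝ) ^ (2 - η) ≤ ((W₁ / yy T k i : ℕ) : ℝ) * (2 ^ k : ℕ)) (hW1 : (W₁ : ℝ) ≤ (X : ℝ) ^ 2)
    (h4 : W₂ / yy T k (i + 1) ≤ 2 * (W₁ / yy T k i)) (hB0 : 0 < B)
    (hB : ∀ m : ℕ, 1 ≤ m → m ≤ W₂ → |Gw X Z L m| ≤ B) :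
    ∑ p ∈ (Ioc X (2 * X)).filter Nat.Prime,
      |∑ c ∈ TP Z T k i p W₁ W₂, Gw X Z L c.2 - (∑ c ∈ TP Z T k i 1 W₁ W₂, Gw X Z L c.2) / p| ≤
      B * C * (X : ℝ) ^ (2 - δ) := by
  classical
  set y := yy T k i with hy
  set y' := yy T k (i + 1) with hy'
  set M := W₁ / y with hM
  set N := 2 ^ k with hN
  have hNy : N ≤ y := le_yy T k i
  have hy'N : y' ≤ 2 * N := by
    have := yy_le (T := T) (k := k) (i := i + 1) (by omega)
    rw [pow_succ] at this
    rw [hN]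
    omega
  have hXpos : (0 : ℝ) < X := by
    have : (2 : ℝ) ≤ X := by exact_mod_cast hX
    linarith
  have hMN : (M : ℝ) * N ≤ (X : ℝ) ^ 2 := by
    have h5 : M * N ≤ W₁ := le_trans (Nat.mul_le_mul_left _ hNy) (Nat.div_mul_le_self _ _)
    have h6 : (M : ℝ) * N ≤ W₁ := by exact_mod_cast h5
    exact h6.trans hW1
  set Q : Finset ℕ := (Ioc y y').filter (fun q => q.Prime ∧ q ≤ Z) with hQ
  set Ms : Finset ℕ := Ioc M (W₂ / y') with hMs
  set A : ℕ → ℝ := fun m => if Odd m ∧ Rg y' m then Gw X Z L m else 0 with hA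
  set α : ℕ → ℝ := fun m => if m ∈ Ms then A m / B else 0 with hα
  set β : ℕ → ℝ := fun q => if q ∈ Q then 1 else 0 with hβ
  have hα1 : ∀ m, |α m| ≤ 1 := by
    intro m
    simp only [hα]
    split_ifs with h
    · simp only [hA]
      split_ifs with h'
      · rw [abs_div, abs_of_pos hB0, div_le_one hB0]
        rw [hMs, mem_Ioc] at h
        exact hB m (by omega) (h.2.trans (Nat.div_le_self _ _))
      · simp
    · simp
  have hβ1 : ∀ n, |β n| ≤ 1 := by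
    intro n
    simp only [hβ]
    split_ifs <;> simp
  have hβ0 : ∀ n, ¬ n.Prime → β n = 0 := by
    intro n hn
    simp only [hβ]
    rw [if_neg]
    intro h
    rw [hQ, mem_filter] at h
    exact hn h.2.1
  have hmain := hII X N M hX h1 h2 h3 hMN α β hα1 hβ1 hβ0
  -- the sums over the pairs
  have hS : ∀ D : ℕ, ∑ c ∈ TP Z T k i D W₁ W₂, Gw X Z L c.2 =
      ∑ q ∈ Q, ∑ m ∈ Ms, A m * (if m * q ≡ 1 [MOD D] then 1 else 0) := by
    intro D
    unfold TP
    rw [sum_filter, sum_product]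
    apply sum_congr rfl
    intro q _
    apply sum_congr rfl
    intro m _
    simp only [hA]
    by_cases c1 : Odd m ∧ Rg y' m
    · by_cases c2 : m * q ≡ 1 [MOD D]
      · rw [if_pos, if_pos c1, if_pos c2, mul_one]
        refine ⟨c1.1, c1.2, ?_⟩
        rw [mul_comm]
        exact c2
      · rw [if_neg, if_neg c2, mul_zero]
        rintro ⟨_, _, h⟩
        rw [mul_comm] at h
        exact c2 h
    · rw [if_neg, if_neg c1, zero_mul]
      rintro ⟨h, h', _⟩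
      exact c1 ⟨h, h'⟩
  have hin : ∀ p : ℕ, ∑ m ∈ Ioc M (2 * M), ∑ n ∈ Ioc N (2 * N),
      α m * β n * ((if m * n ≡ 1 [MOD p] then 1 else 0) - 1 / (p : ℝ)) =
      (1 / B) * (∑ c ∈ TP Z T k i p W₁ W₂, Gw X Z L c.2 -
        (∑ c ∈ TP Z T k i 1 W₁ W₂, Gw X Z L c.2) / p) := by
    intro p
    have e1 : ∑ m ∈ Ioc M (2 * M), ∑ n ∈ Ioc N (2 * N),
        α m * β n * ((if m * n ≡ 1 [MOD p] then 1 else 0) - 1 / (p : ℝ)) =
        ∑ m ∈ Ms, ∑ n ∈ Q,
          A m / B * ((if m * n ≡ 1 [MOD p] then 1 else 0) - 1 / (p : ℝ)) := by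
      have hsub : Ms ⊆ Ioc M (2 * M) := by
        intro m hm
        rw [hMs, mem_Ioc] at hm
        rw [mem_Ioc]
        exact ⟨hm.1, hm.2.trans h4⟩
      rw [← sum_subset hsub]
      · apply sum_congr rfl
        intro m hm
        have hsub' : Q ⊆ Ioc N (2 * N) := by
          intro q hq
          rw [hQ, mem_filter, mem_Ioc] at hq
          rw [mem_Ioc]
          exact ⟨lt_of_le_of_lt hNy hq.1.1, hq.1.2.trans hy'N⟩
        rw [← sum_subset hsub']
        · apply sum_congr rfl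
          intro n hn
          simp only [hα, hβ]
          rw [if_pos hm, if_pos hn, mul_one]
        · intro n _ hn
          simp only [hβ]
          rw [if_neg hn]
          ring
      · intro m _ hm
        apply sum_eq_zero
        intro n _
        simp only [hα]
        rw [if_neg hm]
        ring
    rw [e1, hS p, hS 1, sum_comm, sum_div, ← sum_sub_distrib, mul_sum]
    apply sum_congr rfl
    intro n _
    rw [sum_div, ← sum_sub_distrib, mul_sum]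
    apply sum_congr rfl
    intro m _
    have e2 : m * n ≡ 1 [MOD 1] := Nat.modEq_one
    rw [if_pos e2]
    ring
  have hsum : ∑ p ∈ (Ioc X (2 * X)).filter Nat.Prime,
      |∑ c ∈ TP Z T k i p W₁ W₂, Gw X Z L c.2 - (∑ c ∈ TP Z T k i 1 W₁ W₂, Gw X Z L c.2) / p| =
      B * ∑ p ∈ (Ioc X (2 * X)).filter Nat.Prime,
        |∑ m ∈ Ioc M (2 * M), ∑ n ∈ Ioc N (2 * N),
          α m * β n * ((if m * n ≡ 1 [MOD p] then 1 else 0) - 1 / (p : ℝ))| := by
    rw [mul_sum]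
    apply sum_congr rfl
    intro p _
    rw [hin p, abs_mul, abs_of_pos (by positivity : (0 : ℝ) < 1 / B)]
    field_simp
  rw [hsum, mul_assoc B C]
  apply mul_le_mul_of_nonneg_left _ hB0.le
  refine hmain.trans ?_
  have e3 : (X : ℝ) ^ (2 - δ) = (X : ℝ) ^ (1 - δ) * X := by
    rw [show (2 - δ) = (1 - δ) + 1 by ring, Real.rpow_add_one hXpos.ne']
  rw [e3, mul_div_assoc, mul_assoc C]
  apply mul_le_mul_of_nonneg_left _ hC
  apply mul_le_mul_of_nonneg_left _ (Real.rpow_nonneg hXpos.le _)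
  rw [div_le_iff₀ hXpos]
  nlinarith [hMN]

end Pool.Agent.SVP
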