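import Mathlib

/-!
Sums of reciprocals from lower bounds of the counting function (no upper bounds needed).
-/

set_option autoImplicit false

namespace Pool.Agent.SVP.Tree

open Finset

/-- number of elements of `T` in `[1, k]` -/
noncomputable def cnt (T : Set ℕ) (k : ℕ) : ℕ := by
  classical exact ((Icc 1 k).filter fun j => j ∈ T).card

/-- number of elements of `T` in `(a, k]` -/
noncomputable def cntI (T : Set ℕ) (a k : ℕ) : ℕ := by
  classical exact ((Ioc a k).filter fun j => j ∈ T).card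

/-- sum of `1/j` over the elements of `T` in `(a, b]` -/
noncomputable def rs (T : Set ℕ) (a b : ℕ) : ℝ := by
  classical exact ∑ j ∈ (Ioc a b).filter fun j => j ∈ T, (1:ℝ) / j

lemma cntI_ge (T : Set ℕ) (a k : ℕ) : (cnt T k : ℝ) - a ≤ cntI T a k := by
  classical
  unfold cnt cntI
  have h : (Icc 1 k).filter (fun j => j ∈ T) ⊆
      (Icc 1 a) ∪ (Ioc a k).filter (fun j => j ∈ T) := by
    intro j hj
    simp only [mem_filter, mem_Icc, mem_union, mem_Ioc] at hj ⊢
    by_cases h1 : j ≤ a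
    · exact Or.inl ⟨hj.1.1, h1⟩
    · exact Or.inr ⟨⟨by omega, hj.1.2⟩, hj.2⟩
  have h2 := (card_le_card h).trans (card_union_le _ _)
  rw [Nat.card_Icc, Nat.add_sub_cancel] at h2
  have h3 : (((Icc 1 k).filter fun j => j ∈ T).card : ℝ) ≤
      a + ((Ioc a k).filter fun j => j ∈ T).card := by exact_mod_cast h2
  linarith

lemma cntI_succ (T : Set ℕ) {a b : ℕ} (hab : a ≤ b) : (cntI T a (b + 1) : ℝ) =
    cntI T a b + (by classical exact if b + 1 ∈ T then (1:ℝ) else 0) := by
  classical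
  unfold cntI
  have h : Ioc a (b + 1) = insert (b + 1) (Ioc a b) := by
    ext j; simp only [mem_Ioc, mem_insert]; omega
  rw [h, filter_insert]
  split_ifs with h1
  · rw [card_insert_of_notMem (by simp)]
    push_cast; ring
  · simp

lemma rs_succ (T : Set ℕ) {a b : ℕ} (hab : a ≤ b) : rs T a (b + 1) =
    rs T a b + (by classical exact if b + 1 ∈ T then (1:ℝ) / ((b + 1 : ℕ) : ℝ) else 0) := by
  classical
  unfold rs
  have h : Ioc a (b + 1) = insert (b + 1) (Ioc a b) := by
    ext j; simp only [mem_Ioc, mem_insert]; omega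
  rw [h, filter_insert]
  split_ifs with h1
  · rw [sum_insert (by simp)]
    ring
  · simp

lemma rs_ge_cnt (T : Set ℕ) (a b : ℕ) : (cntI T a b : ℝ) / (b + 1) ≤ rs T a b := by
  classical
  unfold cntI rs
  rw [div_eq_mul_inv, ← nsmul_eq_mul]
  apply card_nsmul_le_sum
  intro j hj
  simp only [mem_filter, mem_Ioc] at hj
  have h1 : (0:ℝ) < j := by
    have : 0 < j := by omega
    exact_mod_cast this
  rw [one_div]
  apply inv_anti₀ h1
  have : (j:ℝ) ≤ b := by exact_mod_cast hj.1.2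
  linarith

lemma log_step (b : ℕ) : Real.log (((b:ℝ) + 3) / (b + 2)) ≤ 1 / (b + 2) := by
  have h : (0:ℝ) < (b:ℝ) + 2 := by positivity
  have h2 := Real.log_le_sub_one_of_pos (x := ((b:ℝ) + 3) / (b + 2)) (by positivity)
  refine h2.trans (le_of_eq ?_)
  field_simp
  ring

/-- main step, by induction on `b` -/
lemma rs_ge_aux (T : Set ℕ) (γ : ℝ) (hγ0 : 0 ≤ γ) (a a' : ℕ) (haa : a ≤ a') (b : ℕ) (hb : a' ≤ b)
    (h : ∀ k, a' ≤ k → k ≤ b → γ * k ≤ cnt T k) :
    γ * Real.log (((b:ℝ) + 2) / (a' + 2)) - a * (1 / (a' + 1) - 1 / (b + 1)) ≤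
      rs T a b - (cntI T a b : ℝ) / (b + 1) := by
  induction b, hb using Nat.le_induction with
  | base =>
    have h1 := rs_ge_cnt T a a'
    rw [div_self (by positivity), Real.log_one, sub_self]
    linarith
  | succ b hb ih =>
    have ih' := ih fun k hk hk2 => h k hk (by omega)
    have hab : a ≤ b := haa.trans hb
    rw [rs_succ T hab]
    have hN := cntI_succ T hab
    have hNge := cntI_ge T a (b + 1)
    have hh := h (b + 1) (by omega) le_rfl
    set N0 : ℝ := (cntI T a b : ℝ) with hN0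
    set N1 : ℝ := (cntI T a (b + 1) : ℝ) with hN1
    have hf : (by classical exact if b + 1 ∈ T then (1:ℝ) / ((b + 1 : ℕ) : ℝ) else 0) =
        (N1 - N0) / (b + 1) := by
      rw [hN]
      split_ifs
      · push_cast; ring
      · ring
    rw [hf]
    have hb0 : (0:ℝ) ≤ b := Nat.cast_nonneg b
    have hlog : Real.log ((((b + 1 : ℕ):ℝ) + 2) / (a' + 2)) =
        Real.log (((b:ℝ) + 3) / (b + 2)) + Real.log (((b:ℝ) + 2) / (a' + 2)) := by
      rw [← Real.log_mul (by positivity) (by positivity)]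
      congr 1
      push_cast
      field_simp
      ring
    rw [hlog]
    push_cast at hh hNge ⊢
    have hstep := log_step b
    -- the gain of the step
    have hγ : γ * ((b:ℝ) + 1) - a ≤ N1 := by linarith
    have key : (N1 - N0) / (b + 1) - N1 / ((b:ℝ) + 1 + 1) + N0 / (b + 1) =
        N1 / (((b:ℝ) + 1) * (b + 2)) := by
      field_simp
      ring
    have key2 : (γ * ((b:ℝ) + 1) - a) / (((b:ℝ) + 1) * (b + 2)) ≤ N1 / (((b:ℝ) + 1) * (b + 2)) :=
      div_le_div_of_nonneg_right hγ (by positivity)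
    have key3 : (γ * ((b:ℝ) + 1) - a) / (((b:ℝ) + 1) * (b + 2)) =
        γ * (1 / (b + 2)) - a * (1 / (b + 1) - 1 / ((b:ℝ) + 1 + 1)) := by
      field_simp
      ring
    have := mul_le_mul_of_nonneg_left hstep hγ0
    linarith

lemma rs_nonneg (T : Set ℕ) (a b : ℕ) : 0 ≤ rs T a b := by
  classical
  unfold rs
  exact sum_nonneg fun j _ => by positivity

/-- A lower bound `γ k` for the number of elements of `T` up to `k` gives a lower bound for the sum of
reciprocals over `(a, b]`. -/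
theorem rs_ge (T : Set ℕ) (γ : ℝ) (hγ0 : 0 < γ) (hγ1 : γ ≤ 1) (a b : ℕ)
    (h : ∀ k, a ≤ k → k ≤ b → γ * k ≤ cnt T k) :
    γ * (Real.log (((b:ℝ) + 2) / (a / γ + 3)) - 1) ≤ rs T a b := by
  have ha0 : (0:ℝ) ≤ a := Nat.cast_nonneg a
  have hb0 : (0:ℝ) ≤ b := Nat.cast_nonneg b
  have haγ : (0:ℝ) ≤ a / γ := by positivity
  by_cases hr : ((b:ℝ) + 2) / (a / γ + 3) ≤ 1
  · have h1 : Real.log (((b:ℝ) + 2) / (a / γ + 3)) ≤ 0 :=
      Real.log_nonpos (by positivity) hr
    have h2 := rs_nonneg T a b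
    nlinarith
  push Not at hr
  rw [lt_div_iff₀ (by positivity), one_mul] at hr
  set a' : ℕ := ⌈(a:ℝ) / γ⌉₊ with ha'
  have h1 : (a:ℝ) / γ ≤ a' := Nat.le_ceil _
  have h2 : (a':ℝ) < a / γ + 1 := Nat.ceil_lt_add_one haγ
  have h3 : (a:ℝ) ≤ γ * a' := by
    rw [div_le_iff₀ hγ0] at h1
    linarith
  have h4 : a ≤ a' := by
    have : (a:ℝ) ≤ a' := h3.trans (by nlinarith [(Nat.cast_nonneg a' : (0:ℝ) ≤ a')])
    exact_mod_cast this
  have h5 : a' ≤ b := by
    have : (a':ℝ) < b + 1 := by linarith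
    exact_mod_cast Nat.lt_succ_iff.1 (by exact_mod_cast this)
  have hmain := rs_ge_aux T γ hγ0.le a a' h4 b h5 fun k hk hk2 => h k (h4.trans hk) hk2
  have hc0 : (0:ℝ) ≤ (cntI T a b : ℝ) / (b + 1) := by positivity
  have h6 : Real.log (((b:ℝ) + 2) / (a / γ + 3)) ≤ Real.log (((b:ℝ) + 2) / (a' + 2)) := by
    apply Real.log_le_log (by positivity)
    apply div_le_div_of_nonneg_left (by positivity) (by positivity)
    linarith
  have h7 := mul_le_mul_of_nonneg_left h6 hγ0.le
  have h8 : (a:ℝ) * (1 / (a' + 1)) ≤ γ := by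
    rw [mul_one_div, div_le_iff₀ (by positivity)]
    nlinarith
  have h9 : (0:ℝ) ≤ a * (1 / (b + 1)) := by positivity
  nlinarith

end Pool.Agent.SVP.Tree
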