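import Pool.Agent.SVP.Tree1

/-!
The children `2 k q + 1` of a prime `q` in a closed set `G`: the sum of their reciprocals over a long
window is at least a constant times `1/q`.
-/

set_option autoImplicit false

namespace Pool.Agent.SVP.Tree

open Finset

/-- The closure property of the set `G` of primes: at least `c K / log q` children with `k ≤ K`. -/
def Closed (G : Set ℕ) (c η : ℝ) : Prop := ∀ q ∈ G, q.Prime ∧ q ≠ 2 ∧
  ∀ K : ℝ, (q:ℝ) ^ (1 - η) ≤ K → K < 2 * ((q:ℝ) + 1) → c * K / Real.log q ≤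
    ({k : ℕ | 1 ≤ k ∧ (k:ℝ) ≤ K ∧ ¬ q ∣ k ∧ 2 * k * q + 1 ∈ G}.ncard : ℝ)

/-- The admissible `k` for `q`. -/
def TT (G : Set ℕ) (q : ℕ) : Set ℕ := {k | ¬ q ∣ k ∧ 2 * k * q + 1 ∈ G}

lemma cnt_eq_ncard (G : Set ℕ) (q m : ℕ) : cnt (TT G q) m =
    {k : ℕ | 1 ≤ k ∧ (k:ℝ) ≤ (m:ℝ) ∧ ¬ q ∣ k ∧ 2 * k * q + 1 ∈ G}.ncard := by
  classical
  unfold cnt
  rw [← Set.ncard_coe_finset]
  congr 1
  ext k
  simp only [TT, coe_filter, mem_Icc, Set.mem_ofPred_eq, Nat.cast_le]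
  tauto

lemma one_lt_log {q : ℕ} (hq : q.Prime) (hq2 : q ≠ 2) : 1 < Real.log q := by
  have h3 : 3 ≤ q := by
    have := hq.two_le
    omega
  have h4 : (3:ℝ) ≤ q := by exact_mod_cast h3
  have h5 : Real.log 3 ≤ Real.log q := Real.log_le_log (by norm_num) h4
  have h6 : (1:ℝ) < Real.log 3 := by
    rw [Real.lt_log_iff_exp_lt (by norm_num)]
    linarith [Real.exp_one_lt_d9]
  linarith

/-- the finite set of the `k` in the window `(U, V]` -/
noncomputable def ch (G : Set ℕ) (U V : ℝ) (q : ℕ) : Finset ℕ := by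
  classical
  exact (Ioc ⌊(U - 1) / (2 * q)⌋₊ ⌊(V - 1) / (2 * q)⌋₊).filter fun k => k ∈ TT G q

lemma child_sum {G : Set ℕ} {c η κ : ℝ} (hG : Closed G c η) (hc : 0 < c) (hc1 : c ≤ 1)
    (hη1 : η ≤ 1) (hκ : 0 < κ) {q : ℕ} (hq : q ∈ G) {U V : ℝ}
    (hU : 8 * (q:ℝ) ^ (2 - η) ≤ U) (hle : U ≤ V) (hV : V ≤ (q:ℝ) ^ 2) (hUV : κ * Real.log q ≤ Real.log (V / U))
    (hlog : Real.log (2 * Real.log q / c) + 1 ≤ κ / 2 * Real.log q) :
    c * κ / 6 * (1 / q) ≤ ∑ k ∈ ch G U V q, (1:ℝ) / ((2 * k * q + 1 : ℕ) : ℝ) := by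
  classical
  obtain ⟨hqp, hq2, hcl⟩ := hG q hq
  have hL := one_lt_log hqp hq2
  set L : ℝ := Real.log q with hLdef
  have hq3 : 3 ≤ q := by
    have := hqp.two_le
    omega
  have hq3' : (3:ℝ) ≤ q := by exact_mod_cast hq3
  have hq0 : (0:ℝ) < q := by linarith
  -- powers
  have hpow : (q:ℝ) ^ (2 - η) = q * (q:ℝ) ^ (1 - η) := by
    rw [show (2:ℝ) - η = 1 + (1 - η) by ring, Real.rpow_add hq0, Real.rpow_one]
  have hp1 : 1 ≤ (q:ℝ) ^ (1 - η) := Real.one_le_rpow (by linarith) (by linarith)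
  have hUq : 8 * (q:ℝ) ≤ U := by
    rw [hpow] at hU
    nlinarith
  have hU0 : 0 < U := by linarith
  set γ : ℝ := c / L with hγ
  have hγ0 : 0 < γ := by positivity
  have hγ1 : γ ≤ 1 := by
    rw [hγ, div_le_one (by linarith)]
    linarith
  have hV0 : 0 < V := by linarith
  set a : ℕ := ⌊(U - 1) / (2 * q)⌋₊ with ha
  set b : ℕ := ⌊(V - 1) / (2 * q)⌋₊ with hb
  have hUpos : 0 ≤ (U - 1) / (2 * (q:ℝ)) := div_nonneg (by linarith) (by linarith)
  have hVpos : 0 ≤ (V - 1) / (2 * (q:ℝ)) := div_nonneg (by linarith) (by linarith)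
  have ha1 : (a:ℝ) ≤ (U - 1) / (2 * q) := Nat.floor_le hUpos
  have ha2 : (U - 1) / (2 * q) < a + 1 := Nat.lt_floor_add_one _
  have hb1 : (b:ℝ) ≤ (V - 1) / (2 * q) := Nat.floor_le hVpos
  have hb2 : (V - 1) / (2 * q) < b + 1 := Nat.lt_floor_add_one _
  -- the counting function
  have hcnt : ∀ k, a ≤ k → k ≤ b → γ * k ≤ cnt (TT G q) k := by
    intro k hak hkb
    have hk1 : (a:ℝ) ≤ k := by exact_mod_cast hak
    have hk2 : (k:ℝ) ≤ b := by exact_mod_cast hkb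
    have h1 : (q:ℝ) ^ (1 - η) ≤ k := by
      have h2 : (q:ℝ) ^ (1 - η) + 1 ≤ (U - 1) / (2 * q) := by
        rw [le_div_iff₀ (by linarith)]
        rw [hpow] at hU
        nlinarith
      linarith
    have h3 : (k:ℝ) < 2 * ((q:ℝ) + 1) := by
      have h4 : (V - 1) / (2 * (q:ℝ)) ≤ q := by
        rw [div_le_iff₀ (by linarith)]
        nlinarith
      linarith
    have h5 := hcl k h1 h3
    rw [cnt_eq_ncard, hγ, div_mul_eq_mul_div]
    exact h5
  have hrs := rs_ge (TT G q) γ hγ0 hγ1 a b hcnt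
  -- the quotient
  have hb3 : V / (2 * q) ≤ (b:ℝ) + 2 := by
    have h1 : V / (2 * (q:ℝ)) = (V - 1) / (2 * q) + 1 / (2 * q) := by ring
    have h2 : 1 / (2 * (q:ℝ)) ≤ 1 := by
      rw [div_le_one (by linarith)]
      linarith
    linarith
  have ha3 : (a:ℝ) / γ + 3 ≤ U / (γ * q) := by
    have h1 : (a:ℝ) + 3 * γ ≤ U / q := by
      have h2 : (U - 1) / (2 * (q:ℝ)) = U / q / 2 - 1 / (2 * q) := by field_simp
      have h3 : 8 ≤ U / q := by rw [le_div_iff₀ hq0]; linarith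
      have h4 : 0 < 1 / (2 * (q:ℝ)) := by positivity
      linarith
    have h5 : (a:ℝ) / γ + 3 = (a + 3 * γ) / γ := by field_simp
    rw [h5, mul_comm γ, ← div_div]
    exact div_le_div_of_nonneg_right h1 hγ0.le
  have ha4 : (0:ℝ) < a / γ + 3 := by positivity
  have hratio : γ / 2 * (V / U) ≤ ((b:ℝ) + 2) / (a / γ + 3) := by
    rw [le_div_iff₀ ha4]
    calc γ / 2 * (V / U) * (a / γ + 3) ≤ γ / 2 * (V / U) * (U / (γ * q)) :=
          mul_le_mul_of_nonneg_left ha3 (by positivity)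
      _ = V / (2 * q) := by field_simp
      _ ≤ _ := hb3
  have hlog1 : Real.log (V / U) - Real.log (2 * L / c) ≤
      Real.log (((b:ℝ) + 2) / (a / γ + 3)) := by
    rw [← Real.log_div (by positivity) (by positivity)]
    apply Real.log_le_log (by positivity)
    refine le_trans (le_of_eq ?_) hratio
    rw [hγ]
    field_simp
  have hrs2 : c * κ / 2 ≤ rs (TT G q) a b := by
    refine le_trans ?_ hrs
    have h1 : κ / 2 * L ≤ Real.log (((b:ℝ) + 2) / (a / γ + 3)) - 1 := by linarith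
    have h2 := mul_le_mul_of_nonneg_left h1 hγ0.le
    have h3 : γ * (κ / 2 * L) = c * κ / 2 := by
      rw [hγ]; field_simp
    linarith
  -- from k to 2 k q + 1
  have h9 : (1 / (3 * (q:ℝ))) * rs (TT G q) a b ≤
      ∑ k ∈ ch G U V q, (1:ℝ) / ((2 * k * q + 1 : ℕ) : ℝ) := by
    unfold rs ch
    rw [mul_sum]
    apply sum_le_sum
    intro k hk
    simp only [mem_filter, mem_Ioc] at hk
    have hk0 : (1:ℝ) ≤ k := by
      have : 1 ≤ k := by omega
      exact_mod_cast this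
    push_cast
    rw [one_div_mul_one_div]
    apply one_div_le_one_div_of_le (by positivity)
    nlinarith
  refine le_trans ?_ h9
  have h10 := mul_le_mul_of_nonneg_left hrs2 (by positivity : (0:ℝ) ≤ 1 / (3 * (q:ℝ)))
  refine le_trans (le_of_eq ?_) h10
  field_simp
  ring

end Pool.Agent.SVP.Tree
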