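import Pool.Agent.SVP.Tree2

/-!
The mass (sum of reciprocals) of a closed set in a window `(y, y^(1+κ)]` passes to the window of
`y^s` for every `s` in an interval, with a constant factor.
-/

set_option autoImplicit false

namespace Pool.Agent.SVP.Tree

open Finset

/-- One step of the recursion: `q = 2 k p + 1` in `G`, `1 ≤ k ≤ p^(1-ε)`, `p ∤ k`. -/
def Step (G : Set ℕ) (ε : ℝ) (p q : ℕ) : Prop :=
  q ∈ G ∧ ∃ k : ℕ, 1 ≤ k ∧ (k:ℝ) ≤ (p:ℝ) ^ (1 - ε) ∧ ¬ p ∣ k ∧ q = 2 * k * p + 1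

/-- `R` contains the children `2 k q + 1`, `k ≤ q^(1-ε)`, in `G` of its elements. -/
def Down (G : Set ℕ) (ε : ℝ) (R : Set ℕ) : Prop := R ⊆ G ∧ ∀ q ∈ R, ∀ k : ℕ, 1 ≤ k →
  (k:ℝ) ≤ (q:ℝ) ^ (1 - ε) → ¬ q ∣ k → 2 * k * q + 1 ∈ G → 2 * k * q + 1 ∈ R

/-- The elements of `R` with logarithm in `(α, β]`. -/
noncomputable def win (R : Set ℕ) (α β : ℝ) : Finset ℕ := by
  classical
  exact (Icc 1 ⌊Real.exp β⌋₊).filter fun N => N ∈ R ∧ α < Real.log N ∧ Real.log N ≤ β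

lemma mem_win {R : Set ℕ} {α β : ℝ} {N : ℕ} : N ∈ win R α β ↔
    1 ≤ N ∧ N ∈ R ∧ α < Real.log N ∧ Real.log N ≤ β := by
  classical
  unfold win
  rw [mem_filter, mem_Icc]
  constructor
  · rintro ⟨⟨h1, _⟩, h2⟩
    exact ⟨h1, h2⟩
  · rintro ⟨h1, h2, h3, h4⟩
    refine ⟨⟨h1, ?_⟩, h2, h3, h4⟩
    apply Nat.le_floor
    have h5 : (0:ℝ) < N := by exact_mod_cast h1
    rw [← Real.log_le_iff_le_exp h5]
    exact h4

/-- The sum of the reciprocals. -/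
noncomputable def mass (R : Set ℕ) (α β : ℝ) : ℝ := ∑ N ∈ win R α β, (1:ℝ) / N

lemma inj_children {q q' k k' : ℕ} (hq : q.Prime) (hq' : q'.Prime) (hk : 1 ≤ k)
    (h : 2 * k * q + 1 = 2 * k' * q' + 1) (hbig : 2 * k * q + 1 < q * q') : q = q' ∧ k = k' := by
  have h1 : 2 * k * q = 2 * k' * q' := by omega
  by_cases hqq : q = q'
  · subst hqq
    refine ⟨rfl, ?_⟩
    have h2 : 2 * k = 2 * k' := Nat.eq_of_mul_eq_mul_right hq.pos h1
    omega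
  · exfalso
    have hco : Nat.Coprime q q' := (Nat.coprime_primes hq hq').2 hqq
    have h2 : q ∣ 2 * k * q := Dvd.intro_left _ rfl
    have h3 : q' ∣ 2 * k * q := by rw [h1]; exact Dvd.intro_left _ rfl
    have h4 : q * q' ∣ 2 * k * q := hco.mul_dvd_of_dvd_of_dvd h2 h3
    have h5 : 0 < 2 * k * q := by
      have := hq.pos
      positivity
    have := Nat.le_of_dvd h5 h4
    omega

/-- what it means for `k` to be in the window of `q` -/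
lemma ch_spec {G : Set ℕ} {U V : ℝ} {q k : ℕ} (hq : 0 < q) (hU : 1 ≤ U)
    (hk : k ∈ ch G U V q) : 1 ≤ k ∧ ¬ q ∣ k ∧ 2 * k * q + 1 ∈ G ∧
      U < ((2 * k * q + 1 : ℕ) : ℝ) ∧ ((2 * k * q + 1 : ℕ) : ℝ) ≤ V := by
  classical
  unfold ch at hk
  simp only [mem_filter, mem_Ioc] at hk
  obtain ⟨⟨h1, h2⟩, h3, h4⟩ := hk
  have hq0 : (0:ℝ) < q := by exact_mod_cast hq
  have h5 : (U - 1) / (2 * (q:ℝ)) < k := by
    exact (Nat.floor_lt (div_nonneg (by linarith) (by linarith))).1 h1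
  have hk1 : 1 ≤ k := by omega
  have h6 : (k:ℝ) ≤ (V - 1) / (2 * q) := by
    have h7 : k ≠ 0 := by omega
    exact (Nat.le_floor_iff' h7).1 h2
  rw [div_lt_iff₀ (by positivity)] at h5
  rw [le_div_iff₀ (by positivity)] at h6
  refine ⟨hk1, h3, h4, ?_, ?_⟩
  · push_cast; linarith
  · push_cast; linarith

/-- thresholds for the window at `exp ℓ` -/
structure Big (c η ℓ : ℝ) : Prop where
  pos : 0 < ℓ
  eight : 8 ≤ Real.exp (η * ℓ / 4)
  logs : ∀ z, ℓ ≤ z → Real.log (2 * z / c) + 1 ≤ η / 16 * z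

/-- from `2 k q + 1 ≤ exp ((2 - ε) ℓ)` and `exp ℓ < q` to `k ≤ q^(1-ε)` -/
lemma k_small {ε ℓ : ℝ} {q k : ℕ} (hε1 : ε ≤ 1) (hq : Real.exp ℓ < q)
    (h : ((2 * k * q + 1 : ℕ) : ℝ) ≤ Real.exp ((2 - ε) * ℓ)) : (k:ℝ) ≤ (q:ℝ) ^ (1 - ε) := by
  have hq0 : (0:ℝ) < q := (Real.exp_pos _).trans hq
  have h1 : Real.exp ((2 - ε) * ℓ) ≤ (q:ℝ) ^ (2 - ε) := by
    rw [mul_comm, Real.exp_mul]
    exact Real.rpow_le_rpow (Real.exp_pos _).le hq.le (by linarith)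
  have h2 : (q:ℝ) ^ (2 - ε) = q * (q:ℝ) ^ (1 - ε) := by
    rw [show (2:ℝ) - ε = 1 + (1 - ε) by ring, Real.rpow_add hq0, Real.rpow_one]
  push_cast at h
  have h3 : (q:ℝ) * (2 * k) ≤ q * (q:ℝ) ^ (1 - ε) := by linarith
  have h4 := le_of_mul_le_mul_left h3 hq0
  have h5 : (0:ℝ) ≤ k := Nat.cast_nonneg k
  linarith

lemma mass_step {G R : Set ℕ} {c η : ℝ} (hG : Closed G c η) (hR : Down G (η ^ 2 / 32) R) (hc : 0 < c)
    (hc1 : c ≤ 1) (hη0 : 0 < η) (hη1 : η ≤ 1) {ℓ s : ℝ} (hb : Big c η ℓ) (hs1 : 2 - η / 2 ≤ s)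
    (hs2 : s ≤ 2 - η / 4) :
    c * η / 48 * mass R ℓ ((1 + η / 8) * ℓ) ≤ mass R (s * ℓ) ((1 + η / 8) * (s * ℓ)) := by
  classical
  have hℓ := hb.pos
  set κ : ℝ := η / 8 with hκ
  set U : ℝ := Real.exp (s * ℓ) with hU
  set V : ℝ := Real.exp ((1 + κ) * (s * ℓ)) with hV
  have hs0 : 0 < s := by linarith
  have hU1 : 1 ≤ U := by
    rw [hU]
    exact Real.one_le_exp (by positivity)
  have hV3 : V ≤ Real.exp ((2 - η ^ 2 / 32) * ℓ) := by
    rw [hV]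
    apply Real.exp_le_exp.2
    have h1 : (1 + κ) * s ≤ (1 + κ) * (2 - η / 4) := mul_le_mul_of_nonneg_left hs2 (by positivity)
    have h2 : (1 + κ) * (2 - η / 4) = 2 - η ^ 2 / 32 := by rw [hκ]; ring
    rw [h2] at h1
    nlinarith
  have hV2 : V ≤ Real.exp (2 * ℓ) := by
    refine hV3.trans (Real.exp_le_exp.2 ?_)
    have : 0 ≤ η ^ 2 / 32 * ℓ := by positivity
    linarith
  -- facts on the members of the window
  have hw : ∀ q ∈ win R ℓ ((1 + κ) * ℓ), q.Prime ∧ q ∈ G ∧ q ∈ R ∧ ℓ < Real.log q ∧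
      Real.log q ≤ (1 + κ) * ℓ ∧ (0:ℝ) < q ∧ Real.exp ℓ < q := by
    intro q hq
    obtain ⟨h1, h2, h3, h4⟩ := mem_win.1 hq
    have h5 := hR.1 h2
    have h6 : (0:ℝ) < q := by exact_mod_cast h1
    exact ⟨(hG q h5).1, h5, h2, h3, h4, h6, (Real.lt_log_iff_exp_lt h6).1 h3⟩
  have hchild : ∀ q ∈ win R ℓ ((1 + κ) * ℓ), c * η / 48 * (1 / q) ≤
      ∑ k ∈ ch G U V q, (1:ℝ) / ((2 * k * q + 1 : ℕ) : ℝ) := by
    intro q hq
    obtain ⟨hqp, hqG, _, h3, h4, h5, _⟩ := hw q hq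
    have h6 := child_sum (κ := κ) hG hc hc1 hη1 (by positivity) hqG (U := U) (V := V) ?_ ?_ ?_ ?_ ?_
    · refine le_trans (le_of_eq ?_) h6
      rw [hκ]; ring
    · -- 8 q^(2-η) ≤ U
      have h7 : (q:ℝ) ^ (2 - η) = Real.exp (Real.log q * (2 - η)) := Real.rpow_def_of_pos h5 _
      have h8 : Real.exp (Real.log q * (2 - η)) ≤ Real.exp ((1 + κ) * ℓ * (2 - η)) :=
        Real.exp_le_exp.2 (mul_le_mul_of_nonneg_right h4 (by linarith))
      calc 8 * (q:ℝ) ^ (2 - η) ≤ Real.exp (η * ℓ / 4) * Real.exp ((1 + κ) * ℓ * (2 - η)) := by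
            rw [h7]
            exact mul_le_mul hb.eight h8 (Real.exp_pos _).le (Real.exp_pos _).le
        _ = Real.exp (η * ℓ / 4 + (1 + κ) * ℓ * (2 - η)) := (Real.exp_add _ _).symm
        _ ≤ U := by
            rw [hU]
            apply Real.exp_le_exp.2
            have h9 : η / 4 + (1 + κ) * (2 - η) ≤ s := by rw [hκ]; nlinarith
            nlinarith
    · rw [hU, hV]
      apply Real.exp_le_exp.2
      have : 0 ≤ s * ℓ := by positivity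
      nlinarith
    · refine hV2.trans ?_
      have h7 : (q:ℝ) ^ 2 = Real.exp (2 * Real.log q) := by
        rw [mul_comm, Real.exp_mul, Real.exp_log h5]
        norm_cast
      rw [h7]
      exact Real.exp_le_exp.2 (by linarith)
    · rw [hU, hV, ← Real.exp_sub, Real.log_exp]
      have h7 : (1 + κ) * ℓ ≤ s * ℓ := mul_le_mul_of_nonneg_right (by rw [hκ]; linarith) hℓ.le
      have h8 : Real.log q ≤ s * ℓ := h4.trans h7
      have h9 : κ * Real.log q ≤ κ * (s * ℓ) := mul_le_mul_of_nonneg_left h8 (by positivity)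
      linarith
    · have := hb.logs (Real.log q) h3.le
      rw [hκ]
      linarith
  -- the sum over the parents
  have hsum : c * η / 48 * mass R ℓ ((1 + κ) * ℓ) ≤
      ∑ q ∈ win R ℓ ((1 + κ) * ℓ), ∑ k ∈ ch G U V q, (1:ℝ) / ((2 * k * q + 1 : ℕ) : ℝ) := by
    unfold mass
    rw [mul_sum]
    exact sum_le_sum hchild
  refine hsum.trans ?_
  rw [sum_sigma' (win R ℓ ((1 + κ) * ℓ)) (fun q => ch G U V q)
    (fun q k => (1:ℝ) / ((2 * k * q + 1 : ℕ) : ℝ))]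
  have hinj : Set.InjOn (fun x : (_ : ℕ) × ℕ => 2 * x.2 * x.1 + 1)
      ((win R ℓ ((1 + κ) * ℓ)).sigma fun q => ch G U V q : Finset ((_ : ℕ) × ℕ)) := by
    rintro ⟨q, k⟩ hx ⟨q', k'⟩ hx' heq
    simp only [coe_sigma, Set.mem_sigma_iff, mem_coe] at hx hx'
    obtain ⟨hqp, _, _, _, _, hq0, hqe⟩ := hw q hx.1
    obtain ⟨hqp', _, _, _, _, hq0', hqe'⟩ := hw q' hx'.1
    obtain ⟨h1, h2, h3, h4, h5⟩ := ch_spec hqp.pos hU1 hx.2
    simp only at heq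
    have hbig : 2 * k * q + 1 < q * q' := by
      have h6 : Real.exp (2 * ℓ) = Real.exp ℓ * Real.exp ℓ := by
        rw [← Real.exp_add]; congr 1; ring
      have h7 : ((2 * k * q + 1 : ℕ) : ℝ) < (q:ℝ) * q' := by
        calc ((2 * k * q + 1 : ℕ) : ℝ) ≤ V := h5
          _ ≤ Real.exp ℓ * Real.exp ℓ := by rw [← h6]; exact hV2
          _ < (q:ℝ) * q' := mul_lt_mul'' hqe hqe' (Real.exp_pos _).le (Real.exp_pos _).le
      exact_mod_cast h7
    obtain ⟨h6, h7⟩ := inj_children hqp hqp' h1 heq hbig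
    subst h6; subst h7; rfl
  have himg : ∑ x ∈ (win R ℓ ((1 + κ) * ℓ)).sigma (fun q => ch G U V q),
      (1:ℝ) / ((2 * x.2 * x.1 + 1 : ℕ) : ℝ) =
      ∑ N ∈ ((win R ℓ ((1 + κ) * ℓ)).sigma fun q => ch G U V q).image
        (fun x : (_ : ℕ) × ℕ => 2 * x.2 * x.1 + 1), (1:ℝ) / (N : ℝ) := by
    rw [sum_image hinj]
  rw [himg]
  unfold mass
  apply sum_le_sum_of_subset_of_nonneg
  · intro N hN
    rw [mem_image] at hN
    obtain ⟨⟨q, k⟩, hx, rfl⟩ := hN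
    rw [mem_sigma] at hx
    obtain ⟨hqp, hqG, hqR, _, _, hq0, hqe⟩ := hw q hx.1
    obtain ⟨h1, h2, h3, h4, h5⟩ := ch_spec hqp.pos hU1 hx.2
    simp only
    have hN0 : (0:ℝ) < ((2 * k * q + 1 : ℕ) : ℝ) := by positivity
    refine mem_win.2 ⟨by omega, ?_, ?_, ?_⟩
    · exact hR.2 q hqR k h1 (k_small (by nlinarith) hqe (h5.trans hV3)) h2 h3
    · rw [Real.lt_log_iff_exp_lt hN0]
      exact h4
    · rw [Real.log_le_iff_le_exp hN0]
      exact h5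
  · intro N _ _
    positivity

end Pool.Agent.SVP.Tree
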