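import Pool.Agent.SVP.Tree3

/-!
The number of elements of a closed set up to `x`, from the mass in the window at `√x`; iteration of the
step; how to reach every window.
-/

set_option autoImplicit false

namespace Pool.Agent.SVP.Tree

open Finset

lemma Big.mono {c η ℓ ℓ' : ℝ} (h : Big c η ℓ) (hη : 0 < η) (hle : ℓ ≤ ℓ') : Big c η ℓ' := by
  refine ⟨h.pos.trans_le hle, h.eight.trans (Real.exp_le_exp.2 ?_), fun z hz => h.logs z (hle.trans hz)⟩
  nlinarith

lemma exists_big (c η : ℝ) (hc : 0 < c) (hη : 0 < η) : ∃ ℓ, Big c η ℓ := by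
  -- `log (2 z / c) + 1 ≤ η / 16 z` from `log (2z/c) ≤ log (2/c) + log z`, `log z = o(z)`
  have h1 : ∀ᶠ z : ℝ in Filter.atTop, ‖Real.log z‖ ≤ η / 32 * ‖id z‖ :=
    Real.isLittleO_log_id_atTop.bound (by positivity)
  have h2 : ∀ᶠ z : ℝ in Filter.atTop, (32 / η) * (|Real.log (2 / c)| + 1) ≤ z :=
    Filter.eventually_ge_atTop _
  have h3 : ∀ᶠ z : ℝ in Filter.atTop, (1:ℝ) ≤ z := Filter.eventually_ge_atTop _
  obtain ⟨ℓ1, hℓ1⟩ := Filter.eventually_atTop.1 (h1.and (h2.and h3))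
  set ℓ : ℝ := max ℓ1 (max 1 (4 * Real.log 8 / η)) with hℓ
  have hle1 : ℓ1 ≤ ℓ := le_max_left _ _
  have hle2 : 1 ≤ ℓ := (le_max_left _ _).trans (le_max_right _ _)
  have hle3 : 4 * Real.log 8 / η ≤ ℓ := (le_max_right _ _).trans (le_max_right _ _)
  refine ⟨ℓ, by linarith, ?_, fun z hz => ?_⟩
  · rw [div_le_iff₀ hη] at hle3
    have h4 : Real.log 8 ≤ η * ℓ / 4 := by linarith
    calc (8:ℝ) = Real.exp (Real.log 8) := (Real.exp_log (by norm_num)).symm
      _ ≤ _ := Real.exp_le_exp.2 h4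
  · obtain ⟨h4, h5, h6⟩ := hℓ1 z (hle1.trans hz)
    have hz0 : 0 < z := by linarith
    have h7 : Real.log (2 * z / c) = Real.log (2 / c) + Real.log z := by
      rw [← Real.log_mul (by positivity) (by positivity)]
      congr 1; ring
    rw [h7]
    simp only [id, Real.norm_eq_abs] at h4
    rw [abs_of_pos hz0] at h4
    have h8 := le_abs_self (Real.log z)
    have h9 := le_abs_self (Real.log (2 / c))
    have h10 : |Real.log (2 / c)| + 1 ≤ η / 32 * z := by
      rw [div_mul_eq_mul_div, div_le_iff₀ hη] at h5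
      linarith
    linarith

lemma mass_iter {G R : Set ℕ} {c η : ℝ} (hG : Closed G c η) (hR : Down G (η ^ 2 / 32) R) (hc : 0 < c)
    (hc1 : c ≤ 1) (hη0 : 0 < η) (hη1 : η ≤ 1) {ℓ s : ℝ} (hb : Big c η ℓ) (hs1 : 2 - η / 2 ≤ s)
    (hs2 : s ≤ 2 - η / 4) (j : ℕ) :
    (c * η / 48) ^ j * mass R ℓ ((1 + η / 8) * ℓ) ≤
      mass R (s ^ j * ℓ) ((1 + η / 8) * (s ^ j * ℓ)) := by
  induction j with
  | zero => simp
  | succ j ih =>
    have h1 : 1 ≤ s := by linarith
    have h2 : ℓ ≤ s ^ j * ℓ := by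
      have := one_le_pow₀ h1 (n := j)
      have h3 := hb.pos
      nlinarith
    have h3 := mass_step hG hR hc hc1 hη0 hη1 (hb.mono hη0 h2) hs1 hs2
    have h4 : s ^ (j + 1) * ℓ = s * (s ^ j * ℓ) := by ring
    rw [h4]
    refine le_trans ?_ h3
    rw [pow_succ]
    have h5 : (c * η / 48) ^ j * (c * η / 48) * mass R ℓ ((1 + η / 8) * ℓ) =
        c * η / 48 * ((c * η / 48) ^ j * mass R ℓ ((1 + η / 8) * ℓ)) := by ring
    rw [h5]
    exact mul_le_mul_of_nonneg_left ih (by positivity)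

/-- Every large number is `s ^ j` with `s` in the given interval. -/
lemma exists_pow (t1 t2 : ℝ) (h1 : 1 < t1) (h12 : t1 < t2) : ∃ E : ℝ, 1 ≤ E ∧ ∀ e : ℝ, E ≤ e →
    ∃ (j : ℕ) (s : ℝ), t1 ≤ s ∧ s ≤ t2 ∧ s ^ j = e ∧ t1 ^ j ≤ e := by
  have hr : 1 < t2 / t1 := by rw [one_lt_div (by linarith)]; exact h12
  obtain ⟨j0, hj0⟩ := pow_unbounded_of_one_lt t1 hr
  refine ⟨t1 ^ (j0 + 1), one_le_pow₀ h1.le, fun e he => ?_⟩
  have he1 : 1 ≤ e := (one_le_pow₀ h1.le).trans he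
  obtain ⟨j, hj1, hj2⟩ := exists_nat_pow_near he1 h1
  have hjj : j0 + 1 ≤ j := by
    by_contra hcon
    push Not at hcon
    have : t1 ^ (j + 1) ≤ t1 ^ (j0 + 1) := pow_le_pow_right₀ h1.le (by omega)
    linarith
  have hj0' : j ≠ 0 := by omega
  have he0 : 0 ≤ e := by linarith
  set s : ℝ := e ^ ((j : ℝ)⁻¹) with hs
  have hsj : s ^ j = e := Real.rpow_inv_natCast_pow he0 hj0'
  have hs0 : 0 ≤ s := Real.rpow_nonneg he0 _
  refine ⟨j, s, ?_, ?_, hsj, hj1⟩
  · have : t1 ^ j ≤ s ^ j := by rw [hsj]; exact hj1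
    exact le_of_pow_le_pow_left₀ hj0' hs0 this
  · have h5 : e ≤ t2 ^ j := by
      have h6 : t1 ≤ (t2 / t1) ^ j := hj0.le.trans (pow_le_pow_right₀ hr.le (by omega))
      rw [div_pow, le_div_iff₀ (by positivity)] at h6
      rw [pow_succ] at hj2
      linarith
    have : s ^ j ≤ t2 ^ j := by rw [hsj]; exact h5
    exact le_of_pow_le_pow_left₀ hj0' (by linarith) this

/-- The mass of every window beyond a power of `p`. -/
lemma mass_ge {G : Set ℕ} {c η : ℝ} (hG : Closed G c η) (hc : 0 < c)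
    (hc1 : c ≤ 1) (hη0 : 0 < η) (hη1 : η ≤ 1) : ∃ (E A : ℝ), 1 ≤ E ∧ 0 < A ∧
    ∀ (R : Set ℕ), Down G (η ^ 2 / 32) R → ∀ (ℓ0 : ℝ), Big c η ℓ0 → ∀ p ∈ R, 2 * ℓ0 ≤ Real.log p → 2 ≤ Real.log p → ∀ ℓ : ℝ,
      E * Real.log p ≤ ℓ → (1 / (p:ℝ)) * ℓ ^ (-A) ≤ mass R ℓ ((1 + η / 8) * ℓ) := by
  obtain ⟨E, hE1, hE⟩ := exists_pow (2 - η / 2) (2 - η / 4) (by linarith) (by linarith)
  have hlt : 0 < Real.log (2 - η / 2) := Real.log_pos (by linarith)
  have hcη : c * η ≤ 1 := by nlinarith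
  have hcη0 : 0 < c * η := by positivity
  have hlog : 0 < Real.log (48 / (c * η)) := by
    apply Real.log_pos
    rw [one_lt_div hcη0]
    linarith
  refine ⟨E, Real.log (48 / (c * η)) / Real.log (2 - η / 2), hE1, by positivity, ?_⟩
  intro R hR ℓ0 hb p hp hp1 hp2 ℓ hℓ
  set A : ℝ := Real.log (48 / (c * η)) / Real.log (2 - η / 2) with hA
  have hA0 : 0 < A := by positivity
  set L : ℝ := Real.log p with hL
  set θ : ℝ := 1 / (1 + η / 16) with hθ
  have hθ0 : 0 < θ := by positivity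
  have hθ1 : θ < 1 := by
    rw [hθ, div_lt_one (by positivity)]
    linarith
  have hθ2 : 1 / 2 ≤ θ := by
    rw [hθ]
    apply one_div_le_one_div_of_le (by positivity)
    linarith
  have hL0 : 0 < L := by linarith
  have hθL : ℓ0 ≤ θ * L := by nlinarith
  have hθL1 : 1 ≤ θ * L := by nlinarith
  have hp0 : (0:ℝ) < p := by
    by_contra hcon
    push Not at hcon
    have : (p:ℝ) = 0 := le_antisymm hcon (Nat.cast_nonneg p)
    rw [hL, this, Real.log_zero] at hL0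
    exact lt_irrefl _ hL0
  have hℓL : L ≤ ℓ := le_trans (by nlinarith) hℓ
  have hℓ0 : 0 < ℓ := by linarith
  -- the exponent
  obtain ⟨j, s, hs1, hs2, hsj, hj⟩ := hE (ℓ / (θ * L)) (by
    rw [le_div_iff₀ (by positivity)]
    have : E * (θ * L) ≤ E * L := mul_le_mul_of_nonneg_left (by nlinarith) (by linarith)
    linarith)
  have h1 := mass_iter hG hR hc hc1 hη0 hη1 (hb.mono hη0 hθL) hs1 hs2 j
  have h2 : s ^ j * (θ * L) = ℓ := by rw [hsj]; field_simp
  rw [h2] at h1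
  refine le_trans ?_ h1
  -- the starting window contains `p`
  have h3 : 1 / (p:ℝ) ≤ mass R (θ * L) ((1 + η / 8) * (θ * L)) := by
    unfold mass
    refine single_le_sum (f := fun N : ℕ => (1:ℝ) / N) (fun N _ => by positivity) ?_
    refine mem_win.2 ⟨by exact_mod_cast hp0, hp, ?_, ?_⟩
    · rw [← hL]; nlinarith
    · have h4 : 1 ≤ (1 + η / 8) * θ := by
        rw [hθ, mul_one_div, le_div_iff₀ (by positivity)]
        linarith
      rw [← hL]; nlinarith
  -- the factor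
  have h5 : ℓ ^ (-A) ≤ (c * η / 48) ^ j := by
    have h6 : (j:ℝ) * Real.log (2 - η / 2) ≤ Real.log ℓ := by
      rw [← Real.log_pow]
      apply Real.log_le_log (by apply pow_pos; linarith)
      refine hj.trans ?_
      rw [div_le_iff₀ (by positivity)]
      nlinarith
    have h7 : (j:ℝ) ≤ Real.log ℓ / Real.log (2 - η / 2) := by
      rw [le_div_iff₀ hlt]; exact h6
    have h8 : (c * η / 48 : ℝ) ^ j = Real.exp (-((j:ℝ) * Real.log (48 / (c * η)))) := by
      have h9 : (c * η / 48 : ℝ) = Real.exp (-Real.log (48 / (c * η))) := by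
        rw [Real.exp_neg, Real.exp_log (by positivity)]
        field_simp
      rw [h9, ← Real.exp_nat_mul]
      congr 1
      ring
    rw [h8, Real.rpow_def_of_pos hℓ0]
    apply Real.exp_le_exp.2
    have h10 : (j:ℝ) * Real.log (48 / (c * η)) ≤
        Real.log ℓ / Real.log (2 - η / 2) * Real.log (48 / (c * η)) :=
      mul_le_mul_of_nonneg_right h7 hlog.le
    have h11 : Real.log ℓ / Real.log (2 - η / 2) * Real.log (48 / (c * η)) = Real.log ℓ * A := by
      rw [hA]; ring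
    rw [h11] at h10
    linarith
  calc 1 / (p:ℝ) * ℓ ^ (-A) ≤ mass R (θ * L) ((1 + η / 8) * (θ * L)) * (c * η / 48) ^ j :=
        mul_le_mul h3 h5 (Real.rpow_nonneg hℓ0.le _)
          (le_trans (by positivity) h3)
    _ = _ := by ring

end Pool.Agent.SVP.Tree
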